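import Mathlib

/-!
# Arithmetic for the hubs of the first type
-/

set_option autoImplicit false

namespace Pool.Agent.Exact

/-- the loss for many hubs -/
lemma arith_loss {k n a : ℤ} {θ μ : ℝ} (k3 : 3 ≤ k)
    (hlam : (n : ℝ) + 1 ≤ 2 * θ) (hμ : θ - 2 < μ) (hs : μ ≤ (n : ℝ) - a)
    (c6 : (k : ℝ) * ((n : ℝ) - a) + a * μ ≤ (2 * k - 1) * θ) (ha : k + 1 ≤ a) :
    ((a : ℝ) - k) * ((n : ℝ) - a - μ) ≤ 2 := by
  obtain ⟨c, hc⟩ : ∃ c : ℤ, a = k + c := ⟨a - k, by ring⟩
  subst hc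
  have hc1 : 1 ≤ c := by linarith
  push_cast at *
  obtain ⟨s, hs'⟩ : ∃ s : ℝ, s = (n : ℝ) - (k + c) - μ := ⟨_, rfl⟩
  have hs0 : 0 ≤ s := by linarith
  have k3r : (3 : ℝ) ≤ k := by exact_mod_cast k3
  have e1 : μ = (n : ℝ) - (k + c) - s := by linarith
  have key : s * (k + c + 1) < 4 * k - 2 - (c + 1) * (k + c - 3) := by
    rw [e1] at c6 hμ
    have hc1r : (1 : ℝ) ≤ c := by exact_mod_cast hc1
    have a1 : (2 * (k : ℝ) - 1) * θ < (2 * k - 1) * (n - (k + c) - s + 2) :=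
      mul_lt_mul_of_pos_left (by linarith) (by linarith)
    have a2 : (k : ℝ) + c + 2 * s - 3 < n - (k + c) := by linarith
    have a3 := mul_lt_mul_of_pos_left a2 (by linarith : (0 : ℝ) < c + 1)
    linarith only [c6, a1, a3]
  rw [← hs', show (k : ℝ) + c - k = c by ring]
  rcases lt_trichotomy c 2 with h | h | h
  · have h1 : c = 1 := by omega
    subst h1
    push_cast at key ⊢
    by_contra hc
    have hp := mul_pos (show (0 : ℝ) < k + 2 by linarith only [k3r])
      (show (0 : ℝ) < s - 2 by linarith only [hc])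
    linarith only [hp, key]
  · subst h
    push_cast at key ⊢
    by_contra hc
    have hp := mul_pos (show (0 : ℝ) < k + 3 by linarith only [k3r])
      (show (0 : ℝ) < s - 1 by linarith only [hc])
    linarith only [hp, key]
  · exfalso
    have h3 : (3 : ℝ) ≤ c := by exact_mod_cast h
    have p1 := mul_nonneg (show (0 : ℝ) ≤ c - 3 by linarith only [h3])
      (show (0 : ℝ) ≤ k + c - 3 by linarith only [h3, k3r])
    have p2 := mul_nonneg hs0 (show (0 : ℝ) ≤ k + c + 1 by linarith only [h3, k3r])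
    linarith only [p1, p2, key, h3]

theorem arith_L1 {k n a ρ σ hl g nb : ℤ} {θ μ Sg q0 p0 A : ℝ} (k3 : 3 ≤ k)
    (hn : 2 * k - 1 ≤ n) (ha1 : 1 ≤ a) (haodd : a % 2 = 1)
    (hkn : (k : ℝ) * n ≤ (2 * k - 1) * θ) (hμ : θ - 2 < μ) (hS1 : a * μ ≤ Sg)
    (hq0 : q0 ≤ n - 1) (hp0 : p0 ≤ n - 1 - k) (hA : A + μ ≤ q0) (hA0 : 0 ≤ A)
    (c0 : 0 ≤ ρ) (c1 : 0 ≤ hl) (c2 : hl ≤ σ) (c3 : 2 * k * hl + σ ≤ n - a)
    (c4 : ρ + σ = n - a) (c5 : Sg ≤ a * ((n : ℝ) - a) - k * (σ - hl))
    (c6 : (k : ℝ) * (n - a) + Sg ≤ (2 * k - 1) * θ) (c7 : ρ ≤ 2 * g)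
    (c8 : 0 < ρ → 1 ≤ nb ∧ ρ ≤ g + nb ∧ (θ + g < μ ∨ 3 * θ - n + nb + 2 * g < A + μ ∨
      (nb = 1 ∧ 2 * θ + 2 * g < A + μ + p0))) : False := by
  have k3r : (3 : ℝ) ≤ k := by exact_mod_cast k3
  have hnr : 2 * (k : ℝ) - 1 ≤ n := by exact_mod_cast hn
  have ha1r : (1 : ℝ) ≤ a := by exact_mod_cast ha1
  have c1r : (0 : ℝ) ≤ hl := by exact_mod_cast c1
  have c2r : (hl : ℝ) ≤ σ := by exact_mod_cast c2
  have c3r : 2 * (k : ℝ) * hl + σ ≤ n - a := by exact_mod_cast c3
  have c4r : (ρ : ℝ) + σ = n - a := by exact_mod_cast c4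
  have c7r : (ρ : ℝ) ≤ 2 * g := by exact_mod_cast c7
  have hlam : (n : ℝ) + 1 ≤ 2 * θ := by
    by_contra hc
    have hp := mul_pos (show (0 : ℝ) < 2 * k - 1 by linarith only [k3r])
      (show (0 : ℝ) < n + 1 - 2 * θ by linarith only [hc])
    linarith only [hp, hkn, hnr]
  have hθ3 : 3 ≤ θ := by linarith only [hlam, hnr, k3r]
  have hμ0 : μ ≤ (n : ℝ) - a := by
    have h1 : 0 ≤ (k : ℝ) * (σ - hl) :=
      mul_nonneg (by linarith only [k3r]) (by linarith only [c2r])
    by_contra hc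
    have hp := mul_pos (show (0 : ℝ) < a by linarith only [ha1r])
      (show (0 : ℝ) < μ - (n - a) by linarith only [hc])
    linarith only [hp, h1, hS1, c5]
  have c6' : (k : ℝ) * ((n : ℝ) - a) + a * μ ≤ (2 * k - 1) * θ := by linarith only [c6, hS1]
  -- lower bound for `ρ`
  obtain ⟨δ, hδ0, hδ2, hδ, hR⟩ : ∃ δ : ℝ, 0 ≤ δ ∧ δ ≤ 2 ∧ (δ = 0 ∨ k + 1 ≤ a) ∧
      (k : ℝ) * μ - k * hl - δ ≤ k * ρ := by
    rcases le_or_gt a k with h1 | h1
    · refine ⟨0, le_rfl, by norm_num, Or.inl rfl, ?_⟩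
      have h1r : (a : ℝ) ≤ k := by exact_mod_cast h1
      have h2 : (k : ℝ) * ρ = k * (n - a) - k * σ := by rw [← c4r]; ring
      have hp := mul_nonneg (show (0 : ℝ) ≤ k - a by linarith only [h1r])
        (show (0 : ℝ) ≤ n - a - μ by linarith only [hμ0])
      linarith only [hp, h2, hS1, c5]
    · have h2 := arith_loss k3 hlam hμ hμ0 c6' h1
      have h1r : (k : ℝ) + 1 ≤ a := by exact_mod_cast h1
      refine ⟨2, by norm_num, le_rfl, Or.inr h1, ?_⟩
      have h3 : (k : ℝ) * ρ = k * (n - a) - k * σ := by rw [← c4r]; ring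
      linarith only [h2, h3, hS1, c5]
  have hρ : 0 < ρ := by
    by_contra hc
    have h0 : ρ = 0 := by omega
    rw [h0] at c4 hR
    have h1 : hl = 0 := by
      have h2 : 2 * k * hl ≤ 0 := by omega
      by_contra hne
      have h3 : 0 < hl := lt_of_le_of_ne c1 (Ne.symm hne)
      have h4 : 0 < 2 * k * hl := mul_pos (by linarith only [k3]) h3
      exact absurd h2 (not_le.2 h4)
    rw [h1] at hR
    push_cast at hR
    have hp := mul_pos (show (0 : ℝ) < k by linarith only [k3r])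
      (show (0 : ℝ) < μ - 1 by linarith only [hμ, hθ3])
    linarith only [hp, hR, hδ2, k3r]
  obtain ⟨hnb, hρg, hcase⟩ := c8 hρ
  have hnbr : (1 : ℝ) ≤ nb := by exact_mod_cast hnb
  have hρgr : (ρ : ℝ) ≤ g + nb := by exact_mod_cast hρg
  have hnl : (2 * (k : ℝ) + 1) * hl + a ≤ n := by linarith only [c2r, c3r]
  have hk0 : (0 : ℝ) < k := by linarith only [k3r]
  rcases hcase with h1 | h1 | ⟨h0, h1⟩
  · -- item
    have h2 : (k : ℝ) * ρ ≤ k * (2 * μ - 2 * θ) :=
      mul_le_mul_of_nonneg_left (by linarith only [c7r, h1]) hk0.le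
    have h3 : 2 * (k : ℝ) * θ ≤ k * (n - 1) + k * hl + δ := by
      have hp := mul_nonneg hk0.le (show (0 : ℝ) ≤ n - 1 - μ by linarith only [hA, hA0, hq0])
      linarith only [hp, h2, hR]
    have h4 : (hl : ℝ) + 1 ≤ 2 * θ - n + 1 := by
      by_contra hc
      have hp := mul_pos (show (0 : ℝ) < 2 * k - 1 by linarith only [k3r])
        (show (0 : ℝ) < n + hl - 2 * θ by linarith only [hc])
      linarith only [hp, hkn, hnl, c1r, ha1r]
    have hp := mul_nonneg hk0.le (show (0 : ℝ) ≤ 2 * θ - n - hl by linarith only [h4])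
    linarith only [hp, h3, hδ2, k3r]
  · -- total
    have h2 : 1.5 * (ρ : ℝ) < 2 * n - 1 - 3 * θ := by
      linarith only [h1, hA, hA0, hq0, c7r, hρgr]
    have h3 : 4.5 * (k : ℝ) * θ < 2 * k * n + 2 * k + 1.5 * k * hl + 1.5 * δ := by
      have p1 := mul_pos hk0 (show (0 : ℝ) < 2 * n - 1 - 3 * θ - 1.5 * ρ by linarith only [h2])
      have p2 := mul_pos hk0 (show (0 : ℝ) < μ - θ + 2 by linarith only [hμ])
      linarith only [p1, p2, hR]
    have h6 : n * (0.5 * (k : ℝ) + 2) * k < (2 * k - 1) * (2 * k + 1.5 * k * hl + 3) := by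
      have p0 : (0 : ℝ) < 2 * k - 1 := by linarith only [k3r]
      have p1 := mul_pos p0 (show (0 : ℝ) <
        2 * k * n + 2 * k + 1.5 * k * hl + 1.5 * δ - 4.5 * k * θ by linarith only [h3])
      have p2 := mul_nonneg hk0.le (show (0 : ℝ) ≤ (2 * k - 1) * θ - k * n by linarith only [hkn])
      have p3 := mul_nonneg p0.le (show (0 : ℝ) ≤ 2 - δ by linarith only [hδ2])
      linarith only [p1, p2, p3]
    rcases eq_or_lt_of_le c1 with h4 | h4
    · rw [← h4] at h6
      push_cast at h6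
      have p0 : (0 : ℝ) < 2 * k - 1 := by linarith only [k3r]
      have p4 := mul_nonneg (show (0 : ℝ) ≤ n - (2 * k - 1) by linarith only [hnr])
        (mul_nonneg (show (0 : ℝ) ≤ 0.5 * k + 2 by linarith only [k3r]) hk0.le)
      have p5 := mul_nonneg p0.le (mul_nonneg (show (0 : ℝ) ≤ k - 3 by linarith only [k3r])
        (show (0 : ℝ) ≤ k + 3 by linarith only [k3r]))
      linarith only [h6, p4, p5, p0]
    · have h5 : (1 : ℝ) ≤ hl := by exact_mod_cast h4
      have h7 : ((2 * (k : ℝ) + 1) * hl + 1) * ((0.5 * (k : ℝ) + 2) * k) ≤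
          n * ((0.5 * (k : ℝ) + 2) * k) := by
        refine mul_le_mul_of_nonneg_right (by linarith only [hnl, ha1r]) ?_
        positivity
      have h8 : ((k : ℝ) ^ 3 + 1.5 * k ^ 2 + 3.5 * k) * 1 ≤
          ((k : ℝ) ^ 3 + 1.5 * k ^ 2 + 3.5 * k) * hl := by
        refine mul_le_mul_of_nonneg_left h5 ?_
        positivity
      linarith only [h6, h7, h8, mul_nonneg hk0.le (sq_nonneg ((k : ℝ) - 1)), hk0]
  · -- one block
    rw [h0] at hρgr
    push_cast at hρgr
    have h2 : 2 * (ρ : ℝ) < 2 * n - k - 2 * θ := by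
      linarith only [h1, hA, hA0, hq0, hp0, hρgr, c7r]
    have h3 : 4 * (k : ℝ) * θ + k ^ 2 < 2 * k * n + 4 * k + 2 * k * hl + 2 * δ := by
      have p1 := mul_pos hk0 (show (0 : ℝ) < 2 * n - k - 2 * θ - 2 * ρ by linarith only [h2])
      have p2 := mul_pos hk0 (show (0 : ℝ) < μ - θ + 2 by linarith only [hμ])
      linarith only [p1, p2, hR]
    have q0' : (0 : ℝ) < 2 * k - 1 := by linarith only [k3r]
    have h4 : 2 * (k : ℝ) * n < (2 * k - 1) * (4 * k - k ^ 2 + 2 * k * hl + 2 * δ) := by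
      have p1 := mul_pos q0' (show (0 : ℝ) <
        2 * k * n + 4 * k + 2 * k * hl + 2 * δ - 4 * k * θ - k ^ 2 by linarith only [h3])
      have p2 := mul_nonneg hk0.le (show (0 : ℝ) ≤ (2 * k - 1) * θ - k * n by linarith only [hkn])
      linarith only [p1, p2]
    rcases hδ with h5 | h5
    · rw [h5] at h4
      have h6 : 2 * (n : ℝ) < (2 * k - 1) * (4 - k + 2 * hl) := by
        by_contra hc
        have := mul_le_mul_of_nonneg_left (not_lt.1 hc) hk0.le
        linarith only [this, h4]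
      have h7 : 2 * n < (2 * k - 1) * (4 - k + 2 * hl) := by exact_mod_cast h6
      rcases lt_or_ge k 4 with h8 | h8
      · have h9 : k = 3 := by omega
        subst h9
        omega
      · have hp := mul_nonneg (show (0 : ℤ) ≤ 2 * k - 1 by linarith only [k3])
          (show (0 : ℤ) ≤ k - 4 by linarith only [h8])
        linarith only [hp, h7, c1, c2, c3, ha1]
    · have h6 : 2 * (k : ℝ) * n < (2 * k - 1) * (4 * k - k ^ 2 + 2 * k * hl + 4) := by
        have p3 := mul_nonneg q0'.le (show (0 : ℝ) ≤ 2 - δ by linarith only [hδ2])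
        linarith only [p3, h4]
      have h7 : 2 * k * n < (2 * k - 1) * (4 * k - k ^ 2 + 2 * k * hl + 4) := by exact_mod_cast h6
      have h8 : μ ≤ (n : ℝ) - a := hμ0
      have h9 : a + 1 ≤ n := by
        have : (a : ℝ) < n := by linarith only [hμ0, hμ, hθ3]
        exact_mod_cast this
      rcases lt_or_ge k 4 with h10 | h10
      · have h11 : k = 3 := by omega
        subst h11
        omega
      · have hk0' : (0 : ℤ) ≤ k := by linarith only [k3]
        have p1 := mul_nonneg hk0' c1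
        have p2 := mul_nonneg (sq_nonneg k) (show (0 : ℤ) ≤ k - 4 by linarith only [h10])
        have p3 := mul_nonneg hk0' (show (0 : ℤ) ≤ k - 4 by linarith only [h10])
        have p4 := mul_nonneg hk0' (show (0 : ℤ) ≤ n - (2 * k + 1) * hl - a by
          linarith only [c2, c3])
        have p5 := mul_nonneg hk0' (show (0 : ℤ) ≤ a - k - 1 by linarith only [h5])
        linarith only [p1, p2, p3, p4, p5, h7, h10]

end Pool.Agent.Exact
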