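import Pool.Agent.Lib_helper23.Exact.Ratio

/-!
# Inequalities for the leaf L1, minimum indegree at least `k`
-/

set_option autoImplicit false

namespace Pool.Agent.Exact

/-- one hub -/
theorem aI_one {k σ ρ g θ lam y : ℝ} (k3 : 3 ≤ k) (hs : 2 * ((k - 1) * σ) ≤ ρ) (hρ : ρ ≤ 2 * g)
    (hn : 1 + ρ + σ = 2 * θ - lam + 1) (kn : θ ≤ k * (lam - 1)) (hy : y ≤ θ - lam - k)
    (hu : g < y) : False := by
  have h1 : lam + 2 * k < σ := by linarith only [hρ, hn, hy, hu]
  have h2 : (k - 1) * (lam + 2 * k) ≤ (k - 1) * σ := mul_le_mul_of_nonneg_left h1.le (by linarith only [k3])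
  have h3 : 0 ≤ k * k := mul_self_nonneg k
  linarith only [hs, hn, kn, h1, h2, h3]

/-- few hubs -/
theorem aI_small {a n ρ σ g θ lam y u SQ bS G : ℝ} (ha : 3 ≤ a) (hn : n = a + ρ + σ)
    (hlam : n = 2 * θ - lam + 1) (hρ : ρ ≤ 2 * g) (hu : g < u) (hg : g ≤ θ)
    (hl : 2 ≤ lam) (hSQ : a * (θ + u) ≤ SQ) (hbS : SQ - a * ρ ≤ bS)
    (hG : bS - (σ + n - 1 - (θ + y)) ≤ G) : y - g ≤ G := by
  have h1 : 0 ≤ (a - 3) * (θ + u + 1 - ρ) := mul_nonneg (by linarith only [ha]) (by linarith only [hρ, hu, hg])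
  linarith only [hn, hlam, hρ, hu, hl, hSQ, hbS, hG, h1]

theorem aI_M1 {c P l : ℝ} (hc0 : 0 ≤ c) (hc : c ≤ 5 * (l - 2)) (hP : 0 ≤ P) (hl : 2 ≤ l) :
    2 * P * c ^ 2 ≤ l * (3 / 2 * c + 3 / 2 * l + 1 + 2 * P) * (3 * P + 2 * l) := by
  have h0 : 2 * P * c ^ 2 ≤ 2 * P * (c * (5 * (l - 2))) := by
    refine mul_le_mul_of_nonneg_left ?_ (by linarith only [hP])
    rw [sq]
    exact mul_le_mul_of_nonneg_left hc hc0
  refine h0.trans ?_
  rcases hl.eq_or_lt with h1 | h1
  · rw [← h1]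
    have : c = 0 := by rw [← h1] at hc; linarith only [hc0, hc]
    rw [this]
    nlinarith only [hP]
  have h2 : 0 < 5 * (l - 2) := by linarith only [h1]
  have e0 : 0 ≤ l * (3 / 2 * l + 1 + 2 * P) * (3 * P + 2 * l) := by positivity
  -- value at the right end
  have e1 : 0 ≤ l * (3 / 2 * (5 * (l - 2)) + 3 / 2 * l + 1 + 2 * P) * (3 * P + 2 * l) -
      2 * P * (5 * (l - 2)) ^ 2 := by
    have e2 : 0 ≤ 6 * P ^ 2 - 19 * l * P + 18 * l ^ 2 + 58 * P - 28 * l := by
      rcases le_or_gt l 3 with h3 | h3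
      · nlinarith only [hP, h2, h3]
      · nlinarith only [sq_nonneg (12 * P - 19 * l + 58), h3]
    have e3 : l * (3 / 2 * (5 * (l - 2)) + 3 / 2 * l + 1 + 2 * P) * (3 * P + 2 * l) -
      2 * P * (5 * (l - 2)) ^ 2 = l * (6 * P ^ 2 - 19 * l * P + 18 * l ^ 2 + 58 * P - 28 * l) +
        100 * P * (l - 2) := by ring
    rw [e3]
    have e4 : 0 ≤ l * (6 * P ^ 2 - 19 * l * P + 18 * l ^ 2 + 58 * P - 28 * l) :=
      mul_nonneg (by linarith only [h2]) e2
    have e5 : 0 ≤ 100 * P * (l - 2) := mul_nonneg (by linarith only [hP]) (by linarith only [h2])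
    linarith only [e4, e5]
  have e4 : (5 * (l - 2)) * (2 * P * (c * (5 * (l - 2)))) ≤
      (5 * (l - 2)) * (l * (3 / 2 * c + 3 / 2 * l + 1 + 2 * P) * (3 * P + 2 * l)) := by
    have e5 := mul_nonneg hc0 e1
    have e6 := mul_nonneg (sub_nonneg.2 hc) e0
    nlinarith only [e5, e6]
  exact le_of_mul_le_mul_left e4 h2

theorem aI_M2 {a T P l : ℝ} (ha : 5 ≤ a) (hT : 3 ≤ T) (hP : 0 ≤ P)
    (hl : a + T ≤ a * l) (hc : 0 ≤ 2 * T - 1 - l - a) :
    2 * P * (2 * T - 1 - l - a) ^ 2 ≤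
      l * (a * T - a - 2 + 2 * P) * ((a - 3) * T + 3 * P + 2 * l) := by
  have a0 : 0 < a := by linarith only [ha]
  have T0 : 0 < T := by linarith only [hT]
  have c1 : a * (2 * T - 1 - l - a) ≤ (2 * a - 1) * T := by nlinarith only [hl, a0]
  have c2 : (a * (2 * T - 1 - l - a)) ^ 2 ≤ ((2 * a - 1) * T) ^ 2 :=
    pow_le_pow_left₀ (mul_nonneg a0.le hc) c1 2
  have b0 : 0 ≤ a * T - a - 2 + 2 * P := by nlinarith only [ha, hP, hl, hc, T0]
  have b1 : T * (a * T + 2 * P) ≤ a * l * (a * T - a - 2 + 2 * P) := by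
    have e1 := mul_le_mul_of_nonneg_right hl b0
    have e2 : 0 ≤ (T - 3) * (a ^ 2 - a - 2) := mul_nonneg (by linarith only [hT]) (by nlinarith only [ha])
    have e3 : 0 ≤ a * P := mul_nonneg a0.le hP
    nlinarith only [ha, e1, e2, e3]
  have g1 : (a - 1) * (a - 2) * T + 3 * a * P ≤ a * ((a - 3) * T + 3 * P + 2 * l) := by
    nlinarith only [a0, T0, b0, b1]
  have g0 : 0 ≤ (a - 1) * (a - 2) * T + 3 * a * P := by
    have : 0 ≤ (a - 1) * (a - 2) := mul_nonneg (by linarith only [ha]) (by linarith only [ha])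
    positivity
  have m1 : 2 * P * (2 * a - 1) ^ 2 * T ≤ (a * T + 2 * P) * ((a - 1) * (a - 2) * T + 3 * a * P) := by
    have e1 : 0 ≤ (15 * a ^ 4 - 60 * a ^ 3 + 56 * a ^ 2 - 8 * a - 4) * T ^ 2 := by
      refine mul_nonneg ?_ (sq_nonneg _)
      nlinarith only [mul_nonneg (pow_nonneg a0.le 3) (by linarith : (0 : ℝ) ≤ a - 5), ha]
    have e2 : 24 * a * ((a * T + 2 * P) * ((a - 1) * (a - 2) * T + 3 * a * P) -
        2 * P * (2 * a - 1) ^ 2 * T) = (12 * a * P - (3 * a ^ 2 - 2 * a - 2) * T) ^ 2 +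
        (15 * a ^ 4 - 60 * a ^ 3 + 56 * a ^ 2 - 8 * a - 4) * T ^ 2 := by ring
    have e3 : 0 ≤ 24 * a * ((a * T + 2 * P) * ((a - 1) * (a - 2) * T + 3 * a * P) -
        2 * P * (2 * a - 1) ^ 2 * T) := by
      rw [e2]
      positivity
    have e4 := nonneg_of_mul_nonneg_right e3 (by positivity : (0 : ℝ) < 24 * a)
    linarith only [e4]
  have m2 : T * (2 * P * (2 * a - 1) ^ 2 * T) ≤
      (a * l * (a * T - a - 2 + 2 * P)) * (a * ((a - 3) * T + 3 * P + 2 * l)) := by
    calc T * (2 * P * (2 * a - 1) ^ 2 * T) ≤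
        T * ((a * T + 2 * P) * ((a - 1) * (a - 2) * T + 3 * a * P)) :=
          mul_le_mul_of_nonneg_left m1 T0.le
      _ = (T * (a * T + 2 * P)) * ((a - 1) * (a - 2) * T + 3 * a * P) := by ring
      _ ≤ _ := mul_le_mul b1 g1 g0 (le_trans (by positivity) b1)
  have m3 : a ^ 2 * (2 * P * (2 * T - 1 - l - a) ^ 2) ≤
      a ^ 2 * (l * (a * T - a - 2 + 2 * P) * ((a - 3) * T + 3 * P + 2 * l)) := by
    have e1 : 2 * P * (a * (2 * T - 1 - l - a)) ^ 2 ≤ 2 * P * ((2 * a - 1) * T) ^ 2 :=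
      mul_le_mul_of_nonneg_left c2 (by linarith only [hP])
    nlinarith only [m2, e1]
  exact le_of_mul_le_mul_left m3 (by positivity)

/-- the main inequality -/
theorem aI_M {k a τ P l : ℝ} (hka : k ≤ a) (ha : a = 3 ∨ 5 ≤ a) (hl : 2 ≤ l)
    (hP0 : 0 ≤ P) (hP : P ≤ τ - l - k) (k3 : 3 ≤ k) (hτ : τ ≤ k * (l - 1) - 1)
    (h0 : 0 ≤ 2 * τ + 1 - l - a) : 2 * P * (2 * τ + 1 - l - a) ^ 2 ≤
      l * (a * τ + 2 * P - 2) * ((a - 3) * τ + 3 * P + 2 * l + a - 3) := by
  have a3 : 3 ≤ a := by linarith only [hka, k3]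
  rcases le_or_gt τ (3 * l - 4) with h1 | h1
  · have e1 := aI_M1 (c := 2 * τ - 2 - l) (by linarith only [h0, a3]) (by linarith only [h1]) hP0 hl
    have e2 : (2 * τ + 1 - l - a) ^ 2 ≤ (2 * τ - 2 - l) ^ 2 :=
      pow_le_pow_left₀ h0 (by linarith only [a3]) 2
    have e3 : 2 * P * (2 * τ + 1 - l - a) ^ 2 ≤ 2 * P * (2 * τ - 2 - l) ^ 2 :=
      mul_le_mul_of_nonneg_left e2 (by linarith only [hP0])
    refine e3.trans (e1.trans ?_)
    have e4 : 0 ≤ (a - 3) * τ := mul_nonneg (by linarith only [a3]) (by linarith only [h0, a3, h1])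
    have e5 : l * (3 / 2 * (2 * τ - 2 - l) + 3 / 2 * l + 1 + 2 * P) ≤
        l * (a * τ + 2 * P - 2) := mul_le_mul_of_nonneg_left (by linarith only [e4]) (by linarith only [h0, a3, h1])
    refine mul_le_mul e5 (by linarith only [a3, e4]) (by linarith only [hP0, h0, a3, h1]) ?_
    refine mul_nonneg (by linarith only [h0, a3, h1]) ?_
    linarith only [hP0, h0, a3, h1, e4]
  · have k4 : 3 < k := by
      by_contra hc
      push Not at hc
      have : (k - 3) * (l - 1) ≤ 0 := mul_nonpos_of_nonpos_of_nonneg (by linarith only [hc]) (by linarith only [hl])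
      linarith only [hτ, h1, this]
    have a5 : 5 ≤ a := by
      rcases ha with ha | ha
      · linarith only [hka, k4, ha]
      · exact ha
    have e0 : k * (l - 1) ≤ a * (l - 1) := mul_le_mul_of_nonneg_right hka (by linarith only [hl])
    have e1 := aI_M2 (a := a) (T := τ + 1) (P := P) (l := l) a5 (by linarith only [hl, h1]) hP0 (by linarith only [hτ, e0])
      (by linarith only [h0])
    have e2 : 2 * (τ + 1) - 1 - l - a = 2 * τ + 1 - l - a := by ring
    rw [e2] at e1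
    refine e1.trans (le_of_eq ?_)
    ring

/-- a bound of `P` -/
theorem aI_P {k τ P l : ℝ} (hP : P ≤ τ - l - k) (hτ : τ ≤ k * (l - 1) - 1) :
    P ≤ (k - 1) * l - 2 * k - 1 := by linarith only [hP, hτ]

/-- the case of few vertices -/
theorem aI_Q {k a τ P l δ σ bS G : ℝ} (hka : k ≤ a) (ha : a = 3 ∨ 5 ≤ a) (hl : 2 ≤ l)
    (hP0 : 0 ≤ P) (hP : P ≤ τ - l - k) (k3 : 3 ≤ k) (hτ : τ ≤ k * (l - 1) - 1) (hδ : 0 ≤ δ)
    (hσ : σ = 2 * τ + 1 - l - a + δ) (hσ0 : 0 ≤ σ) (hb : a * τ + 2 * P - 2 + a * δ ≤ bS)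
    (hG : (a - 3) * τ + 3 * P + 2 * l + a - 3 + (a - 1) * δ ≤ G) :
    2 * P * σ ^ 2 ≤ l * bS * G := by
  have a3 : 3 ≤ a := by linarith only [hka, k3]
  have l0 : 0 < l := by linarith only [hl]
  have P1 : 2 * P ≤ l * (a * (a - 1)) := by
    have h1 := aI_P hP hτ
    have h2 : (k - 1) * l ≤ (a - 1) * l := mul_le_mul_of_nonneg_right (by linarith only [hka]) l0.le
    have h3 : 0 ≤ ((a - 1) * l) * (a - 2) :=
      mul_nonneg (mul_nonneg (by linarith only [a3]) l0.le) (by linarith only [a3])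
    linarith only [k3, h1, h2, h3]
  have x2 : 0 ≤ (a - 3) * τ + 3 * P + 2 * l + a - 3 := by
    have : 0 ≤ (a - 3) * τ := mul_nonneg (by linarith only [a3]) (by linarith only [hP0, hP, k3, l0])
    linarith only [hP0, a3, l0, this]
  have x1 : 0 ≤ a * τ + 2 * P - 2 := by
    have : 3 * τ ≤ a * τ := mul_le_mul_of_nonneg_right a3 (by linarith only [hP0, hP, k3, l0])
    linarith only [hP0, hP, k3, l0, this]
  have y1 : 0 ≤ a * δ := mul_nonneg (by linarith only [a3]) hδ
  have y2 : 0 ≤ (a - 1) * δ := mul_nonneg (by linarith only [a3]) hδ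
  have hm : l * (a * τ + 2 * P - 2 + a * δ) * ((a - 3) * τ + 3 * P + 2 * l + a - 3 + (a - 1) * δ) ≤
      l * bS * G := by
    refine mul_le_mul (mul_le_mul_of_nonneg_left hb l0.le) hG (by linarith only [x2, y2]) ?_
    exact mul_nonneg l0.le (by linarith only [hb, x1, y1])
  refine le_trans ?_ hm
  have q2 : 2 * P * δ ^ 2 ≤ l * ((a * δ) * ((a - 1) * δ)) := by
    have := mul_le_mul_of_nonneg_right P1 (sq_nonneg δ)
    linarith only [this]
  rcases le_or_gt 0 (2 * τ + 1 - l - a) with h0 | h0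
  · have q1 := aI_M hka ha hl hP0 hP k3 hτ h0
    rcases hP0.eq_or_lt with hp | hp
    · rw [← hp]
      have := mul_nonneg (mul_nonneg l0.le (add_nonneg x1 y1)) (add_nonneg x2 y2)
      rw [← hp] at this
      simpa using this
    -- divide by `2 P`
    have r1 : (2 * τ + 1 - l - a) ^ 2 ≤ (l / (2 * P) * (a * τ + 2 * P - 2)) *
        ((a - 3) * τ + 3 * P + 2 * l + a - 3) := by
      have e : (l / (2 * P) * (a * τ + 2 * P - 2)) * ((a - 3) * τ + 3 * P + 2 * l + a - 3) =
        (l * (a * τ + 2 * P - 2) * ((a - 3) * τ + 3 * P + 2 * l + a - 3)) / (2 * P) := by ring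
      rw [e, le_div_iff₀ (by linarith only [hp])]
      linarith only [q1]
    have r2 : δ ^ 2 ≤ (l / (2 * P) * (a * δ)) * ((a - 1) * δ) := by
      have e : (l / (2 * P) * (a * δ)) * ((a - 1) * δ) =
        (l * ((a * δ) * ((a - 1) * δ))) / (2 * P) := by ring
      rw [e, le_div_iff₀ (by linarith only [hp])]
      linarith only [q2]
    have f0 : 0 ≤ l / (2 * P) := div_nonneg l0.le (by linarith only [hp])
    have r3 := cs_aux (mul_nonneg f0 x1) x2 (mul_nonneg f0 y1) y2 h0 hδ r1 r2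
    rw [← hσ, ← mul_add] at r3
    have r4 := mul_le_mul_of_nonneg_left r3 (by linarith only [hp] : (0 : ℝ) ≤ 2 * P)
    refine r4.trans (le_of_eq ?_)
    field_simp
  · have h1 : σ ^ 2 ≤ δ ^ 2 := pow_le_pow_left₀ hσ0 (by linarith only [hσ, h0]) 2
    have h2 : 2 * P * σ ^ 2 ≤ 2 * P * δ ^ 2 := mul_le_mul_of_nonneg_left h1 (by linarith only [hP0])
    refine h2.trans (q2.trans ?_)
    have h3 : (a * δ) * ((a - 1) * δ) ≤ (a * τ + 2 * P - 2 + a * δ) *
        ((a - 3) * τ + 3 * P + 2 * l + a - 3 + (a - 1) * δ) :=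
      mul_le_mul (by linarith only [x1]) (by linarith only [x2]) y2 (by linarith only [x1, y1])
    have h4 := mul_le_mul_of_nonneg_left h3 l0.le
    linarith only [h4]

/-- the case of many vertices -/
theorem aI_big {k a τ P l δ σ G : ℝ} (hka : k ≤ a) (hl : 2 ≤ l)
    (hP0 : 0 ≤ P) (hP : P ≤ τ - l - k) (k3 : 3 ≤ k) (k34 : k = 3 ∨ 4 ≤ k)
    (hτ : τ ≤ k * (l - 1) - 1) (hδ : 0 ≤ δ)
    (hσ : σ = 2 * τ + 1 - l - a + δ)
    (hG : (a - 3) * τ + 3 * P + 2 * l + a - 3 + (a - 1) * δ ≤ G) :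
    σ * P ≤ 2 * l * G := by
  have a3 : 3 ≤ a := by linarith only [hka, k3]
  have l0 : 0 < l := by linarith only [hl]
  have hG' := mul_le_mul_of_nonneg_left hG (by linarith only [l0] : (0 : ℝ) ≤ 2 * l)
  refine le_trans ?_ hG'
  have d1 : δ * P ≤ 2 * l * ((a - 1) * δ) := by
    have h1 := aI_P hP hτ
    have h2 : (k - 1) * l ≤ (a - 1) * l := mul_le_mul_of_nonneg_right (by linarith only [hka]) l0.le
    have h3 : 0 ≤ (a - 1) * l := mul_nonneg (by linarith only [a3]) l0.le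
    have h4 : P ≤ 2 * l * (a - 1) := by linarith only [k3, h1, h2, h3]
    have := mul_le_mul_of_nonneg_left h4 hδ
    linarith only [this]
  have d2 : (2 * τ + 1 - l - a) * P ≤ 2 * l * ((a - 3) * τ + 3 * P + 2 * l + a - 3) := by
    have e1 : 0 ≤ (a - 3) * τ := mul_nonneg (by linarith only [a3]) (by linarith only [hP0, hP, k3, l0])
    have e2 : 0 ≤ l * ((a - 3) * τ) := mul_nonneg l0.le e1
    rcases k34 with h | h
    · have e3 : 2 * τ + 1 - l - a ≤ 6 * l := by rw [h] at hτ; linarith only [hτ, a3, l0]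
      have e4 := mul_le_mul_of_nonneg_right e3 hP0
      have e5 : 0 ≤ l * l := mul_self_nonneg l
      have e6 : 0 ≤ l * (a - 3) := mul_nonneg l0.le (by linarith only [a3])
      linarith only [e2, e4, e5, e6]
    · have e3 : 2 * τ + 1 - l - a ≤ (2 * k - 1) * l := by linarith only [hτ, a3, h]
      have e4 := mul_le_mul_of_nonneg_right e3 hP0
      have e5 : 0 ≤ l * l := mul_self_nonneg l
      have e6 : 0 ≤ l * (a - 3) := mul_nonneg l0.le (by linarith only [a3])
      have e7 : 0 ≤ l * ((2 * k - 7) * (τ - P)) :=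
        mul_nonneg l0.le (mul_nonneg (by linarith only [h]) (by linarith only [hP, l0, h]))
      have e8 : 0 ≤ l * ((a - k) * τ) :=
        mul_nonneg l0.le (mul_nonneg (by linarith only [hka]) (by linarith only [hP0, hP, l0, h]))
      have e9 : 0 ≤ l * τ := mul_nonneg l0.le (by linarith only [hP0, hP, l0, h])
      linarith only [e4, e5, e6, e7, e8, e9]
  rw [hσ]
  linarith only [d1, d2]

/-- the second alternative -/
theorem aI_two {k a τ P l δ σ G : ℝ} (hka : k ≤ a) (hl : 2 ≤ l)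
    (hP0 : 0 ≤ P) (hP : P ≤ τ - l - k) (k3 : 3 ≤ k)
    (hτ : τ ≤ k * (l - 1) - 1) (hδ : 0 ≤ δ)
    (hσ : σ = 2 * τ + 1 - l - a + δ)
    (hG : (a - 3) * τ + 2 * P + (a - 1) * (l - 2) + 2 * l + a - 1 + (a - 1) * δ ≤ G) :
    σ * P ≤ (2 * l - 2) * G := by
  have a3 : 3 ≤ a := by linarith only [hka, k3]
  have l0 : 0 < l - 1 := by linarith only [hl]
  have hG' := mul_le_mul_of_nonneg_left hG (by linarith only [l0] : (0 : ℝ) ≤ 2 * l - 2)
  refine le_trans ?_ hG'
  have d1 : δ * P ≤ (2 * l - 2) * ((a - 1) * δ) := by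
    have h2 : k * (l - 1) ≤ a * (l - 1) := mul_le_mul_of_nonneg_right hka l0.le
    have h3 : 0 ≤ (a - 2) * (l - 1) := mul_nonneg (by linarith only [a3]) l0.le
    have h4 : P ≤ (2 * l - 2) * (a - 1) := by linarith only [hP, k3, hτ, l0, h2, h3]
    have := mul_le_mul_of_nonneg_left h4 hδ
    linarith only [this]
  have d2 : (2 * τ + 1 - l - a) * P ≤
      (2 * l - 2) * ((a - 3) * τ + 2 * P + (a - 1) * (l - 2) + 2 * l + a - 1) := by
    have h2 : k * (l - 1) ≤ a * (l - 1) := mul_le_mul_of_nonneg_right hka l0.le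
    have e3 : 2 * τ + 1 - l - a ≤ (2 * a - 1) * (l - 1) := by linarith only [hτ, a3, h2]
    have e4 := mul_le_mul_of_nonneg_right e3 hP0
    have e5 : 0 ≤ (l - 1) * ((a - 3) * (τ - P)) :=
      mul_nonneg l0.le (mul_nonneg (by linarith only [a3]) (by linarith only [hP, k3, l0]))
    have e6 : 0 ≤ (l - 1) * (a * (l - 1) - P) := mul_nonneg l0.le (by linarith only [hP, k3, hτ, l0, h2])
    have e7 : 0 ≤ (l - 1) * (a * (l - 1)) :=
      mul_nonneg l0.le (mul_nonneg (by linarith only [a3]) l0.le)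
    have e8 : 0 ≤ (l - 1) * (l - 1) := mul_self_nonneg _
    have e9 : 0 ≤ (l - 1) * P := mul_nonneg l0.le hP0
    nlinarith only [l0, e4, e5, e6, e9]
  rw [hσ]
  linarith only [d1, d2]

/-- **The contradiction for a nonempty set of other vertices.** -/
theorem aI_pos {k n a ρ σ g θ lam y u v A SQ G bS : ℝ} (k3 : 3 ≤ k) (k34 : k = 3 ∨ 4 ≤ k)
    (hka : k ≤ a) (ha : a = 3 ∨ 5 ≤ a) (hn : n = a + ρ + σ) (hlam : n = 2 * θ - lam + 1)
    (hl : 2 ≤ lam) (kn : θ ≤ k * (lam - 1)) (hρ : ρ ≤ 2 * g) (hg : 1 ≤ g)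
    (hy : y ≤ θ - lam - k) (hu : g < u) (huv : u ≤ v) (huy : u ≤ y) (hA : 0 ≤ A) (hσ : 0 ≤ σ)
    (hSQ : θ + y + (a - 2) * (θ + v) + (θ + u) ≤ SQ) (hbS : SQ - a * ρ ≤ bS)
    (hG : bS - (σ + n - 1 - (θ + y)) ≤ G)
    (hTO : y + g < u + v + 2 ∨ lam + 2 * g - 3 < u - A)
    (hT1 : G < y - g ∨ (lam + (u - g) + A) * G < σ * (y - g))
    (hAp : A < lam → (lam - A) * (bS - 2 * σ) ≤ 2 * σ * (u - g) ∨ bS - 2 * σ < u - g) :
    False := by
  have a3 : 3 ≤ a := by linarith only [k3, hka]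
  have b1 : 0 ≤ (a - 2) * (v - u) := mul_nonneg (by linarith only [a3]) (by linarith only [huv])
  have hP0 : 0 < y - g := by linarith only [hu, huy]
  have hGP : y - g ≤ G := by
    refine aI_small (a := a) (n := n) (ρ := ρ) (σ := σ) (θ := θ) (lam := lam) (u := u) (SQ := SQ)
      (bS := bS) a3 hn hlam hρ hu (by linarith only [k3, hl, hy, hP0]) hl (by linarith only [huy, hSQ, b1]) hbS hG
  have hG0 : 0 < G := by linarith only [hP0, hGP]
  have hT : (lam + (u - g) + A) * G < σ * (y - g) := by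
    rcases hT1 with h1 | h1
    · linarith only [hGP, h1]
    · exact h1
  set τ := θ - g with hτ'
  set P := y - g with hP'
  set δ := 2 * g - ρ with hδ'
  have hδ : 0 ≤ δ := by linarith only [hρ]
  have hτ : τ ≤ k * (lam - 1) - 1 := by linarith only [kn, hg]
  have hPτ : P ≤ τ - lam - k := by linarith only [hy]
  have hσe : σ = 2 * τ + 1 - lam - a + δ := by linarith only [hn, hlam]
  rcases hTO with hi | hii
  · -- (i)
    have c1 : 0 ≤ (a - 3) * (v - g) := mul_nonneg (by linarith only [a3]) (by linarith only [hu, huv])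
    have hG' : (a - 3) * τ + 3 * P + 2 * lam + a - 3 + (a - 1) * δ ≤ G := by
      rw [hτ', hP', hδ']
      linarith only [hlam, hSQ, hbS, hG, hσe, hi, c1]
    have hb' : a * τ + 2 * P - 2 + a * δ ≤ bS := by
      rw [hτ', hP', hδ']
      linarith only [hSQ, hbS, hi, c1]
    have hbig := aI_big hka hl hP0.le hPτ k3 k34 hτ hδ hσe hG'
    have hQ := aI_Q hka ha hl hP0.le hPτ k3 hτ hδ hσe hσ hb' hG'
    have l0 : 0 < lam := by linarith only [hl]
    have notbig : ¬ 2 * lam ≤ lam + (u - g) + A := by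
      intro hc
      have := mul_le_mul_of_nonneg_right hc hG0.le
      linarith only [hT, hbig, this]
    have hAl : A < lam := by
      by_contra hc
      push Not at hc
      exact notbig (by linarith only [hu, hc])
    have hlσ : lam < σ := by
      by_contra hc
      push Not at hc
      have h1 := mul_le_mul_of_nonneg_right hc hP0.le
      have h2 : lam * P ≤ lam * G := mul_le_mul_of_nonneg_left hGP l0.le
      have h3 : 0 ≤ ((u - g) + A) * G := mul_nonneg (by linarith only [hu, hA]) hG0.le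
      linarith only [hT, h1, h2, h3]
    have hσ0 : 0 < σ := by linarith only [l0, hlσ]
    have hw : (lam - A) * (bS - 2 * σ) ≤ 2 * σ * (u - g) := by
      rcases hAp hAl with h1 | h1
      · exact h1
      · have h2 := mul_le_mul_of_nonneg_left h1.le (by linarith only [hAl] : (0 : ℝ) ≤ lam - A)
        have h3 : (lam - A) * (u - g) ≤ (2 * σ) * (u - g) :=
          mul_le_mul_of_nonneg_right (by linarith only [hA, hlσ, hσ0]) (by linarith only [hu])
        linarith only [h2, h3]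
    rcases le_or_gt bS (4 * σ) with h1 | h1
    · have h2 : lam * bS ≤ 2 * σ * (lam + (u - g) + A) := by
        have := mul_nonneg hA (sub_nonneg.2 h1)
        linarith only [hw, this]
      have h3 := mul_le_mul_of_nonneg_right h2 hG0.le
      have h4 := mul_lt_mul_of_pos_left hT (by linarith only [hσ0] : 0 < 2 * σ)
      have h5 : 2 * P * σ ^ 2 = 2 * σ * (σ * P) := by ring
      linarith only [hQ, h3, h4]
    · apply notbig
      have h2 : 2 * σ * (2 * lam) ≤ 2 * σ * (lam + (u - g) + A) := by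
        have := mul_nonneg (sub_nonneg.2 hAl.le) (sub_nonneg.2 h1.le)
        linarith only [hw, this]
      exact le_of_mul_le_mul_left h2 (by linarith only [hσ0])
  · -- (ii)
    have c1 : 0 ≤ (a - 1) * ((u - g) - (lam - 2)) := mul_nonneg (by linarith only [a3]) (by linarith only [hg, hA, hii])
    have hG' : (a - 3) * τ + 2 * P + (a - 1) * (lam - 2) + 2 * lam + a - 1 + (a - 1) * δ ≤ G := by
      rw [hτ', hP', hδ']
      linarith only [hlam, hSQ, hbS, hG, b1, hσe, c1]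
    have h2 := aI_two hka hl hP0.le hPτ k3 hτ hδ hσe hG'
    have h3 : (2 * lam - 2) * G ≤ (lam + (u - g) + A) * G :=
      mul_le_mul_of_nonneg_right (by linarith only [hg, hA, hii]) hG0.le
    linarith only [hT, h2, h3]

/-- **No other vertices, `a = k`.** -/
theorem aI_zero0 {k θ lam y u A SQ Sf cz : ℝ} (hk : k = 3 ∨ k = 5 ∨ 7 ≤ k)
    (hl : 2 ≤ lam) (kn : θ ≤ k * (lam - 1)) (hy : y ≤ θ - lam - k) (hu : 0 < u) (huy : u ≤ y)
    (hSQ : k * (θ + u) ≤ SQ) (hcz : cz ≤ 3 * θ + 1 - 2 * lam - k - u) (hSf : SQ - cz ≤ Sf)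
    (hA' : A ≤ y - u)
    (hAp : Sf < u ∨ (θ - A - k - 2) * Sf ≤ u * cz) : False := by
  have k3 : 3 ≤ k := by rcases hk with h | h | h <;> linarith only [h]
  have hθ : 0 ≤ θ := by linarith only [hl, hy, hu, huy, k3]
  have c1 : 0 ≤ (k - 3) * θ := mul_nonneg (by linarith only [k3]) hθ
  have c2 : 0 ≤ (k - 3) * u := mul_nonneg (by linarith only [k3]) hu.le
  have hSf' : (k - 3) * θ + (k + 1) * u + k - 1 + 2 * lam ≤ Sf := by linarith only [hSQ, hcz, hSf]
  have hSf0 : 0 ≤ Sf := by linarith only [hl, hu, k3, c1, c2, hSf']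
  rcases hAp with h1 | h1
  · linarith only [hl, k3, c1, c2, hSf', hSf0, h1]
  · have h2 : (lam + u - 2) * Sf ≤ (θ - A - k - 2) * Sf :=
      mul_le_mul_of_nonneg_right (by linarith only [hy, hA']) hSf0
    have h3 : u * cz ≤ u * (3 * θ + 1 - 2 * lam - k - u) := mul_le_mul_of_nonneg_left hcz hu.le
    have h4 : (lam + u - 2) * ((k - 3) * θ + (k + 1) * u + k - 1 + 2 * lam) ≤
        (lam + u - 2) * Sf := mul_le_mul_of_nonneg_left hSf' (by linarith only [hl, hu])
    have h5 : (lam + u - 2) * ((k - 3) * θ + (k + 1) * u + k - 1 + 2 * lam) ≤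
        u * (3 * θ + 1 - 2 * lam - k - u) := by linarith only [h1, h2, h3, h4]
    have ul : 0 ≤ u * (lam - 2) := mul_nonneg hu.le (by linarith only [hl])
    have uu : 0 < u * u := mul_pos hu hu
    have ll : 0 ≤ (lam - 2) * (lam - 2) := mul_self_nonneg _
    rcases hk with hk | hk | hk
    · subst hk
      have h6 : u * θ ≤ u * (3 * (lam - 1)) := mul_le_mul_of_nonneg_left kn hu.le
      nlinarith only [huy, ul, uu, ll, kn, hy, h5, h6]
    · subst hk
      rcases le_or_gt u (2 * lam - 4) with h6 | h6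
      · have h7 : 0 ≤ (2 * lam - 4 - u) * θ := mul_nonneg (by linarith only [h6]) hθ
        nlinarith only [uu, c2, h5, h6, h7]
      · have h7 : (u - (2 * lam - 4)) * θ ≤ (u - (2 * lam - 4)) * (5 * (lam - 1)) :=
          mul_le_mul_of_nonneg_left kn (by linarith only [h6])
        nlinarith only [ul, uu, c2, h5, h7]
    · have h7 : 0 ≤ ((k - 3) * (lam + u - 2) - 3 * u) * θ := by
        refine mul_nonneg ?_ hθ
        have := mul_le_mul_of_nonneg_right (by linarith only [hk] : (4 : ℝ) ≤ k - 3)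
          (by linarith only [hl, hu] : (0 : ℝ) ≤ lam + u - 2)
        linarith only [hl, hu, this]
      have h8 : 0 ≤ (lam + u - 2) * ((k + 1) * u + k - 1 + 2 * lam) := by
        refine mul_nonneg (by linarith only [hl, hu]) ?_
        have : 0 ≤ (k + 1) * u := mul_nonneg (by linarith only [hk]) hu.le
        linarith only [hl, hk, this]
      have h9 : 0 < u * (2 * lam + k + u - 1) := mul_pos hu (by linarith only [hu, c2, h5, ul, uu, h7, h8])
      linarith only [h5, h7, h8, h9]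

/-- the criterion for `a > k` -/
theorem aI_crit {a θ lam u SQ Sf cz W : ℝ} (a3 : 3 ≤ a) (hu : 0 < u)
    (hSQ : a * (θ + u) ≤ SQ) (hcz : cz ≤ 3 * θ + 1 - 2 * lam - a - u) (hl : 2 ≤ lam)
    (hSf : SQ - cz ≤ Sf) (hcz0 : 0 ≤ cz) (hW : 0 < W) (hθ : 0 ≤ θ)
    (hW3 : 3 * u ≤ (a - 3) * W) (hAp : Sf < u ∨ W * Sf ≤ u * cz) : False := by
  have c1 : 0 ≤ (a - 3) * θ := mul_nonneg (by linarith only [a3]) hθ
  have c2 : 0 ≤ (a - 3) * u := mul_nonneg (by linarith only [a3]) hu.le
  have hSf' : (a - 3) * θ + (a + 1) * u + a - 1 + 2 * lam ≤ Sf := by linarith only [hSQ, hcz, hSf]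
  rcases hAp with h1 | h1
  · linarith only [a3, hu, hl, c1, c2, hSf', h1]
  · have h2 : (a - 3) * cz ≤ (a - 3) * (3 * θ) :=
      mul_le_mul_of_nonneg_left (by linarith only [a3, hu, hcz, hl]) (by linarith only [a3])
    have h3 : (a - 3) * cz < 3 * Sf := by linarith only [a3, hu, hl, c2, hSf', h2]
    have h4 : W * ((a - 3) * cz) < W * (3 * Sf) := mul_lt_mul_of_pos_left h3 hW
    have h5 : (3 * u) * cz ≤ ((a - 3) * W) * cz := mul_le_mul_of_nonneg_right hW3 hcz0
    linarith only [h1, h4, h5]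

/-- the bound of `θ - a` -/
theorem aI_T {k a c d θ u : ℝ} (hd : d = 2 * k - 1 - a) (hc : c = a - k)
    (hF : a * (θ + u) + k * a ≤ (2 * k - 1) * θ) :
    a * u + a * (c + 1) ≤ d * (θ - a) := by
  rw [hd, hc]
  linarith only [hF]

/-- **The first criterion**, in multiplied form -/
theorem aI_B1 {a c d T u W : ℝ} (hd : 2 ≤ d) (hc : 1 ≤ c) (had : a = d + 1 + 2 * c)
    (hT : a * u + a * (c + 1) ≤ d * T) (hu : 0 < u) (hW : T - u - 4 ≤ W)
    (hcase : 3 ≤ c ∨ (d = 2 ∧ (c = 1 ∨ c = 2))) : 0 < W ∧ 3 * u ≤ (a - 3) * W := by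
  have h1 : (2 * c + 1) * (u + c + 1) + d * (c - 3) ≤ d * (T - u - 4) := by
    subst had
    linarith only [hT]
  have h2 : d * (T - u - 4) ≤ d * W := mul_le_mul_of_nonneg_left hW (by linarith only [hd])
  have d0 : 0 < d := by linarith only [hd]
  rcases hcase with h3 | ⟨h3, h4⟩
  · have h4 : 0 ≤ d * (c - 3) := mul_nonneg d0.le (by linarith only [h3])
    have h5 : 7 * (u + c + 1) ≤ (2 * c + 1) * (u + c + 1) :=
      mul_le_mul_of_nonneg_right (by linarith only [h3]) (by linarith only [hu, h3])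
    have h6 : 7 * (u + c + 1) ≤ d * W := by linarith only [h1, h2, h4, h5]
    have hW0 : 0 < W := by
      by_contra hc'
      push Not at hc'
      have : d * W ≤ 0 := mul_nonpos_of_nonneg_of_nonpos d0.le hc'
      linarith only [hu, h3, h6, this]
    refine ⟨hW0, ?_⟩
    have h7 : d * W ≤ (a - 3) * W := mul_le_mul_of_nonneg_right (by linarith only [had, h3]) hW0.le
    linarith only [hu, h3, h6, h7]
  · subst h3
    rcases h4 with h4 | h4
    · subst h4
      subst had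
      constructor
      · linarith only [hu, h2, hT]
      · linarith only [h2, hT]
    · subst h4
      subst had
      constructor
      · linarith only [hu, h2, hT]
      · linarith only [hu, h2, hT]

/-- **The second criterion** -/
theorem aI_B2 {a k c d T u W lam : ℝ} (k0 : 0 < k) (hd : 4 ≤ d) (hc : c = 1 ∨ c = 2)
    (had : a = d + 1 + 2 * c) (hk : k = d + 1 + c)
    (hT : a * u + a * (c + 1) ≤ d * T) (huc : c ≤ u) (hl : 2 * k + c + T ≤ k * lam)
    (hW : u + lam - c - 2 ≤ W) : 0 < W ∧ 3 * u ≤ (a - 3) * W := by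
  have c1 : 1 ≤ c := by rcases hc with h | h <;> linarith only [h]
  have c2 : c ≤ 2 := by rcases hc with h | h <;> linarith only [h]
  have d0 : 0 < d := by linarith only [hd]
  have a0 : 0 < a := by linarith only [had, c1, d0]
  have hT0 : (2 * c + 1) < T := by
    by_contra hc'
    push Not at hc'
    have h1 : d * T ≤ d * (2 * c + 1) := mul_le_mul_of_nonneg_left hc' d0.le
    have h2 : a * (2 * c + 1) ≤ a * (u + (c + 1)) := mul_le_mul_of_nonneg_left (by linarith only [huc]) a0.le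
    have h3 : d * (2 * c + 1) < a * (2 * c + 1) := mul_lt_mul_of_pos_right (by linarith only [had, c1])
      (by linarith only [c1])
    linarith only [hT, h1, h2, h3]
  have hkW : k * (u - c) + (c + T) ≤ k * W := by
    have := mul_le_mul_of_nonneg_left hW k0.le
    linarith only [hl, this]
  have hW0 : 0 < W := by
    by_contra hc'
    push Not at hc'
    have h1 : k * W ≤ 0 := mul_nonpos_of_nonneg_of_nonpos k0.le hc'
    have h2 : 0 ≤ k * (u - c) := mul_nonneg k0.le (by linarith only [huc])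
    linarith only [c1, hT0, hkW, h1, h2]
  refine ⟨hW0, ?_⟩
  have h1 : (a - 3) * (k * (u - c) + (c + T)) ≤ (a - 3) * (k * W) :=
    mul_le_mul_of_nonneg_left hkW (by linarith only [had, c1, d0])
  -- `k · 3 u ≤ (a-3) (k (u-c) + c + T)`
  have h2 : k * (3 * u) ≤ (a - 3) * (k * (u - c) + (c + T)) := by
    have e1 : 0 ≤ (a - 6) * (k * (u - c)) ∨ a < 6 := by
      rcases le_or_gt 6 a with h | h
      · exact Or.inl (mul_nonneg (by linarith only [h]) (mul_nonneg k0.le (by linarith only [huc])))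
      · exact Or.inr h
    have e2 : a - 3 = d + 2 * c - 2 := by linarith only [had]
    have e3 : 3 * (k * c) ≤ (a - 3) * (c + T) := by
      -- `d T ≥ a (2c+1)`
      have f1 : a * (2 * c + 1) ≤ d * T := by
        have h2 : a * (2 * c + 1) ≤ a * (u + (c + 1)) :=
          mul_le_mul_of_nonneg_left (by linarith only [huc]) a0.le
        linarith only [hT, h2]
      have f2 : d * T ≤ (a - 3) * T := mul_le_mul_of_nonneg_right (by linarith only [c1, e2]) (by linarith only [c1, hT0])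
      have f3 : 3 * (k * c) ≤ a * (2 * c + 1) + (a - 3) * c := by
        rcases hc with h | h <;> subst h <;> linarith only [a0, hk, e2]
      linarith only [f1, f2, f3]
    rcases e1 with e1 | e1
    · linarith only [e3, e1]
    · linarith only [hd, c1, e2, e1]
  have h3 : k * (3 * u) ≤ k * ((a - 3) * W) := by linarith only [h1, h2]
  exact le_of_mul_le_mul_left h3 k0

/-- all vertices have small weight -/
theorem aI_single {a c θ u lam σ X : ℝ} (hc : c = 1 ∨ c = 2) (ha : 5 + 2 * c ≤ a)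
    (hσ : σ = 2 * θ - lam + 1 - a) (hl : 2 ≤ lam) (hu : 0 < u) (hθ : 0 < θ)
    (h1 : a * (θ + u) ≤ X) (h2 : X ≤ σ * (c + 2)) : False := by
  have c0 : 1 ≤ c := by rcases hc with h | h <;> linarith only [h]
  have e1 : σ * (c + 2) ≤ (2 * θ) * (c + 2) :=
    mul_le_mul_of_nonneg_right (by linarith only [ha, hσ, hl, c0]) (by linarith only [c0])
  have e2 : (5 + 2 * c) * θ ≤ a * θ := mul_le_mul_of_nonneg_right ha hθ.le
  have e3 : 0 ≤ a * u := mul_nonneg (by linarith only [ha, c0]) hu.le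
  linarith only [hθ, h1, h2, e1, e2, e3]

end Pool.Agent.Exact
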