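import Pool.Agent.Lib_helper23.Exact.Glue

/-!
# A path with a budget

Harmful neutral vertices are placed on the side of the hub, in a given order; at a crossing only
the vertices which are not yet placed count.
-/

set_option autoImplicit false
set_option linter.unusedSectionVars false
set_option linter.unusedSimpArgs false
set_option linter.unnecessarySeqFocus false
set_option linter.unreachableTactic false
set_option linter.unusedTactic false

namespace Pool.Agent.Exact

open Finset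

section path

variable {V : Type*} [Fintype V] [DecidableEq V] {B : V → V → ℤ}

/-- **Crossing step**, with bounds only for the vertices outside `P`. -/
theorem crossing_late (hB : ∀ v, B v v = 0) (h0 : ∀ u v, 0 ≤ B u v) (h : V) (R C : Finset V)
    (hR : h ∉ R) (hC : h ∉ C) (hd : Disjoint R C) (hu : insert h (R ∪ C) = univ)
    {x : V → ℤ} (hx : ∀ v, x v = 1 ∨ x v = -1) {Db : ℝ} {P : Finset V} {v : V} (hvP : v ∉ P)
    (hPR : insert v P ⊆ R) (hD1 : ((DD B (MM B h) x P : ℤ) : ℝ) ≤ Db)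
    (hD2 : ((DD B (MM B h) x (insert v P) : ℤ) : ℝ) ≤ Db)
    (hc1 : ((∑ u ∈ P, (- im B u) * x u : ℤ) : ℝ) < ((im B h : ℤ) : ℝ))
    (hc2 : ((im B h : ℤ) : ℝ) ≤ ((∑ u ∈ insert v P, (- im B u) * x u : ℤ) : ℝ))
    {M K t rQ rP : ℝ} (hK : 0 ≤ K) (hst : St B (im B) C M K t)
    (hrQ : ∀ v ∈ R \ P, 0 ≤ im B v → ((im B v : ℤ) : ℝ) ≤ rQ) (hrQK : rQ ≤ K) (hrQ0 : 0 ≤ rQ)
    (hrP : ∀ v ∈ R \ P, im B v < 0 → -((im B v : ℤ) : ℝ) ≤ rP) (hrPK : rP ≤ K) (hrP0 : 0 ≤ rP) :
    Val B (Db + M + max K ((t + rQ + rP) / 2)) := by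
  classical
  set w : V → ℝ := fun v => |((im B v : ℤ) : ℝ)| with hw
  have hvR : v ∈ R := hPR (Finset.mem_insert_self _ _)
  have hPR' : P ⊆ R := (Finset.subset_insert _ _).trans hPR
  have hvRP : v ∈ R \ P := Finset.mem_sdiff.2 ⟨hvR, hvP⟩
  have hwK : ∀ z ∈ R \ P, w z ≤ K := by
    intro z hz
    simp only [hw]
    rcases le_or_gt 0 (im B z) with h3 | h3
    · have h4 : (0 : ℝ) ≤ im B z := by exact_mod_cast h3
      rw [abs_of_nonneg h4]
      exact (hrQ z hz h3).trans hrQK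
    · have h4 : ((im B z : ℤ) : ℝ) < 0 := by exact_mod_cast h3
      rw [abs_of_neg h4]
      exact (hrP z hz h3).trans hrPK
  -- value for a prefix
  have hval : ∀ X ⊆ R, P ⊆ X → ((DD B (MM B h) x X : ℤ) : ℝ) ≤ Db →
      |((im B h + ∑ v ∈ X, im B v * x v : ℤ) : ℝ)| ≤ K →
      Val B (Db + M + max K ((|((im B h + ∑ v ∈ X, im B v * x v : ℤ) : ℝ)| + t +
        altF w ((R \ X).filter fun v => 0 ≤ im B v) +
        altF w ((R \ X).filter fun v => ¬ 0 ≤ im B v)) / 2)) := by
    intro X hX hPX hDX hLK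
    have hhX : h ∉ X := fun h3 => hR (hX h3)
    have h3 := St.restR hB h0 (U := R \ X) (K := K)
      (fun z hz => hwK z (Finset.mem_sdiff.2 ⟨(Finset.mem_sdiff.1 hz).1,
        fun h9 => (Finset.mem_sdiff.1 hz).2 (hPX h9)⟩))
    have h4 := hst.union h3 ((Finset.disjoint_of_subset_left Finset.sdiff_subset hd).symm)
    have h5 : C ∪ R \ X = (insert h X)ᶜ := by
      ext z
      have hz : z ∈ insert h (R ∪ C) := by rw [hu]; exact Finset.mem_univ z
      simp only [Finset.mem_insert, Finset.mem_union] at hz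
      simp only [Finset.mem_union, Finset.mem_sdiff, Finset.mem_compl, Finset.mem_insert, not_or]
      constructor
      · rintro (h6 | ⟨h6, h7⟩)
        · exact ⟨fun e => hC (e ▸ h6), fun h8 => Finset.disjoint_left.1 hd (hX h8) h6⟩
        · exact ⟨fun e => hR (e ▸ h6), h7⟩
      · rintro ⟨h6, h7⟩
        rcases hz with h8 | h8 | h8
        · exact absurd h8 h6
        · exact Or.inr ⟨h8, h7⟩
        · exact Or.inl h8
    rw [h5] at h4
    have h6 := stopSt hB h X hhX x hx hK h4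
    refine h6.mono ?_
    rw [max_eq_right hLK]
    have h7 : max K ((|((im B h + ∑ v ∈ X, im B v * x v : ℤ) : ℝ)| +
        (t + (altF w ((R \ X).filter fun v => 0 ≤ im B v) +
        altF w ((R \ X).filter fun v => ¬ 0 ≤ im B v)))) / 2) ≤
        max K ((|((im B h + ∑ v ∈ X, im B v * x v : ℤ) : ℝ)| + t +
        altF w ((R \ X).filter fun v => 0 ≤ im B v) +
        altF w ((R \ X).filter fun v => ¬ 0 ≤ im B v)) / 2) :=
      max_le_max le_rfl (by linarith)
    linarith
  set L1 : ℝ := ((im B h + ∑ v ∈ P, im B v * x v : ℤ) : ℝ) with hL1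
  set L2 : ℝ := ((im B h + ∑ v ∈ insert v P, im B v * x v : ℤ) : ℝ) with hL2
  have hneg : ∀ X : Finset V, ((∑ v ∈ X, (- im B v) * x v : ℤ) : ℝ) =
      - ((∑ v ∈ X, im B v * x v : ℤ) : ℝ) := by
    intro X
    push_cast
    rw [← Finset.sum_neg_distrib]
    exact Finset.sum_congr rfl fun v _ => by ring
  have hL1pos : 0 < L1 := by
    rw [hneg] at hc1
    rw [hL1]; push_cast at hc1 ⊢; linarith
  have hL2neg : L2 ≤ 0 := by
    rw [hneg] at hc2
    rw [hL2]; push_cast at hc2 ⊢; linarith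
  have hdiff : L1 - L2 = w v := by
    have h3 : L2 = L1 + ((im B v * x v : ℤ) : ℝ) := by
      rw [hL1, hL2, Finset.sum_insert hvP]
      push_cast; ring
    have h4 : ((im B v * x v : ℤ) : ℝ) ≤ 0 := by linarith
    have h5 : w v = |((im B v * x v : ℤ) : ℝ)| := by
      simp only [hw]
      push_cast
      rw [abs_mul]
      rcases hx v with h6 | h6 <;> rw [h6] <;> simp
    rw [h5, abs_of_nonpos h4]
    linarith
  have hwv := hwK v hvRP
  have hwv0 : 0 ≤ w v := abs_nonneg _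
  have hv1 := hval P hPR' (Finset.Subset.refl _) hD1 (by rw [← hL1, abs_of_pos hL1pos]; linarith)
  have hv2 := hval (insert v P) hPR (Finset.subset_insert _ _) hD2
    (by rw [← hL2, abs_of_nonpos hL2neg]; linarith)
  rw [← hL1] at hv1
  rw [← hL2] at hv2
  -- the sum of the totals
  have hsd : R \ P = insert v (R \ insert v P) := by
    ext z
    simp only [Finset.mem_sdiff, Finset.mem_insert, not_or]
    constructor
    · rintro ⟨h3, h4⟩
      by_cases h5 : z = v
      · exact Or.inl h5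
      · exact Or.inr ⟨h3, h5, h4⟩
    · rintro (rfl | ⟨h3, h4, h5⟩)
      · exact ⟨hvR, hvP⟩
      · exact ⟨h3, h5⟩
  have hsub : ∀ z ∈ R \ insert v P, z ∈ R \ P := by
    intro z hz
    rw [Finset.mem_sdiff, Finset.mem_insert, not_or] at hz
    exact Finset.mem_sdiff.2 ⟨hz.1, hz.2.2⟩
  set U := R \ insert v P with hU
  have hvU : v ∉ U := by simp [hU]
  have hwQ : ∀ z ∈ U.filter (fun v => 0 ≤ im B v), w z ≤ rQ := by
    intro z hz
    rw [Finset.mem_filter] at hz
    have h4 : (0 : ℝ) ≤ im B z := by exact_mod_cast hz.2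
    simp only [hw]
    rw [abs_of_nonneg h4]
    exact hrQ z (hsub z hz.1) hz.2
  have hwP : ∀ z ∈ U.filter (fun v => ¬ 0 ≤ im B v), w z ≤ rP := by
    intro z hz
    rw [Finset.mem_filter] at hz
    have h4 : ((im B z : ℤ) : ℝ) < 0 := by exact_mod_cast not_le.1 hz.2
    simp only [hw]
    rw [abs_of_neg h4]
    exact hrP z (hsub z hz.1) (not_le.1 hz.2)
  have hw0 : ∀ (W : Finset V), ∀ z ∈ W, 0 ≤ w z := fun W z _ => abs_nonneg _
  have hsum : |L1| + altF w ((R \ P).filter fun v => 0 ≤ im B v) +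
      altF w ((R \ P).filter fun v => ¬ 0 ≤ im B v) + (|L2| +
      altF w (U.filter fun v => 0 ≤ im B v) + altF w (U.filter fun v => ¬ 0 ≤ im B v)) ≤
      2 * rQ + 2 * rP := by
    rw [abs_of_pos hL1pos, abs_of_nonpos hL2neg, hsd]
    rcases le_or_gt 0 (im B v) with h3 | h3
    · rw [Finset.filter_insert, if_pos h3, Finset.filter_insert, if_neg (not_not.2 h3)]
      have h4 := altF_insert w (U := U.filter fun v => 0 ≤ im B v) (v := v)
        (fun h => hvU (Finset.mem_filter.1 h).1) (hw0 _) (r := rQ) (by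
          have h4 : (0 : ℝ) ≤ im B v := by exact_mod_cast h3
          simp only [hw]
          rw [abs_of_nonneg h4]
          exact hrQ v hvRP h3) hwQ
      have h5 := altF_le w (U := U.filter fun v => ¬ 0 ≤ im B v) (hw0 _) hrP0 hwP
      linarith
    · rw [Finset.filter_insert, if_neg (not_le.2 h3), Finset.filter_insert,
        if_pos (not_le.2 h3)]
      have h4 := altF_insert w (U := U.filter fun v => ¬ 0 ≤ im B v) (v := v)
        (fun h => hvU (Finset.mem_filter.1 h).1) (hw0 _) (r := rP) (by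
          have h4 : ((im B v : ℤ) : ℝ) < 0 := by exact_mod_cast h3
          simp only [hw]
          rw [abs_of_neg h4]
          exact hrP v hvRP h3) hwP
      have h5 := altF_le w (U := U.filter fun v => 0 ≤ im B v) (hw0 _) hrQ0 hwQ
      linarith
  rcases le_total (|L1| + altF w ((R \ P).filter fun v => 0 ≤ im B v) +
      altF w ((R \ P).filter fun v => ¬ 0 ≤ im B v)) (rQ + rP) with h3 | h3
  · refine hv1.mono ?_
    have : max K ((|L1| + t + altF w ((R \ P).filter fun v => 0 ≤ im B v) +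
        altF w ((R \ P).filter fun v => ¬ 0 ≤ im B v)) / 2) ≤ max K ((t + rQ + rP) / 2) :=
      max_le_max le_rfl (by linarith)
    linarith
  · refine hv2.mono ?_
    have : max K ((|L2| + t + altF w (U.filter fun v => 0 ≤ im B v) +
        altF w (U.filter fun v => ¬ 0 ≤ im B v)) / 2) ≤ max K ((t + rQ + rP) / 2) :=
      max_le_max le_rfl (by linarith)
    linarith

/-- a neutral set placed after `X` -/
lemma DD_late {a x : V → ℤ} {X T : Finset V} (hd : Disjoint X T)
    (hn : ∀ v ∈ T, ∑ u ∈ X, MM B u v * x u = 0) :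
    DD B a x (X ∪ T) = DD B a x X + DD B a x T := by
  have h1 : Int B X T x = 0 := by
    rw [Int_sum_right]
    refine Finset.sum_eq_zero fun w hw => ?_
    unfold Int
    simp only [Finset.sum_singleton]
    have : ∑ u ∈ X, MM B u w * (x u * x w) = (∑ u ∈ X, MM B u w * x u) * x w := by
      rw [Finset.sum_mul]
      exact Finset.sum_congr rfl fun u _ => by ring
    rw [this, hn w hw, zero_mul]
  unfold DD
  rw [Finset.sum_union hd, Qd_union hd, h1]
  ring

/-- the data of a run of the path -/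
structure RunD (B : V → V → ℤ) (h : V) (R C : Finset V) : Prop where
  B0 : ∀ u v, 0 ≤ B u v
  Bd : ∀ v, B v v = 0
  hR : h ∉ R
  hC : h ∉ C
  dj : Disjoint R C
  un : insert h (R ∪ C) = univ
  pos : 0 < im B h

lemma sum_neg_im (x : V → ℤ) (X : Finset V) :
    ∑ v ∈ X, (- im B v) * x v = - ∑ v ∈ X, im B v * x v := by
  rw [← Finset.sum_neg_distrib]
  exact Finset.sum_congr rfl fun v _ => by ring

/-- a crossing between `P` and `insert v P` -/
theorem RunD.cross {h : V} {R C : Finset V} (d : RunD B h R C) {x : V → ℤ}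
    (hx : ∀ v, x v = 1 ∨ x v = -1) {D : ℤ} {P : Finset V} {v : V} (hvP : v ∉ P)
    (hPR : insert v P ⊆ R) (hD1 : DD B (MM B h) x P ≤ D)
    (hD2 : DD B (MM B h) x (insert v P) ≤ D)
    (hc1 : 0 < im B h + ∑ u ∈ P, im B u * x u)
    (hc2 : im B h + ∑ u ∈ insert v P, im B u * x u ≤ 0)
    {M K t β θ : ℝ} (hst : St B (im B) C M K t) (hneg : ∀ u ∈ R \ P, im B u < 0)
    (hβ : ∀ u ∈ R \ P, |((im B u : ℤ) : ℝ)| ≤ β) (hK0 : 0 ≤ K)
    (h1 : (D : ℝ) + M + K ≤ θ) (h2 : (D : ℝ) + M + β ≤ θ)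
    (h3 : 2 * ((D : ℝ) + M) + t + β ≤ 2 * θ) : Val B θ := by
  have hvR : v ∈ R \ P := Finset.mem_sdiff.2 ⟨hPR (Finset.mem_insert_self _ _), hvP⟩
  have hβ0 : 0 ≤ β := (abs_nonneg _).trans (hβ v hvR)
  have e1 : ((∑ u ∈ P, (- im B u) * x u : ℤ) : ℝ) < ((im B h : ℤ) : ℝ) := by
    rw [sum_neg_im]
    have : - ∑ v ∈ P, im B v * x v < im B h := by linarith
    exact_mod_cast this
  have e2 : ((im B h : ℤ) : ℝ) ≤ ((∑ u ∈ insert v P, (- im B u) * x u : ℤ) : ℝ) := by
    rw [sum_neg_im]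
    have : im B h ≤ - ∑ u ∈ insert v P, im B u * x u := by linarith
    exact_mod_cast this
  have h4 := crossing_late d.Bd d.B0 h R C d.hR d.hC d.dj d.un hx hvP hPR
    (Db := (D : ℝ)) (by exact_mod_cast hD1) (by exact_mod_cast hD2) e1 e2
    (K := max K β) (hK0.trans (le_max_left _ _)) (hst.mono le_rfl (le_max_left _ _) le_rfl)
    (rQ := 0) (rP := β)
    (fun u hu hu0 => absurd (hneg u hu) (not_lt.2 hu0)) (hK0.trans (le_max_left _ _)) le_rfl
    (fun u hu hu0 => by
      have h5 := hβ u hu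
      have h6 : ((im B u : ℤ) : ℝ) < 0 := by exact_mod_cast hu0
      rwa [abs_of_neg h6] at h5) (le_max_right _ _) hβ0
  refine h4.mono ?_
  rw [add_zero, ← max_add_add_left, ← max_add_add_left]
  refine max_le (max_le ?_ ?_) ?_ <;> linarith

/-- the end of the path -/
theorem RunD.stop {h : V} {R C : Finset V} (d : RunD B h R C) {x : V → ℤ}
    (hx : ∀ v, x v = 1 ∨ x v = -1) {M K t θ : ℝ} (hst : St B (im B) C M K t) (hK0 : 0 ≤ K)
    (h1 : ((DD B (MM B h) x R : ℤ) : ℝ) + M + K ≤ θ)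
    (h2 : ((DD B (MM B h) x R : ℤ) : ℝ) + M +
      |((im B h + ∑ v ∈ R, im B v * x v : ℤ) : ℝ)| ≤ θ)
    (h3 : 2 * (((DD B (MM B h) x R : ℤ) : ℝ) + M) + t +
      |((im B h + ∑ v ∈ R, im B v * x v : ℤ) : ℝ)| ≤ 2 * θ) : Val B θ := by
  have hC' : C = (insert h R)ᶜ := by
    ext z
    have hz : z ∈ insert h (R ∪ C) := by rw [d.un]; exact Finset.mem_univ z
    simp only [Finset.mem_insert, Finset.mem_union] at hz
    simp only [Finset.mem_compl, Finset.mem_insert, not_or]
    constructor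
    · intro h3
      exact ⟨fun e => d.hC (e ▸ h3), fun h4 => Finset.disjoint_left.1 d.dj h4 h3⟩
    · rintro ⟨h3, h4⟩
      rcases hz with h5 | h5 | h5
      · exact absurd h5 h3
      · exact absurd h5 h4
      · exact h5
  rw [hC'] at hst
  refine (stopSt d.Bd h R d.hR x hx hK0 hst).mono ?_
  rw [← max_add_add_left, ← max_add_add_left]
  refine max_le (max_le ?_ ?_) ?_ <;> linarith

/-- the first failure along a list -/
lemma first_fail {α : Type*} (G : List α → Prop) (h0 : G []) (l : List α) :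
    G l ∨ ∃ l1 v l2, l = l1 ++ v :: l2 ∧ G l1 ∧ ¬ G (l1 ++ [v]) := by
  classical
  induction l using List.reverseRecOn with
  | nil => exact Or.inl h0
  | append_singleton l w ih =>
    rcases ih with h | ⟨l1, v, l2, h1, h2, h3⟩
    · by_cases h' : G (l ++ [w])
      · exact Or.inl h'
      · exact Or.inr ⟨l, w, [], rfl, h, h'⟩
    · exact Or.inr ⟨l1, v, l2 ++ [w], by rw [h1]; simp, h2, h3⟩

/-- the sum of multiplicities of a set -/
lemma sum_MM_le {a : V → ℤ} (ha : ∀ v, 0 ≤ a v ∧ a v ≤ 2) (F : Finset V) :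
    ∑ v ∈ F, a v ≤ F.card + ch a F := by
  have h4 : ∑ v ∈ F, a v ≤ ∑ v ∈ F, (1 + if a v = 1 then (0 : ℤ) else 1) := by
    refine Finset.sum_le_sum fun v _ => ?_
    have := ch_bounds ha v
    linarith [this.2]
  rw [Finset.sum_add_distrib, Finset.sum_const, nsmul_eq_mul, mul_one] at h4
  unfold ch
  linarith

/-- **The path with a budget**, after the blocks and the harmless vertices have been placed. -/
theorem bud_core {h : V} {R C X Hm : Finset V} (d : RunD B h R C)
    (ha : ∀ v, 0 ≤ MM B h v ∧ MM B h v ≤ 2)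
    {x1 : V → ℤ} (hx1 : ∀ v, x1 v = 1 ∨ x1 v = -1) {b DX D0 β0 : ℤ} (hb : 0 ≤ b)
    (hP : PathB B (MM B h) x1 b X) (hXH : X ∪ Hm = R) (hdX : Disjoint X Hm)
    (hind : ∀ u ∈ Hm, ∀ v ∈ Hm, MM B u v = 0)
    (hn : ∀ v ∈ Hm, ∑ u ∈ X, MM B u v * x1 u = 0)
    (hH : ∀ v ∈ Hm, im B v + MM B h v < 0 ∧ 1 ≤ MM B h v)
    (hDX : DD B (MM B h) x1 X ≤ DX) (hD0 : DX + ch (MM B h) Hm ≤ D0)
    (hβ0 : DD B (MM B h) x1 X + ∑ v ∈ X, im B v * x1 v + im B h ≤ β0)
    (l : List V) (hl : l.Nodup) (hlH : ∀ v ∈ l, v ∈ Hm)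
    {M K t θ : ℝ} (hst : St B (im B) C M K t) (hK0 : 0 ≤ K)
    (H1 : ∀ l1 v l2, l = l1 ++ v :: l2 → ∀ w ∈ Hm, w ∉ l1 →
      (D0 : ℝ) + l1.length + 1 + M + |((im B w : ℤ) : ℝ)| ≤ θ ∧
      2 * ((D0 : ℝ) + l1.length + 1 + M) + t + |((im B w : ℤ) : ℝ)| ≤ 2 * θ)
    (HK : (D0 : ℝ) + l.length + 1 + M + K ≤ θ)
    (H3 : ∀ w ∈ Hm, w ∉ l → (D0 : ℝ) + l.length + M + |((im B w : ℤ) : ℝ)| ≤ θ ∧
      2 * ((D0 : ℝ) + l.length + M) + 1 + t + |((im B w : ℤ) : ℝ)| ≤ 2 * θ)
    (HT : (β0 : ℝ) + ((∑ v ∈ l.toFinset, (im B v + MM B h v) : ℤ) : ℝ) + M ≤ θ)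
    (HT2 : (D0 : ℝ) + l.length + 1 + ((β0 : ℝ) +
      ((∑ v ∈ l.toFinset, (im B v + MM B h v) : ℤ) : ℝ)) + 2 * M + t ≤ 2 * θ) :
    Cr B R C b ∨ Val B θ := by
  classical
  set a := MM B h with hadef
  -- a crossing inside `X`
  rcases lt_or_ge 0 (im B h + ∑ v ∈ X, im B v * x1 v) with hLX | hLX
  swap
  · left
    intro M K t rQ rP hK hst a1 a2 a3 a4 a5 a6
    have hc : ((im B h : ℤ) : ℝ) ≤ ((∑ v ∈ X, (- im B v) * x1 v : ℤ) : ℝ) := by
      rw [sum_neg_im]
      have : im B h ≤ - ∑ v ∈ X, im B v * x1 v := by linarith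
      exact_mod_cast this
    obtain ⟨P, v, hvP, hPR, hD1, hD2, hc1, hc2⟩ := hP.cross (t := fun v => - im B v) hb
      ((im B h : ℤ) : ℝ) (by exact_mod_cast d.pos) hc
    exact crossing_core d.Bd d.B0 h R C d.hR d.hC d.dj d.un hx1 hvP
      (hPR.trans (by rw [← hXH]; exact Finset.subset_union_left)) (by exact_mod_cast hD1)
      (by exact_mod_cast hD2) hc1 hc2 hK hst a1 a2 a3 a4 a5 a6
  right
  set T : Finset V := Hm \ l.toFinset with hT
  have hTH : T ⊆ Hm := Finset.sdiff_subset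
  have hlH' : l.toFinset ⊆ Hm := fun v hv => hlH v (List.mem_toFinset.1 hv)
  have hcardl : (l.toFinset.card : ℤ) = l.length := by
    rw [List.toFinset_card_of_nodup hl]
  have hchH : ch a Hm = ch a T + ch a l.toFinset := by
    unfold ch
    rw [hT, Finset.sum_sdiff hlH']
  have hchT0 : 0 ≤ ch a T := ch_nonneg _
  obtain ⟨x2, b1, _, b3, b4⟩ := place d.Bd ha (im B) (b := ch a T) T.card T ∅ (fun _ => 1) rfl
    (fun _ => Or.inl rfl) PathB.empty (Finset.disjoint_empty_left _) (by rw [DD_empty]; exact hchT0)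
    (fun v hv h2 => by
      rw [DD_empty, zero_add]
      unfold ch
      have h4 : (if a v = 1 then 0 else 1) ≤ ∑ v ∈ T, (if a v = 1 then (0 : ℤ) else 1) :=
        Finset.single_le_sum (f := fun v => if a v = 1 then (0 : ℤ) else 1)
          (fun i _ => by split_ifs <;> norm_num) hv
      rw [h2] at h4
      norm_num at h4
      exact h4)
    (fun v _ => by simp) (fun u hu v hv => hind u (hTH hu) v (hTH hv))
  rw [Finset.empty_union, DD_empty] at b3
  rw [Finset.empty_union, DD_empty, Finset.sum_empty] at b4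
  have hharm0 : 0 ≤ ∑ v ∈ T.filter (Harm a (im B)), |a v + im B v| :=
    Finset.sum_nonneg fun v _ => abs_nonneg _
  -- the final signs
  set x : V → ℤ := fun v => if v ∈ l then 1 else if v ∈ X then x1 v else x2 v with hxdef
  have hx : ∀ v, x v = 1 ∨ x v = -1 := by
    intro v
    simp only [hxdef]
    split_ifs
    · exact Or.inl rfl
    · exact hx1 v
    · exact b1 v
  have hxl : ∀ v ∈ l, x v = 1 := by
    intro v hv
    simp [hxdef, hv]
  have hxX : ∀ v ∈ X, x v = x1 v := by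
    intro v hv
    have h2 : v ∉ l := fun h' => Finset.disjoint_left.1 hdX hv (hlH v h')
    simp [hxdef, h2, hv]
  have hxT : ∀ v ∈ T, x v = x2 v := by
    intro v hv
    have h2 : v ∉ l := fun h' => (Finset.mem_sdiff.1 hv).2 (List.mem_toFinset.2 h')
    have h3 : v ∉ X := fun h' => Finset.disjoint_left.1 hdX h' (hTH hv)
    simp [hxdef, h2, h3]
  have hnx : ∀ v ∈ Hm, ∑ u ∈ X, MM B u v * x u = 0 := by
    intro v hv
    rw [← hn v hv]
    exact Finset.sum_congr rfl fun u hu => by rw [hxX u hu]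
  have hDDP : ∀ (y : V → ℤ) (P : Finset V), P ⊆ Hm → DD B a y P = ∑ v ∈ P, a v * y v := by
    intro y P hPH
    unfold DD
    rw [Qd_indep d.B0 (fun u hu v hv => hind u (hPH hu) v (hPH hv)), add_zero]
  have hDDX : ∀ P ⊆ Hm, DD B a x (X ∪ P) = DD B a x1 X + ∑ v ∈ P, a v * x v := by
    intro P hPH
    rw [DD_late (Finset.disjoint_of_subset_right hPH hdX) (fun v hv => hnx v (hPH hv)),
      DD_congr hxX, hDDP x P hPH]
  have hLP : ∀ P ⊆ Hm, ∑ v ∈ X ∪ P, im B v * x v = ∑ v ∈ X, im B v * x1 v +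
      ∑ v ∈ P, im B v * x v := by
    intro P hPH
    rw [Finset.sum_union (Finset.disjoint_of_subset_right hPH hdX)]
    congr 1
    exact Finset.sum_congr rfl fun u hu => by rw [hxX u hu]
  have hRP : ∀ P ⊆ Hm, R \ (X ∪ P) = Hm \ P := by
    intro P hPH
    rw [← hXH]
    ext z
    simp only [Finset.mem_sdiff, Finset.mem_union, not_or]
    constructor
    · rintro ⟨h1 | h1, h2, h3⟩
      · exact absurd h1 h2
      · exact ⟨h1, h3⟩
    · rintro ⟨h1, h2⟩
      exact ⟨Or.inr h1, fun h' => Finset.disjoint_left.1 hdX h' h1, h2⟩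
  have hsub : ∀ P ⊆ Hm, X ∪ P ⊆ R := by
    intro P hPH
    rw [← hXH]
    exact Finset.union_subset_union le_rfl hPH
  -- bounds for the multiplicities
  have hsum : ∀ F ⊆ Hm, ∑ v ∈ F, a v ≤ F.card + ch a Hm := by
    intro F hF
    have h2 := sum_MM_le ha F
    have h3 := ch_mono (a := a) hF
    linarith
  -- a general crossing
  have crossP : ∀ (P : Finset V) (v : V), v ∉ P → insert v P ⊆ Hm → ∀ D : ℤ,
      DD B a x1 X + ∑ u ∈ P, a u * x u ≤ D →
      DD B a x1 X + ∑ u ∈ insert v P, a u * x u ≤ D →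
      0 < im B h + ∑ u ∈ X ∪ P, im B u * x u →
      im B h + ∑ u ∈ X ∪ insert v P, im B u * x u ≤ 0 →
      (D : ℝ) + M + K ≤ θ →
      (∀ w ∈ Hm \ P, (D : ℝ) + M + |((im B w : ℤ) : ℝ)| ≤ θ ∧
        2 * ((D : ℝ) + M) + t + |((im B w : ℤ) : ℝ)| ≤ 2 * θ) → Val B θ := by
    intro P v hvP hPH D hD1 hD2 hc1 hc2 hK hw
    have hPH' : P ⊆ Hm := (Finset.subset_insert _ _).trans hPH
    have hvH : v ∈ Hm := hPH (Finset.mem_insert_self _ _)
    have hvX : v ∉ X := fun h' => Finset.disjoint_left.1 hdX h' hvH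
    have hne : (Hm \ P).Nonempty := ⟨v, Finset.mem_sdiff.2 ⟨hvH, hvP⟩⟩
    obtain ⟨w, hwm, hwmax⟩ := Finset.exists_max_image (Hm \ P)
      (fun u => |((im B u : ℤ) : ℝ)|) hne
    obtain ⟨w1, w2⟩ := hw w hwm
    have e : X ∪ insert v P = insert v (X ∪ P) := Finset.union_insert _ _ _
    refine d.cross hx (P := X ∪ P) (v := v) (D := D)
      (by simp only [Finset.mem_union, not_or]; exact ⟨hvX, hvP⟩)
      (by rw [← e]; exact hsub _ hPH) (by rw [hDDX P hPH']; exact hD1)
      (by rw [← e, hDDX _ hPH]; exact hD2) hc1 (by rw [← e]; exact hc2) hst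
      (β := |((im B w : ℤ) : ℝ)|) ?_ ?_ hK0 hK w1 w2
    · intro u hu
      rw [hRP P hPH', Finset.mem_sdiff] at hu
      have := hH u hu.1
      linarith
    · intro u hu
      rw [hRP P hPH'] at hu
      exact hwmax u hu
  -- along the list
  rcases first_fail (fun l' : List V => (∀ v ∈ l', v ∈ l) →
      0 < im B h + ∑ u ∈ X ∪ l'.toFinset, im B u * x u) (by
        intro _
        simp only [List.toFinset_nil, Finset.union_empty]
        rw [Finset.sum_congr rfl fun u hu => by rw [hxX u hu]]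
        exact hLX) l with hgood | ⟨l1, v, l2, he, hg1, hg2⟩
  swap
  · -- crossing at a vertex of the list
    push Not at hg2
    obtain ⟨hg2, hg3⟩ := hg2
    have hvl : v ∈ l := by rw [he]; simp
    have hl1 : ∀ u ∈ l1, u ∈ l := by intro u hu; rw [he]; simp [hu]
    have hg1' := hg1 hl1
    rw [he] at hl
    have hnd := List.nodup_append.1 hl
    have hvl1 : v ∉ l1 := by
      intro h'
      exact hnd.2.2 v h' v (by simp) rfl
    have hl1nd : l1.Nodup := hnd.1
    have hPH : insert v l1.toFinset ⊆ Hm := by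
      intro u hu
      rw [Finset.mem_insert, List.mem_toFinset] at hu
      rcases hu with rfl | hu
      · exact hlH _ hvl
      · exact hlH u (hl1 u hu)
    have e2 : (l1 ++ [v]).toFinset = insert v l1.toFinset := by
      ext z
      simp only [List.mem_toFinset, List.mem_append, List.mem_singleton, Finset.mem_insert]
      tauto
    rw [e2] at hg3
    have hs1 : ∀ F : Finset V, F ⊆ insert v l1.toFinset → ∑ u ∈ F, a u * x u = ∑ u ∈ F, a u := by
      intro F hF
      refine Finset.sum_congr rfl fun u hu => ?_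
      have h4 := hF hu
      rw [Finset.mem_insert, List.mem_toFinset] at h4
      rcases h4 with rfl | h4
      · rw [hxl _ hvl, mul_one]
      · rw [hxl u (hl1 u h4), mul_one]
    have hc1 : ((insert v l1.toFinset).card : ℤ) = l1.length + 1 := by
      rw [Finset.card_insert_of_notMem (by rwa [List.mem_toFinset]),
        List.toFinset_card_of_nodup hl1nd]
      push_cast
      ring
    have h5 := hsum _ hPH
    rw [hc1] at h5
    have h6 : ∑ u ∈ l1.toFinset, a u ≤ ∑ u ∈ insert v l1.toFinset, a u :=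
      Finset.sum_le_sum_of_subset_of_nonneg (Finset.subset_insert _ _) fun u _ _ => (ha u).1
    have h7 : (l1.length : ℝ) + 1 ≤ l.length := by
      have : l1.length + 1 ≤ l.length := by
        rw [he]
        simp only [List.length_append, List.length_cons]
        omega
      exact_mod_cast this
    refine crossP l1.toFinset v (by rwa [List.mem_toFinset]) hPH (D0 + l1.length + 1)
      (by rw [hs1 _ (Finset.subset_insert _ _)]; linarith)
      (by rw [hs1 _ (Finset.Subset.refl _)]; linarith) hg1' hg3 ?_ ?_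
    · push_cast
      linarith
    · intro w hw
      rw [Finset.mem_sdiff, List.mem_toFinset] at hw
      obtain ⟨w1, w2⟩ := H1 l1 v l2 he w hw.1 hw.2
      push_cast
      exact ⟨by linarith, by linarith⟩
  -- the rest
  have hgood' := hgood fun v hv => hv
  have hsl : ∑ u ∈ l.toFinset, a u * x u = ∑ u ∈ l.toFinset, a u :=
    Finset.sum_congr rfl fun u hu => by rw [hxl u (List.mem_toFinset.1 hu), mul_one]
  have hsl2 : ∑ u ∈ l.toFinset, im B u * x u = ∑ u ∈ l.toFinset, im B u :=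
    Finset.sum_congr rfl fun u hu => by rw [hxl u (List.mem_toFinset.1 hu), mul_one]
  have hsuml := sum_MM_le ha l.toFinset
  rw [hcardl] at hsuml
  -- crossing inside a part of `T`
  have crossT : ∀ T' ⊆ T, PathB B a x2 (ch a T) T' →
      im B h + ∑ u ∈ X ∪ (l.toFinset ∪ T'), im B u * x u ≤ 0 → Val B θ := by
    intro T' hT'T hPT hL
    have hT'H : T' ⊆ Hm := hT'T.trans hTH
    have hdT : Disjoint l.toFinset T' := by
      rw [Finset.disjoint_right]
      intro u hu
      exact (Finset.mem_sdiff.1 (hT'T hu)).2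
    have hlT : l.toFinset ∪ T' ⊆ Hm := Finset.union_subset hlH' hT'H
    set c : ℤ := im B h + ∑ u ∈ X ∪ l.toFinset, im B u * x u with hc
    have hsumT : ∀ P ⊆ T', ∑ u ∈ X ∪ (l.toFinset ∪ P), im B u * x u =
        ∑ u ∈ X ∪ l.toFinset, im B u * x u + ∑ u ∈ P, im B u * x2 u := by
      intro P hP
      have hdP : Disjoint l.toFinset P := Finset.disjoint_of_subset_right hP hdT
      have e4 : ∑ u ∈ P, im B u * x u = ∑ u ∈ P, im B u * x2 u :=
        Finset.sum_congr rfl fun u hu => by rw [hxT u (hT'T (hP hu))]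
      rw [hLP _ (Finset.union_subset hlH' (hP.trans hT'H)), hLP _ hlH',
        Finset.sum_union hdP, e4]
      ring
    have hcT : (c : ℝ) ≤ ((∑ v ∈ T', (- im B v) * x2 v : ℤ) : ℝ) := by
      rw [sum_neg_im]
      have h5 := hsumT T' (Finset.Subset.refl _)
      have : c ≤ - ∑ v ∈ T', im B v * x2 v := by
        rw [hc]
        linarith
      exact_mod_cast this
    obtain ⟨P, v, hvP, hPT', hD1, hD2, hc1, hc2⟩ := hPT.cross (t := fun v => - im B v) hchT0
      (c : ℝ) (by exact_mod_cast hgood') hcT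
    rw [sum_neg_im] at hc1 hc2
    have hc1' : - ∑ v ∈ P, im B v * x2 v < c := by exact_mod_cast hc1
    have hc2' : c ≤ - ∑ v ∈ insert v P, im B v * x2 v := by exact_mod_cast hc2
    have hPT2 : P ⊆ T' := (Finset.subset_insert _ _).trans hPT'
    have hvT' : v ∈ T' := hPT' (Finset.mem_insert_self _ _)
    have hvl : v ∉ l.toFinset := Finset.disjoint_right.1 hdT hvT'
    have e3 : insert v (l.toFinset ∪ P) = l.toFinset ∪ insert v P :=
      (Finset.union_insert _ _ _).symm
    have hsa : ∀ P ⊆ T', ∑ u ∈ l.toFinset ∪ P, a u * x u =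
        ∑ u ∈ l.toFinset, a u + DD B a x2 P := by
      intro P hP
      rw [Finset.sum_union (Finset.disjoint_of_subset_right hP hdT), hsl,
        hDDP x2 P (hP.trans hT'H)]
      congr 1
      exact Finset.sum_congr rfl fun u hu => by rw [hxT u (hT'T (hP hu))]
    refine crossP (l.toFinset ∪ P) v ?_ ?_ (D0 + l.length) ?_ ?_ ?_ ?_ ?_ ?_
    · simp only [Finset.mem_union, not_or]
      exact ⟨hvl, hvP⟩
    · rw [e3]
      exact Finset.union_subset hlH' (hPT'.trans hT'H)
    · rw [hsa P hPT2]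
      linarith
    · rw [e3, hsa _ hPT']
      linarith
    · rw [hsumT P hPT2]
      linarith
    · rw [e3, hsumT _ hPT']
      linarith
    · push_cast
      linarith
    · intro w hw
      rw [Finset.mem_sdiff, Finset.mem_union, not_or, List.mem_toFinset] at hw
      obtain ⟨w1, w2⟩ := H3 w hw.1 hw.2.1
      push_cast
      exact ⟨by linarith, by linarith⟩
  have hHl : Hm = l.toFinset ∪ T := by
    rw [hT, Finset.union_sdiff_of_subset hlH']
  have hdlT : Disjoint l.toFinset T := Finset.disjoint_sdiff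
  have hReq : R = X ∪ (l.toFinset ∪ T) := by rw [← hHl, hXH]
  have hsT : ∑ u ∈ T, a u * x u = DD B a x2 T := by
    rw [hDDP x2 T hTH]
    exact Finset.sum_congr rfl fun u hu => by rw [hxT u hu]
  have hDDR : DD B a x R = DD B a x1 X + ∑ u ∈ l.toFinset, a u + DD B a x2 T := by
    rw [hReq, hDDX _ (by rw [← hHl]), Finset.sum_union hdlT, hsl, hsT]
    ring
  have hLR : ∑ u ∈ R, im B u * x u = ∑ u ∈ X, im B u * x1 u + ∑ u ∈ l.toFinset, im B u +
      ∑ u ∈ T, im B u * x2 u := by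
    have e4 : ∑ u ∈ T, im B u * x u = ∑ u ∈ T, im B u * x2 u :=
      Finset.sum_congr rfl fun u hu => by rw [hxT u hu]
    rw [hReq, hLP _ (by rw [← hHl]), Finset.sum_union hdlT, hsl2, e4]
    ring
  have hfin : DD B a x R + (im B h + ∑ u ∈ R, im B u * x u) ≤
      β0 + ∑ v ∈ l.toFinset, (im B v + a v) := by
    rw [hDDR, hLR, Finset.sum_add_distrib]
    linarith
  have hfin' : ((DD B a x R : ℤ) : ℝ) + ((im B h + ∑ u ∈ R, im B u * x u : ℤ) : ℝ) ≤
      (β0 : ℝ) + ((∑ v ∈ l.toFinset, (im B v + a v) : ℤ) : ℝ) := by exact_mod_cast hfin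
  rcases b3 with ⟨b3, b5⟩ | ⟨y, hyT, c1, c2, c3, c4, c5, c6⟩
  · have hDle : DD B a x R ≤ D0 + l.length := by
      rw [hDDR]
      linarith
    have hDle' : ((DD B a x R : ℤ) : ℝ) ≤ (D0 : ℝ) + l.length := by exact_mod_cast hDle
    rcases lt_or_ge 0 (im B h + ∑ u ∈ R, im B u * x u) with hL | hL
    · have hLr : (0 : ℝ) < ((im B h + ∑ u ∈ R, im B u * x u : ℤ) : ℝ) := by exact_mod_cast hL
      refine d.stop hx hst hK0 (by linarith) ?_ ?_
      · rw [abs_of_pos hLr]
        linarith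
      · rw [abs_of_pos hLr]
        linarith
    · rw [hReq] at hL
      exact crossT T (Finset.Subset.refl _) b3 hL
  · have hTe : T.erase y ⊆ T := Finset.erase_subset _ _
    have hyH : y ∈ Hm := hTH hyT
    have hyl : y ∉ l := fun h' => (Finset.mem_sdiff.1 hyT).2 (List.mem_toFinset.2 h')
    rcases lt_or_ge 0 (im B h + ∑ u ∈ X ∪ (l.toFinset ∪ T.erase y), im B u * x u) with hL | hL
    swap
    · exact crossT _ hTe c1 hL
    have hle2 : ∑ u ∈ R, im B u * x u = im B y +
        ∑ u ∈ X ∪ (l.toFinset ∪ T.erase y), im B u * x u := by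
      have hxy : x y = 1 := by rw [hxT y hyT, c6]
      have h8 : insert y (X ∪ (l.toFinset ∪ T.erase y)) = R := by
        rw [hReq]
        ext z
        simp only [Finset.mem_insert, Finset.mem_union, Finset.mem_erase]
        by_cases hz : z = y
        · subst hz; simp [hyT]
        · simp [hz]
      have h9 : y ∉ X ∪ (l.toFinset ∪ T.erase y) := by
        simp only [Finset.mem_union, not_or, List.mem_toFinset]
        exact ⟨fun h' => Finset.disjoint_left.1 hdX h' hyH, hyl, Finset.notMem_erase _ _⟩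
      rw [← h8, Finset.sum_insert h9, hxy, mul_one]
    have hyl2 : y ∉ l.toFinset := by rwa [List.mem_toFinset]
    have h10 := hsum (insert y l.toFinset) (by
      intro z hz
      rw [Finset.mem_insert] at hz
      rcases hz with rfl | hz
      · exact hyH
      · exact hlH' hz)
    rw [Finset.sum_insert hyl2, Finset.card_insert_of_notMem hyl2] at h10
    push_cast at h10
    rw [List.toFinset_card_of_nodup hl] at h10
    have hDle : DD B a x R ≤ D0 + l.length + 1 := by
      rw [hDDR, c4]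
      linarith
    have hDle' : ((DD B a x R : ℤ) : ℝ) ≤ (D0 : ℝ) + l.length + 1 := by exact_mod_cast hDle
    rcases lt_or_ge 0 (im B h + ∑ u ∈ R, im B u * x u) with hL2 | hL2
    · have hLr : (0 : ℝ) < ((im B h + ∑ u ∈ R, im B u * x u : ℤ) : ℝ) := by exact_mod_cast hL2
      refine d.stop hx hst hK0 (by linarith) ?_ ?_
      · rw [abs_of_pos hLr]
        linarith
      · rw [abs_of_pos hLr]
        linarith
    · have hLr : ((im B h + ∑ u ∈ R, im B u * x u : ℤ) : ℝ) ≤ 0 := by exact_mod_cast hL2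
      obtain ⟨w1, w2⟩ := H3 y hyH hyl
      have hyneg : im B y < 0 := by have := hH y hyH; linarith
      have hynegr : ((im B y : ℤ) : ℝ) < 0 := by exact_mod_cast hyneg
      have h11 : -(im B h + ∑ u ∈ R, im B u * x u) ≤ - im B y - 1 := by
        rw [hle2]
        linarith
      have h12 : |((im B h + ∑ u ∈ R, im B u * x u : ℤ) : ℝ)| ≤ |((im B y : ℤ) : ℝ)| - 1 := by
        rw [abs_of_nonpos hLr, abs_of_neg hynegr]
        exact_mod_cast h11
      refine d.stop hx hst hK0 (by linarith) ?_ ?_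
      · linarith
      · linarith

open Classical in
/-- the harmful vertices -/
noncomputable def Hmf (B : V → V → ℤ) (h : V) (S : Finset V) : Finset V :=
  S.filter fun v => ¬ Harm (MM B h) (im B) v

lemma Hmf_sub (h : V) (S : Finset V) : Hmf B h S ⊆ S := by
  intro v hv
  unfold Hmf at hv
  simp only [Finset.mem_filter] at hv
  exact hv.1

lemma mem_Hmf (h0 : ∀ u v, 0 ≤ B u v) (h : V) (S : Finset V) (v : V) :
    v ∈ Hmf B h S ↔ v ∈ S ∧ im B v + MM B h v < 0 ∧ 1 ≤ MM B h v := by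
  unfold Hmf Harm
  simp only [Finset.mem_filter]
  have ha : 0 ≤ MM B h v := by
    unfold MM
    linarith [h0 h v, h0 v h]
  constructor
  · rintro ⟨h1, h2⟩
    push Not at h2
    refine ⟨h1, h2.1, ?_⟩
    have := h2.2
    omega
  · rintro ⟨h1, h2, h3⟩
    refine ⟨h1, ?_⟩
    push Not
    exact ⟨h2, by omega⟩

/-- **The path with a budget.** -/
theorem path_bud (h0 : ∀ u v, 0 ≤ B u v) (h1 : ∀ u v, B u v ≤ 1) (hB : ∀ v, B v v = 0)
    (h : V) (hq : 0 < im B h) {Rs S C : Finset V} {g : ℤ} (hbl : BlocksN B S Rs g)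
    (hdS : Disjoint Rs S) (hind : ∀ u ∈ S, ∀ v ∈ S, MM B u v = 0)
    (hhR : h ∉ Rs ∪ S) (hC : h ∉ C) (hd : Disjoint (Rs ∪ S) C)
    (hu : insert h ((Rs ∪ S) ∪ C) = univ) :
    ∃ nb : ℤ, 0 ≤ nb ∧ (Rs.Nonempty → 1 ≤ nb) ∧ (Rs.card : ℤ) ≤ g + nb ∧
      ∀ cR e : ℤ, ch (MM B h) (Rs ∪ S) ≤ cR → e ≤ 1 → (Rs = ∅ → e ≤ 0) →
      Cr B (Rs ∪ S) C ((max 0 (cR - e) : ℤ) : ℝ) ∨
      ∀ (l : List V), l.Nodup → (∀ v ∈ l, v ∈ Hmf B h S) → ∀ M K t θ : ℝ,
        St B (im B) C M K t → 0 ≤ K →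
        (∀ l1 v l2, l = l1 ++ v :: l2 → ∀ w ∈ Hmf B h S, w ∉ l1 →
          ((cR - nb : ℤ) : ℝ) + l1.length + 1 + M + |((im B w : ℤ) : ℝ)| ≤ θ ∧
          2 * (((cR - nb : ℤ) : ℝ) + l1.length + 1 + M) + t + |((im B w : ℤ) : ℝ)| ≤ 2 * θ) →
        ((cR - nb : ℤ) : ℝ) + l.length + 1 + M + K ≤ θ →
        (∀ w ∈ Hmf B h S, w ∉ l →
          ((cR - nb : ℤ) : ℝ) + l.length + M + |((im B w : ℤ) : ℝ)| ≤ θ ∧
          2 * (((cR - nb : ℤ) : ℝ) + l.length + M) + 1 + t + |((im B w : ℤ) : ℝ)| ≤ 2 * θ) →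
        ((im B h - g - Gam B h S : ℤ) : ℝ) +
          ((∑ v ∈ l.toFinset, (im B v + MM B h v) : ℤ) : ℝ) + M ≤ θ →
        ((cR - nb : ℤ) : ℝ) + l.length + 1 + (((im B h - g - Gam B h S : ℤ) : ℝ) +
          ((∑ v ∈ l.toFinset, (im B v + MM B h v) : ℤ) : ℝ)) + 2 * M + t ≤ 2 * θ →
        Val B θ := by
  classical
  have ha : ∀ v, 0 ≤ MM B h v ∧ MM B h v ≤ 2 := fun v => MM_range h0 h1 h v
  obtain ⟨x0, nb, hx0, hq0, hg0, hg0', hneu, hcard, hnb0, hnb1, hDD, hDD'⟩ :=
    hbl.realise2 h0 hB ha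
  refine ⟨nb, hnb0, hnb1, hcard, ?_⟩
  intro cR e hcR he1 he
  by_cases hCr : Cr B (Rs ∪ S) C ((max 0 (cR - e) : ℤ) : ℝ)
  · exact Or.inl hCr
  right
  intro l hl hlH M K t θ hst hK0 H1 HK H3 HT HT2
  have hnbe : e ≤ nb := by
    rcases Rs.eq_empty_or_nonempty with h3 | h3
    · exact (he h3).trans hnb0
    · exact he1.trans (hnb1 h3)
  have hchU : ch (MM B h) (Rs ∪ S) = ch (MM B h) Rs + ch (MM B h) S := ch_union hdS
  have hchS0 : 0 ≤ ch (MM B h) S := ch_nonneg _
  set b : ℤ := max 0 (cR - e) with hbdef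
  have hb0 : 0 ≤ b := le_max_left _ _
  have hb1 : cR - e ≤ b := le_max_right _ _
  -- the sign
  obtain ⟨x, hx, hqx, hgx, hnx, hDx, hsx⟩ : ∃ x : V → ℤ, (∀ v, x v = 1 ∨ x v = -1) ∧
      Qd B Rs x ≤ -g ∧ GoodE B (MM B h) x 1 Rs ∧ (∀ z ∈ S, ∑ u ∈ Rs, MM B u z * x u = 0) ∧
      DD B (MM B h) x Rs ≤ ch (MM B h) Rs - nb ∧ ∑ v ∈ Rs, (MM B h v + im B v) * x v ≤ 0 := by
    rcases le_total (∑ v ∈ Rs, (MM B h v + im B v) * x0 v) 0 with h3 | h3
    · exact ⟨x0, hx0, hq0, hg0, hneu, hDD, h3⟩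
    · refine ⟨fun v => - x0 v, ?_, ?_, hg0', ?_, hDD', ?_⟩
      · intro v
        rcases hx0 v with h | h <;> simp [h]
      · rw [Qd_neg]; exact hq0
      · intro z hz
        have : ∑ u ∈ Rs, MM B u z * - x0 u = - ∑ u ∈ Rs, MM B u z * x0 u := by
          rw [← Finset.sum_neg_distrib]
          exact Finset.sum_congr rfl fun v _ => by ring
        rw [this, hneu z hz, neg_zero]
      · have : ∑ v ∈ Rs, (MM B h v + im B v) * - x0 v = - ∑ v ∈ Rs, (MM B h v + im B v) * x0 v := by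
          rw [← Finset.sum_neg_distrib]
          exact Finset.sum_congr rfl fun v _ => by ring
        rw [this]; linarith
  have hxe : DD B (MM B h) x Rs + ∑ v ∈ Rs, im B v * x v =
      Qd B Rs x + ∑ v ∈ Rs, (MM B h v + im B v) * x v := by
    unfold DD
    rw [add_comm (∑ v ∈ Rs, MM B h v * x v), add_assoc, ← Finset.sum_add_distrib]
    congr 1
    exact Finset.sum_congr rfl fun v _ => by ring
  have hPx : PathB B (MM B h) x b Rs := by
    refine hgx.toPathB fun P hP _ => ?_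
    have := ch_mono (a := MM B h) hP
    linarith
  -- the harmless vertices
  set N : Finset V := S.filter (Harm (MM B h) (im B)) with hN
  set Hm : Finset V := Hmf B h S with hHm
  have hNS : N ⊆ S := Finset.filter_subset _ _
  have hHS : Hm ⊆ S := Finset.filter_subset _ _
  have hNH : N ∪ Hm = S := by
    rw [hN, hHm]
    unfold Hmf
    ext z
    simp only [Finset.mem_union, Finset.mem_filter]
    constructor
    · rintro (h3 | h3) <;> exact h3.1
    · intro h3
      by_cases h4 : Harm (MM B h) (im B) z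
      · exact Or.inl ⟨h3, h4⟩
      · exact Or.inr ⟨h3, h4⟩
  have hdNH : Disjoint N Hm := by
    rw [Finset.disjoint_left]
    intro z hz hz'
    rw [hN, Finset.mem_filter] at hz
    rw [hHm, Hmf, Finset.mem_filter] at hz'
    exact hz'.2 hz.2
  have hchS : ch (MM B h) S = ch (MM B h) N + ch (MM B h) Hm := by
    rw [← hNH, ch_union hdNH]
  have hchN0 : 0 ≤ ch (MM B h) N := ch_nonneg _
  have hchH0 : 0 ≤ ch (MM B h) Hm := ch_nonneg _
  obtain ⟨x', b1, b2, b3, b4⟩ := place hB ha (im B) (b := b) N.card N Rs x rfl hx hPx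
    (Finset.disjoint_of_subset_right hNS hdS) (by linarith)
    (fun v hv h2 => by
      have h4 : (if MM B h v = 1 then 0 else 1) ≤ ch (MM B h) S := by
        unfold ch
        exact Finset.single_le_sum (f := fun v => if MM B h v = 1 then (0 : ℤ) else 1)
          (fun i _ => by split_ifs <;> norm_num) (hNS hv)
      rw [h2] at h4
      norm_num at h4
      linarith)
    (fun v hv => hnx v (hNS hv)) (fun u hu v hv => hind u (hNS hu) v (hNS hv))
  have b3' : PathB B (MM B h) x' b (Rs ∪ N) ∧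
      DD B (MM B h) x' (Rs ∪ N) ≤ DD B (MM B h) x Rs + ch (MM B h) N := by
    rcases b3 with h3 | ⟨y, hy, h3, h4, h5⟩
    · exact h3
    · exfalso
      rw [hN, Finset.mem_filter] at hy
      rcases hy.2 with h6 | h6
      · linarith
      · linarith
  have hNf : ∑ v ∈ N.filter (Harm (MM B h) (im B)), |MM B h v + im B v| = Gam B h S := by
    unfold Gam
    have e1 : N.filter (Harm (MM B h) (im B)) = N := by
      rw [Finset.filter_eq_self]
      intro z hz
      rw [hN, Finset.mem_filter] at hz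
      exact hz.2
    rw [e1, hN]
  rw [hNf] at b4
  have hdis : Disjoint (Rs ∪ N) Hm := by
    rw [Finset.disjoint_union_left]
    exact ⟨Finset.disjoint_of_subset_right hHS hdS, hdNH⟩
  have hun : (Rs ∪ N) ∪ Hm = Rs ∪ S := by rw [Finset.union_assoc, hNH]
  have d : RunD B h (Rs ∪ S) C := ⟨h0, hB, hhR, hC, hd, hu, hq⟩
  have hdRN : Disjoint Rs N := Finset.disjoint_of_subset_right hNS hdS
  refine (bud_core d ha b1 (b := b) (DX := ch (MM B h) Rs - nb + ch (MM B h) N)
    (D0 := cR - nb) (β0 := im B h - g - Gam B h S) hb0 b3'.1 hun hdis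
    (fun u hu v hv => hind u (hHS hu) v (hHS hv)) ?_ ?_ ?_ ?_ ?_ l hl hlH hst hK0 H1 HK H3 HT
    HT2).resolve_left hCr
  · intro v hv
    have hvS := hHS hv
    rw [Finset.sum_union hdRN]
    have h6 : ∑ u ∈ Rs, MM B u v * x' u = 0 := by
      rw [← hnx v hvS]
      exact Finset.sum_congr rfl fun w hw => by rw [b2 w hw]
    have h7 : ∑ u ∈ N, MM B u v * x' u = 0 := by
      refine Finset.sum_eq_zero fun w hw => ?_
      rw [hind w (hNS hw) v hvS, zero_mul]
    rw [h6, h7, add_zero]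
  · intro v hv
    exact ((mem_Hmf h0 h S v).1 hv).2
  · linarith [b3'.2]
  · linarith
  · linarith

end path

section frame

variable {V : Type*} [Fintype V] [DecidableEq V]
variable {B : V → V → ℤ} {Rl : Finset V} {ℓ nQ nP : ℕ} {uq up : ℕ → V} {q p : ℕ → ℝ}

/-- **The path with a budget for a cut of the two chains.** -/
theorem Frame.bud (h : Frame B Rl ℓ nQ nP uq up q p) {a b : ℕ} (ha1 : 1 ≤ a) (haQ : a ≤ nQ)
    (hbP : b ≤ nP) (hq0 : 0 < q 0) {pick : Finset V → V} {Rs S : Finset V} {g : ℤ}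
    {Kc : V → Finset V} (hdec : Dec B pick (vs uq up (rr nQ nP a b)) Rs S g Kc) :
    ∃ nb : ℤ, 0 ≤ nb ∧ (Rs.Nonempty → 1 ≤ nb) ∧ (Rs.card : ℤ) ≤ g + nb ∧
      ∀ cR e : ℤ, ch (MM B (uq 0)) (vs uq up (rr nQ nP a b)) ≤ cR → e ≤ 1 → (Rs = ∅ → e ≤ 0) →
      CrI B uq up q p a b ((max 0 (cR - e) : ℤ) : ℝ) ∨
      ∀ (l : List V), l.Nodup → (∀ v ∈ l, v ∈ Hmf B (uq 0) S) → ∀ M K t θ : ℝ,
        StI B uq up (hb1 a b) M K t → 0 ≤ K →
        (∀ l1 v l2, l = l1 ++ v :: l2 → ∀ w ∈ Hmf B (uq 0) S, w ∉ l1 →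
          ((cR - nb : ℤ) : ℝ) + l1.length + 1 + M + |((im B w : ℤ) : ℝ)| ≤ θ ∧
          2 * (((cR - nb : ℤ) : ℝ) + l1.length + 1 + M) + t + |((im B w : ℤ) : ℝ)| ≤ 2 * θ) →
        ((cR - nb : ℤ) : ℝ) + l.length + 1 + M + K ≤ θ →
        (∀ w ∈ Hmf B (uq 0) S, w ∉ l →
          ((cR - nb : ℤ) : ℝ) + l.length + M + |((im B w : ℤ) : ℝ)| ≤ θ ∧
          2 * (((cR - nb : ℤ) : ℝ) + l.length + M) + 1 + t + |((im B w : ℤ) : ℝ)| ≤ 2 * θ) →
        q 0 - g - Gam B (uq 0) S +
          ((∑ v ∈ l.toFinset, (im B v + MM B (uq 0) v) : ℤ) : ℝ) + M ≤ θ →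
        ((cR - nb : ℤ) : ℝ) + l.length + 1 + (q 0 - g - Gam B (uq 0) S +
          ((∑ v ∈ l.toFinset, (im B v + MM B (uq 0) v) : ℤ) : ℝ)) + 2 * M + t ≤ 2 * θ →
        Val B θ := by
  classical
  have hQ := h.nQle
  have hP := h.nPle
  have hB0 := h.sys.B0
  have hB1 := h.sys.B1
  have hBd := h.sys.Bd
  have hRS := hdec.un
  have hdS := hdec.dj
  set R := vs uq up (rr nQ nP a b) with hR
  set hv : V := uq 0 with hhv
  set Cv : Finset V := vs uq up (hb1 a b ∪ dm ℓ nQ nP) with hCv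
  have hfull : insert (Sum.inl 0) (rr nQ nP a b ∪ (hb1 a b ∪ dm ℓ nQ nP)) = full ℓ := by
    unfold rr hb1 dm
    (ext x; rcases x with x | x <;>
    simp only [Finset.mem_union, Finset.mem_insert, Finset.mem_singleton, inl_mem_full,
      inr_mem_full, inl_mem_iq, inr_mem_iq, inl_mem_ip, inr_mem_ip, Sum.inl.injEq, Sum.inr.injEq,
      reduceCtorEq, Finset.notMem_empty, or_false, false_or, false_imp_iff, imp_false,
      implies_true, not_false_eq_true, iff_false, false_iff] <;> omega)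
  have hRf : rr nQ nP a b ⊆ full ℓ := by unfold rr; (intro x hx; revert hx; rcases x with x | x <;>
    simp only [Finset.mem_union, Finset.mem_insert, Finset.mem_singleton, inl_mem_full,
      inr_mem_full, inl_mem_iq, inr_mem_iq, inl_mem_ip, inr_mem_ip, Sum.inl.injEq, Sum.inr.injEq,
      reduceCtorEq, Finset.notMem_empty, or_false, false_or, false_imp_iff, imp_false,
      implies_true, not_false_eq_true, iff_false, false_iff] <;> omega)
  have hCf : hb1 a b ∪ dm ℓ nQ nP ⊆ full ℓ := by unfold hb1 dm; (intro x hx; revert hx; rcases x with x | x <;>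
    simp only [Finset.mem_union, Finset.mem_insert, Finset.mem_singleton, inl_mem_full,
      inr_mem_full, inl_mem_iq, inr_mem_iq, inl_mem_ip, inr_mem_ip, Sum.inl.injEq, Sum.inr.injEq,
      reduceCtorEq, Finset.notMem_empty, or_false, false_or, false_imp_iff, imp_false,
      implies_true, not_false_eq_true, iff_false, false_iff] <;> omega)
  have h0R : (Sum.inl 0 : ℕ ⊕ ℕ) ∉ rr nQ nP a b := by
    unfold rr
    simp only [Finset.mem_union, inl_mem_iq, inl_mem_ip, or_false, not_and]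
    omega
  have h0C : (Sum.inl 0 : ℕ ⊕ ℕ) ∉ hb1 a b ∪ dm ℓ nQ nP := by
    unfold hb1 dm
    simp only [Finset.mem_union, inl_mem_iq, inl_mem_ip, or_false, not_or, not_and]
    omega
  have h0f : (Sum.inl 0 : ℕ ⊕ ℕ) ∈ full ℓ := by simp; omega
  have hnot : ∀ I ⊆ full ℓ, (Sum.inl 0 : ℕ ⊕ ℕ) ∉ I → hv ∉ vs uq up I := by
    intro I hI h0 hmem
    unfold vs at hmem
    rw [Finset.mem_image] at hmem
    obtain ⟨x, hx, hx'⟩ := hmem
    have := h.inj (hI hx) h0f hx'
    rw [this] at hx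
    exact h0 hx
  have hhR : hv ∉ Rs ∪ S := by rw [hRS]; exact hnot _ hRf h0R
  have hhC : hv ∉ Cv := hnot _ hCf h0C
  have hdRC : Disjoint (Rs ∪ S) Cv := by
    rw [hRS]
    refine h.disj hRf hCf ?_
    unfold rr hb1 dm
    (rw [Finset.disjoint_left]; intro x hx hx'; revert hx hx'; rcases x with x | x <;>
    simp only [Finset.mem_union, Finset.mem_insert, Finset.mem_singleton, inl_mem_full,
      inr_mem_full, inl_mem_iq, inr_mem_iq, inl_mem_ip, inr_mem_ip, Sum.inl.injEq, Sum.inr.injEq,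
      reduceCtorEq, Finset.notMem_empty, or_false, false_or, false_imp_iff, imp_false,
      implies_true, not_false_eq_true, iff_false, false_iff] <;> omega)
  have huniv : insert hv ((Rs ∪ S) ∪ Cv) = Finset.univ := by
    rw [hRS, hR, hCv]
    unfold vs
    rw [← Finset.image_union, ← h.univ, ← hfull, Finset.image_insert]
    rfl
  have himq : ((im B hv : ℤ) : ℝ) = q 0 := h.sys.wtQ 0 (by omega)
  have hq : 0 < im B hv := by
    have : (0 : ℝ) < ((im B hv : ℤ) : ℝ) := by rw [himq]; exact hq0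
    exact_mod_cast this
  have hqn : 0 ≤ q a := h.sys.chQ.nn a (by omega)
  have hpn : 0 ≤ p b := h.sys.chP.nn b (by omega)
  have bQ : ∀ v ∈ Rs ∪ S, 0 ≤ im B v → ((im B v : ℤ) : ℝ) ≤ q a := by
    intro v hv' hv0
    rw [hRS, hR] at hv'
    unfold vs rr at hv'
    simp only [Finset.mem_image, Finset.mem_union, Sum.exists, inl_mem_iq, inl_mem_ip,
      inr_mem_iq, inr_mem_ip, or_false, false_or, vx, Sum.elim_inl, Sum.elim_inr] at hv'
    rcases hv' with ⟨i, hi, rfl⟩ | ⟨i, hi, rfl⟩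
    · rw [h.sys.wtQ i (by omega)]
      exact h.sys.chQ.anti a i hi.1 (by omega)
    · rw [h.sys.wtP i (by omega)]
      have := h.sys.chP.nn i (by omega)
      linarith
  have bP : ∀ v ∈ Rs ∪ S, im B v < 0 → -((im B v : ℤ) : ℝ) ≤ p b := by
    intro v hv' hv0
    rw [hRS, hR] at hv'
    unfold vs rr at hv'
    simp only [Finset.mem_image, Finset.mem_union, Sum.exists, inl_mem_iq, inl_mem_ip,
      inr_mem_iq, inr_mem_ip, or_false, false_or, vx, Sum.elim_inl, Sum.elim_inr] at hv'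
    rcases hv' with ⟨i, hi, rfl⟩ | ⟨i, hi, rfl⟩
    · have h7 := h.sys.wtQ i (by omega)
      have h8 := h.sys.chQ.nn i (by omega)
      have h9 : ((im B (uq i) : ℤ) : ℝ) < 0 := by exact_mod_cast hv0
      linarith
    · rw [h.sys.wtP i (by omega), neg_neg]
      exact h.sys.chP.anti b i hi.1 (by omega)
  have hdm : ∀ {M K t : ℝ}, 0 ≤ K → StI B uq up (hb1 a b) M K t → St B (im B) Cv M K t := by
    intro M K t hK hst
    exact h.withDm hK hst (by unfold hb1 rr; (intro x hx; revert hx; rcases x with x | x <;>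
    simp only [Finset.mem_union, Finset.mem_insert, Finset.mem_singleton, inl_mem_full,
      inr_mem_full, inl_mem_iq, inr_mem_iq, inl_mem_ip, inr_mem_ip, Sum.inl.injEq, Sum.inr.injEq,
      reduceCtorEq, Finset.notMem_empty, or_false, false_or, false_imp_iff, imp_false,
      implies_true, not_false_eq_true, iff_false, false_iff] <;> omega))
  obtain ⟨nb, hnb0, hnb1, hcard, hall⟩ := path_bud hB0 hB1 hBd hv hq hdec.bl hdS hdec.ind hhR hhC
    hdRC huniv
  refine ⟨nb, hnb0, hnb1, hcard, ?_⟩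
  intro cR e hcR he1 he
  rcases hall cR e (by rw [hRS]; exact hcR) he1 he with h3 | h3
  · left
    intro M K t hK hqa hpb hst
    exact h3 M K t (q a) (p b) hK (hdm hK hst) bQ hqa hqn bP hpb hpn
  · right
    intro l hl hlH M K t θ hst hK0 H1 HK H3 HT HT2
    refine h3 l hl hlH M K t θ (hdm hK0 hst) hK0 H1 HK H3 ?_ ?_
    · have e1 : ((im B hv - g - Gam B hv S : ℤ) : ℝ) = q 0 - g - Gam B hv S := by
        push_cast
        rw [himq]
      rw [e1]
      exact HT
    · have e1 : ((im B hv - g - Gam B hv S : ℤ) : ℝ) = q 0 - g - Gam B hv S := by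
        push_cast
        rw [himq]
      rw [e1]
      exact HT2

end frame

end Pool.Agent.Exact
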