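import Pool.Agent.Lib_helper23.Exact.T1b

/-!
# A path with a budget, cost by multiplicities, independent rest
-/

set_option autoImplicit false
set_option linter.unusedSectionVars false
set_option linter.unusedSimpArgs false
set_option linter.unnecessarySeqFocus false
set_option linter.unreachableTactic false
set_option linter.unusedTactic false

namespace Pool.Agent.Exact

open Finset

section path

variable {V : Type*} [Fintype V] [DecidableEq V] {B : V → V → ℤ}

/-- **The path with a budget, cost by multiplicities**, after the harmless vertices have been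
placed. -/
theorem budC_core {h : V} {R C X Hm : Finset V} (d : RunD B h R C)
    (ha : ∀ v, 0 ≤ MM B h v ∧ MM B h v ≤ 2)
    {x1 : V → ℤ} (hx1 : ∀ v, x1 v = 1 ∨ x1 v = -1) {b DX β0 : ℤ} (hb : 0 ≤ b)
    (hP : PathB B (MM B h) x1 b X) (hXH : X ∪ Hm = R) (hdX : Disjoint X Hm)
    (hind : ∀ u ∈ Hm, ∀ v ∈ Hm, MM B u v = 0)
    (hn : ∀ v ∈ Hm, ∑ u ∈ X, MM B u v * x1 u = 0)
    (hH : ∀ v ∈ Hm, im B v + MM B h v < 0 ∧ 1 ≤ MM B h v)
    (hDX : DD B (MM B h) x1 X ≤ DX)
    (hβ0 : DD B (MM B h) x1 X + ∑ v ∈ X, im B v * x1 v + im B h ≤ β0)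
    (l : List V) (hl : l.Nodup) (hlH : ∀ v ∈ l, v ∈ Hm)
    {M K t θ : ℝ} (hst : St B (im B) C M K t) (hK0 : 0 ≤ K)
    (H1 : ∀ l1 v l2, l = l1 ++ v :: l2 → ∀ w ∈ Hm, w ∉ l1 →
      ((DX + ∑ u ∈ l1.toFinset, MM B h u + MM B h v : ℤ) : ℝ) + M + |((im B w : ℤ) : ℝ)| ≤ θ ∧
      2 * (((DX + ∑ u ∈ l1.toFinset, MM B h u + MM B h v : ℤ) : ℝ) + M) + t +
        |((im B w : ℤ) : ℝ)| ≤ 2 * θ)
    (HK : ((DX + ∑ u ∈ l.toFinset, MM B h u + 2 : ℤ) : ℝ) + M + K ≤ θ)
    (H3 : ∀ w ∈ Hm, w ∉ l →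
      ((DX + ∑ u ∈ l.toFinset, MM B h u + 2 : ℤ) : ℝ) + M + |((im B w : ℤ) : ℝ)| ≤ θ ∧
      2 * (((DX + ∑ u ∈ l.toFinset, MM B h u + 2 : ℤ) : ℝ) + M) + t +
        |((im B w : ℤ) : ℝ)| ≤ 2 * θ)
    (HT : (β0 : ℝ) + ((∑ v ∈ l.toFinset, (im B v + MM B h v) : ℤ) : ℝ) + M ≤ θ)
    (HT2 : ((DX + ∑ u ∈ l.toFinset, MM B h u + 2 : ℤ) : ℝ) + ((β0 : ℝ) +
      ((∑ v ∈ l.toFinset, (im B v + MM B h v) : ℤ) : ℝ)) + 2 * M + t ≤ 2 * θ) :
    Cr B R C b ∨ Val B θ := by
  classical
  set a := MM B h with hadef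
  -- a crossing inside `X`
  rcases lt_or_ge 0 (im B h + ∑ v ∈ X, im B v * x1 v) with hLX | hLX
  swap
  · left
    intro M K t rQ rP hK hst a1 a2 a3 a4 a5 a6
    have hc : ((im B h : ℤ) : ℝ) ≤ ((∑ v ∈ X, (- im B v) * x1 v : ℤ) : ℝ) := by
      rw [sum_neg_im]
      have : im B h ≤ - ∑ v ∈ X, im B v * x1 v := by linarith
      exact_mod_cast this
    obtain ⟨P, v, hvP, hPR, hD1, hD2, hc1, hc2⟩ := hP.cross (t := fun v => - im B v) hb
      ((im B h : ℤ) : ℝ) (by exact_mod_cast d.pos) hc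
    exact crossing_core d.Bd d.B0 h R C d.hR d.hC d.dj d.un hx1 hvP
      (hPR.trans (by rw [← hXH]; exact Finset.subset_union_left)) (by exact_mod_cast hD1)
      (by exact_mod_cast hD2) hc1 hc2 hK hst a1 a2 a3 a4 a5 a6
  right
  set T : Finset V := Hm \ l.toFinset with hT
  have hTH : T ⊆ Hm := Finset.sdiff_subset
  have hlH' : l.toFinset ⊆ Hm := fun v hv => hlH v (List.mem_toFinset.1 hv)
  have hcardl : (l.toFinset.card : ℤ) = l.length := by
    rw [List.toFinset_card_of_nodup hl]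
  obtain ⟨x2, b1, _, b3, b4⟩ := place d.Bd ha (im B) (b := 1) T.card T ∅ (fun _ => 1) rfl
    (fun _ => Or.inl rfl) PathB.empty (Finset.disjoint_empty_left _) (by rw [DD_empty]; norm_num)
    (fun v hv h2 => by rw [DD_empty]; norm_num)
    (fun v _ => by simp) (fun u hu v hv => hind u (hTH hu) v (hTH hv))
  rw [Finset.empty_union, DD_empty] at b3
  rw [Finset.empty_union, DD_empty, Finset.sum_empty] at b4
  have hharm0 : 0 ≤ ∑ v ∈ T.filter (Harm a (im B)), |a v + im B v| :=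
    Finset.sum_nonneg fun v _ => abs_nonneg _
  -- the final signs
  set x : V → ℤ := fun v => if v ∈ l then 1 else if v ∈ X then x1 v else x2 v with hxdef
  have hx : ∀ v, x v = 1 ∨ x v = -1 := by
    intro v
    simp only [hxdef]
    split_ifs
    · exact Or.inl rfl
    · exact hx1 v
    · exact b1 v
  have hxl : ∀ v ∈ l, x v = 1 := by
    intro v hv
    simp [hxdef, hv]
  have hxX : ∀ v ∈ X, x v = x1 v := by
    intro v hv
    have h2 : v ∉ l := fun h' => Finset.disjoint_left.1 hdX hv (hlH v h')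
    simp [hxdef, h2, hv]
  have hxT : ∀ v ∈ T, x v = x2 v := by
    intro v hv
    have h2 : v ∉ l := fun h' => (Finset.mem_sdiff.1 hv).2 (List.mem_toFinset.2 h')
    have h3 : v ∉ X := fun h' => Finset.disjoint_left.1 hdX h' (hTH hv)
    simp [hxdef, h2, h3]
  have hnx : ∀ v ∈ Hm, ∑ u ∈ X, MM B u v * x u = 0 := by
    intro v hv
    rw [← hn v hv]
    exact Finset.sum_congr rfl fun u hu => by rw [hxX u hu]
  have hDDP : ∀ (y : V → ℤ) (P : Finset V), P ⊆ Hm → DD B a y P = ∑ v ∈ P, a v * y v := by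
    intro y P hPH
    unfold DD
    rw [Qd_indep d.B0 (fun u hu v hv => hind u (hPH hu) v (hPH hv)), add_zero]
  have hDDX : ∀ P ⊆ Hm, DD B a x (X ∪ P) = DD B a x1 X + ∑ v ∈ P, a v * x v := by
    intro P hPH
    rw [DD_late (Finset.disjoint_of_subset_right hPH hdX) (fun v hv => hnx v (hPH hv)),
      DD_congr hxX, hDDP x P hPH]
  have hLP : ∀ P ⊆ Hm, ∑ v ∈ X ∪ P, im B v * x v = ∑ v ∈ X, im B v * x1 v +
      ∑ v ∈ P, im B v * x v := by
    intro P hPH
    rw [Finset.sum_union (Finset.disjoint_of_subset_right hPH hdX)]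
    congr 1
    exact Finset.sum_congr rfl fun u hu => by rw [hxX u hu]
  have hRP : ∀ P ⊆ Hm, R \ (X ∪ P) = Hm \ P := by
    intro P hPH
    rw [← hXH]
    ext z
    simp only [Finset.mem_sdiff, Finset.mem_union, not_or]
    constructor
    · rintro ⟨h1 | h1, h2, h3⟩
      · exact absurd h1 h2
      · exact ⟨h1, h3⟩
    · rintro ⟨h1, h2⟩
      exact ⟨Or.inr h1, fun h' => Finset.disjoint_left.1 hdX h' h1, h2⟩
  have hsub : ∀ P ⊆ Hm, X ∪ P ⊆ R := by
    intro P hPH
    rw [← hXH]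
    exact Finset.union_subset_union le_rfl hPH
  -- a general crossing
  have crossP : ∀ (P : Finset V) (v : V), v ∉ P → insert v P ⊆ Hm → ∀ D : ℤ,
      DD B a x1 X + ∑ u ∈ P, a u * x u ≤ D →
      DD B a x1 X + ∑ u ∈ insert v P, a u * x u ≤ D →
      0 < im B h + ∑ u ∈ X ∪ P, im B u * x u →
      im B h + ∑ u ∈ X ∪ insert v P, im B u * x u ≤ 0 →
      (D : ℝ) + M + K ≤ θ →
      (∀ w ∈ Hm \ P, (D : ℝ) + M + |((im B w : ℤ) : ℝ)| ≤ θ ∧
        2 * ((D : ℝ) + M) + t + |((im B w : ℤ) : ℝ)| ≤ 2 * θ) → Val B θ := by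
    intro P v hvP hPH D hD1 hD2 hc1 hc2 hK hw
    have hPH' : P ⊆ Hm := (Finset.subset_insert _ _).trans hPH
    have hvH : v ∈ Hm := hPH (Finset.mem_insert_self _ _)
    have hvX : v ∉ X := fun h' => Finset.disjoint_left.1 hdX h' hvH
    have hne : (Hm \ P).Nonempty := ⟨v, Finset.mem_sdiff.2 ⟨hvH, hvP⟩⟩
    obtain ⟨w, hwm, hwmax⟩ := Finset.exists_max_image (Hm \ P)
      (fun u => |((im B u : ℤ) : ℝ)|) hne
    obtain ⟨w1, w2⟩ := hw w hwm
    have e : X ∪ insert v P = insert v (X ∪ P) := Finset.union_insert _ _ _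
    refine d.cross hx (P := X ∪ P) (v := v) (D := D)
      (by simp only [Finset.mem_union, not_or]; exact ⟨hvX, hvP⟩)
      (by rw [← e]; exact hsub _ hPH) (by rw [hDDX P hPH']; exact hD1)
      (by rw [← e, hDDX _ hPH]; exact hD2) hc1 (by rw [← e]; exact hc2) hst
      (β := |((im B w : ℤ) : ℝ)|) ?_ ?_ hK0 hK w1 w2
    · intro u hu
      rw [hRP P hPH', Finset.mem_sdiff] at hu
      have := hH u hu.1
      linarith
    · intro u hu
      rw [hRP P hPH'] at hu
      exact hwmax u hu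
  -- along the list
  rcases first_fail (fun l' : List V => (∀ v ∈ l', v ∈ l) →
      0 < im B h + ∑ u ∈ X ∪ l'.toFinset, im B u * x u) (by
        intro _
        simp only [List.toFinset_nil, Finset.union_empty]
        rw [Finset.sum_congr rfl fun u hu => by rw [hxX u hu]]
        exact hLX) l with hgood | ⟨l1, v, l2, he, hg1, hg2⟩
  swap
  · -- crossing at a vertex of the list
    push Not at hg2
    obtain ⟨hg2, hg3⟩ := hg2
    have hvl : v ∈ l := by rw [he]; simp
    have hl1 : ∀ u ∈ l1, u ∈ l := by intro u hu; rw [he]; simp [hu]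
    have hg1' := hg1 hl1
    rw [he] at hl
    have hnd := List.nodup_append.1 hl
    have hvl1 : v ∉ l1 := by
      intro h'
      exact hnd.2.2 v h' v (by simp) rfl
    have hl1nd : l1.Nodup := hnd.1
    have hPH : insert v l1.toFinset ⊆ Hm := by
      intro u hu
      rw [Finset.mem_insert, List.mem_toFinset] at hu
      rcases hu with rfl | hu
      · exact hlH _ hvl
      · exact hlH u (hl1 u hu)
    have e2 : (l1 ++ [v]).toFinset = insert v l1.toFinset := by
      ext z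
      simp only [List.mem_toFinset, List.mem_append, List.mem_singleton, Finset.mem_insert]
      tauto
    rw [e2] at hg3
    have hs1 : ∀ F : Finset V, F ⊆ insert v l1.toFinset → ∑ u ∈ F, a u * x u = ∑ u ∈ F, a u := by
      intro F hF
      refine Finset.sum_congr rfl fun u hu => ?_
      have h4 := hF hu
      rw [Finset.mem_insert, List.mem_toFinset] at h4
      rcases h4 with rfl | h4
      · rw [hxl _ hvl, mul_one]
      · rw [hxl u (hl1 u h4), mul_one]
    have hvl1' : v ∉ l1.toFinset := by rwa [List.mem_toFinset]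
    have h5 : ∑ u ∈ insert v l1.toFinset, a u = ∑ u ∈ l1.toFinset, a u + a v := by
      rw [Finset.sum_insert hvl1', add_comm]
    have h7 : ∑ u ∈ insert v l1.toFinset, a u ≤ ∑ u ∈ l.toFinset, a u := by
      refine Finset.sum_le_sum_of_subset_of_nonneg ?_ fun u _ _ => (ha u).1
      intro u hu
      rw [Finset.mem_insert, List.mem_toFinset] at hu
      rw [List.mem_toFinset]
      rcases hu with rfl | hu
      · exact hvl
      · exact hl1 u hu
    have hav := (ha v).1
    refine crossP l1.toFinset v hvl1' hPH (DX + ∑ u ∈ l1.toFinset, a u + a v)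
      (by rw [hs1 _ (Finset.subset_insert _ _)]; linarith)
      (by rw [hs1 _ (Finset.Subset.refl _)]; linarith) hg1' hg3 ?_ ?_
    · have h8 : DX + ∑ u ∈ l1.toFinset, a u + a v ≤ DX + ∑ u ∈ l.toFinset, a u + 2 := by linarith
      have h9 : ((DX + ∑ u ∈ l1.toFinset, a u + a v : ℤ) : ℝ) ≤
          ((DX + ∑ u ∈ l.toFinset, a u + 2 : ℤ) : ℝ) := by exact_mod_cast h8
      linarith
    · intro w hw
      rw [Finset.mem_sdiff, List.mem_toFinset] at hw
      exact H1 l1 v l2 he w hw.1 hw.2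
  -- the rest
  have hgood' := hgood fun v hv => hv
  have hsl : ∑ u ∈ l.toFinset, a u * x u = ∑ u ∈ l.toFinset, a u :=
    Finset.sum_congr rfl fun u hu => by rw [hxl u (List.mem_toFinset.1 hu), mul_one]
  have hsl2 : ∑ u ∈ l.toFinset, im B u * x u = ∑ u ∈ l.toFinset, im B u :=
    Finset.sum_congr rfl fun u hu => by rw [hxl u (List.mem_toFinset.1 hu), mul_one]
  -- crossing inside a part of `T`
  have crossT : ∀ T' ⊆ T, PathB B a x2 1 T' →
      im B h + ∑ u ∈ X ∪ (l.toFinset ∪ T'), im B u * x u ≤ 0 → Val B θ := by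
    intro T' hT'T hPT hL
    have hT'H : T' ⊆ Hm := hT'T.trans hTH
    have hdT : Disjoint l.toFinset T' := by
      rw [Finset.disjoint_right]
      intro u hu
      exact (Finset.mem_sdiff.1 (hT'T hu)).2
    have hlT : l.toFinset ∪ T' ⊆ Hm := Finset.union_subset hlH' hT'H
    set c : ℤ := im B h + ∑ u ∈ X ∪ l.toFinset, im B u * x u with hc
    have hsumT : ∀ P ⊆ T', ∑ u ∈ X ∪ (l.toFinset ∪ P), im B u * x u =
        ∑ u ∈ X ∪ l.toFinset, im B u * x u + ∑ u ∈ P, im B u * x2 u := by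
      intro P hP
      have hdP : Disjoint l.toFinset P := Finset.disjoint_of_subset_right hP hdT
      have e4 : ∑ u ∈ P, im B u * x u = ∑ u ∈ P, im B u * x2 u :=
        Finset.sum_congr rfl fun u hu => by rw [hxT u (hT'T (hP hu))]
      rw [hLP _ (Finset.union_subset hlH' (hP.trans hT'H)), hLP _ hlH',
        Finset.sum_union hdP, e4]
      ring
    have hcT : (c : ℝ) ≤ ((∑ v ∈ T', (- im B v) * x2 v : ℤ) : ℝ) := by
      rw [sum_neg_im]
      have h5 := hsumT T' (Finset.Subset.refl _)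
      have : c ≤ - ∑ v ∈ T', im B v * x2 v := by
        rw [hc]
        linarith
      exact_mod_cast this
    obtain ⟨P, v, hvP, hPT', hD1, hD2, hc1, hc2⟩ := hPT.cross (t := fun v => - im B v) (by norm_num)
      (c : ℝ) (by exact_mod_cast hgood') hcT
    rw [sum_neg_im] at hc1 hc2
    have hc1' : - ∑ v ∈ P, im B v * x2 v < c := by exact_mod_cast hc1
    have hc2' : c ≤ - ∑ v ∈ insert v P, im B v * x2 v := by exact_mod_cast hc2
    have hPT2 : P ⊆ T' := (Finset.subset_insert _ _).trans hPT'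
    have hvT' : v ∈ T' := hPT' (Finset.mem_insert_self _ _)
    have hvl : v ∉ l.toFinset := Finset.disjoint_right.1 hdT hvT'
    have e3 : insert v (l.toFinset ∪ P) = l.toFinset ∪ insert v P :=
      (Finset.union_insert _ _ _).symm
    have hsa : ∀ P ⊆ T', ∑ u ∈ l.toFinset ∪ P, a u * x u =
        ∑ u ∈ l.toFinset, a u + DD B a x2 P := by
      intro P hP
      rw [Finset.sum_union (Finset.disjoint_of_subset_right hP hdT), hsl,
        hDDP x2 P (hP.trans hT'H)]
      congr 1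
      exact Finset.sum_congr rfl fun u hu => by rw [hxT u (hT'T (hP hu))]
    refine crossP (l.toFinset ∪ P) v ?_ ?_ (DX + ∑ u ∈ l.toFinset, a u + 1) ?_ ?_ ?_ ?_ ?_ ?_
    · simp only [Finset.mem_union, not_or]
      exact ⟨hvl, hvP⟩
    · rw [e3]
      exact Finset.union_subset hlH' (hPT'.trans hT'H)
    · rw [hsa P hPT2]
      linarith
    · rw [e3, hsa _ hPT']
      linarith
    · rw [hsumT P hPT2]
      linarith
    · rw [e3, hsumT _ hPT']
      linarith
    · have h8 : ((DX + ∑ u ∈ l.toFinset, a u + 1 : ℤ) : ℝ) ≤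
          ((DX + ∑ u ∈ l.toFinset, a u + 2 : ℤ) : ℝ) := by
        exact_mod_cast (by linarith : DX + ∑ u ∈ l.toFinset, a u + 1 ≤
          DX + ∑ u ∈ l.toFinset, a u + 2)
      linarith
    · intro w hw
      rw [Finset.mem_sdiff, Finset.mem_union, not_or, List.mem_toFinset] at hw
      obtain ⟨w1, w2⟩ := H3 w hw.1 hw.2.1
      have h8 : ((DX + ∑ u ∈ l.toFinset, a u + 1 : ℤ) : ℝ) ≤
          ((DX + ∑ u ∈ l.toFinset, a u + 2 : ℤ) : ℝ) := by
        exact_mod_cast (by linarith : DX + ∑ u ∈ l.toFinset, a u + 1 ≤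
          DX + ∑ u ∈ l.toFinset, a u + 2)
      exact ⟨by linarith, by linarith⟩
  have hHl : Hm = l.toFinset ∪ T := by
    rw [hT, Finset.union_sdiff_of_subset hlH']
  have hdlT : Disjoint l.toFinset T := Finset.disjoint_sdiff
  have hReq : R = X ∪ (l.toFinset ∪ T) := by rw [← hHl, hXH]
  have hsT : ∑ u ∈ T, a u * x u = DD B a x2 T := by
    rw [hDDP x2 T hTH]
    exact Finset.sum_congr rfl fun u hu => by rw [hxT u hu]
  have hDDR : DD B a x R = DD B a x1 X + ∑ u ∈ l.toFinset, a u + DD B a x2 T := by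
    rw [hReq, hDDX _ (by rw [← hHl]), Finset.sum_union hdlT, hsl, hsT]
    ring
  have hLR : ∑ u ∈ R, im B u * x u = ∑ u ∈ X, im B u * x1 u + ∑ u ∈ l.toFinset, im B u +
      ∑ u ∈ T, im B u * x2 u := by
    have e4 : ∑ u ∈ T, im B u * x u = ∑ u ∈ T, im B u * x2 u :=
      Finset.sum_congr rfl fun u hu => by rw [hxT u hu]
    rw [hReq, hLP _ (by rw [← hHl]), Finset.sum_union hdlT, hsl2, e4]
    ring
  have hfin : DD B a x R + (im B h + ∑ u ∈ R, im B u * x u) ≤
      β0 + ∑ v ∈ l.toFinset, (im B v + a v) := by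
    rw [hDDR, hLR, Finset.sum_add_distrib]
    linarith
  have hfin' : ((DD B a x R : ℤ) : ℝ) + ((im B h + ∑ u ∈ R, im B u * x u : ℤ) : ℝ) ≤
      (β0 : ℝ) + ((∑ v ∈ l.toFinset, (im B v + a v) : ℤ) : ℝ) := by exact_mod_cast hfin
  rcases b3 with ⟨b3, b5⟩ | ⟨y, hyT, c1, c2, c3, c4, c5, c6⟩
  · have hDle : DD B a x R ≤ DX + ∑ u ∈ l.toFinset, a u + 2 := by
      rw [hDDR]
      have := b3.le (by norm_num)
      linarith
    have hDle' : ((DD B a x R : ℤ) : ℝ) ≤ ((DX + ∑ u ∈ l.toFinset, a u + 2 : ℤ) : ℝ) := by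
      exact_mod_cast hDle
    rcases lt_or_ge 0 (im B h + ∑ u ∈ R, im B u * x u) with hL | hL
    · have hLr : (0 : ℝ) < ((im B h + ∑ u ∈ R, im B u * x u : ℤ) : ℝ) := by exact_mod_cast hL
      refine d.stop hx hst hK0 (by linarith) ?_ ?_
      · rw [abs_of_pos hLr]
        linarith
      · rw [abs_of_pos hLr]
        linarith
    · rw [hReq] at hL
      exact crossT T (Finset.Subset.refl _) b3 hL
  · have hTe : T.erase y ⊆ T := Finset.erase_subset _ _
    have hyH : y ∈ Hm := hTH hyT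
    have hyl : y ∉ l := fun h' => (Finset.mem_sdiff.1 hyT).2 (List.mem_toFinset.2 h')
    rcases lt_or_ge 0 (im B h + ∑ u ∈ X ∪ (l.toFinset ∪ T.erase y), im B u * x u) with hL | hL
    swap
    · exact crossT _ hTe c1 hL
    have hle2 : ∑ u ∈ R, im B u * x u = im B y +
        ∑ u ∈ X ∪ (l.toFinset ∪ T.erase y), im B u * x u := by
      have hxy : x y = 1 := by rw [hxT y hyT, c6]
      have h8 : insert y (X ∪ (l.toFinset ∪ T.erase y)) = R := by
        rw [hReq]
        ext z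
        simp only [Finset.mem_insert, Finset.mem_union, Finset.mem_erase]
        by_cases hz : z = y
        · subst hz; simp [hyT]
        · simp [hz]
      have h9 : y ∉ X ∪ (l.toFinset ∪ T.erase y) := by
        simp only [Finset.mem_union, not_or, List.mem_toFinset]
        exact ⟨fun h' => Finset.disjoint_left.1 hdX h' hyH, hyl, Finset.notMem_erase _ _⟩
      rw [← h8, Finset.sum_insert h9, hxy, mul_one]
    have hDle : DD B a x R ≤ DX + ∑ u ∈ l.toFinset, a u + 2 := by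
      rw [hDDR, c4]
      have := (ha y).2
      linarith
    have hDle' : ((DD B a x R : ℤ) : ℝ) ≤ ((DX + ∑ u ∈ l.toFinset, a u + 2 : ℤ) : ℝ) := by
      exact_mod_cast hDle
    rcases lt_or_ge 0 (im B h + ∑ u ∈ R, im B u * x u) with hL2 | hL2
    · have hLr : (0 : ℝ) < ((im B h + ∑ u ∈ R, im B u * x u : ℤ) : ℝ) := by exact_mod_cast hL2
      refine d.stop hx hst hK0 (by linarith) ?_ ?_
      · rw [abs_of_pos hLr]
        linarith
      · rw [abs_of_pos hLr]
        linarith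
    · have hLr : ((im B h + ∑ u ∈ R, im B u * x u : ℤ) : ℝ) ≤ 0 := by exact_mod_cast hL2
      obtain ⟨w1, w2⟩ := H3 y hyH hyl
      have hyneg : im B y < 0 := by have := hH y hyH; linarith
      have hynegr : ((im B y : ℤ) : ℝ) < 0 := by exact_mod_cast hyneg
      have h11 : -(im B h + ∑ u ∈ R, im B u * x u) ≤ - im B y - 1 := by
        rw [hle2]
        linarith
      have h12 : |((im B h + ∑ u ∈ R, im B u * x u : ℤ) : ℝ)| ≤ |((im B y : ℤ) : ℝ)| - 1 := by
        rw [abs_of_nonpos hLr, abs_of_neg hynegr]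
        exact_mod_cast h11
      refine d.stop hx hst hK0 (by linarith) ?_ ?_
      · linarith
      · linarith


/-- the harmless vertices never cost anything -/
lemma place_harm (h0 : ∀ u v, 0 ≤ B u v) {a s : V → ℤ} (ha : ∀ v, 0 ≤ a v ∧ a v ≤ 2)
    {N : Finset V} (hN : ∀ v ∈ N, Harm a s v) (hind : ∀ u ∈ N, ∀ v ∈ N, MM B u v = 0) :
    ∃ x : V → ℤ, (∀ v, x v = 1 ∨ x v = -1) ∧ PathB B a x 0 N ∧
      DD B a x N + ∑ v ∈ N, s v * x v = - ∑ v ∈ N, |a v + s v| := by
  classical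
  have h1 : ∀ v, ∃ y : ℤ, (y = 1 ∨ y = -1) ∧ (v ∈ N → a v * y ≤ 0 ∧
      (a v + s v) * y = - |a v + s v|) := by
    intro v
    by_cases hv : v ∈ N
    · obtain ⟨y, y1, y2, y3⟩ := harm_sign (s := s) ha (hN v hv)
      exact ⟨y, y1, fun _ => ⟨y2, y3⟩⟩
    · exact ⟨1, Or.inl rfl, fun h => absurd h hv⟩
  choose x x1 x2 using h1
  have hDD : ∀ P ⊆ N, DD B a x P = ∑ v ∈ P, a v * x v := by
    intro P hP
    unfold DD
    rw [Qd_indep h0 (fun u hu v hv => hind u (hP hu) v (hP hv)), add_zero]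
  have hDD0 : ∀ P ⊆ N, DD B a x P ≤ 0 := by
    intro P hP
    rw [hDD P hP]
    exact Finset.sum_nonpos fun v hv => (x2 v (hP hv)).1
  refine ⟨x, x1, ?_, ?_⟩
  · have key : ∀ P : Finset V, P ⊆ N → PathB B a x 0 P := by
      intro P
      induction P using Finset.induction_on with
      | empty => intro _; exact PathB.empty
      | insert v P hv ih =>
        intro hP
        exact PathB.step P v (ih ((Finset.subset_insert _ _).trans hP)) hv (hDD0 _ hP)
    exact key N (Finset.Subset.refl _)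
  · rw [hDD N (Finset.Subset.refl _), ← Finset.sum_add_distrib, ← Finset.sum_neg_distrib]
    refine Finset.sum_congr rfl fun v hv => ?_
    have := (x2 v hv).2
    linarith

/-- the hypotheses on the end of the path with a budget -/
structure BCon (B : V → V → ℤ) (h : V) (Hm : Finset V) (q0 Γ : ℝ) (l : List V)
    (M K t θ : ℝ) : Prop where
  nd : l.Nodup
  sub : ∀ v ∈ l, v ∈ Hm
  H1 : ∀ l1 v l2, l = l1 ++ v :: l2 → ∀ w ∈ Hm, w ∉ l1 →
      ((∑ u ∈ l1.toFinset, MM B h u + MM B h v : ℤ) : ℝ) + M + |((im B w : ℤ) : ℝ)| ≤ θ ∧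
      2 * (((∑ u ∈ l1.toFinset, MM B h u + MM B h v : ℤ) : ℝ) + M) + t +
        |((im B w : ℤ) : ℝ)| ≤ 2 * θ
  HK : ((∑ u ∈ l.toFinset, MM B h u + 2 : ℤ) : ℝ) + M + K ≤ θ
  H3 : ∀ w ∈ Hm, w ∉ l →
      ((∑ u ∈ l.toFinset, MM B h u + 2 : ℤ) : ℝ) + M + |((im B w : ℤ) : ℝ)| ≤ θ ∧
      2 * (((∑ u ∈ l.toFinset, MM B h u + 2 : ℤ) : ℝ) + M) + t +
        |((im B w : ℤ) : ℝ)| ≤ 2 * θ
  HT : q0 - Γ + ((∑ v ∈ l.toFinset, (im B v + MM B h v) : ℤ) : ℝ) + M ≤ θ
  HT2 : ((∑ u ∈ l.toFinset, MM B h u + 2 : ℤ) : ℝ) + (q0 - Γ +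
      ((∑ v ∈ l.toFinset, (im B v + MM B h v) : ℤ) : ℝ)) + 2 * M + t ≤ 2 * θ

/-- **The path with a budget**, cost by multiplicities, independent rest. -/
theorem path_budC (h0 : ∀ u v, 0 ≤ B u v) (h1 : ∀ u v, B u v ≤ 1) (hB : ∀ v, B v v = 0)
    (h : V) (hq : 0 < im B h) {S C : Finset V} (hind : ∀ u ∈ S, ∀ v ∈ S, MM B u v = 0)
    (hhS : h ∉ S) (hC : h ∉ C) (hd : Disjoint S C) (hu : insert h (S ∪ C) = univ) :
    Cr B S C ((0 : ℤ) : ℝ) ∨ ∀ (l : List V) (M K t θ : ℝ), St B (im B) C M K t → 0 ≤ K →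
      BCon B h (Hmf B h S) (im B h) (Gam B h S) l M K t θ → Val B θ := by
  classical
  have ha : ∀ v, 0 ≤ MM B h v ∧ MM B h v ≤ 2 := fun v => MM_range h0 h1 h v
  by_cases hCr : Cr B S C ((0 : ℤ) : ℝ)
  · exact Or.inl hCr
  right
  intro l M K t θ hst hK0 hc
  set N : Finset V := S.filter (Harm (MM B h) (im B)) with hN
  set Hm : Finset V := Hmf B h S with hHm
  have hNS : N ⊆ S := Finset.filter_subset _ _
  have hHS : Hm ⊆ S := Finset.filter_subset _ _
  have hNH : N ∪ Hm = S := by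
    rw [hN, hHm]
    unfold Hmf
    ext z
    simp only [Finset.mem_union, Finset.mem_filter]
    constructor
    · rintro (h3 | h3) <;> exact h3.1
    · intro h3
      by_cases h4 : Harm (MM B h) (im B) z
      · exact Or.inl ⟨h3, h4⟩
      · exact Or.inr ⟨h3, h4⟩
  have hdNH : Disjoint N Hm := by
    rw [Finset.disjoint_left]
    intro z hz hz'
    rw [hN, Finset.mem_filter] at hz
    rw [hHm, Hmf, Finset.mem_filter] at hz'
    exact hz'.2 hz.2
  have hNG : ∑ v ∈ N, |MM B h v + im B v| = Gam B h S := by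
    unfold Gam
    rw [hN]
  obtain ⟨x', b1, b3, b4⟩ := place_harm (B := B) h0 (a := MM B h) (s := im B) ha (N := N)
    (fun v hv => (Finset.mem_filter.1 hv).2) (fun u hu v hv => hind u (hNS hu) v (hNS hv))
  have d : RunD B h S C := ⟨h0, hB, hhS, hC, hd, hu, hq⟩
  have e0 : ∀ z : ℤ, (0 : ℤ) + z = z := fun z => zero_add z
  refine (budC_core d ha b1 (b := 0) (DX := 0) (β0 := im B h - Gam B h S) le_rfl b3 hNH hdNH
    (fun u hu v hv => hind u (hHS hu) v (hHS hv)) ?_ ?_ ?_ ?_ l hc.nd hc.sub hst hK0 ?_ ?_ ?_ ?_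
    ?_).resolve_left hCr
  · intro v hv
    refine Finset.sum_eq_zero fun w hw => ?_
    rw [hind w (hNS hw) v (hHS hv), zero_mul]
  · intro v hv
    exact ((mem_Hmf h0 h S v).1 hv).2
  · exact b3.le le_rfl
  · rw [hNG] at b4
    linarith
  · intro l1 v l2 he w hw hwl
    rw [zero_add]
    exact hc.H1 l1 v l2 he w hw hwl
  · rw [zero_add]
    exact hc.HK
  · intro w hw hwl
    rw [zero_add]
    exact hc.H3 w hw hwl
  · have := hc.HT
    push_cast at this ⊢
    linarith
  · have := hc.HT2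
    push_cast at this ⊢
    linarith

end path

section frame

variable {V : Type*} [Fintype V] [DecidableEq V]
variable {B : V → V → ℤ} {Rl : Finset V} {ℓ nQ nP : ℕ} {uq up : ℕ → V} {q p : ℕ → ℝ}

/-- **The path with a budget for a cut of the two chains**, independent rest. -/
theorem Frame.budC (h : Frame B Rl ℓ nQ nP uq up q p) {a b : ℕ} (ha1 : 1 ≤ a) (haQ : a ≤ nQ)
    (hbP : b ≤ nP) (hq0 : 0 < q 0)
    (hind : ∀ u ∈ vs uq up (rr nQ nP a b), ∀ v ∈ vs uq up (rr nQ nP a b), MM B u v = 0) :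
    CrI B uq up q p a b ((0 : ℤ) : ℝ) ∨ ∀ (l : List V) (M K t θ : ℝ),
      StI B uq up (hb1 a b) M K t → 0 ≤ K →
      BCon B (uq 0) (Hmf B (uq 0) (vs uq up (rr nQ nP a b))) (q 0)
        (Gam B (uq 0) (vs uq up (rr nQ nP a b))) l M K t θ → Val B θ := by
  classical
  have hQ := h.nQle
  have hP := h.nPle
  have hB0 := h.sys.B0
  have hB1 := h.sys.B1
  have hBd := h.sys.Bd
  set R := vs uq up (rr nQ nP a b) with hR
  set hv : V := uq 0 with hhv
  set Cv : Finset V := vs uq up (hb1 a b ∪ dm ℓ nQ nP) with hCv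
  have hfull : insert (Sum.inl 0) (rr nQ nP a b ∪ (hb1 a b ∪ dm ℓ nQ nP)) = full ℓ := by
    unfold rr hb1 dm
    (ext x; rcases x with x | x <;>
    simp only [Finset.mem_union, Finset.mem_insert, Finset.mem_singleton, inl_mem_full,
      inr_mem_full, inl_mem_iq, inr_mem_iq, inl_mem_ip, inr_mem_ip, Sum.inl.injEq, Sum.inr.injEq,
      reduceCtorEq, Finset.notMem_empty, or_false, false_or, false_imp_iff, imp_false,
      implies_true, not_false_eq_true, iff_false, false_iff] <;> omega)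
  have hRf : rr nQ nP a b ⊆ full ℓ := by unfold rr; (intro x hx; revert hx; rcases x with x | x <;>
    simp only [Finset.mem_union, Finset.mem_insert, Finset.mem_singleton, inl_mem_full,
      inr_mem_full, inl_mem_iq, inr_mem_iq, inl_mem_ip, inr_mem_ip, Sum.inl.injEq, Sum.inr.injEq,
      reduceCtorEq, Finset.notMem_empty, or_false, false_or, false_imp_iff, imp_false,
      implies_true, not_false_eq_true, iff_false, false_iff] <;> omega)
  have hCf : hb1 a b ∪ dm ℓ nQ nP ⊆ full ℓ := by unfold hb1 dm; (intro x hx; revert hx; rcases x with x | x <;>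
    simp only [Finset.mem_union, Finset.mem_insert, Finset.mem_singleton, inl_mem_full,
      inr_mem_full, inl_mem_iq, inr_mem_iq, inl_mem_ip, inr_mem_ip, Sum.inl.injEq, Sum.inr.injEq,
      reduceCtorEq, Finset.notMem_empty, or_false, false_or, false_imp_iff, imp_false,
      implies_true, not_false_eq_true, iff_false, false_iff] <;> omega)
  have h0R : (Sum.inl 0 : ℕ ⊕ ℕ) ∉ rr nQ nP a b := by
    unfold rr
    simp only [Finset.mem_union, inl_mem_iq, inl_mem_ip, or_false, not_and]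
    omega
  have h0C : (Sum.inl 0 : ℕ ⊕ ℕ) ∉ hb1 a b ∪ dm ℓ nQ nP := by
    unfold hb1 dm
    simp only [Finset.mem_union, inl_mem_iq, inl_mem_ip, or_false, not_or, not_and]
    omega
  have h0f : (Sum.inl 0 : ℕ ⊕ ℕ) ∈ full ℓ := by simp; omega
  have hnot : ∀ I ⊆ full ℓ, (Sum.inl 0 : ℕ ⊕ ℕ) ∉ I → hv ∉ vs uq up I := by
    intro I hI h0 hmem
    unfold vs at hmem
    rw [Finset.mem_image] at hmem
    obtain ⟨x, hx, hx'⟩ := hmem
    have := h.inj (hI hx) h0f hx'
    rw [this] at hx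
    exact h0 hx
  have hhR : hv ∉ R := hnot _ hRf h0R
  have hhC : hv ∉ Cv := hnot _ hCf h0C
  have hdRC : Disjoint R Cv := by
    refine h.disj hRf hCf ?_
    unfold rr hb1 dm
    (rw [Finset.disjoint_left]; intro x hx hx'; revert hx hx'; rcases x with x | x <;>
    simp only [Finset.mem_union, Finset.mem_insert, Finset.mem_singleton, inl_mem_full,
      inr_mem_full, inl_mem_iq, inr_mem_iq, inl_mem_ip, inr_mem_ip, Sum.inl.injEq, Sum.inr.injEq,
      reduceCtorEq, Finset.notMem_empty, or_false, false_or, false_imp_iff, imp_false,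
      implies_true, not_false_eq_true, iff_false, false_iff] <;> omega)
  have huniv : insert hv (R ∪ Cv) = Finset.univ := by
    rw [hR, hCv]
    unfold vs
    rw [← Finset.image_union, ← h.univ, ← hfull, Finset.image_insert]
    rfl
  have himq : ((im B hv : ℤ) : ℝ) = q 0 := h.sys.wtQ 0 (by omega)
  have hq : 0 < im B hv := by
    have : (0 : ℝ) < ((im B hv : ℤ) : ℝ) := by rw [himq]; exact hq0
    exact_mod_cast this
  have hqn : 0 ≤ q a := h.sys.chQ.nn a (by omega)
  have hpn : 0 ≤ p b := h.sys.chP.nn b (by omega)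
  have bQ : ∀ v ∈ R, 0 ≤ im B v → ((im B v : ℤ) : ℝ) ≤ q a := by
    intro v hv' hv0
    rw [hR] at hv'
    unfold vs rr at hv'
    simp only [Finset.mem_image, Finset.mem_union, Sum.exists, inl_mem_iq, inl_mem_ip,
      inr_mem_iq, inr_mem_ip, or_false, false_or, vx, Sum.elim_inl, Sum.elim_inr] at hv'
    rcases hv' with ⟨i, hi, rfl⟩ | ⟨i, hi, rfl⟩
    · rw [h.sys.wtQ i (by omega)]
      exact h.sys.chQ.anti a i hi.1 (by omega)
    · rw [h.sys.wtP i (by omega)]
      have := h.sys.chP.nn i (by omega)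
      linarith
  have bP : ∀ v ∈ R, im B v < 0 → -((im B v : ℤ) : ℝ) ≤ p b := by
    intro v hv' hv0
    rw [hR] at hv'
    unfold vs rr at hv'
    simp only [Finset.mem_image, Finset.mem_union, Sum.exists, inl_mem_iq, inl_mem_ip,
      inr_mem_iq, inr_mem_ip, or_false, false_or, vx, Sum.elim_inl, Sum.elim_inr] at hv'
    rcases hv' with ⟨i, hi, rfl⟩ | ⟨i, hi, rfl⟩
    · have h7 := h.sys.wtQ i (by omega)
      have h8 := h.sys.chQ.nn i (by omega)
      have h9 : ((im B (uq i) : ℤ) : ℝ) < 0 := by exact_mod_cast hv0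
      linarith
    · rw [h.sys.wtP i (by omega), neg_neg]
      exact h.sys.chP.anti b i hi.1 (by omega)
  have hdm : ∀ {M K t : ℝ}, 0 ≤ K → StI B uq up (hb1 a b) M K t → St B (im B) Cv M K t := by
    intro M K t hK hst
    exact h.withDm hK hst (by unfold hb1 rr; (intro x hx; revert hx; rcases x with x | x <;>
    simp only [Finset.mem_union, Finset.mem_insert, Finset.mem_singleton, inl_mem_full,
      inr_mem_full, inl_mem_iq, inr_mem_iq, inl_mem_ip, inr_mem_ip, Sum.inl.injEq, Sum.inr.injEq,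
      reduceCtorEq, Finset.notMem_empty, or_false, false_or, false_imp_iff, imp_false,
      implies_true, not_false_eq_true, iff_false, false_iff] <;> omega))
  rcases path_budC hB0 hB1 hBd hv hq hind hhR hhC hdRC huniv with h3 | h3
  · left
    intro M K t hK hqa hpb hst
    exact h3 M K t (q a) (p b) hK (hdm hK hst) bQ hqa hqn bP hpb hpn
  · right
    intro l M K t θ hst hK0 hc
    refine h3 l M K t θ (hdm hK0 hst) hK0 ?_
    rw [himq]
    exact hc

end frame

end Pool.Agent.Exact
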