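import Pool.Agent.Lib_helper23.Exact.T1b

/-!
# Counting facts for hubs of the first type, minimum indegree at least `k`
-/

set_option autoImplicit false
set_option linter.unusedSectionVars false

namespace Pool.Agent.Exact

open Finset

variable {V : Type*} [Fintype V] [DecidableEq V]
variable {B : V → V → ℤ} {Rl : Finset V} {ℓ nQ nP : ℕ} {uq up : ℕ → V} {q p : ℕ → ℝ}
variable {k : ℤ} {θ : ℝ}
variable {R Rs S : Finset V} {g : ℤ} {Kc : V → Finset V} {pick : Finset V → V}

/-- the outdegree inside `K` -/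
def outdg (B : V → V → ℤ) (K : Finset V) (v : V) : ℤ := ∑ u ∈ K, B v u

/-- a choice of a vertex with indegree at least its outdegree inside `K` -/
lemma exists_pickI [Nonempty V] (B : V → V → ℤ) : ∃ pick : Finset V → V,
    ∀ K : Finset V, K.Nonempty → pick K ∈ K ∧ outdg B K (pick K) ≤ indg B K (pick K) := by
  classical
  have h : ∀ K : Finset V, ∃ v : V, K.Nonempty → v ∈ K ∧ outdg B K v ≤ indg B K v := by
    intro K
    rcases K.eq_empty_or_nonempty with h | h
    · exact ⟨Classical.arbitrary V, fun h' => absurd h (Finset.nonempty_iff_ne_empty.1 h')⟩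
    · by_contra hc
      push Not at hc
      have h1 : ∀ v ∈ K, indg B K v < outdg B K v := fun v hv => (hc v).2 hv
      have h2 : ∑ v ∈ K, indg B K v < ∑ v ∈ K, outdg B K v := Finset.sum_lt_sum_of_nonempty h h1
      have h3 : ∑ v ∈ K, indg B K v = ∑ v ∈ K, outdg B K v := by
        unfold indg outdg
        rw [Finset.sum_comm]
      omega
  exact ⟨fun K => (h K).choose, fun K hK => (h K).choose_spec hK⟩

/-- the outdegree of a vertex of `S` inside `R` -/
lemma Dec.rowS (hd : Dec B pick R Rs S g Kc) (h0 : ∀ u v, 0 ≤ B u v) (hB : ∀ v, B v v = 0)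
    {v : V} (hv : v ∈ S) : ∑ u ∈ Rs, B v u = outdg B (Kc v) v := by
  classical
  have hK := (hd.bad v hv).1.cl
  have hvK := (hd.bad v hv).2.1
  have hsub := (hd.bad v hv).2.2.2
  unfold outdg
  rw [← Finset.add_sum_erase (Kc v) _ hvK, hB, zero_add]
  refine (Finset.sum_subset hsub ?_).symm
  intro u hu hu'
  have huR : u ∈ R := by
    rw [← hd.un]
    exact Finset.mem_union_left _ hu
  have huv : u ≠ v := by
    rintro rfl
    exact Finset.disjoint_left.1 hd.dj hu hv
  have huK : u ∉ Kc v := fun h' => hu' (Finset.mem_erase.2 ⟨huv, h'⟩)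
  exact (hK.zero h0 hvK huR huK).1

/-- the arcs between `Rs` and `S` -/
lemma Dec.RSI (hd : Dec B pick R Rs S g Kc) (h0 : ∀ u v, 0 ≤ B u v) (hB : ∀ v, B v v = 0)
    (hpick : ∀ K : Finset V, K.Nonempty → pick K ∈ K ∧ outdg B K (pick K) ≤ indg B K (pick K)) :
    ar B S Rs ≤ ar B Rs S := by
  classical
  have h1 : ar B Rs S = ∑ v ∈ S, indg B (Kc v) v := by
    unfold ar
    rw [Finset.sum_comm]
    exact Finset.sum_congr rfl fun v hv => hd.colS h0 hB hv
  have h2 : ar B S Rs = ∑ v ∈ S, outdg B (Kc v) v := by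
    unfold ar
    exact Finset.sum_congr rfl fun v hv => hd.rowS h0 hB hv
  rw [h1, h2]
  refine Finset.sum_le_sum fun v hv => ?_
  have hne : (Kc v).Nonempty := ⟨v, (hd.bad v hv).2.1⟩
  have e := (hd.bad v hv).2.2.1
  have h5 := (hpick (Kc v) hne).2
  rwa [← e] at h5

/-- an arc to a bad component comes from the component or from outside `R` -/
lemma Dec.colK (hd : Dec B pick R Rs S g Kc) (h0 : ∀ u v, 0 ≤ B u v)
    (hdum : ∀ v, v ∉ Rl → ∀ u, B u v = 0 ∧ B v u = 0) {W : Finset V} (hW : W ∪ R = Rl)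
    (hdj : Disjoint W R) {v : V} (hv : v ∈ S) {u : V} (hu : u ∈ Kc v) :
    ∑ w, B w u = ∑ w ∈ W, B w u + ∑ w ∈ Kc v, B w u := by
  classical
  have hK := (hd.bad v hv).1.cl
  have hKR := hK.1
  rw [col_real hdum, ← hW, Finset.sum_union hdj]
  congr 1
  refine (Finset.sum_subset hKR ?_).symm
  intro w hw hw'
  exact (hK.zero h0 hu hw hw').2

/-- the sizes of the bad components if there are few hubs -/
lemma Dec.sizeI (hd : Dec B pick R Rs S g Kc) (h0 : ∀ u v, 0 ≤ B u v) (h1 : ∀ u v, B u v ≤ 1)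
    (hB : ∀ v, B v v = 0) (hdum : ∀ v, v ∉ Rl → ∀ u, B u v = 0 ∧ B v u = 0)
    (hdeg : ∀ v ∈ Rl, k ≤ ∑ u, B u v) {W : Finset V} (hW : W ∪ R = Rl)
    (hdj : Disjoint W R) : 2 * ((k - W.card) * S.card) ≤ Rs.card := by
  classical
  have key : ∀ v ∈ S, 2 * (k - (W.card : ℤ)) ≤ ((Kc v).card : ℤ) - 1 := by
    intro v hv
    have hKR := (hd.bad v hv).1.cl.1
    have e3 := EE_le_of_simple hB (hd.bad v hv).1.simple
    have hn1 : (0 : ℤ) < (Kc v).card := by
      exact_mod_cast Finset.card_pos.2 ⟨v, (hd.bad v hv).2.1⟩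
    have e1 : (k - W.card) * (Kc v).card ≤ EE B (Kc v) := by
      have h2 : ∑ _u ∈ Kc v, (k - (W.card : ℤ)) ≤ ∑ u ∈ Kc v, ∑ w ∈ Kc v, B w u := by
        refine Finset.sum_le_sum fun u hu => ?_
        have h3 := hd.colK h0 hdum hW hdj hv hu
        have h4 : ∑ w ∈ W, B w u ≤ W.card := by
          calc ∑ w ∈ W, B w u ≤ ∑ _w ∈ W, (1 : ℤ) := Finset.sum_le_sum fun w _ => h1 w u
            _ = W.card := by simp
        have h5 := hdeg u (by
          rw [← hW]
          exact Finset.mem_union_right _ (hKR hu))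
        linarith
      rw [Finset.sum_const, nsmul_eq_mul, Finset.sum_comm] at h2
      unfold EE
      linarith
    have e4 : (Kc v).card * (2 * (k - (W.card : ℤ))) ≤ (Kc v).card * ((Kc v).card - 1) := by
      linarith
    exact le_of_mul_le_mul_left e4 hn1
  have h2 : ∑ v ∈ S, 2 * (k - (W.card : ℤ)) ≤ ∑ v ∈ S, (((Kc v).card : ℤ) - 1) :=
    Finset.sum_le_sum fun v hv => key v hv
  rw [Finset.sum_const, nsmul_eq_mul] at h2
  have h3 := hd.sizes
  linarith

/-- **The counting facts**, minimum indegree at least `k`, hubs of the first type -/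
theorem Ctx.cntI (h : Ctx B Rl ℓ nQ nP uq up q p k θ) (hin : ∀ v ∈ Rl, k ≤ ∑ u, B u v)
    {a : ℕ} (ha : a ≤ nQ) (hd : Dec B pick (vs uq up (rr nQ nP a 0)) Rs S g Kc)
    (hpick : ∀ K : Finset V, K.Nonempty → pick K ∈ K ∧ outdg B K (pick K) ≤ indg B K (pick K)) :
    (Rl.card : ℝ) = a + Rs.card + S.card ∧
    ∑ j ∈ range a, q j - a * Rs.card ≤ ((- ∑ v ∈ S, im B v : ℤ) : ℝ) ∧
    2 * (((k : ℝ) - a) * S.card) ≤ Rs.card := by
  classical
  have B0 := h.fr.sys.B0
  have B1 := h.fr.sys.B1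
  have Bd := h.fr.sys.Bd
  have dum := h.fr.sys.dummy
  have par := h.fr.par ha (Nat.zero_le _) hd
  set O : Finset V := vs uq up (iq 0 a) with hO
  have hI : vs uq up (ip 0 0) = ∅ := by
    unfold vs ip
    simp
  rw [hI] at par
  have cO : (O.card : ℤ) = a := by rw [hO, h.fr.card_hub ha]
  have sO : (((∑ v ∈ O, im B v : ℤ)) : ℝ) = ∑ j ∈ range a, q j := h.fr.sum_hub ha
  have rO := par.row (B := B) O
  have rS := par.row (B := B) S
  have c_O := par.col (B := B) O
  have c_S := par.col (B := B) S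
  have iO := im_sum_ar dum O
  have iS := im_sum_ar dum S
  have SS0 := hd.SS B0
  have RS := hd.RSI B0 Bd hpick
  have lOR := ar_le B1 O Rs
  have nn : ∀ X Y : Finset V, 0 ≤ ar B X Y := fun X Y => ar_nn B0 X Y
  have cardE := par.card
  have e1 : ar B O ∅ = 0 := by unfold ar; simp
  have e2 : ar B ∅ O = 0 := by unfold ar; simp
  have e3 : ar B S ∅ = 0 := by unfold ar; simp
  have e4 : ar B ∅ S = 0 := by unfold ar; simp
  rw [Finset.card_empty] at cardE
  rw [cO] at cardE lOR
  refine ⟨?_, ?_, ?_⟩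
  · have h1 : ((Rl.card : ℤ) : ℝ) = (((a : ℤ) + (0 : ℕ) + Rs.card + S.card : ℤ) : ℝ) := by
      rw [cardE]
    push_cast at h1
    linarith
  · have n1 := nn Rs O
    have h1 : ∑ v ∈ O, im B v - a * Rs.card ≤ - ∑ v ∈ S, im B v := by linarith
    rw [← sO]
    exact_mod_cast h1
  · have hU := h.fr.hub_un ha
    have hdj := h.fr.hub_dj ha
    have h1 := hd.sizeI B0 B1 Bd dum hin hU hdj
    rw [h.fr.card_hub ha] at h1
    exact_mod_cast h1

/-- the multiplicities of a hub -/
theorem Ctx.cMM (h : Ctx B Rl ℓ nQ nP uq up q p k θ) {a i0 : ℕ} (ha : a ≤ nQ) (hi : i0 < a)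
    (hq : 0 < q i0) (hd : Dec B pick (vs uq up (rr nQ nP a 0)) Rs S g Kc) :
    ((∑ v ∈ S, MM B (uq i0) v : ℤ) : ℝ) ≤ S.card + (Rl.card - 1 - q i0) := by
  classical
  have hQ := h.fr.nQle
  have hP := h.fr.nPle
  have B0 := h.fr.sys.B0
  have B1 := h.fr.sys.B1
  have Bd := h.fr.sys.Bd
  have dum := h.fr.sys.dummy
  have hr := h.realQ0 (i := i0) (by omega) hq
  have par := h.fr.par ha (Nat.zero_le _) hd
  have hnot : uq i0 ∉ S := by
    intro hmem
    have h1 : uq i0 ∈ vs uq up (iq 0 a) := by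
      unfold vs
      rw [Finset.mem_image]
      exact ⟨Sum.inl i0, by simp only [inl_mem_iq]; omega, rfl⟩
    exact Finset.disjoint_left.1 par.d2 (Finset.mem_union_left _ h1)
      (Finset.mem_union_right _ hmem)
  have h1 := charge_sum B0 B1 Bd dum hr 1 (Or.inl rfl) par.sS hnot
  have h2 : ∑ v ∈ S, MM B (uq i0) v ≤
      ∑ v ∈ S, (1 + (1 - 1 * (B (uq i0) v - B v (uq i0)))) := by
    refine Finset.sum_le_sum fun v _ => ?_
    have h3 := B1 (uq i0) v
    unfold MM
    linarith
  rw [Finset.sum_add_distrib, Finset.sum_const, nsmul_eq_mul, mul_one] at h2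
  have h3 : ∑ v ∈ S, MM B (uq i0) v ≤ S.card + ((Rl.card : ℤ) - 1 - im B (uq i0)) := by linarith
  have h4 := h.fr.sys.wtQ i0 (by omega)
  rw [← h4]
  exact_mod_cast h3

/-- the facts if all components are single vertices -/
theorem Ctx.cntI0 (h : Ctx B Rl ℓ nQ nP uq up q p k θ) (hin : ∀ v ∈ Rl, k ≤ ∑ u, B u v)
    {a : ℕ} (ha : a ≤ nQ) (hd : Dec B pick (vs uq up (rr nQ nP a 0)) ∅ S g Kc) :
    ∑ j ∈ range a, q j + k * a ≤ (2 * k - 1) * θ ∧
    ∀ v ∈ S, im B v ≤ a - k ∧ |((im B v : ℤ) : ℝ)| ≤ a ∧ (k : ℝ) ≤ a := by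
  classical
  have B0 := h.fr.sys.B0
  have B1 := h.fr.sys.B1
  have Bd := h.fr.sys.Bd
  have dum := h.fr.sys.dummy
  have par := h.fr.par ha (Nat.zero_le _) hd
  set O : Finset V := vs uq up (iq 0 a) with hO
  have hI : vs uq up (ip 0 0) = ∅ := by
    unfold vs ip
    simp
  rw [hI] at par
  have cO : (O.card : ℤ) = a := by rw [hO, h.fr.card_hub ha]
  have sO : (((∑ v ∈ O, im B v : ℤ)) : ℝ) = ∑ j ∈ range a, q j := h.fr.sum_hub ha
  have tot := par.total (B := B) dum
  have tot' := par.total' (B := B) dum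
  have rO := par.row (B := B) O
  have rS := par.row (B := B) S
  have c_O := par.col (B := B) O
  have c_S := par.col (B := B) S
  have iO := im_sum_ar dum O
  have SS0 := hd.SS B0
  have nn : ∀ X Y : Finset V, 0 ≤ ar B X Y := fun X Y => ar_nn B0 X Y
  have e1 : ∀ X : Finset V, ar B X ∅ = 0 := by intro X; unfold ar; simp
  have e2 : ∀ X : Finset V, ar B ∅ X = 0 := by intro X; unfold ar; simp
  simp only [e1, e2] at tot' rO rS c_O c_S tot
  have hOin : k * (O.card : ℤ) ≤ ar B Rl O := by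
    rw [← sum_col dum]
    calc k * (O.card : ℤ) = ∑ _v ∈ O, k := by rw [Finset.sum_const, nsmul_eq_mul]; ring
      _ ≤ _ := Finset.sum_le_sum fun v hv => hin v (par.sO hv)
  rw [cO] at hOin
  refine ⟨?_, ?_⟩
  · have n1 := nn S O
    have e5 : ar B Rl ∅ = 0 := e1 _
    have e6 : ar B ∅ Rl = 0 := e2 _
    have h1 : ∑ v ∈ O, im B v + k * a ≤ mm B := by
      linarith
    rw [h.hm, ← sO]
    exact_mod_cast h1
  · intro v hv
    have hvR : v ∈ Rl := par.sS hv
    have hrow : ∑ u, B v u = ∑ u ∈ O, B v u := by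
      rw [row_real dum, ← par.un]
      have h3 : O ∪ ∅ ∪ (∅ ∪ S) = O ∪ S := by simp
      rw [h3]
      have hdOS : Disjoint O S := by
        have := par.d2
        rw [Finset.union_empty, Finset.empty_union] at this
        exact this
      rw [Finset.sum_union hdOS]
      have h4 : ∑ u ∈ S, B v u = 0 := by
        refine Finset.sum_eq_zero fun u hu => ?_
        have h5 := hd.ind v hv u hu
        unfold MM at h5
        have h6 := B0 v u
        have h7 := B0 u v
        omega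
      rw [h4, add_zero]
    have hcol : ∑ u, B u v = ∑ u ∈ O, B u v := by
      rw [col_real dum, ← par.un]
      have h3 : O ∪ ∅ ∪ (∅ ∪ S) = O ∪ S := by simp
      rw [h3]
      have hdOS : Disjoint O S := by
        have := par.d2
        rw [Finset.union_empty, Finset.empty_union] at this
        exact this
      rw [Finset.sum_union hdOS]
      have h4 : ∑ u ∈ S, B u v = 0 := by
        refine Finset.sum_eq_zero fun u hu => ?_
        have h5 := hd.ind v hv u hu
        unfold MM at h5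
        have h6 := B0 v u
        have h7 := B0 u v
        omega
      rw [h4, add_zero]
    have b1 : ∑ u ∈ O, B v u ≤ a := by
      rw [← cO]
      calc ∑ w ∈ O, B v w ≤ ∑ _w ∈ O, (1 : ℤ) := Finset.sum_le_sum fun w _ => B1 v w
        _ = O.card := by simp
    have b2 : ∑ u ∈ O, B u v ≤ a := by
      rw [← cO]
      calc ∑ w ∈ O, B w v ≤ ∑ _w ∈ O, (1 : ℤ) := Finset.sum_le_sum fun w _ => B1 w v
        _ = O.card := by simp
    have b3 : 0 ≤ ∑ u ∈ O, B v u := Finset.sum_nonneg fun u _ => B0 v u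
    have b4 := hin v hvR
    rw [hcol] at b4
    have him : im B v = ∑ u ∈ O, B v u - ∑ u ∈ O, B u v := by
      unfold im
      rw [hrow, hcol]
    have k3 := h.k3
    refine ⟨by rw [him]; linarith, ?_, ?_⟩
    · have h1 : |im B v| ≤ a := by
        rw [him, abs_le]
        constructor <;> linarith
      rw [← Int.cast_abs]
      exact_mod_cast h1
    · have : k ≤ a := by linarith
      exact_mod_cast this

end Pool.Agent.Exact
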