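import Pool.Agent.Lib_helper23.Exact.CntI

/-!
# Counting facts for hubs of both types, minimum indegree at least `k`
-/

set_option autoImplicit false
set_option linter.unusedSectionVars false

namespace Pool.Agent.Exact

open Finset

variable {V : Type*} [Fintype V] [DecidableEq V]
variable {B : V → V → ℤ} {Rl : Finset V} {ℓ nQ nP : ℕ} {uq up : ℕ → V} {q p : ℕ → ℝ}
variable {k : ℤ} {θ : ℝ}
variable {R Rs S : Finset V} {g : ℤ} {Kc : V → Finset V} {pick : Finset V → V}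

/-- the arcs between `Rs` and `S`, both directions -/
lemma Dec.RSsum (hd : Dec B pick R Rs S g Kc) (h0 : ∀ u v, 0 ≤ B u v) (hB : ∀ v, B v v = 0) :
    ar B S Rs + ar B Rs S ≤ Rs.card := by
  classical
  have h1 : ar B Rs S = ∑ v ∈ S, indg B (Kc v) v := by
    unfold ar
    rw [Finset.sum_comm]
    exact Finset.sum_congr rfl fun v hv => hd.colS h0 hB hv
  have h2 : ar B S Rs = ∑ v ∈ S, outdg B (Kc v) v := by
    unfold ar
    exact Finset.sum_congr rfl fun v hv => hd.rowS h0 hB hv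
  rw [h1, h2, ← Finset.sum_add_distrib]
  refine le_trans (Finset.sum_le_sum fun v hv => ?_) hd.sizes
  have hvK := (hd.bad v hv).2.1
  have hs := (hd.bad v hv).1.simple
  have h3 : outdg B (Kc v) v + indg B (Kc v) v = ∑ u ∈ (Kc v).erase v, MM B v u := by
    unfold outdg indg
    rw [← Finset.add_sum_erase (Kc v) _ hvK, ← Finset.add_sum_erase (Kc v) (fun u => B u v) hvK,
      hB, zero_add, zero_add, ← Finset.sum_add_distrib]
    rfl
  rw [h3]
  calc ∑ u ∈ (Kc v).erase v, MM B v u ≤ ∑ _u ∈ (Kc v).erase v, (1 : ℤ) :=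
        Finset.sum_le_sum fun u hu => hs v hvK u (Finset.mem_of_mem_erase hu)
    _ = (Kc v).card - 1 := by
        rw [Finset.sum_const, nsmul_eq_mul, mul_one, Finset.card_erase_of_mem hvK]
        have : 1 ≤ (Kc v).card := Finset.card_pos.2 ⟨v, hvK⟩
        push_cast [Nat.cast_sub this]
        ring

lemma ar_in (hdum : ∀ v, v ∉ Rl → ∀ u, B u v = 0 ∧ B v u = 0)
    (hdeg : ∀ v ∈ Rl, k ≤ ∑ u, B u v) {X : Finset V} (hX : X ⊆ Rl) :
    k * X.card ≤ ar B Rl X := by
  rw [← sum_col hdum]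
  calc k * (X.card : ℤ) = ∑ _v ∈ X, k := by rw [Finset.sum_const, nsmul_eq_mul]; ring
    _ ≤ _ := Finset.sum_le_sum fun v hv => hdeg v (hX hv)

/-- **The counting facts**, minimum indegree at least `k`, hubs of both types -/
structure CntPi (k θ n a b ρ σ q0 SQ SP bS c0 : ℝ) : Prop where
  card : n = a + b + ρ + σ
  F : k * (n - b) + SP ≤ (2 * k - 1) * θ
  F' : k * (n - b) + SP + (k - a) * σ - ρ ≤ (2 * k - 1) * θ
  G : SQ + k * a + k * σ - (2 * k - 1) * θ ≤ bS
  G' : SQ + k * a + (2 * k - a) * σ + (k - a - 1 / 2) * ρ - (2 * k - 1) * θ ≤ bS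
  c : c0 ≤ σ + (n - 1 - q0)

/-- **The counting facts**, minimum indegree at least `k`, hubs of both types -/
theorem Ctx.cntPi (h : Ctx B Rl ℓ nQ nP uq up q p k θ) (hin : ∀ v ∈ Rl, k ≤ ∑ u, B u v)
    {a b : ℕ} (ha1 : 1 ≤ a) (ha : a ≤ nQ) (hb : b ≤ nP) (hq0 : 0 < q 0)
    (hd : Dec B pick (vs uq up (rr nQ nP a b)) Rs S g Kc)
    (hpick : ∀ K : Finset V, K.Nonempty → pick K ∈ K ∧ outdg B K (pick K) ≤ indg B K (pick K)) :
    CntPi k θ Rl.card a b Rs.card S.card (q 0) (∑ j ∈ range a, q j) (∑ j ∈ range b, p j)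
      ((- ∑ v ∈ S, im B v : ℤ) : ℝ) ((∑ v ∈ S, MM B (uq 0) v : ℤ) : ℝ) := by
  classical
  have hQ := h.fr.nQle
  have hP := h.fr.nPle
  have B0 := h.fr.sys.B0
  have B1 := h.fr.sys.B1
  have Bd := h.fr.sys.Bd
  have dum := h.fr.sys.dummy
  have par := h.fr.par ha hb hd
  set O : Finset V := vs uq up (iq 0 a) with hO
  set I : Finset V := vs uq up (ip 0 b) with hI
  have cO : (O.card : ℤ) = a := by rw [hO, h.fr.card_hub ha]
  have cI : (I.card : ℤ) = b := by rw [hI, h.fr.card_hubP hb]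
  have sO : (((∑ v ∈ O, im B v : ℤ)) : ℝ) = ∑ j ∈ range a, q j := h.fr.sum_hub ha
  have sI : (((∑ v ∈ I, im B v : ℤ)) : ℝ) = - ∑ j ∈ range b, p j := h.fr.sum_hubP hb
  have tot := par.total (B := B) dum
  have tot' := par.total' (B := B) dum
  have rI := par.row (B := B) I
  have rR := par.row (B := B) Rs
  have c_S := par.col (B := B) S
  have c_R := par.col (B := B) Rs
  have iO := im_sum_ar dum O
  have iI := im_sum_ar dum I
  have iS := im_sum_ar dum S
  have nO := ar_in dum hin par.sO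
  have nI := ar_in dum hin par.sI
  have nR := ar_in dum hin par.sR
  have nS := ar_in dum hin par.sS
  have SS0 := hd.SS B0
  have RS1 := hd.RSsum B0 Bd
  have RS2 := hd.RSI B0 Bd hpick
  have lOS := ar_le B1 O S
  have lOR := ar_le B1 O Rs
  have nn : ∀ X Y : Finset V, 0 ≤ ar B X Y := fun X Y => ar_nn B0 X Y
  have cardE := par.card
  rw [cO] at lOS lOR nO
  rw [cO, cI] at cardE
  set ρ : ℤ := (Rs.card : ℤ) with hρ
  set σ : ℤ := (S.card : ℤ) with hσ
  have cardR : (Rl.card : ℝ) = a + b + (Rs.card : ℝ) + S.card := by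
    have h1 : ((Rl.card : ℤ) : ℝ) = (((a : ℤ) + b + ρ + σ : ℤ) : ℝ) := by rw [cardE]
    rw [hρ, hσ] at h1
    push_cast at h1
    exact h1
  have tot1 : (2 * (k : ℝ) - 1) * θ = ((mm B : ℤ) : ℝ) := h.hm
  have F1 : k * (a + ρ + σ) - ∑ v ∈ I, im B v ≤ mm B := by
    have n1 := nn I Rl
    linarith
  have F2 : k * (a + ρ + σ) - ∑ v ∈ I, im B v + (k - a) * σ - ρ ≤ mm B := by
    have n1 := nn I O
    have n2 := nn I I
    have n3 := nn I Rs
    have n4 := nn S Rs
    linarith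
  have G1 : ∑ v ∈ O, im B v + k * a + k * σ - mm B ≤ - ∑ v ∈ S, im B v := by
    have n1 := nn I Rl
    have n2 := nn Rs Rl
    linarith
  have G2 : 2 * (∑ v ∈ O, im B v) + 2 * (k * a) + 2 * ((2 * k - a) * σ) +
      2 * ((k - a) * ρ) - ρ - 2 * mm B ≤ 2 * (- ∑ v ∈ S, im B v) := by
    have n1 := nn I O
    have n2 := nn I I
    have n3 := nn Rs O
    have n4 := nn Rs I
    linarith
  have F1r : (k : ℝ) * (a + Rs.card + S.card) - ((∑ v ∈ I, im B v : ℤ) : ℝ) ≤ mm B := by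
    exact_mod_cast F1
  have F2r : (k : ℝ) * (a + Rs.card + S.card) - ((∑ v ∈ I, im B v : ℤ) : ℝ) +
      (k - a) * S.card - Rs.card ≤ mm B := by
    exact_mod_cast F2
  have G1r : ((∑ v ∈ O, im B v : ℤ) : ℝ) + k * a + k * S.card - mm B ≤
      ((- ∑ v ∈ S, im B v : ℤ) : ℝ) := by exact_mod_cast G1
  have G2r : 2 * ((∑ v ∈ O, im B v : ℤ) : ℝ) + 2 * (k * a) + 2 * ((2 * k - a) * S.card) +
      2 * ((k - a) * Rs.card) - Rs.card - 2 * mm B ≤ 2 * ((- ∑ v ∈ S, im B v : ℤ) : ℝ) := by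
    exact_mod_cast G2
  rw [sI, ← tot1] at F1r F2r
  rw [sO, ← tot1] at G1r G2r
  have e : (Rl.card : ℝ) - b = a + Rs.card + S.card := by rw [cardR]; ring
  refine ⟨cardR, ?_, ?_, ?_, ?_, ?_⟩
  · rw [e]; linarith
  · rw [e]; linarith
  · linarith
  · linarith
  · have hr := h.realQ0 (i := 0) (by omega) hq0
    have hnot : uq 0 ∉ S := by
      intro hmem
      have h1 : uq 0 ∈ vs uq up (iq 0 a) := by
        unfold vs
        rw [Finset.mem_image]
        exact ⟨Sum.inl 0, by simp only [inl_mem_iq]; omega, rfl⟩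
      exact Finset.disjoint_left.1 par.d2 (Finset.mem_union_left _ h1)
        (Finset.mem_union_right _ hmem)
    have h1 := charge_sum B0 B1 Bd dum hr 1 (Or.inl rfl) par.sS hnot
    have h2 : ∑ v ∈ S, MM B (uq 0) v ≤
        ∑ v ∈ S, (1 + (1 - 1 * (B (uq 0) v - B v (uq 0)))) := by
      refine Finset.sum_le_sum fun v _ => ?_
      have h3 := B1 (uq 0) v
      unfold MM
      linarith
    rw [Finset.sum_add_distrib, Finset.sum_const, nsmul_eq_mul, mul_one] at h2
    have h3 : ∑ v ∈ S, MM B (uq 0) v ≤ S.card + ((Rl.card : ℤ) - 1 - im B (uq 0)) := by linarith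
    have h4 := h.fr.sys.wtQ 0 (by omega)
    rw [← h4]
    exact_mod_cast h3

end Pool.Agent.Exact
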