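import Pool.Agent.Lib_helper23.Exact.Static

/-!
# Counting facts in the frame
-/

set_option autoImplicit false
set_option linter.unusedSectionVars false

namespace Pool.Agent.Exact

open Finset

variable {V : Type*} [Fintype V] [DecidableEq V]
variable {B : V → V → ℤ} {Rl : Finset V} {ℓ nQ nP : ℕ} {uq up : ℕ → V} {q p : ℕ → ℝ}

/-- the context: minimum outdegree (or indegree) at least `k`, and `θ = m / (2k-1)` -/
structure Ctx (B : V → V → ℤ) (Rl : Finset V) (ℓ nQ nP : ℕ) (uq up : ℕ → V) (q p : ℕ → ℝ)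
    (k : ℤ) (θ : ℝ) : Prop where
  fr : Frame B Rl ℓ nQ nP uq up q p
  k3 : 3 ≤ k
  hm : (2 * (k : ℝ) - 1) * θ = mm B
  deg : (∀ v ∈ Rl, k ≤ ∑ u, B v u) ∨ ∀ v ∈ Rl, k ≤ ∑ u, B u v

variable {k : ℤ} {θ : ℝ}

/-- the context after exchanging the types -/
lemma Ctx.swap (h : Ctx B Rl ℓ nQ nP uq up q p k θ) : Ctx (Tr B) Rl ℓ nP nQ up uq p q k θ where
  fr := h.fr.swap
  k3 := h.k3
  hm := by
    rw [h.hm]
    exact congrArg _ (mm_transpose (B := B)).symm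
  deg := by
    rcases h.deg with h1 | h1
    · exact Or.inr h1
    · exact Or.inl h1

section
variable (h : Ctx B Rl ℓ nQ nP uq up q p k θ)
include h

lemma Ctx.k3r : (3 : ℝ) ≤ k := by exact_mod_cast h.k3

/-- `kn ≤ m` -/
lemma Ctx.kn : (k : ℝ) * Rl.card ≤ (2 * k - 1) * θ := by
  rw [h.hm]
  rcases h.deg with h1 | h1
  · have := mm_ge_out h.fr.sys.B0 h.fr.sys.dummy h1 (S := ∅) (by simp)
    simp only [Finset.card_empty, Nat.cast_zero, sub_zero, Finset.sum_empty, add_zero] at this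
    exact_mod_cast this
  · have := mm_ge_out (B := Tr B) (fun u v => h.fr.sys.B0 v u)
      (fun v hv u => ⟨(h.fr.sys.dummy v hv u).2, (h.fr.sys.dummy v hv u).1⟩) h1 (S := ∅) (by simp)
    simp only [Finset.card_empty, Nat.cast_zero, sub_zero, Finset.sum_empty, add_zero] at this
    have e : mm (Tr B) = mm B := mm_transpose
    rw [e] at this
    exact_mod_cast this

lemma Ctx.θ0 : 0 ≤ θ := by
  have h1 := h.kn
  have h2 := h.k3r
  have h3 : (0 : ℝ) ≤ Rl.card := Nat.cast_nonneg _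
  have h4 : 0 ≤ (k : ℝ) * Rl.card := by positivity
  by_contra hc
  push Not at hc
  nlinarith

/-- `λ ≥ 2` for `n ≥ 2k-1` -/
lemma Ctx.lam2 (hn : 2 * k - 1 ≤ (Rl.card : ℤ)) : 2 ≤ 2 * θ - Rl.card + 1 := by
  have h1 := h.kn
  have h2 := h.k3r
  have h3 : 2 * (k : ℝ) - 1 ≤ Rl.card := by exact_mod_cast hn
  by_contra hc
  push Not at hc
  nlinarith

/-- real vertices -/
lemma Ctx.realQ0 {i : ℕ} (hi : i < 2 * ℓ) (hq : 0 < q i) : uq i ∈ Rl := by
  rw [h.fr.sys.realQ i hi]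
  by_contra hc
  push Not at hc
  rw [h.fr.zQ hc hi] at hq
  exact lt_irrefl _ hq

lemma Ctx.realP0 {i : ℕ} (hi : i < 2 * ℓ) (hp : 0 < p i) : up i ∈ Rl := h.swap.realQ0 hi hp

/-- the largest possible weight -/
lemma Ctx.qle {i : ℕ} (hi : i < 2 * ℓ) (hq : 0 < q i) : q i ≤ Rl.card - 1 := by
  have hr := h.realQ0 hi hq
  have h1 := charge_sum h.fr.sys.B0 h.fr.sys.B1 h.fr.sys.Bd h.fr.sys.dummy hr 1 (Or.inl rfl)
    (T := ∅) (by simp) (by simp)
  rw [Finset.sum_empty] at h1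
  have h2 := h.fr.sys.wtQ i hi
  rw [← h2]
  have : im B (uq i) ≤ (Rl.card : ℤ) - 1 := by linarith
  have h3 : ((im B (uq i) : ℤ) : ℝ) ≤ (((Rl.card : ℤ) - 1 : ℤ) : ℝ) := by exact_mod_cast this
  push_cast at h3
  linarith

lemma Ctx.ple {i : ℕ} (hi : i < 2 * ℓ) (hp : 0 < p i) : p i ≤ Rl.card - 1 := h.swap.qle hi hp

/-- indegree at least `k`: the first type has weight at most `n-1-k` -/
lemma Ctx.qleK (hin : ∀ v ∈ Rl, k ≤ ∑ u, B u v) {i : ℕ} (hi : i < 2 * ℓ) (hq : 0 < q i) :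
    q i ≤ Rl.card - 1 - k := by
  have hr := h.realQ0 hi hq
  have h1 := im_ge (B := Tr B) (fun u v => h.fr.sys.B0 v u) (fun u v => h.fr.sys.B1 v u)
    h.fr.sys.Bd (fun v hv u => ⟨(h.fr.sys.dummy v hv u).2, (h.fr.sys.dummy v hv u).1⟩) hin hr
  rw [im_Tr] at h1
  have h2 := h.fr.sys.wtQ i hi
  rw [← h2]
  have : im B (uq i) ≤ (Rl.card : ℤ) - 1 - k := by linarith
  have h3 : ((im B (uq i) : ℤ) : ℝ) ≤ (((Rl.card : ℤ) - 1 - k : ℤ) : ℝ) := by exact_mod_cast this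
  push_cast at h3
  linarith

lemma Ctx.pleK (hout : ∀ v ∈ Rl, k ≤ ∑ u, B v u) {i : ℕ} (hi : i < 2 * ℓ) (hp : 0 < p i) :
    p i ≤ Rl.card - 1 - k := h.swap.qleK hout hi hp

/-- outdegree at least `k`: `k (n-1) + q_0 ≤ m` -/
lemma Ctx.O1 (hout : ∀ v ∈ Rl, k ≤ ∑ u, B v u) {i : ℕ} (hi : i < 2 * ℓ) (hq : 0 < q i) :
    (k : ℝ) * (Rl.card - 1) + q i ≤ (2 * k - 1) * θ := by
  have hr := h.realQ0 hi hq
  have h1 := mm_ge_out h.fr.sys.B0 h.fr.sys.dummy hout (S := {uq i}) (by simpa using hr)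
  rw [Finset.card_singleton, Finset.sum_singleton] at h1
  rw [h.hm, ← h.fr.sys.wtQ i hi]
  exact_mod_cast h1

lemma Ctx.O1' (hin : ∀ v ∈ Rl, k ≤ ∑ u, B u v) {i : ℕ} (hi : i < 2 * ℓ) (hp : 0 < p i) :
    (k : ℝ) * (Rl.card - 1) + p i ≤ (2 * k - 1) * θ := h.swap.O1 hin hi hp

/-- the number of arcs between the hub and a vertex -/
lemma Ctx.MM_le (v : V) {i : ℕ} (hi : i < 2 * ℓ) (hq : 0 < q i) (hv : v ≠ uq i) :
    ((MM B (uq i) v : ℤ) : ℝ) ≤ 1 + (Rl.card - 1 - q i) := by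
  have hr := h.realQ0 hi hq
  by_cases hvr : v ∈ Rl
  · have h1 := charge_sum h.fr.sys.B0 h.fr.sys.B1 h.fr.sys.Bd h.fr.sys.dummy hr 1 (Or.inl rfl)
      (T := {v}) (by simpa using hvr) (by simpa using hv.symm)
    rw [Finset.sum_singleton] at h1
    have h2 := mult_le h.fr.sys.B0 h.fr.sys.B1 (uq i) v 1 (Or.inl rfl)
    have h3 := (abs_le.1 h2).2
    have h4 := h.fr.sys.wtQ i hi
    have h5 : MM B (uq i) v ≤ 1 + ((Rl.card : ℤ) - 1 - im B (uq i)) := by linarith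
    have h6 : ((MM B (uq i) v : ℤ) : ℝ) ≤ ((1 + ((Rl.card : ℤ) - 1 - im B (uq i)) : ℤ) : ℝ) := by
      exact_mod_cast h5
    push_cast at h6
    rw [h4] at h6
    exact h6
  · have e : MM B (uq i) v = 0 := by
      unfold MM
      rw [(h.fr.sys.dummy v hvr (uq i)).1, (h.fr.sys.dummy v hvr (uq i)).2, add_zero]
    rw [e]
    have := h.qle hi hq
    push_cast
    linarith

lemma Ctx.MM2 (u v : V) : ((MM B u v : ℤ) : ℝ) ≤ 2 := by
  have := (MM_range h.fr.sys.B0 h.fr.sys.B1 u v).2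
  exact_mod_cast this

lemma Ctx.MM0 (u v : V) : 0 ≤ ((MM B u v : ℤ) : ℝ) := by
  have := (MM_range h.fr.sys.B0 h.fr.sys.B1 u v).1
  exact_mod_cast this

lemma Ctx.uqp {i j : ℕ} (hi : i < 2 * ℓ) (hj : j < 2 * ℓ) : up j ≠ uq i :=
  fun e => h.fr.sys.disj i hi j hj e.symm

/-- the integer `ζ` -/
lemma Ctx.zeta {i : ℕ} (hi : i < 2 * ℓ) (hq : 0 < q i) :
    ∃ z : ℤ, 0 ≤ z ∧ (z : ℝ) = Rl.card - 1 - q i := by
  refine ⟨(Rl.card : ℤ) - 1 - im B (uq i), ?_, ?_⟩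
  · have h1 := h.qle hi hq
    rw [← h.fr.sys.wtQ i hi] at h1
    have : im B (uq i) ≤ (Rl.card : ℤ) - 1 := by
      have h2 : ((im B (uq i) : ℤ) : ℝ) ≤ (((Rl.card : ℤ) - 1 : ℤ) : ℝ) := by
        push_cast; linarith
      exact_mod_cast h2
    linarith
  · push_cast
    rw [h.fr.sys.wtQ i hi]

/-- `θ ≥ 3` -/
lemma Ctx.θ3 (hn : 2 * k - 1 ≤ (Rl.card : ℤ)) : 3 ≤ θ := by
  have h1 := h.kn
  have h2 := h.k3r
  have h3 : 2 * (k : ℝ) - 1 ≤ Rl.card := by exact_mod_cast hn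
  by_contra hc
  push Not at hc
  nlinarith

/-- the fact (Z1) -/
theorem Ctx.Z1 (hn : 2 * k - 1 ≤ (Rl.card : ℤ)) (hq : 0 < q 0)
    (hp : q 0 - θ + 2 ≤ p 0) (hpp : 0 < p 0) :
    q 0 + MM B (uq 0) (up 0) + 2 ≤ 2 * θ ∧ q 0 + 3 ≤ 2 * θ ∧
      (q 0 = Rl.card - 1 → (Rl.card : ℝ) + 2 ≤ 2 * θ) := by
  have hl := h.fr.l2
  have h2l : 0 < 2 * ℓ := by omega
  have k3 := h.k3r
  have lam := h.lam2 hn
  have hM2 := h.MM2 (uq 0) (up 0)
  have hM1 := h.MM_le (up 0) h2l hq (h.uqp h2l h2l)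
  obtain ⟨z, hz0, hz⟩ := h.zeta h2l hq
  rcases h.deg with hd | hd
  · -- outdegree
    have hO := h.O1 hd h2l hq
    have hP := h.pleK hd h2l hpp
    rcases lt_trichotomy z 1 with hz1 | hz1 | hz1
    · have hz2 : z = 0 := by omega
      rw [hz2] at hz
      push_cast at hz
      have h3 : (Rl.card : ℝ) + 2 ≤ 2 * θ := by
        by_contra hc
        push Not at hc
        nlinarith
      refine ⟨by linarith, by linarith, fun _ => h3⟩
    · rw [hz1] at hz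
      push_cast at hz
      have h3 : (Rl.card : ℝ) + 2 ≤ 2 * θ := by
        by_contra hc
        push Not at hc
        have h4 : 3 * (Rl.card : ℝ) < 6 * k + 2 := by nlinarith
        have h5 : (2 * k : ℝ) < Rl.card := by linarith
        have h6 : 2 * k < (Rl.card : ℤ) := by exact_mod_cast h5
        have h7 : 3 * (Rl.card : ℤ) < 6 * k + 2 := by exact_mod_cast h4
        omega
      refine ⟨by linarith, by linarith, fun _ => h3⟩
    · have hz2 : (2 : ℝ) ≤ z := by exact_mod_cast hz1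
      refine ⟨by linarith, by linarith, fun e => ?_⟩
      exfalso
      linarith
  · have hQ := h.qleK hd h2l hq
    refine ⟨by linarith, by linarith, fun e => ?_⟩
    exfalso
    linarith

/-- the fact (Z3) -/
theorem Ctx.Z3 (hn : 2 * k - 1 ≤ (Rl.card : ℤ)) (hq : 0 < q 0) (hpp : 0 < p 0) (hpq : p 0 ≤ q 0)
    (hp : 2 * θ - q 0 - MM B (uq 0) (up 0) < p 0 - θ) :
    3 < 2 * θ - Rl.card + 1 := by
  have hl := h.fr.l2
  have h2l : 0 < 2 * ℓ := by omega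
  have k3 := h.k3r
  have lam := h.lam2 hn
  have hM2 := h.MM2 (uq 0) (up 0)
  obtain ⟨z, hz0, hz⟩ := h.zeta h2l hq
  have hz0' : (0 : ℝ) ≤ z := by exact_mod_cast hz0
  rcases h.deg with hd | hd
  · have hO := h.O1 hd h2l hq
    have hP := h.pleK hd h2l hpp
    by_contra hc
    push Not at hc
    nlinarith
  · have hQ := h.qleK hd h2l hq
    have hO := h.O1' hd h2l hpp
    by_contra hc
    push Not at hc
    nlinarith

end

end Pool.Agent.Exact
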