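import Pool.Agent.Lib_helper23.Exact.Tree2
import Pool.Agent.Lib_helper68.Exact.Leaf2

/-!
# Crossings are good in all leaves of the decision tree
-/

set_option autoImplicit false
set_option linter.unusedSectionVars false

namespace Pool.Agent.Exact

open Finset

variable {V : Type*} [Fintype V] [DecidableEq V]
variable {B : V → V → ℤ} {Rl : Finset V} {ℓ nQ nP : ℕ} {uq up : ℕ → V} {q p : ℕ → ℝ}
variable {k : ℤ} {θ : ℝ}

/-- the charge of the rest, as a real number -/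
noncomputable def cRr (B : V → V → ℤ) (nQ nP : ℕ) (uq up : ℕ → V) (a b : ℕ) : ℝ :=
  ((ch (MM B (uq 0)) (vs uq up (rr nQ nP a b)) : ℤ) : ℝ)

/-- the cut is admissible and crossings give good values -/
structure Closed (B : V → V → ℤ) (nQ nP : ℕ) (uq up : ℕ → V) (q p : ℕ → ℝ) (θ : ℝ) (a b : ℕ) :
    Prop where
  a1 : 1 ≤ a
  aQ : a ≤ nQ
  bP : b ≤ nP
  cr : ∀ D : ℝ, D ≤ max 0 (cRr B nQ nP uq up a b - 1) → CrI B uq up q p a b D → Val B θ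
  crs : ∀ D : ℝ, D ≤ cRr B nQ nP uq up a b → CrSI B uq up p a b D → Val B θ

section
variable (h : Ctx B Rl ℓ nQ nP uq up q p k θ)
include h

lemma Ctx.idxQ {i : ℕ} (hi : i < 2 * ℓ) (hq : 0 < q i) : i + 1 ≤ nQ := by
  have h1 := h.realQ0 hi hq
  rwa [h.fr.sys.realQ i hi] at h1

lemma Ctx.idxP {i : ℕ} (hi : i < 2 * ℓ) (hp : 0 < p i) : i + 1 ≤ nP := h.swap.idxQ hi hp

lemma Ctx.cR0 {a b : ℕ} : 0 ≤ cRr B nQ nP uq up a b := by
  unfold cRr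
  exact_mod_cast ch_nonneg _

lemma Ctx.cR {a b : ℕ} (ha1 : 1 ≤ a) (haQ : a ≤ nQ) (hbP : b ≤ nP) :
    cRr B nQ nP uq up a b ≤ Rl.card - 1 - q 0 := by
  have h1 := h.fr.chR ha1 haQ hbP (T := ∅) (by simp)
  simp only [Finset.sum_empty, add_zero] at h1
  exact h1

lemma Ctx.cRB {a b : ℕ} (ha1 : 1 ≤ a) (haQ : a ≤ nQ) (hbP : b ≤ nP) (hb : 1 ≤ b) :
    cRr B nQ nP uq up a b + (MM B (uq 0) (up 0) - 1) ≤ Rl.card - 1 - q 0 := by
  have h1 := h.fr.chR ha1 haQ hbP (T := {up 0}) (by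
    intro v hv
    rw [Finset.mem_singleton] at hv
    subst hv
    unfold vs
    refine Finset.mem_image.2 ⟨Sum.inr 0, ?_, rfl⟩
    simp only [hb1, Finset.mem_union, inr_mem_iq, inr_mem_ip]
    omega)
  rw [Finset.sum_singleton] at h1
  have h2 := h.fr.sys.B1 (uq 0) (up 0)
  have h3 : MM B (uq 0) (up 0) - 1 ≤ 1 - (B (uq 0) (up 0) - B (up 0) (uq 0)) := by
    unfold MM; linarith
  have h4 : ((MM B (uq 0) (up 0) - 1 : ℤ) : ℝ) ≤
      ((1 - (B (uq 0) (up 0) - B (up 0) (uq 0)) : ℤ) : ℝ) := by exact_mod_cast h3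
  unfold cRr
  push_cast at h1 h4 ⊢
  linarith

lemma Ctx.cRM {a b : ℕ} (ha1 : 2 ≤ a) (haQ : a ≤ nQ) (hbP : b ≤ nP) (hb : 1 ≤ b) :
    cRr B nQ nP uq up a b + (MM B (uq 0) (up 0) - 1) +
      (1 - (B (uq 0) (uq 1) - B (uq 1) (uq 0))) ≤ Rl.card - 1 - q 0 := by
  have hl := h.fr.l2
  have hne : uq 1 ≠ up 0 := (h.uqp (by omega) (by omega)).symm
  have h1 := h.fr.chR (by omega) haQ hbP (T := {uq 1, up 0}) (by
    intro v hv
    rw [Finset.mem_insert, Finset.mem_singleton] at hv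
    unfold vs
    rcases hv with hv | hv
    · subst hv
      refine Finset.mem_image.2 ⟨Sum.inl 1, ?_, rfl⟩
      simp only [hb1, Finset.mem_union, inl_mem_iq, inl_mem_ip]
      omega
    · subst hv
      refine Finset.mem_image.2 ⟨Sum.inr 0, ?_, rfl⟩
      simp only [hb1, Finset.mem_union, inr_mem_iq, inr_mem_ip]
      omega)
  rw [Finset.sum_pair hne] at h1
  have h2 := h.fr.sys.B1 (uq 0) (up 0)
  have h3 : MM B (uq 0) (up 0) - 1 ≤ 1 - (B (uq 0) (up 0) - B (up 0) (uq 0)) := by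
    unfold MM; linarith
  have h4 : ((MM B (uq 0) (up 0) - 1 : ℤ) : ℝ) ≤
      ((1 - (B (uq 0) (up 0) - B (up 0) (uq 0)) : ℤ) : ℝ) := by exact_mod_cast h3
  unfold cRr
  push_cast at h1 h4 ⊢
  linarith

/-- exchanging the first two vertices -/
lemma Ctx.swap01 (he : q 0 = q 1) (h2 : 2 ≤ nQ) :
    Ctx B Rl ℓ nQ nP (uq ∘ Equiv.swap 0 1) up q p k θ where
  fr := h.fr.swap01 he h2
  k3 := h.k3
  hm := h.hm
  deg := h.deg

/-- the difference of two weights is an integer -/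
lemma Ctx.qint {i j : ℕ} (hi : i < 2 * ℓ) (hj : j < 2 * ℓ) (hlt : q j < q i) :
    q j + 1 ≤ q i := by
  have h1 := h.fr.sys.wtQ i hi
  have h2 := h.fr.sys.wtQ j hj
  rw [← h1, ← h2] at hlt ⊢
  exact_mod_cast Int.add_one_le_iff.2 (by exact_mod_cast hlt)

end

/-- the leaves of the tree with good crossings -/
inductive LeafC (B : V → V → ℤ) (n : ℝ) (ℓ nQ nP : ℕ) (uq up : ℕ → V) (q p : ℕ → ℝ) (θ : ℝ) : Prop
  | L1 (i : ℕ) (hi : i < ℓ) (hD : θ - 2 < q (2 * i) - q (2 * i + 1)) (hp : p 0 < q 0 - θ + 2)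
      (hC : Closed B nQ nP uq up q p θ (2 * i + 1) 0) : LeafC B n ℓ nQ nP uq up q p θ
  | c1a (i j : ℕ) (hi : i < ℓ) (hj : j + 1 < ℓ) (hp : q 0 - θ + 2 ≤ p 0)
      (hD : θ < q (2 * i) - q (2 * i + 1)) (hE : θ - 2 < p (2 * j + 1) - p (2 * j + 2))
      (hC : Closed B nQ nP uq up q p θ (2 * i + 1) (2 * (j + 1))) :
      LeafC B n ℓ nQ nP uq up q p θ
  | c1c (i r : ℕ) (hi : i < ℓ) (hr : r < ℓ) (hp : q 0 - θ + 2 ≤ p 0)
      (hD : θ < q (2 * i) - q (2 * i + 1))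
      (hA : AA q ℓ + AA p ℓ < 2 * (q 0 - θ) + 2 * MM B (uq 0) (up 0))
      (hh : ∀ l < r, θ < p (2 * l + 1)) (hp1 : p (2 * r) ≤ θ)
      (hp2 : p (2 * r) < q (2 * i) - q (2 * i + 1) - θ + 2)
      (hC : Closed B nQ nP uq up q p θ (2 * i + 1) (2 * r)) : LeafC B n ℓ nQ nP uq up q p θ
  | c2a (i j : ℕ) (hi : i + 1 < ℓ) (hj : j < ℓ) (hpq : p 0 ≤ q 0 - 1)
      (hQ : ∀ l < ℓ, q (2 * l) - q (2 * l + 1) ≤ θ)
      (hE : θ - MM B (uq 0) (up 0) < q (2 * i + 1) - q (2 * i + 2))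
      (hD : θ < p (2 * j) - p (2 * j + 1))
      (hC : Closed B nQ nP uq up q p θ (2 * (i + 1)) (2 * j + 1)) : LeafC B n ℓ nQ nP uq up q p θ
  | c2c (i j : ℕ) (hi : i + 1 < ℓ) (hj : j < ℓ) (hpq : p 0 ≤ q 0 - 1)
      (hQ : ∀ l < ℓ, q (2 * l) - q (2 * l + 1) ≤ θ)
      (hD : θ < p (2 * j) - p (2 * j + 1))
      (hA : AA q ℓ + AA p ℓ < 2 * (q 0 - θ) + 2 * MM B (uq 0) (up 0))
      (h1 : θ - 2 < q (2 * i + 1)) (h2 : q (2 * (i + 1)) ≤ θ - 2)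
      (h3 : q (2 * (i + 1)) < p (2 * j) - p (2 * j + 1) - θ + 2)
      (hC : Closed B nQ nP uq up q p θ (2 * (i + 1)) (2 * j + 1)) : LeafC B n ℓ nQ nP uq up q p θ
  | c3b (j l : ℕ) (hj : j + 1 < ℓ) (hl : l < ℓ) (hlam : 3 < 2 * θ - n + 1)
      (hz : q 0 + MM B (uq 0) (up 0) + 2 ≤ 2 * θ)
      (hQ : ∀ l < ℓ, q (2 * l) - q (2 * l + 1) ≤ θ)
      (hP : ∀ l < ℓ, p (2 * l) - p (2 * l + 1) ≤ θ)
      (hA : 2 * θ < AA q ℓ + AA p ℓ)
      (hE : θ - MM B (uq 0) (up 0) < p (2 * j + 1) - p (2 * j + 2))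
      (h1 : θ - (MM B (uq 0) (up 0) + 2) < q (2 * l))
      (h2 : q (2 * l + 1) ≤ θ - (MM B (uq 0) (up 0) + 2))
      (h3 : q (2 * l + 1) < p (2 * j + 1) - p (2 * j + 2) - θ + (MM B (uq 0) (up 0) + 2))
      (hC : Closed B nQ nP uq up q p θ (2 * l + 1) (2 * (j + 1))) :
      LeafC B n ℓ nQ nP uq up q p θ
  | c3c (i l : ℕ) (hi : i + 1 < ℓ) (hl : l < ℓ) (hlam : 3 < 2 * θ - n + 1)
      (hz : q 0 + MM B (uq 0) (up 0) + 2 ≤ 2 * θ) (hp0 : θ < p 0)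
      (hQ : ∀ l < ℓ, q (2 * l) - q (2 * l + 1) ≤ θ)
      (hP : ∀ l < ℓ, p (2 * l) - p (2 * l + 1) ≤ θ)
      (hA : 2 * θ < AA q ℓ + AA p ℓ)
      (hE : θ - MM B (uq 0) (up 0) < q (2 * i + 1) - q (2 * i + 2))
      (h1 : θ - (MM B (uq 0) (up 0) + 2) < p (2 * l))
      (h2 : p (2 * l + 1) ≤ θ - (MM B (uq 0) (up 0) + 2))
      (h3 : p (2 * l + 1) < q (2 * i + 1) - q (2 * i + 2) - θ + (MM B (uq 0) (up 0) + 2))
      (hC : Closed B nQ nP uq up q p θ (2 * (i + 1)) (2 * l + 1)) : LeafC B n ℓ nQ nP uq up q p θ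

section
variable (h : Ctx B Rl ℓ nQ nP uq up q p k θ)
include h

/-- a bound of `D` -/
lemma max_cases' {x c r : ℝ} (hx : x ≤ max 0 (c - 1)) (h0 : 0 ≤ r) (h1 : c - 1 ≤ r) : x ≤ r :=
  hx.trans (max_le h0 h1)

theorem Ctx.closedL1 (hn : 2 * k - 1 ≤ (Rl.card : ℤ)) (hnv : ¬ Val B θ) (hpq : p 0 ≤ q 0)
    {i : ℕ} (hi : i < ℓ) (hD : θ - 2 < q (2 * i) - q (2 * i + 1)) (hp : p 0 < q 0 - θ + 2) :
    Closed B nQ nP uq up q p θ (2 * i + 1) 0 := by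
  have hl := h.fr.l2
  have hqθ := h.top hnv hpq
  have hθ3 := h.θ3 hn
  have hlam := h.lam2 hn
  have hq1 := h.fr.qn (i := 2 * i + 1) (by omega)
  have haQ : 2 * i + 1 ≤ nQ := h.idxQ (i := 2 * i) (by omega) (by linarith)
  have hcR := h.cR (a := 2 * i + 1) (b := 0) (by omega) haQ (Nat.zero_le _)
  have hcR0 := h.cR0 (a := 2 * i + 1) (b := 0)
  have key : ∀ D : ℝ, D + 2 ≤ ((Rl.card : ℝ) - 1 - q 0) + (2 * θ - Rl.card + 1) →
      (CrI B uq up q p (2 * i + 1) 0 D → Val B θ) ∧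
        (CrSI B uq up p (2 * i + 1) 0 D → Val B θ) := fun D hD' =>
    h.fr.leafL1 (y := q 0 - θ) (ζ := Rl.card - 1 - q 0) (lam := 2 * θ - Rl.card + 1)
      (by ring) (by ring) (by linarith) hi hD hp hD'
  refine ⟨by omega, haQ, Nat.zero_le _, fun D hD' hC => ?_, fun D hD' hC => ?_⟩
  · exact (key D (by
      rcases le_max_iff.1 hD' with h1 | h1 <;> linarith)).1 hC
  · exact (key D (by linarith)).2 hC

theorem Ctx.closed1a (hn : 2 * k - 1 ≤ (Rl.card : ℤ)) (hnv : ¬ Val B θ) (hpq : p 0 ≤ q 0)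
    {i j : ℕ} (hi : i < ℓ) (hj : j + 1 < ℓ)
    (hD : θ < q (2 * i) - q (2 * i + 1)) (hE : θ - 2 < p (2 * j + 1) - p (2 * j + 2)) :
    Closed B nQ nP uq up q p θ (2 * i + 1) (2 * (j + 1)) := by
  have hl := h.fr.l2
  have hqθ := h.top hnv hpq
  have hθ3 := h.θ3 hn
  have hlam := h.lam2 hn
  have hq1 := h.fr.qn (i := 2 * i + 1) (by omega)
  have hp1 := h.fr.pn (i := 2 * j + 2) (by omega)
  have haQ : 2 * i + 1 ≤ nQ := h.idxQ (i := 2 * i) (by omega) (by linarith)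
  have hbP : 2 * (j + 1) ≤ nP := h.idxP (i := 2 * j + 1) (by omega) (by linarith)
  have hcR := h.cR (a := 2 * i + 1) (b := 2 * (j + 1)) (by omega) haQ hbP
  have hcR0 := h.cR0 (a := 2 * i + 1) (b := 2 * (j + 1))
  have key : ∀ D : ℝ, D + 2 ≤ ((Rl.card : ℝ) - 1 - q 0) + (2 * θ - Rl.card + 1) →
      (CrI B uq up q p (2 * i + 1) (2 * (j + 1)) D → Val B θ) ∧
        (CrSI B uq up p (2 * i + 1) (2 * (j + 1)) D → Val B θ) := fun D hD' =>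
    h.fr.leaf1a (y := q 0 - θ) (ζ := Rl.card - 1 - q 0) (lam := 2 * θ - Rl.card + 1)
      (by ring) hpq (by ring) (by linarith) hi hj hD hE hD'
  refine ⟨by omega, haQ, hbP, fun D hD' hC => ?_, fun D hD' hC => ?_⟩
  · exact (key D (by
      rcases le_max_iff.1 hD' with h1 | h1 <;> linarith)).1 hC
  · exact (key D (by linarith)).2 hC

theorem Ctx.closed1c (hn : 2 * k - 1 ≤ (Rl.card : ℤ)) (hnv : ¬ Val B θ) (hpq : p 0 ≤ q 0)
    {i r : ℕ} (hi : i < ℓ) (hr : r < ℓ)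
    (hD : θ < q (2 * i) - q (2 * i + 1))
    (hA : AA q ℓ + AA p ℓ < 2 * (q 0 - θ) + 2 * MM B (uq 0) (up 0))
    (hh : ∀ l < r, θ < p (2 * l + 1))
    (hp2 : p (2 * r) < q (2 * i) - q (2 * i + 1) - θ + 2) :
    Closed B nQ nP uq up q p θ (2 * i + 1) (2 * r) := by
  have hl := h.fr.l2
  have hqθ := h.top hnv hpq
  have hθ3 := h.θ3 hn
  have hlam := h.lam2 hn
  have hq1 := h.fr.qn (i := 2 * i + 1) (by omega)
  have haQ : 2 * i + 1 ≤ nQ := h.idxQ (i := 2 * i) (by omega) (by linarith)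
  have hbP : 2 * r ≤ nP := by
    rcases Nat.eq_zero_or_pos r with rfl | hr0
    · simp
    · have h1 := hh (r - 1) (by omega)
      have h2 := h.idxP (i := 2 * (r - 1) + 1) (by omega) (by linarith)
      omega
  have hcR := h.cR (a := 2 * i + 1) (b := 2 * r) (by omega) haQ hbP
  have hcR0 := h.cR0 (a := 2 * i + 1) (b := 2 * r)
  have hM2 := h.MM2 (uq 0) (up 0)
  have key : ∀ D : ℝ, D + 2 ≤ ((Rl.card : ℝ) - 1 - q 0) + (2 * θ - Rl.card + 1) →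
      2 * D + 2 * MM B (uq 0) (up 0) + 2 ≤
        3 * ((Rl.card : ℝ) - 1 - q 0) + 3 * (2 * θ - Rl.card + 1) →
      (CrI B uq up q p (2 * i + 1) (2 * r) D → Val B θ) ∧
        (CrSI B uq up p (2 * i + 1) (2 * r) D → Val B θ) := fun D hD' hD'' =>
    h.fr.leaf1c (y := q 0 - θ) (ζ := Rl.card - 1 - q 0) (lam := 2 * θ - Rl.card + 1)
      (by ring) hpq (by ring) (by linarith) hi hr hD hA hh hp2 hD' hD''
  refine ⟨by omega, haQ, hbP, fun D hD' hC => ?_, fun D hD' hC => ?_⟩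
  · refine (key D ?_ ?_).1 hC
    · rcases le_max_iff.1 hD' with h1 | h1 <;> linarith
    · rcases le_max_iff.1 hD' with h1 | h1 <;> linarith
  · refine (key D (by linarith) ?_).2 hC
    rcases Nat.eq_zero_or_pos r with rfl | hr0
    · linarith
    · have := h.cRB (a := 2 * i + 1) (b := 2 * r) (by omega) haQ hbP (by omega)
      linarith

theorem Ctx.closed2a (hn : 2 * k - 1 ≤ (Rl.card : ℤ)) (hnv : ¬ Val B θ)
    (hpq : p 0 ≤ q 0 - 1) {i j : ℕ} (hi : i + 1 < ℓ) (hj : j < ℓ)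
    (hE : θ - MM B (uq 0) (up 0) < q (2 * i + 1) - q (2 * i + 2))
    (hD : θ < p (2 * j) - p (2 * j + 1))
    (hc : q 1 + 1 ≤ q 0 ∨ B (uq 0) (uq 1) ≤ B (uq 1) (uq 0)) :
    Closed B nQ nP uq up q p θ (2 * (i + 1)) (2 * j + 1) := by
  have hl := h.fr.l2
  have hqθ := h.top hnv (by linarith)
  have hθ3 := h.θ3 hn
  have hlam := h.lam2 hn
  have hq1 := h.fr.qn (i := 2 * i + 2) (by omega)
  have hp1 := h.fr.pn (i := 2 * j + 1) (by omega)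
  have hM2 := h.MM2 (uq 0) (up 0)
  have hM0 := h.MM0 (uq 0) (up 0)
  have hN2 := h.MM2 (uq 1) (up 0)
  have haQ : 2 * (i + 1) ≤ nQ := h.idxQ (i := 2 * i + 1) (by omega) (by linarith)
  have hbP : 2 * j + 1 ≤ nP := h.idxP (i := 2 * j) (by omega) (by linarith)
  have hcR := h.cRM (a := 2 * (i + 1)) (b := 2 * j + 1) (by omega) haQ hbP (by omega)
  have hcR0 := h.cR0 (a := 2 * (i + 1)) (b := 2 * j + 1)
  have hcR' := h.cR (a := 2 * (i + 1)) (b := 2 * j + 1) (by omega) haQ hbP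
  have hb1 : ((B (uq 0) (uq 1) : ℤ) : ℝ) ≤ 1 := by exact_mod_cast h.fr.sys.B1 _ _
  have hb0 : (0 : ℝ) ≤ ((B (uq 1) (uq 0) : ℤ) : ℝ) := by exact_mod_cast h.fr.sys.B0 _ _
  have hc' : q 1 + 1 ≤ q 0 ∨ ((B (uq 0) (uq 1) : ℤ) : ℝ) ≤ ((B (uq 1) (uq 0) : ℤ) : ℝ) := by
    rcases hc with h1 | h1
    · exact Or.inl h1
    · right; exact_mod_cast h1
  have ha : q 1 ≤ q 0 := h.fr.qa (by omega) (by omega)
  have key : ∀ D : ℝ, D + MM B (uq 1) (up 0) + MM B (uq 0) (up 0) - (q 0 - q 1) ≤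
      ((Rl.card : ℝ) - 1 - q 0) + (2 * θ - Rl.card + 1) →
      D + MM B (uq 1) (up 0) + MM B (uq 0) (up 0) - 1 ≤
      ((Rl.card : ℝ) - 1 - q 0) + (2 * θ - Rl.card + 1) →
      (CrI B uq up q p (2 * (i + 1)) (2 * j + 1) D → Val B θ) ∧
        (CrSI B uq up p (2 * (i + 1)) (2 * j + 1) D → Val B θ) := fun D hD' hD'' =>
    h.fr.leaf2a (y := q 0 - θ) (by ring) hpq hi hj hM0 hE hD
      (by linarith) (by linarith)
  refine ⟨by omega, haQ, hbP, fun D hD' hC => ?_, fun D hD' hC => ?_⟩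
  · refine (key D ?_ ?_).1 hC
    · rcases le_max_iff.1 hD' with h1 | h1 <;> rcases hc' with h2 | h2 <;> linarith
    · rcases le_max_iff.1 hD' with h1 | h1 <;> linarith
  · refine (key D ?_ ?_).2 hC
    · rcases hc' with h2 | h2 <;> linarith
    · linarith

theorem Ctx.closed2c (hn : 2 * k - 1 ≤ (Rl.card : ℤ)) (hnv : ¬ Val B θ)
    (hpq : p 0 ≤ q 0 - 1) {i j : ℕ} (hi : i + 1 < ℓ) (hj : j < ℓ)
    (hD : θ < p (2 * j) - p (2 * j + 1))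
    (hA : AA q ℓ + AA p ℓ < 2 * (q 0 - θ) + 2 * MM B (uq 0) (up 0))
    (h1 : θ - 2 < q (2 * i + 1))
    (h3 : q (2 * (i + 1)) < p (2 * j) - p (2 * j + 1) - θ + 2)
    (hc : q 1 + 1 ≤ q 0 ∨ B (uq 0) (uq 1) ≤ B (uq 1) (uq 0)) :
    Closed B nQ nP uq up q p θ (2 * (i + 1)) (2 * j + 1) := by
  have hl := h.fr.l2
  have hqθ := h.top hnv (by linarith)
  have hθ3 := h.θ3 hn
  have hlam := h.lam2 hn
  have hp1 := h.fr.pn (i := 2 * j + 1) (by omega)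
  have hM2 := h.MM2 (uq 0) (up 0)
  have hM0 := h.MM0 (uq 0) (up 0)
  have hN2 := h.MM2 (uq 1) (up 0)
  have haQ : 2 * (i + 1) ≤ nQ := h.idxQ (i := 2 * i + 1) (by omega) (by linarith)
  have hbP : 2 * j + 1 ≤ nP := h.idxP (i := 2 * j) (by omega) (by linarith)
  have hcR := h.cRM (a := 2 * (i + 1)) (b := 2 * j + 1) (by omega) haQ hbP (by omega)
  have hcRB := h.cRB (a := 2 * (i + 1)) (b := 2 * j + 1) (by omega) haQ hbP (by omega)
  have hcR0 := h.cR0 (a := 2 * (i + 1)) (b := 2 * j + 1)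
  have hcR' := h.cR (a := 2 * (i + 1)) (b := 2 * j + 1) (by omega) haQ hbP
  have hb1 : ((B (uq 0) (uq 1) : ℤ) : ℝ) ≤ 1 := by exact_mod_cast h.fr.sys.B1 _ _
  have hb0 : (0 : ℝ) ≤ ((B (uq 1) (uq 0) : ℤ) : ℝ) := by exact_mod_cast h.fr.sys.B0 _ _
  have hc' : q 1 + 1 ≤ q 0 ∨ ((B (uq 0) (uq 1) : ℤ) : ℝ) ≤ ((B (uq 1) (uq 0) : ℤ) : ℝ) := by
    rcases hc with h1 | h1
    · exact Or.inl h1
    · right; exact_mod_cast h1
  have ha : q 1 ≤ q 0 := h.fr.qa (by omega) (by omega)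
  have hy2 := h.y2 hn (by linarith)
  have hpa := h.fr.pa (i := 0) (j := 2 * j) (Nat.zero_le _) (by omega)
  obtain ⟨z1, z2, z3⟩ := h.Z1 hn (by linarith) (by linarith) (by linarith)
  obtain ⟨ζ, hζ0, hζ⟩ := h.zeta (i := 0) (by omega) (by linarith)
  have hz : (Rl.card : ℝ) - 1 - q 0 = 0 ∧ 3 ≤ 2 * θ - Rl.card + 1 ∨ 1 ≤ (Rl.card : ℝ) - 1 - q 0 := by
    rcases hζ0.eq_or_lt with h5 | h5
    · left
      rw [← h5] at hζ
      have h6 : q 0 = Rl.card - 1 := by push_cast at hζ; linarith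
      refine ⟨by linarith, ?_⟩
      have := z3 h6
      linarith
    · right
      rw [← hζ]
      exact_mod_cast h5
  refine ⟨by omega, haQ, hbP, fun D hD' hC => ?_, fun D hD' hC => ?_⟩
  · refine h.fr.leaf2c (y := q 0 - θ) (ζ := Rl.card - 1 - q 0) (lam := 2 * θ - Rl.card + 1)
      (by ring) hpq (by ring) hi hj hD hA h3 ?_ ?_ ?_ hC
    · rcases le_max_iff.1 hD' with h5 | h5 <;> rcases hz with h6 | h6 <;> linarith
    · rcases le_max_iff.1 hD' with h5 | h5 <;> linarith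
    · rcases le_max_iff.1 hD' with h5 | h5 <;> rcases hc' with h2 | h2 <;> linarith
  · refine h.fr.leaf2cs (y := q 0 - θ) (ζ := Rl.card - 1 - q 0) (lam := 2 * θ - Rl.card + 1)
      (by ring) hpq (by ring) hi hj hD hA ?_ ?_ hC
    · linarith
    · linarith

theorem Ctx.closed3b (hn : 2 * k - 1 ≤ (Rl.card : ℤ)) (hnv : ¬ Val B θ) (hpq : p 0 ≤ q 0)
    {j l : ℕ} (hj : j + 1 < ℓ) (hl : l < ℓ)
    (hz : q 0 + MM B (uq 0) (up 0) + 2 ≤ 2 * θ)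
    (hA : 2 * θ < AA q ℓ + AA p ℓ)
    (hE : θ - MM B (uq 0) (up 0) < p (2 * j + 1) - p (2 * j + 2))
    (h1 : θ - (MM B (uq 0) (up 0) + 2) < q (2 * l))
    (h3 : q (2 * l + 1) < p (2 * j + 1) - p (2 * j + 2) - θ + (MM B (uq 0) (up 0) + 2)) :
    Closed B nQ nP uq up q p θ (2 * l + 1) (2 * (j + 1)) := by
  have hl2 := h.fr.l2
  have hqθ := h.top hnv hpq
  have hθ3 := h.θ3 hn
  have hlam := h.lam2 hn
  have hM2 := h.MM2 (uq 0) (up 0)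
  have hM0 := h.MM0 (uq 0) (up 0)
  have hp1 := h.fr.pn (i := 2 * j + 2) (by omega)
  have haQ : 2 * l + 1 ≤ nQ := h.idxQ (i := 2 * l) (by omega) (by linarith)
  have hbP : 2 * (j + 1) ≤ nP := h.idxP (i := 2 * j + 1) (by omega) (by linarith)
  have hcR := h.cR (a := 2 * l + 1) (b := 2 * (j + 1)) (by omega) haQ hbP
  have hcR0 := h.cR0 (a := 2 * l + 1) (b := 2 * (j + 1))
  have key : ∀ D : ℝ, D + 2 ≤ ((Rl.card : ℝ) - 1 - q 0) + (2 * θ - Rl.card + 1) →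
      (CrI B uq up q p (2 * l + 1) (2 * (j + 1)) D → Val B θ) ∧
        (CrSI B uq up p (2 * l + 1) (2 * (j + 1)) D → Val B θ) := fun D hD' =>
    h.fr.leaf3b (y := q 0 - θ) (ζ := Rl.card - 1 - q 0) (lam := 2 * θ - Rl.card + 1)
      (by ring) hpq (by ring) (by linarith) hl hj hM2 hE hA h3 hD' (by linarith) (by linarith)
  refine ⟨by omega, haQ, hbP, fun D hD' hC => ?_, fun D hD' hC => ?_⟩
  · exact (key D (by
      rcases le_max_iff.1 hD' with h1 | h1 <;> linarith)).1 hC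
  · exact (key D (by linarith)).2 hC

theorem Ctx.closed3c (hn : 2 * k - 1 ≤ (Rl.card : ℤ)) (hnv : ¬ Val B θ) (hpq : p 0 ≤ q 0)
    {i l : ℕ} (hi : i + 1 < ℓ) (hl : l < ℓ) (hlam : 3 < 2 * θ - (Rl.card : ℝ) + 1)
    (hz : q 0 + MM B (uq 0) (up 0) + 2 ≤ 2 * θ)
    (hA : 2 * θ < AA q ℓ + AA p ℓ)
    (hE : θ - MM B (uq 0) (up 0) < q (2 * i + 1) - q (2 * i + 2))
    (h1 : θ - (MM B (uq 0) (up 0) + 2) < p (2 * l))
    (h3 : p (2 * l + 1) < q (2 * i + 1) - q (2 * i + 2) - θ + (MM B (uq 0) (up 0) + 2)) :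
    Closed B nQ nP uq up q p θ (2 * (i + 1)) (2 * l + 1) := by
  have hl2 := h.fr.l2
  have hqθ := h.top hnv hpq
  have hθ3 := h.θ3 hn
  have hM2 := h.MM2 (uq 0) (up 0)
  have hM0 := h.MM0 (uq 0) (up 0)
  have hN2 := h.MM2 (uq 1) (up 0)
  have hq1 := h.fr.qn (i := 2 * i + 2) (by omega)
  have haQ : 2 * (i + 1) ≤ nQ := h.idxQ (i := 2 * i + 1) (by omega) (by linarith)
  have hbP : 2 * l + 1 ≤ nP := h.idxP (i := 2 * l) (by omega) (by linarith)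
  have hcRB := h.cRB (a := 2 * (i + 1)) (b := 2 * l + 1) (by omega) haQ hbP (by omega)
  have hcR := h.cR (a := 2 * (i + 1)) (b := 2 * l + 1) (by omega) haQ hbP
  have hcR0 := h.cR0 (a := 2 * (i + 1)) (b := 2 * l + 1)
  have key : ∀ D : ℝ, D + MM B (uq 1) (up 0) + MM B (uq 0) (up 0) ≤
      ((Rl.card : ℝ) - 1 - q 0) + (2 * θ - Rl.card + 1) →
      D + MM B (uq 1) (up 0) + MM B (uq 0) (up 0) + 2 ≤
      2 * ((Rl.card : ℝ) - 1 - q 0) + 2 * (2 * θ - Rl.card + 1) →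
      (CrI B uq up q p (2 * (i + 1)) (2 * l + 1) D → Val B θ) ∧
        (CrSI B uq up p (2 * (i + 1)) (2 * l + 1) D → Val B θ) := fun D hD' hD'' =>
    h.fr.leaf3c (y := q 0 - θ) (ζ := Rl.card - 1 - q 0) (lam := 2 * θ - Rl.card + 1)
      (by ring) hpq (by ring) (by linarith) hi hl hE hA h3 (by linarith) (by linarith)
  refine ⟨by omega, haQ, hbP, fun D hD' hC => ?_, fun D hD' hC => ?_⟩
  · refine (key D ?_ ?_).1 hC
    · rcases le_max_iff.1 hD' with h1 | h1 <;> linarith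
    · rcases le_max_iff.1 hD' with h1 | h1 <;> linarith
  · refine (key D ?_ ?_).2 hC
    · linarith
    · linarith

/-- the two possibilities in case 2 -/
theorem Ctx.leafC2 (hn : 2 * k - 1 ≤ (Rl.card : ℤ)) (hnv : ¬ Val B θ)
    {j : ℕ} (hj : j < ℓ) (hpq : p 0 ≤ q 0 - 1) (hQ : ∀ l < ℓ, q (2 * l) - q (2 * l + 1) ≤ θ)
    (hD : θ < p (2 * j) - p (2 * j + 1))
    (hc : q 1 + 1 ≤ q 0 ∨ B (uq 0) (uq 1) ≤ B (uq 1) (uq 0)) :
    LeafC B Rl.card ℓ nQ nP uq up q p θ := by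
  rcases h.case2 hn hnv hpq h.fr.bst le_rfl hj hD with ⟨i, hi, hE⟩ | ⟨hA, i, hi, h1, h2, h3⟩
  · exact LeafC.c2a i j hi hj hpq hQ hE hD (h.closed2a hn hnv hpq hi hj hE hD hc)
  · exact LeafC.c2c i j hi hj hpq hQ hD hA h1 h2 h3 (h.closed2c hn hnv hpq hi hj hD hA h1 h3 hc)

/-- **The decision tree with good crossings.** -/
theorem Ctx.leafC (hn : 2 * k - 1 ≤ (Rl.card : ℤ))
    (hnv : ¬ Val B θ) (hpq : p 0 ≤ q 0)
    (hw : (∃ j < ℓ, θ < p (2 * j) - p (2 * j + 1)) → (∃ i < ℓ, θ < q (2 * i) - q (2 * i + 1)) ∨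
      p 0 ≤ q 0 - 1) :
    ∃ uq' : ℕ → V, Ctx B Rl ℓ nQ nP uq' up q p k θ ∧ LeafC B Rl.card ℓ nQ nP uq' up q p θ := by
  have hl := h.fr.l2
  rcases h.tree hn hnv hpq hw with ⟨i, hi, hD, hp⟩ | ⟨i, j, hi, hj, hp, hD, hE⟩ |
    ⟨i, r, hi, hr, hp, hD, hA, hh, hp1, hp2⟩ | ⟨j, hj, hpq', hQ, hD⟩ |
    ⟨j, l, hj, hl, hlam, hz, hQ, hP, hA, hE, h1, h2, h3⟩ |
    ⟨i, l, hi, hl, hlam, hz, hp0, hQ, hP, hA, hE, h1, h2, h3⟩
  · exact ⟨uq, h, LeafC.L1 i hi hD hp (h.closedL1 hn hnv hpq hi hD hp)⟩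
  · exact ⟨uq, h, LeafC.c1a i j hi hj hp hD hE (h.closed1a hn hnv hpq hi hj hD hE)⟩
  · exact ⟨uq, h, LeafC.c1c i r hi hr hp hD hA hh hp1 hp2
      (h.closed1c hn hnv hpq hi hr hD hA hh hp2)⟩
  · by_cases hc : q 1 + 1 ≤ q 0 ∨ B (uq 0) (uq 1) ≤ B (uq 1) (uq 0)
    · exact ⟨uq, h, h.leafC2 hn hnv hj hpq' hQ hD hc⟩
    · push Not at hc
      obtain ⟨hc1, hc2⟩ := hc
      have he : q 0 = q 1 := by
        rcases (h.fr.qa (i := 0) (j := 1) (by omega) (by omega)).lt_or_eq with h5 | h5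
        · have := h.qint (i := 0) (j := 1) (by omega) (by omega) h5
          linarith
        · exact h5.symm
      have hq0 := h.top hnv hpq
      have hθ0 := h.θ0
      have h2 : 2 ≤ nQ := h.idxQ (i := 1) (by omega) (by linarith)
      have h' := h.swap01 he h2
      refine ⟨_, h', h'.leafC2 hn hnv hj hpq' hQ hD (Or.inr ?_)⟩
      simp only [Function.comp_apply, Equiv.swap_apply_left, Equiv.swap_apply_right]
      exact hc2.le
  · exact ⟨uq, h, LeafC.c3b j l hj hl hlam hz hQ hP hA hE h1 h2 h3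
      (h.closed3b hn hnv hpq hj hl hz hA hE h1 h3)⟩
  · exact ⟨uq, h, LeafC.c3c i l hi hl hlam hz hp0 hQ hP hA hE h1 h2 h3
      (h.closed3c hn hnv hpq hi hl hlam hz hA hE h1 h3)⟩

end
end Pool.Agent.Exact
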