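import Pool.Agent.Lib_helper23.Exact.Nc0
import Pool.Agent.Lib_helper23.Exact.Arith0

/-!
# The leaf L1, minimum outdegree at least `k`
-/

set_option autoImplicit false
set_option linter.unusedSectionVars false

namespace Pool.Agent.Exact

open Finset

variable {V : Type*} [Fintype V] [DecidableEq V]
variable {B : V → V → ℤ} {Rl : Finset V} {ℓ nQ nP : ℕ} {uq up : ℕ → V} {q p : ℕ → ℝ}
variable {k : ℤ} {θ : ℝ}

/-- the sum of the weights of the hubs -/
lemma Frame.sum_ge (h : Frame B Rl ℓ nQ nP uq up q p) {i : ℕ} (hi : i < ℓ) :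
    ((2 * i + 1 : ℕ) : ℝ) * q (2 * i) ≤ ∑ j ∈ range (2 * i + 1), q j := by
  have h1 : ∑ _j ∈ range (2 * i + 1), q (2 * i) ≤ ∑ j ∈ range (2 * i + 1), q j := by
    refine Finset.sum_le_sum fun j hj => ?_
    have := Finset.mem_range.1 hj
    exact h.sys.chQ.anti j (2 * i) (by omega) (by omega)
  rw [Finset.sum_const, nsmul_eq_mul, Finset.card_range] at h1
  exact h1

/-- the other weights are at most `n - 1 - k` -/
lemma Ctx.p0K (h : Ctx B Rl ℓ nQ nP uq up q p k θ) (hout : ∀ v ∈ Rl, k ≤ ∑ u, B v u)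
    (hn : k + 1 ≤ (Rl.card : ℤ)) : p 0 ≤ Rl.card - 1 - k := by
  have hl := h.fr.l2
  rcases lt_or_ge 0 (p 0) with h1 | h1
  · exact h.pleK hout (by omega) h1
  · have : (k : ℝ) + 1 ≤ Rl.card := by exact_mod_cast hn
    linarith

/-- **The leaf L1, minimum outdegree at least `k`.** -/
theorem Ctx.L1out (h : Ctx B Rl ℓ nQ nP uq up q p k θ) (hn : 2 * k - 1 ≤ (Rl.card : ℤ))
    (hnv : ¬ Val B θ) (hpq : p 0 ≤ q 0) (hout : ∀ v ∈ Rl, k ≤ ∑ u, B v u) {i : ℕ} (hi : i < ℓ)
    (hD : θ - 2 < q (2 * i) - q (2 * i + 1)) (hp : p 0 < q 0 - θ + 2) : False := by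
  have hl := h.fr.l2
  have k3 := h.k3
  have hθ3 := h.θ3 hn
  have hlam := h.lam2 hn
  have hqθ := h.top hnv hpq
  have hq : 0 < q 0 := by linarith
  have hy2 := h.y2 hn hq
  have hqn := h.qle (i := 0) (by omega) hq
  have hqi1 := h.fr.qn (i := 2 * i + 1) (by omega)
  have hqi : 0 < q (2 * i) := by linarith
  have hA0 := h.fr.qA0
  have hDi := h.fr.qD hi
  have hE := h.fr.qE (Nat.zero_le i) hi
  rw [AA_zero] at hE
  simp only [Nat.mul_zero, sub_zero] at hE
  have hAi : 0 ≤ AA q i := by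
    have := AA_mono h.fr.sys.chQ (Nat.zero_le i) (by omega)
    rwa [AA_zero] at this
  have hT := h.fr.qT hi
  have hAi1 : AA q (i + 1) ≤ AA q ℓ := AA_mono h.fr.sys.chQ (by omega) (by omega)
  rw [AA_succ] at hAi1
  have hA1 : AA q i + (q (2 * i) - q (2 * i + 1)) + q (2 * i + 1) ≤ q 0 := by linarith
  have hpn := h.fr.pn (i := 0) (by omega)
  have htE : ∀ l < i, q (2 * l + 1) - q (2 * l + 2) ≤ q 0 - q (2 * i) - AA q i := by
    intro l hl'
    have := h.fr.qgE (Nat.zero_le l) hl' hi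
    rw [AA_zero] at this
    simp only [Nat.mul_zero] at this
    linarith
  have hζ : (0 : ℝ) ≤ Rl.card - 1 - q 0 := by linarith
  have hmx : max 0 ((Rl.card : ℝ) - 1 - q 0 - 1) ≤ Rl.card - 1 - q 0 :=
    max_le hζ (by linarith)
  obtain ⟨ρ, σ, hlg, g, nb, c0, c1, c2, c3, c4, c5, c6, c7, c8⟩ := h.nc0 hnv hout hi hqi
    (by linarith) (fun hC => h.fr.crPure (K := q 0 - θ + 2) i 0 hi (Nat.zero_le _) (by linarith)
      (by linarith) hp.le (fun l hl' => by have := htE l hl'; linarith) (by simp) (by linarith)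
      (by rw [AA_zero, Nat.mul_zero]; linarith) hC)
    (fun D hDz hC => h.fr.crsPure (K := q 0 - θ + 2) i 0 hi (Nat.zero_le _) (by linarith)
      (by rw [Nat.mul_zero]; linarith) (fun l hl' => by have := htE l hl'; linarith) (by simp) (by linarith)
      (by rw [AA_zero, Nat.mul_zero]; linarith) hC)
    (by linarith) (fun l hl' => by
      have := h.fr.qDD' hl' hi
      linarith) (by linarith)
  have hkn := h.kn
  refine arith_L1 (k := k) (n := (Rl.card : ℤ)) (a := ((2 * i + 1 : ℕ) : ℤ)) (ρ := ρ) (σ := σ)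
    (hl := hlg) (g := g) (nb := nb) (θ := θ) (μ := q (2 * i))
    (Sg := ∑ j ∈ range (2 * i + 1), q j) (q0 := q 0) (p0 := p 0) (A := AA q i) k3 hn
    (by push_cast; omega) (by push_cast; omega) (by exact_mod_cast hkn) (by linarith)
    (by exact_mod_cast h.fr.sum_ge hi) (by push_cast; linarith) ?_ hE hAi c0 c1 c2 c3 c4 ?_ ?_ c7 ?_
  · have := h.p0K hout (by linarith)
    push_cast
    linarith
  · exact_mod_cast c5
  · exact_mod_cast c6
  · intro h0
    obtain ⟨d1, d2, d3⟩ := c8 h0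
    refine ⟨d1, d2, ?_⟩
    rcases d3 with d3 | d3 | d3
    · exact Or.inl d3
    · right; left
      push_cast
      linarith
    · exact Or.inr (Or.inr d3)

end Pool.Agent.Exact
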