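import Pool.Agent.Lib_helper23.Exact.CntI
import Pool.Agent.Lib_helper23.Exact.ArithI
import Pool.Agent.Lib_helper23.Exact.Glue
import Pool.Agent.Lib_helper23.Exact.L1out

/-!
# The leaf L1, minimum indegree at least `k`
-/

set_option autoImplicit false
set_option linter.unusedSectionVars false

namespace Pool.Agent.Exact

open Finset

variable {V : Type*} [Fintype V] [DecidableEq V]
variable {B : V → V → ℤ} {Rl : Finset V} {ℓ nQ nP : ℕ} {uq up : ℕ → V} {q p : ℕ → ℝ}
variable {k : ℤ} {θ : ℝ}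

/-- closing by a structure of all hubs -/
lemma T2I.closeI {a b : ℕ} {S : Finset V} {g Y : ℤ} {θ y0 M K t : ℝ}
    (hT : T2I B uq up a b S g Y) (hst : StI B uq up (hb a b) M K t) (hK : 0 ≤ K) (hy0 : 0 ≤ y0)
    (hβ : ∀ v ∈ S, |((im B v : ℤ) : ℝ)| ≤ y0) (hY : (Y : ℝ) ≤ y0) (h1 : M + K ≤ θ + g)
    (h2 : M + y0 ≤ θ + g) (h3 : 2 * M + y0 + t ≤ 2 * θ + 2 * g) : Val B θ := by
  refine (hT y0 M K t hK hy0 hβ hst).mono ?_
  have h5 : (0 : ℝ) ≤ ∑ v ∈ S, |((im B v : ℤ) : ℝ)| := Finset.sum_nonneg fun v _ => abs_nonneg _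
  have h6 : max ((Y : ℝ) - ∑ v ∈ S, |((im B v : ℤ) : ℝ)|) y0 = y0 := max_eq_right (by linarith)
  rw [h6, ← max_add_add_left, ← max_add_add_left]
  refine max_le (max_le ?_ ?_) ?_ <;> linarith

/-- the sum of the weights of the hubs, finer -/
lemma Frame.sum_ge2 (h : Frame B Rl ℓ nQ nP uq up q p) {i : ℕ} (hi : i + 1 < ℓ) :
    q 0 + (2 * (i : ℝ) + 1) * q (2 * i + 1) + q (2 * i + 2) ≤ ∑ j ∈ range (2 * (i + 1) + 1), q j := by
  have e : 2 * (i + 1) + 1 = (2 * i + 1) + 1 + 1 := by ring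
  rw [e, Finset.sum_range_succ, Finset.sum_range_succ']
  have h1 : ∑ _j ∈ range (2 * i + 1), q (2 * i + 1) ≤ ∑ j ∈ range (2 * i + 1), q (j + 1) := by
    refine Finset.sum_le_sum fun j hj => ?_
    have := Finset.mem_range.1 hj
    exact h.sys.chQ.anti (j + 1) (2 * i + 1) (by omega) (by omega)
  rw [Finset.sum_const, nsmul_eq_mul, Finset.card_range] at h1
  push_cast at h1
  have e2 : q (2 * i + 1 + 1) = q (2 * i + 2) := by ring_nf
  rw [e2]
  linarith

/-- the multiplicities are between `0` and `2` -/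
lemma Frame.MMr (h : Frame B Rl ℓ nQ nP uq up q p) (u v : V) :
    (0 : ℝ) ≤ ((MM B u v : ℤ) : ℝ) ∧ ((MM B u v : ℤ) : ℝ) ≤ 2 := by
  have h1 := h.sys.B0 u v
  have h2 := h.sys.B0 v u
  have h3 := h.sys.B1 u v
  have h4 := h.sys.B1 v u
  have h5 : 0 ≤ MM B u v ∧ MM B u v ≤ 2 := by
    unfold MM
    constructor <;> linarith
  constructor
  · exact_mod_cast h5.1
  · exact_mod_cast h5.2

/-- **The leaf L1, minimum indegree at least `k`.** -/
theorem Ctx.L1in (h : Ctx B Rl ℓ nQ nP uq up q p k θ) (hn : 2 * k - 1 ≤ (Rl.card : ℤ))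
    (hnv : ¬ Val B θ) (hpq : p 0 ≤ q 0) (hin : ∀ v ∈ Rl, k ≤ ∑ u, B u v) {i : ℕ} (hi : i < ℓ)
    (hD : θ - 2 < q (2 * i) - q (2 * i + 1)) (hp : p 0 < q 0 - θ + 2) : False := by
  classical
  have hl := h.fr.l2
  have k3 := h.k3
  have k3r := h.k3r
  have hθ3 := h.θ3 hn
  have hlam := h.lam2 hn
  have hqθ := h.top hnv hpq
  have hq0 : 0 < q 0 := by linarith
  have hqi1 := h.fr.qn (i := 2 * i + 1) (by omega)
  have hqi : 0 < q (2 * i) := by linarith
  have haQ : 2 * i + 1 ≤ nQ := h.idxQ (i := 2 * i) (by omega) hqi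
  have hE := h.fr.qE (Nat.zero_le i) hi
  rw [AA_zero] at hE
  simp only [Nat.mul_zero, sub_zero] at hE
  have hA0 : 0 ≤ AA q i := by
    have := h.fr.qAm (Nat.zero_le i) hi.le
    rwa [AA_zero] at this
  have hqle := h.qleK hin (i := 0) (by omega) hq0
  have hkn := h.kn
  have hC := h.closedL1 hn hnv hpq hi hD hp
  have hqii := h.fr.qa (Nat.zero_le (2 * i)) (by omega)
  have hSQ := h.fr.sum_ge hi
  obtain ⟨y, hy⟩ : ∃ y : ℝ, y = q 0 - θ := ⟨_, rfl⟩
  obtain ⟨u, hu⟩ : ∃ u : ℝ, u = q (2 * i) - θ := ⟨_, rfl⟩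
  obtain ⟨lam, hlm⟩ : ∃ lam : ℝ, lam = 2 * θ - Rl.card + 1 := ⟨_, rfl⟩
  obtain ⟨A, hA⟩ : ∃ A : ℝ, A = AA q i := ⟨_, rfl⟩
  obtain ⟨a, ha⟩ : ∃ a : ℝ, a = 2 * (i : ℝ) + 1 := ⟨_, rfl⟩
  obtain ⟨SQ, hSQe⟩ : ∃ SQ : ℝ, SQ = ∑ j ∈ range (2 * i + 1), q j := ⟨_, rfl⟩
  rw [← hlm] at hlam
  rw [← hA] at hE hA0
  rw [← hSQe] at hSQ
  push_cast at hSQ
  rw [← ha] at hSQ
  have kn : θ ≤ k * (lam - 1) := by rw [hlm]; linarith
  have hyb : y ≤ θ - lam - k := by linarith
  have hSQ' : a * (θ + u) ≤ SQ := by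
    rw [hu]
    linarith
  have ha1 : 1 ≤ a := by
    rw [ha]
    have : (0 : ℝ) ≤ i := Nat.cast_nonneg _
    linarith
  have hu2 : -2 < u := by linarith
  have hy0 : 0 ≤ y := by linarith
  have huy : u ≤ y := by linarith
  have htE : ∀ l < i, q (2 * l + 1) - q (2 * l + 2) ≤ y - u - A := by
    intro l hl'
    have := h.fr.qgE (Nat.zero_le l) hl' hi
    rw [AA_zero] at this
    simp only [Nat.mul_zero] at this
    linarith
  have hgA : ∀ l < i, q (2 * l) - q (2 * l + 1) ≤ A := by
    intro l hl'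
    have := h.fr.qgA (Nat.zero_le l) hl' hi.le
    rw [AA_zero] at this
    linarith
  -- the decomposition
  have : Nonempty V := ⟨uq 0⟩
  obtain ⟨pick, hpick⟩ := exists_pickI B
  obtain ⟨Rs, S, g, Kc, hdec, hcut⟩ := h.fr.cut (a := 2 * i + 1) (b := 0) (by omega) haQ
    (by omega) hq0 pick (fun K hK => (hpick K hK).1)
  obtain ⟨cn, c1, c2⟩ := h.cntI hin haQ hdec hpick
  have hcMM : ∀ i0, i0 ≤ 2 * i →
      ((∑ v ∈ S, MM B (uq i0) v : ℤ) : ℝ) ≤ S.card + (Rl.card - 1 - q i0) := by
    intro i0 hi0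
    refine h.cMM haQ (by omega) ?_ hdec
    have := h.fr.qa hi0 (by omega)
    linarith
  have hg0 : (0 : ℝ) ≤ g := by exact_mod_cast hdec.g0
  have hcg : (Rs.card : ℝ) ≤ 2 * g := by exact_mod_cast hdec.cg
  obtain ⟨ρ, hρ⟩ : ∃ ρ : ℝ, ρ = Rs.card := ⟨_, rfl⟩
  obtain ⟨σ, hσ⟩ : ∃ σ : ℝ, σ = S.card := ⟨_, rfl⟩
  obtain ⟨n, hne⟩ : ∃ n : ℝ, n = Rl.card := ⟨_, rfl⟩
  obtain ⟨bS, hbS⟩ : ∃ bS : ℝ, bS = ((- ∑ v ∈ S, im B v : ℤ) : ℝ) := ⟨_, rfl⟩
  rw [← hρ] at hcg c1 c2
  rw [← hρ, ← hσ, ← hne] at cn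
  push_cast at cn
  rw [← ha] at cn
  rw [← hSQe] at c1
  rw [← hbS] at c1
  push_cast at c1
  rw [← ha] at c1
  rw [← hσ] at c2
  push_cast at c2
  rw [← ha] at c2
  have hσ0 : 0 ≤ σ := by rw [hσ]; exact Nat.cast_nonneg _
  have hρ0 : 0 ≤ ρ := by rw [hρ]; exact Nat.cast_nonneg _
  have hlamn : n = 2 * θ - lam + 1 := by rw [hlm, hne]; ring
  -- the arrangement of the other hubs
  have ht0 : 0 ≤ y - u - A := by linarith
  have harr : StI B uq up (hb1 (2 * i + 1) 0) 0 (y - u - A) (y - u - A) := by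
    have := h.fr.aPure (K := y - u - A) i 0 hi (Nat.zero_le _) htE (by simp)
    rw [AA_zero, add_zero] at this
    exact this.mono le_rfl le_rfl (by linarith)
  -- the sum of all imbalances
  have hbX : ∀ y0 : ℝ, (∀ v ∈ S, |((im B v : ℤ) : ℝ)| ≤ y0) → bS ≤ σ * y0 := by
    intro y0 h1
    rw [hbS, hσ]
    push_cast
    calc -∑ v ∈ S, ((im B v : ℤ) : ℝ) = ∑ v ∈ S, -((im B v : ℤ) : ℝ) := by
          rw [Finset.sum_neg_distrib]
      _ ≤ ∑ _v ∈ S, y0 := Finset.sum_le_sum fun v hv => (neg_le_abs _).trans (h1 v hv)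
      _ = _ := by rw [Finset.sum_const, nsmul_eq_mul]
  -- general facts from the closings
  have main : ∀ Y : ℤ, T2I B uq up (2 * i + 1) 0 S g Y → T2A B uq up (2 * i + 1) 0 S g Y →
      ∀ y0 : ℝ, 0 ≤ y0 → (Y : ℝ) ≤ y0 → (∀ v ∈ S, |((im B v : ℤ) : ℝ)| ≤ y0) →
      (y0 ≤ θ + g → u ≤ g → θ + 2 * g < y0 + A + u) ∧
      (∀ i', i = i' + 1 → y0 + 2 ≤ θ + g →
        y + g < u + (q (2 * i' + 1) - θ) + 2 ∨ θ + 2 * g < y0 + u - A + 4) ∧
      (∀ F ⊆ S, ∑ v ∈ F, ((MM B (uq (2 * i)) v : ℤ) : ℝ) ≤ θ + g - A - y0 →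
        ∑ v ∈ F, (|((im B v : ℤ) : ℝ)| - MM B (uq (2 * i)) v) < u - g) := by
    intro Y hT2 hT2A y0 hy00 hY hβ
    refine ⟨?_, ?_, ?_⟩
    · intro h1 h2
      by_contra hc
      push Not at hc
      have hst := h.fr.tA (K := θ + g) i 0 hi (Nat.zero_le _) (by linarith)
        (fun l hl' => (hgA l hl').trans (by linarith)) (by simp)
      rw [AA_zero, add_zero] at hst
      exact hnv (T2I.closeI hT2 hst (by linarith) hy00 hβ hY (by linarith) (by linarith)
        (by linarith))
    · intro i' hi' h1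
      by_contra hc
      push Not at hc
      obtain ⟨hc1, hc2⟩ := hc
      subst hi'
      have e1 : q (2 * i' + 2) = θ + u := by
        rw [hu]
        have : q (2 * (i' + 1)) = q (2 * i' + 2) := by ring_nf
        rw [this]
        ring
      have hq1u : θ + u ≤ q (2 * i' + 1) := by
        rw [← e1]
        exact h.fr.qa (by omega) (by omega)
      have eabs : |q 0 - q (2 * i' + 1) - q (2 * i' + 2)| = q (2 * i' + 1) + u - y := by
        rw [abs_sub_comm, e1, abs_of_nonneg (by linarith)]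
        linarith
      have eAA : A = AA q i' + (q (2 * i') - q (2 * i' + 1)) := by rw [hA, AA_succ]
      have hMM1 := h.fr.MMr (uq (2 * i' + 1)) (uq (2 * i' + 2))
      have hMM2 := h.fr.MMr (uq 0) (uq (2 * i' + 1))
      have hMM3 := h.fr.MMr (uq 0) (uq (2 * i' + 2))
      have hst := h.fr.tTO (K := θ + g - 2) (M := 2) i' 0 hi (Nat.zero_le _)
        (by rw [eabs]; linarith) (by push_cast; linarith)
        (fun l hl' => (htE l (by omega)).trans (by linarith)) (by simp)
      rw [AA_zero, add_zero, eabs] at hst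
      exact hnv (T2I.closeI hT2 hst (by linarith) hy00 hβ hY (by linarith) (by linarith)
        (by linarith))
    · intro F hF hm
      have hst := h.fr.tA' (K := A) i 0 hi (Nat.zero_le _) hgA (by simp)
      rw [AA_zero, add_zero, ← hA] at hst
      have hz : (Sum.inl (2 * i) : ℕ ⊕ ℕ) ∈ hb (2 * i + 1) 0 := by
        unfold hb
        simp only [Finset.mem_union, inl_mem_iq]
        omega
      have himz : ((im B (vx uq up (Sum.inl (2 * i))) : ℤ) : ℝ) = θ + u := by
        have := h.fr.sys.wtQ (2 * i) (by omega)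
        rw [hu]
        show ((im B (uq (2 * i)) : ℤ) : ℝ) = _
        rw [this]
        ring
      have := Frame.ap_fail hT2A hz hst hA0 le_rfl himz (by linarith) h.fr.sys.B0 hy00 hβ hY hnv F
        hF (by
          show ∑ v ∈ F, ((MM B (uq (2 * i)) v : ℤ) : ℝ) ≤ _
          exact hm)
      have e2 : θ + u - θ - g = u - g := by ring
      rw [e2] at this
      exact this
  -- the ratio argument
  have ratio : ∀ W w : ℝ, 0 ≤ W → 0 < w →
      (∀ F ⊆ S, ∑ v ∈ F, ((MM B (uq (2 * i)) v : ℤ) : ℝ) ≤ W →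
        ∑ v ∈ F, (|((im B v : ℤ) : ℝ)| - MM B (uq (2 * i)) v) < w) →
      ∑ v ∈ S, (|((im B v : ℤ) : ℝ)| - MM B (uq (2 * i)) v) < w ∨
      (W - 2) * ∑ v ∈ S, (|((im B v : ℤ) : ℝ)| - MM B (uq (2 * i)) v) ≤
        w * ∑ v ∈ S, ((MM B (uq (2 * i)) v : ℤ) : ℝ) := by
    intro W w hW hw hno
    refine ratio_fail (fun v _ => h.fr.MMr _ _) (fun v _ h0 => ?_) hW hw hno
    rw [h0, sub_zero]
    exact abs_nonneg _
  obtain ⟨Sf, hSf⟩ : ∃ Sf : ℝ, Sf = ∑ v ∈ S, (|((im B v : ℤ) : ℝ)| - MM B (uq (2 * i)) v) :=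
    ⟨_, rfl⟩
  obtain ⟨cz, hcz⟩ : ∃ cz : ℝ, cz = ∑ v ∈ S, ((MM B (uq (2 * i)) v : ℤ) : ℝ) := ⟨_, rfl⟩
  rw [← hSf, ← hcz] at ratio
  have hSfb : bS - cz ≤ Sf := by
    rw [hSf, hcz, hbS, Finset.sum_sub_distrib]
    push_cast
    have h1 : -∑ v ∈ S, ((im B v : ℤ) : ℝ) ≤ ∑ v ∈ S, |((im B v : ℤ) : ℝ)| := by
      rw [← Finset.sum_neg_distrib]
      exact Finset.sum_le_sum fun v _ => neg_le_abs _
    linarith
  have hcz0 : 0 ≤ cz := by
    rw [hcz]
    exact Finset.sum_nonneg fun v _ => (h.fr.MMr _ _).1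
  have hcz2 : cz ≤ 2 * σ := by
    rw [hcz, hσ]
    calc ∑ v ∈ S, ((MM B (uq (2 * i)) v : ℤ) : ℝ) ≤ ∑ _v ∈ S, (2 : ℝ) :=
          Finset.sum_le_sum fun v _ => (h.fr.MMr _ _).2
      _ = _ := by rw [Finset.sum_const, nsmul_eq_mul]; ring
  have hcz1 : cz ≤ σ + n - 1 - (θ + u) := by
    have h1 := hcMM (2 * i) le_rfl
    push_cast at h1
    rw [hcz, hσ, hne, hu]
    linarith
  have hneg : ∀ v ∈ S, im B v < 0 → |((im B v : ℤ) : ℝ)| < y + 2 := by
    intro v _ h1
    have := h.fr.im_neg h1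
    linarith
  -- `v ≤ y - A`
  have hvA : ∀ i', i = i' + 1 → q (2 * i' + 1) - θ ≤ y - A := by
    intro i' hi'
    subst hi'
    have e1 := h.fr.qE (Nat.zero_le i') (by omega)
    rw [AA_zero] at e1
    simp only [Nat.mul_zero, sub_zero] at e1
    have eAA : A = AA q i' + (q (2 * i') - q (2 * i' + 1)) := by rw [hA, AA_succ]
    linarith
  -- the first step
  have step1 : ∀ y0 : ℝ, y0 = θ - lam - 1 →
      (y0 ≤ θ + g → u ≤ g → θ + 2 * g < y0 + A + u) →
      (∀ i', i = i' + 1 → y0 + 2 ≤ θ + g →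
        y + g < u + (q (2 * i' + 1) - θ) + 2 ∨ θ + 2 * g < y0 + u - A + 4) → g < u := by
    intro y0 hy00 m1 m2
    by_contra hc
    push Not at hc
    have h1 := m1 (by linarith) hc
    rcases Nat.eq_zero_or_pos i with h2 | h2
    · have : A = 0 := by rw [hA, h2, AA_zero]
      linarith
    · obtain ⟨i', hi'⟩ : ∃ i', i = i' + 1 := ⟨i - 1, by omega⟩
      have h3 := hvA i' hi'
      rcases m2 i' hi' (by linarith) with h4 | h4 <;> linarith
  have hkc : (k : ℝ) = 3 ∨ 4 ≤ (k : ℝ) := by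
    rcases k3.eq_or_lt with h1 | h1
    · left; rw [← h1]; norm_num
    · right; exact_mod_cast h1
  have hac : a = 1 ∨ a = 3 ∨ 5 ≤ a := by
    rw [ha]
    rcases Nat.lt_or_ge i 2 with h1 | h1
    · interval_cases i
      · left; norm_num
      · right; left; norm_num
    · right; right
      have : (2 : ℝ) ≤ i := by exact_mod_cast h1
      linarith
  rcases Rs.eq_empty_or_nonempty with hRs | hRs
  · subst hRs
    obtain ⟨f1, f2⟩ := h.cntI0 hin haQ hdec
    rw [← hSQe] at f1
    push_cast at f1 f2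
    simp only [← ha] at f1 f2
    have hρe : ρ = 0 := by rw [hρ]; simp
    rw [hρe] at c1 cn
    obtain ⟨Y, nb, ⟨-, hY0⟩, -, -, -, -, hT2, hT2A, -⟩ := hcut _ 0 le_rfl (by norm_num)
      (fun _ => le_rfl)
    have hY : (Y : ℝ) = 0 := by rw [hY0 rfl]; norm_num
    -- `a < 2 k - 1`
    have hak : 0 < (2 * k - 1 - a) * θ := by
      have h1 : 0 < a * (u + k) := mul_pos (by linarith) (by linarith)
      linarith
    have hak' : a < 2 * k - 1 := by
      by_contra hcon
      push Not at hcon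
      have := mul_nonpos_of_nonpos_of_nonneg (by linarith : 2 * (k : ℝ) - 1 - a ≤ 0)
        (by linarith : 0 ≤ θ)
      linarith
    have hiZ : (2 * i + 1 : ℤ) ≤ 2 * k - 3 := by
      have h1 : (2 * (i : ℤ) + 1) < 2 * k - 1 := by
        have h3 : ((2 * (i : ℤ) + 1 : ℤ) : ℝ) < ((2 * k - 1 : ℤ) : ℝ) := by
          push_cast
          linarith
        exact_mod_cast h3
      omega
    have hak2 : a ≤ 2 * k - 3 := by
      have : ((2 * (i : ℤ) + 1 : ℤ) : ℝ) ≤ ((2 * k - 3 : ℤ) : ℝ) := by exact_mod_cast hiZ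
      push_cast at this
      linarith
    have hβ : ∀ v ∈ S, |((im B v : ℤ) : ℝ)| ≤ θ - lam - 1 := by
      intro v hv
      rcases lt_or_ge (im B v) 0 with h1 | h1
      · have := hneg v hv h1
        linarith
      · have h2 : ((im B v : ℤ) : ℝ) ≤ a - k := by
          have h5 : ((im B v : ℤ) : ℝ) ≤ ((2 * (i : ℤ) + 1 - k : ℤ) : ℝ) := by
            exact_mod_cast (f2 v hv).1
          push_cast at h5
          linarith
        have h3 : (0 : ℝ) ≤ ((im B v : ℤ) : ℝ) := by exact_mod_cast h1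
        rw [abs_of_nonneg h3]
        linarith
    obtain ⟨m1, m2, m3⟩ := main Y hT2 hT2A (θ - lam - 1) (by linarith) (by linarith) hβ
    have hgu := step1 _ rfl m1 m2
    have hu0 : 0 < u := by linarith
    -- `S` is not empty
    have hSne : S.Nonempty := by
      rw [Finset.nonempty_iff_ne_empty]
      intro hSe
      have : bS = 0 := by rw [hbS, hSe]; simp
      have h1 : 0 < a * (θ + u) := mul_pos (by linarith) (by linarith)
      linarith
    obtain ⟨v0, hv0⟩ := hSne
    have hka : (k : ℝ) ≤ a := (f2 v0 hv0).2.2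
    have ha3 : 3 ≤ a := by linarith
    have hi1 : 1 ≤ i := by
      rcases Nat.eq_zero_or_pos i with h1 | h1
      · exfalso
        rw [h1] at ha
        norm_num at ha
        linarith
      · exact h1
    obtain ⟨i', hi'⟩ : ∃ i', i = i' + 1 := ⟨i - 1, by omega⟩
    have hSfb' : SQ - cz ≤ Sf := by linarith
    have hcz' : cz ≤ 3 * θ + 1 - 2 * lam - a - u := by linarith
    have hβa : ∀ v ∈ S, |((im B v : ℤ) : ℝ)| ≤ a := fun v hv => (f2 v hv).2.1
    obtain ⟨n1, n2, n3⟩ := main Y hT2 hT2A a (by linarith) (by linarith) hβa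
    have hAy : A ≤ y - u := by linarith
    have hrat : 0 ≤ θ - A - a → Sf < u ∨ (θ - A - a - 2) * Sf ≤ u * cz := by
      intro hW
      refine ratio (θ - A - a) u hW hu0 fun F hF hm => ?_
      have := n3 F hF (by linarith)
      linarith
    rcases hka.eq_or_lt with hk0 | hk0
    · -- `a = k`
      refine aI_zero0 (k := k) (θ := θ) (lam := lam) (y := y) (u := u) (A := A) (SQ := SQ)
        (Sf := Sf) (cz := cz) ?_ hlam kn hyb hu0 huy (by rw [hk0]; exact hSQ')
        (by rw [hk0]; exact hcz') hSfb' hAy (by rw [hk0]; exact hrat (by linarith))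
      have h1 : k = 2 * (i : ℤ) + 1 := by
        have : (k : ℝ) = ((2 * (i : ℤ) + 1 : ℤ) : ℝ) := by
          push_cast
          linarith
        exact_mod_cast this
      rcases Nat.lt_or_ge i 3 with h2 | h2
      · interval_cases i
        · left; rw [h1]; norm_num
        · right; left; rw [h1]; norm_num
      · right; right
        have h3 : (3 : ℝ) ≤ i := by exact_mod_cast h2
        have h4 : (k : ℝ) = 2 * (i : ℝ) + 1 := by rw [h1]; push_cast; ring
        linarith
    · -- `a > k`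
      obtain ⟨c, hc⟩ : ∃ c : ℤ, c = 2 * (i : ℤ) + 1 - k := ⟨_, rfl⟩
      obtain ⟨d, hd⟩ : ∃ d : ℤ, d = 2 * k - 1 - (2 * (i : ℤ) + 1) := ⟨_, rfl⟩
      have hcr : (c : ℝ) = a - k := by rw [hc]; push_cast; linarith
      have hdr : (d : ℝ) = 2 * k - 1 - a := by rw [hd]; push_cast; linarith
      have hc1 : 1 ≤ c := by
        have : (0 : ℝ) < c := by linarith
        have : 0 < c := by exact_mod_cast this
        omega
      have hc1r : (1 : ℝ) ≤ c := by exact_mod_cast hc1
      have hd2 : 2 ≤ d := by omega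
      have hd2r : (2 : ℝ) ≤ d := by exact_mod_cast hd2
      have hT := aI_T (a := a) (k := k) (θ := θ) (u := u) hdr hcr (by linarith)
      have hda : (d : ℝ) < a := by linarith
      have hT2' : 2 < θ - a := by
        by_contra hcon
        push Not at hcon
        have h1 : (d : ℝ) * (θ - a) ≤ d * 2 := mul_le_mul_of_nonneg_left hcon (by linarith)
        have h2 : a * 2 ≤ a * (c + 1) := mul_le_mul_of_nonneg_left (by linarith) (by linarith)
        have h3 : 0 < a * u := mul_pos (by linarith) hu0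
        linarith
      have hAu : A < u + 2 := by
        rcases n2 i' hi' (by linarith) with h1 | h1
        · have := hvA i' hi'
          linarith
        · linarith
      have had : a = d + 1 + 2 * c := by rw [hdr, hcr]; ring
      have hkd : (k : ℝ) = d + 1 + c := by rw [hdr, hcr]; ring
      by_cases hB1 : 3 ≤ c ∨ (d = 2 ∧ (c = 1 ∨ c = 2))
      · obtain ⟨w1, w2⟩ := aI_B1 (a := a) (c := c) (d := d) (T := θ - a) (u := u)
          (W := θ - A - a - 2) hd2r hc1r had hT hu0 (by linarith) (by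
            rcases hB1 with h1 | ⟨h1, h2⟩
            · left; exact_mod_cast h1
            · right
              refine ⟨by exact_mod_cast h1, ?_⟩
              rcases h2 with h2 | h2
              · left; exact_mod_cast h2
              · right; exact_mod_cast h2)
        exact aI_crit ha3 hu0 hSQ' hcz' hlam hSfb' hcz0 w1 (by linarith) w2
          (hrat (by linarith))
      · push Not at hB1
        obtain ⟨hb1', hb2'⟩ := hB1
        have hc12 : c = 1 ∨ c = 2 := by omega
        have hd4 : 4 ≤ d := by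
          have : d ≠ 2 := by
            intro h1
            have := hb2' h1
            omega
          omega
        have hc12r : (c : ℝ) = 1 ∨ (c : ℝ) = 2 := by
          rcases hc12 with h1 | h1
          · left; exact_mod_cast h1
          · right; exact_mod_cast h1
        have hd4r : (4 : ℝ) ≤ d := by exact_mod_cast hd4
        rcases le_or_gt (c : ℝ) u with huc | huc
        · obtain ⟨w1, w2⟩ := aI_B2 (a := a) (k := k) (c := c) (d := d) (T := θ - a) (u := u)
            (W := θ - A - a - 2) (lam := lam) (by linarith) hd4r hc12r had hkd hT huc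
            (by linarith) (by linarith)
          exact aI_crit ha3 hu0 hSQ' hcz' hlam hSfb' hcz0 w1 (by linarith) w2
            (hrat (by linarith))
        · -- single vertices
          have hc2r : (c : ℝ) ≤ 2 := by rcases hc12r with h1 | h1 <;> linarith
          have hβp : ∀ v ∈ S, |((im B v : ℤ) : ℝ)| ≤ max (p 0) c := by
            intro v hv
            rcases lt_or_ge (im B v) 0 with h1 | h1
            · exact le_max_of_le_left (h.fr.im_neg h1)
            · have h2 : ((im B v : ℤ) : ℝ) ≤ a - k := by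
                have h5 : ((im B v : ℤ) : ℝ) ≤ ((2 * (i : ℤ) + 1 - k : ℤ) : ℝ) := by
                  exact_mod_cast (f2 v hv).1
                push_cast at h5
                linarith
              have h3 : (0 : ℝ) ≤ ((im B v : ℤ) : ℝ) := by exact_mod_cast h1
              rw [abs_of_nonneg h3]
              exact le_max_of_le_right (by linarith)
          have hm0 : 0 ≤ max (p 0) (c : ℝ) := le_max_of_le_right (by linarith)
          obtain ⟨-, -, r3⟩ := main Y hT2 hT2A (max (p 0) c) hm0 (by linarith) hβp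
          have hmx : max (p 0) (c : ℝ) ≤ θ - A - 2 := by
            refine max_le ?_ ?_ <;> linarith
          have hβu : ∀ v ∈ S, |((im B v : ℤ) : ℝ)| ≤ c + 2 := by
            intro v hv
            have h1 := r3 {v} (by simpa using hv) (by
              rw [Finset.sum_singleton]
              have := (h.fr.MMr (uq (2 * i)) v).2
              linarith)
            rw [Finset.sum_singleton] at h1
            have := (h.fr.MMr (uq (2 * i)) v).2
            linarith
          exact aI_single (a := a) (c := c) (θ := θ) (u := u) (lam := lam) (σ := σ) (X := bS)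
            hc12r (by linarith) (by linarith) hlam hu0 (by linarith) (by linarith) (hbX _ hβu)
  · have hρ1 : 0 < Rs.card := Finset.card_pos.2 hRs
    have hg1 : 1 ≤ g := by
      have := hdec.cg
      omega
    have hg1r : (1 : ℝ) ≤ g := by exact_mod_cast hg1
    obtain ⟨cR, hcR⟩ : ∃ cR : ℤ, cR = ch (MM B (uq 0)) (vs uq up (rr nQ nP (2 * i + 1) 0)) :=
      ⟨_, rfl⟩
    have hcRr : (cR : ℝ) = cRr B nQ nP uq up (2 * i + 1) 0 := by rw [hcR]; rfl
    have hcRb : (cR : ℝ) ≤ θ - lam - y := by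
      have := h.cR (a := 2 * i + 1) (b := 0) (by omega) haQ (Nat.zero_le _)
      rw [hcRr]
      linarith
    obtain ⟨Y, nb, ⟨hY0, -⟩, hnb0, hnbe, hnb1, hcard, hT2, hT2A, hT1⟩ := hcut cR 1
      (le_of_eq hcR.symm) le_rfl (fun e => absurd e hRs.ne_empty)
    have hCr : ¬ CrI B uq up q p (2 * i + 1) 0 ((max 0 (cR - 1) : ℤ) : ℝ) := by
      intro hc
      refine hnv (hC.cr _ ?_ hc)
      rw [← hcRr]
      push_cast
      exact le_rfl
    have hEnd := hT1.resolve_left hCr
    have hnb1r : (1 : ℝ) ≤ nb := by exact_mod_cast hnb1 hRs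
    have hY0r : (0 : ℝ) ≤ Y := by exact_mod_cast hY0
    have hSR : S ⊆ vs uq up (rr nQ nP (2 * i + 1) 0) := by
      rw [← hdec.un]
      exact Finset.subset_union_right
    have hcl : ∀ β : ℝ, OutI B uq up (2 * i + 1) 0 S ((cR : ℝ) - nb) β → θ < β := by
      intro β hO
      by_contra hc
      push Not at hc
      exact hnv (h.fr.closeOut (Nat.zero_le _) haQ hSR hO (hC.crs _ (by rw [← hcRr]; linarith))
        harr ht0 (by linarith) (by linarith) hc)
    have hYb : (Y : ℝ) ≤ θ - lam - 1 := by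
      have := hcl _ hEnd.t
      linarith
    have hβ : ∀ v ∈ S, |((im B v : ℤ) : ℝ)| ≤ θ - lam - 1 := by
      intro v hv
      rcases lt_or_ge (im B v) 0 with h1 | h1
      · have := hneg v hv h1
        linarith
      · have := hcl _ (hEnd.v v hv h1)
        linarith
    obtain ⟨m1, m2, m3⟩ := main Y hT2 hT2A (θ - lam - 1) (by linarith) hYb hβ
    have hgu := step1 _ rfl m1 m2
    rcases Nat.eq_zero_or_pos i with h0 | h0
    · have e1 : a = 1 := by rw [ha, h0]; norm_num
      rw [e1] at c2 cn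
      exact aI_one k3r c2 hcg (by linarith) kn hyb (by linarith)
    obtain ⟨i', hi'⟩ : ∃ i', i = i' + 1 := ⟨i - 1, by omega⟩
    have ha3 : a = 3 ∨ 5 ≤ a := by
      rcases hac with h1 | h1
      · exfalso
        rw [ha] at h1
        have : (1 : ℝ) ≤ i := by exact_mod_cast h0
        linarith
      · exact h1
    have ha3' : 3 ≤ a := by rcases ha3 with h1 | h1 <;> linarith
    -- the path with a budget
    obtain ⟨nb2, d0, d1, d2, hbud⟩ := h.fr.bud (by omega) haQ (Nat.zero_le _) hq0 hdec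
    have hall := (hbud cR 1 (le_of_eq hcR.symm) le_rfl (fun e => absurd e hRs.ne_empty)).resolve_left
      hCr
    have hnb2 : (1 : ℝ) ≤ nb2 := by exact_mod_cast d1 hRs
    have hDb : ((cR - nb2 : ℤ) : ℝ) ≤ θ - lam - y - nb2 := by
      push_cast
      linarith
    obtain ⟨l0, nd, mem, len, srt, hf⟩ := t1b_fail h.fr.sys.B0 h.fr.sys.B1 hall harr ht0 hnv
      (fun w hw => by
        obtain ⟨w1, w2, w3⟩ := (mem_Hmf h.fr.sys.B0 _ _ _).1 hw
        refine hneg w w1 ?_
        linarith) hDb hlam (d1 hRs) (by linarith) (by linarith)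
    have hineq := fun j hj => t1b_ineq len nd mem srt hf j hj (by linarith)
    obtain ⟨G, hG⟩ : ∃ G : ℝ, G = ((G0 B (uq 0) S : ℤ) : ℝ) := ⟨_, rfl⟩
    rw [← hG, ← hσ] at hineq
    have hGb : bS - (σ + n - 1 - (θ + y)) ≤ G := by
      have h1 := G0_ge (B := B) (uq 0) S
      have h2 := hcMM 0 (Nat.zero_le _)
      have h3 : ((-∑ v ∈ S, (im B v + MM B (uq 0) v) : ℤ) : ℝ) ≤ G := by
        rw [hG]
        exact_mod_cast h1
      rw [Finset.sum_add_distrib] at h3
      push_cast at h2 h3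
      rw [hbS, hσ, hne]
      push_cast
      linarith
    have hGP : y - g ≤ G := aI_small (a := a) (n := n) (ρ := ρ) (σ := σ) (θ := θ) (lam := lam)
      (u := u) (SQ := SQ) (bS := bS) ha3' cn.symm.symm hlamn hcg hgu (by linarith) hlam hSQ' c1 hGb
    rcases lt_or_ge a k with hak | hak
    · -- few hubs
      have h1 : (1 : ℝ) ≤ k - a := by
        have h2 : ((2 * i + 1 : ℕ) : ℤ) < k := by
          have h3 : (((2 * i + 1 : ℕ) : ℤ) : ℝ) < k := by
            push_cast
            linarith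
          exact_mod_cast h3
        have h3 : (((2 * i + 1 : ℕ) : ℤ) : ℝ) + 1 ≤ k := by exact_mod_cast h2
        push_cast at h3
        linarith
      have h2 : 1 * σ ≤ (k - a) * σ := mul_le_mul_of_nonneg_right h1 hσ0
      rcases hineq S.card (by rw [← hσ]; linarith) with h3 | h3
      · linarith
      · rw [← hσ] at h3
        have h4 := mul_le_mul_of_nonneg_left hGP hσ0
        linarith
    · -- many hubs
      have hw0 : 0 ≤ θ - ((cR - nb2 : ℤ) : ℝ) - 1 - (y - u - A) := by linarith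
      have hfl1 := Nat.floor_le hw0
      have hfl2 := Nat.lt_floor_add_one (θ - ((cR - nb2 : ℤ) : ℝ) - 1 - (y - u - A))
      have h3 := hineq ⌊θ - ((cR - nb2 : ℤ) : ℝ) - 1 - (y - u - A)⌋₊ (by linarith)
      have hG0 : 0 < G := by linarith
      refine aI_pos (k := k) (n := n) (a := a) (ρ := ρ) (σ := σ) (g := g) (θ := θ) (lam := lam)
        (y := y) (u := u) (v := q (2 * i' + 1) - θ) (A := A) (SQ := SQ) (G := G) (bS := bS)
        k3r hkc hak ha3 cn hlamn hlam kn hcg hg1r hyb hgu ?_ huy hA0 hσ0 ?_ c1 hGb ?_ ?_ ?_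
      · rw [hu, hi']
        have := h.fr.qa (i := 2 * i' + 1) (j := 2 * (i' + 1)) (by omega) (by omega)
        linarith
      · have h4 := h.fr.sum_ge2 (i := i') (by omega)
        have e1 : 2 * (i' + 1) + 1 = 2 * i + 1 := by omega
        rw [e1] at h4
        have e2 : q (2 * i' + 2) = θ + u := by
          rw [hu]
          have : 2 * i = 2 * i' + 2 := by omega
          rw [this]
          ring
        have e3 : a - 2 = 2 * (i' : ℝ) + 1 := by
          rw [ha, hi']
          push_cast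
          ring
        rw [hSQe, e3]
        rw [e2] at h4
        linarith
      · rcases m2 i' hi' (by linarith) with h4 | h4
        · left; linarith
        · right; linarith
      · rcases h3 with h4 | h4
        · exact Or.inl h4
        · right
          refine lt_of_le_of_lt (mul_le_mul_of_nonneg_right ?_ hG0.le) h4
          linarith
      · intro hAl
        rcases ratio (θ + g - A - (θ - lam - 1)) (u - g) (by linarith) (by linarith) m3 with h4 | h4
        · right
          linarith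
        · left
          have h5 : (lam - A) * Sf ≤ (θ + g - A - (θ - lam - 1) - 2) * Sf ∨ Sf < 0 := by
            rcases le_or_gt 0 Sf with h6 | h6
            · exact Or.inl (mul_le_mul_of_nonneg_right (by linarith) h6)
            · exact Or.inr h6
          have h6 : (u - g) * cz ≤ (u - g) * (2 * σ) :=
            mul_le_mul_of_nonneg_left hcz2 (by linarith)
          have h7 : (lam - A) * (bS - 2 * σ) ≤ (lam - A) * Sf :=
            mul_le_mul_of_nonneg_left (by linarith) (by linarith)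
          rcases h5 with h5 | h5
          · linarith
          · have h8 : (lam - A) * Sf ≤ 0 :=
              mul_nonpos_of_nonneg_of_nonpos (by linarith) h5.le
            have h9 : 0 ≤ 2 * σ * (u - g) := mul_nonneg (by linarith) (by linarith)
            linarith

end Pool.Agent.Exact
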