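import Pool.Agent.Lib_helper23.Exact.L1out

/-!
# The range `n < 2k-1`
-/

set_option autoImplicit false
set_option linter.unusedSectionVars false

namespace Pool.Agent.Exact

open Finset

variable {V : Type*} [Fintype V] [DecidableEq V]
variable {B : V → V → ℤ} {Rl : Finset V} {ℓ nQ nP : ℕ} {uq up : ℕ → V} {q p : ℕ → ℝ}
variable {k : ℤ} {θ : ℝ}

/-- arithmetic of the last step for small `n` -/
lemma arith_small {k n a ρ σ hl g nb : ℤ} {θ μ Sg p0 A : ℝ} (k3 : 3 ≤ k)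
    (hn : n < 2 * k - 1) (ha1 : 1 ≤ a) (hak : a ≤ k) (hμ : 0 < μ) (hS1 : a * μ ≤ Sg)
    (hθ : 0 ≤ θ) (c1 : 0 ≤ hl) (c2 : hl ≤ σ) (c3 : 2 * k * hl + σ ≤ n - a)
    (c4 : ρ + σ = n - a) (c5 : Sg ≤ a * ((n : ℝ) - a) - k * (σ - hl)) (c7 : ρ ≤ 2 * g)
    (c8 : 0 < ρ → 1 ≤ nb ∧ ρ ≤ g + nb ∧ (θ + g < μ ∨ 3 * θ - n + nb + 2 * g < A + μ ∨
      (nb = 1 ∧ 2 * θ + 2 * g < A + μ + p0))) (H1 : μ ≤ 2 * θ)
    (H2 : A ≤ 3 * θ - n + μ / 2) (H3 : A + p0 ≤ 2 * θ + μ - 2) : False := by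
  have k3r : (3 : ℝ) ≤ k := by exact_mod_cast k3
  have ha1r : (1 : ℝ) ≤ a := by exact_mod_cast ha1
  have hakr : (a : ℝ) ≤ k := by exact_mod_cast hak
  have c4r : (ρ : ℝ) + σ = n - a := by exact_mod_cast c4
  have c7r : (ρ : ℝ) ≤ 2 * g := by exact_mod_cast c7
  have h0 : hl = 0 := by
    by_contra hc
    have h1 : 1 ≤ hl := by omega
    have h2 : 0 ≤ k * (hl - 1) := mul_nonneg (by omega) (by omega)
    linarith only [h2, c2, c3, hn, ha1, h1]
  subst h0
  have c2r : (0 : ℝ) ≤ σ := by exact_mod_cast c2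
  push_cast at c5
  have hμ0 : μ ≤ (n : ℝ) - a := by
    have h1 : 0 ≤ (k : ℝ) * σ := mul_nonneg (by linarith only [k3r]) c2r
    by_contra hc
    push Not at hc
    have h2 : (a : ℝ) * (n - a) < a * μ :=
      mul_lt_mul_of_pos_left hc (by linarith only [ha1r])
    linarith only [h1, h2, hS1, c5]
  have hρ : μ ≤ ρ := by
    have h1 : (k : ℝ) * σ ≤ a * (n - a - μ) := by linarith only [hS1, c5]
    have h2 : (a : ℝ) * (n - a - μ) ≤ k * (n - a - μ) :=
      mul_le_mul_of_nonneg_right hakr (by linarith only [hμ0])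
    by_contra hc
    push Not at hc
    have h3 : (k : ℝ) * ρ < k * μ := mul_lt_mul_of_pos_left hc (by linarith only [k3r])
    have h4 : (k : ℝ) * (n - a) = k * ρ + k * σ := by rw [← c4r]; ring
    linarith only [h1, h2, h3, h4]
  have hρ0 : 0 < ρ := by
    have : (0 : ℝ) < ρ := by linarith only [hρ, hμ]
    exact_mod_cast this
  obtain ⟨hnb, hρg, hcase⟩ := c8 hρ0
  have hρgr : (ρ : ℝ) ≤ g + nb := by exact_mod_cast hρg
  rcases hcase with h1 | h1 | ⟨h0, h1⟩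
  · linarith only [h1, H1, c7r, hρ]
  · linarith only [h1, H2, hρgr, c7r, hρ]
  · rw [h0] at hρgr
    push_cast at hρgr
    linarith only [h1, H3, hρgr, hρ]

/-- a bound for the number of hubs -/
lemma Frame.hub_card (h : Frame B Rl ℓ nQ nP uq up q p) {a : ℕ} (ha1 : 1 ≤ a) (ha : a ≤ nQ) :
    q (a - 1) ≤ (Rl.card : ℝ) - a := by
  have hQ := h.nQle
  have h1 := sum_im_le h.sys.B0 h.sys.B1 h.sys.dummy (S := vs uq up (iq 0 a))
    (by rw [← h.hub_un ha]; exact Finset.subset_union_left)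
  rw [h.card_hub ha] at h1
  have h2 := (abs_le.1 h1).2
  have h3 : (((∑ v ∈ vs uq up (iq 0 a), im B v : ℤ)) : ℝ) ≤ a * ((Rl.card : ℝ) - a) := by
    exact_mod_cast h2
  rw [h.sum_hub ha] at h3
  have h4 : ∑ _j ∈ range a, q (a - 1) ≤ ∑ j ∈ range a, q j := by
    refine Finset.sum_le_sum fun j hj => ?_
    have := Finset.mem_range.1 hj
    exact h.sys.chQ.anti j (a - 1) (by omega) (by omega)
  rw [Finset.sum_const, nsmul_eq_mul, Finset.card_range] at h4
  have ha0 : (0 : ℝ) < a := by exact_mod_cast ha1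
  have h5 := h4.trans h3
  exact le_of_mul_le_mul_left h5 ha0

section small

variable (h : Ctx B Rl ℓ nQ nP uq up q p k θ)
include h

/-- counting facts for `n < 2k-1` -/
theorem Ctx.smallFacts (hn : (Rl.card : ℤ) < 2 * k - 1) (hnv : ¬ Val B θ) (hpq : p 0 ≤ q 0) :
    (∀ v ∈ Rl, k ≤ ∑ u, B v u) ∧ k + 1 ≤ (Rl.card : ℤ) ∧ p 0 ≤ Rl.card - 1 - k ∧
      p 0 ≤ θ - 9 / 4 ∧ 3 / 2 < 2 * θ - Rl.card + 1 ∧ 12 / 5 ≤ θ := by
  have hl := h.fr.l2
  have hqθ := h.top hnv hpq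
  have hθ0 := h.θ0
  have hq : 0 < q 0 := by linarith only [hqθ, hθ0]
  have k3 := h.k3
  have k3r := h.k3r
  have hr := h.realQ0 (i := 0) (by omega) hq
  have hkn := h.kn
  have hnr : (Rl.card : ℝ) ≤ 2 * k - 2 := by
    have : (Rl.card : ℤ) ≤ 2 * k - 2 := by omega
    exact_mod_cast this
  have hk0 : (0 : ℝ) < 2 * k - 1 := by linarith only [k3r]
  have hkn' : 0 ≤ ((k : ℝ) - 1) * (2 * k - 2 - Rl.card) :=
    mul_nonneg (by linarith only [k3r]) (by linarith only [hnr])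
  have hk1 : k + 1 ≤ (Rl.card : ℤ) := by
    rcases h.deg with hd | hd
    · have h1 := outdeg_le h.fr.sys.B1 h.fr.sys.Bd h.fr.sys.dummy hr
      have h2 := hd _ hr
      linarith only [h1, h2]
    · have h1 := outdeg_le (B := Tr B) (fun u v => h.fr.sys.B1 v u) h.fr.sys.Bd
        (fun v hv u => ⟨(h.fr.sys.dummy v hv u).2, (h.fr.sys.dummy v hv u).1⟩) hr
      have h2 := hd _ hr
      have h3 : ∑ u, Tr B (uq 0) u = ∑ u, B u (uq 0) := rfl
      rw [h3] at h1
      linarith only [h1, h2]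
  have hk1r : (k : ℝ) + 1 ≤ Rl.card := by exact_mod_cast hk1
  have hout : ∀ v ∈ Rl, k ≤ ∑ u, B v u := by
    rcases h.deg with hd | hd
    · exact hd
    · exfalso
      have h1 := h.qleK hd (i := 0) (by omega) hq
      have h2 : 0 < (2 * (k : ℝ) - 1) * (Rl.card - 1 - k - θ) :=
        mul_pos hk0 (by linarith only [h1, hqθ])
      linarith only [h2, hkn, hkn', k3r]
  have hp0 := h.p0K hout hk1
  refine ⟨hout, hk1, hp0, ?_, ?_, ?_⟩
  · by_contra hc
    push Not at hc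
    have h2 : 0 < (2 * (k : ℝ) - 1) * (Rl.card - k + 5 / 4 - θ) :=
      mul_pos hk0 (by linarith only [hc, hp0])
    linarith only [h2, hkn, hkn', k3r]
  · by_contra hc
    push Not at hc
    have h2 : 0 ≤ (2 * (k : ℝ) - 1) * (Rl.card + 1 / 2 - 2 * θ) :=
      mul_nonneg hk0.le (by linarith only [hc])
    linarith only [h2, hkn, hk1r]
  · by_contra hc
    push Not at hc
    have h2 : 0 < (2 * (k : ℝ) - 1) * (12 / 5 - θ) := mul_pos hk0 (by linarith only [hc])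
    have h3 : 0 ≤ (k : ℝ) * (Rl.card - k - 1) :=
      mul_nonneg (by linarith only [k3r]) (by linarith only [hk1r])
    have h4 : 0 ≤ (5 * (k : ℝ) - 4) * (k - 3) :=
      mul_nonneg (by linarith only [k3r]) (by linarith only [k3r])
    linarith only [h2, h3, h4, hkn]

/-- T1 for `n < 2k-1` -/
theorem Ctx.smallT1 (hn : (Rl.card : ℤ) < 2 * k - 1) (hnv : ¬ Val B θ) (hpq : p 0 ≤ q 0)
    {i : ℕ} (hi : i < ℓ) (hμ : 0 < q (2 * i)) (hak : (2 * i + 1 : ℕ) ≤ k)
    (hCr : ∀ x : ℝ, max 0 ((Rl.card : ℝ) - 1 - q 0 - 1) = x →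
      x + q (2 * i + 1) ≤ θ ∧ x + p 0 ≤ θ ∧ x + (q 0 - q (2 * i) - AA q i) ≤ θ ∧
      2 * x + (q 0 - q (2 * i) - AA q i) + q (2 * i + 1) + p 0 ≤ 2 * θ)
    (hCrS : (Rl.card : ℝ) - 1 - q 0 + p 0 - 1 ≤ θ)
    (ht : (Rl.card : ℝ) - 1 - q 0 + (q 0 - q (2 * i) - AA q i) ≤ θ)
    (hD : ∀ l < i, q (2 * l) - q (2 * l + 1) ≤ θ)
    (H2 : AA q i ≤ 3 * θ - Rl.card + q (2 * i) / 2)
    (H3 : AA q i + p 0 ≤ 2 * θ + q (2 * i) - 2) : False := by
  have hl := h.fr.l2
  obtain ⟨hout, hk1, hp0, hp1, hlam, hθ⟩ := h.smallFacts hn hnv hpq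
  have hqθ := h.top hnv hpq
  have hq : 0 < q 0 := by linarith only [hqθ, hθ]
  have k3 := h.k3
  have hqn := h.qle (i := 0) (by omega) hq
  have hqi1 := h.fr.qn (i := 2 * i + 1) (by omega)
  have hE := h.fr.qE (Nat.zero_le i) hi
  rw [AA_zero] at hE
  simp only [Nat.mul_zero, sub_zero] at hE
  have hAi : 0 ≤ AA q i := by
    have := AA_mono h.fr.sys.chQ (Nat.zero_le i) (by omega)
    rwa [AA_zero] at this
  have hpn := h.fr.pn (i := 0) (by omega)
  have htE : ∀ l < i, q (2 * l + 1) - q (2 * l + 2) ≤ q 0 - q (2 * i) - AA q i := by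
    intro l hl'
    have := h.fr.qgE (Nat.zero_le l) hl' hi
    rw [AA_zero] at this
    simp only [Nat.mul_zero] at this
    linarith only [this]
  have hζ : (0 : ℝ) ≤ Rl.card - 1 - q 0 := by linarith only [hqn]
  obtain ⟨x, hx⟩ : ∃ x : ℝ, max 0 ((Rl.card : ℝ) - 1 - q 0 - 1) = x := ⟨_, rfl⟩
  obtain ⟨x1, x2, x3, x4⟩ := hCr x hx
  obtain ⟨ρ, σ, hlg, g, nb, c0, c1, c2, c3, c4, c5, c6, c7, c8⟩ := h.nc0 hnv hout hi hμ
    (by linarith) (fun hC => by
      rw [hx] at hC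
      exact h.fr.crPure (K := θ - x) i 0 hi (Nat.zero_le _) (by linarith)
        (by linarith) (by rw [Nat.mul_zero]; linarith)
        (fun l hl' => by have := htE l hl'; linarith) (by simp) (by linarith)
        (by rw [AA_zero, Nat.mul_zero]; linarith) hC)
    (fun D hDz hC => h.fr.crsPure (K := θ - D) i 0 hi (Nat.zero_le _) (by linarith)
      (by rw [Nat.mul_zero]; linarith) (fun l hl' => by have := htE l hl'; linarith) (by simp)
      (by linarith) (by rw [AA_zero, Nat.mul_zero]; linarith) hC)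
    ht hD (by linarith)
  refine arith_small (k := k) (n := (Rl.card : ℤ)) (a := ((2 * i + 1 : ℕ) : ℤ)) (ρ := ρ)
    (σ := σ) (hl := hlg) (g := g) (nb := nb) (θ := θ) (μ := q (2 * i))
    (Sg := ∑ j ∈ range (2 * i + 1), q j) (p0 := p 0) (A := AA q i) k3 hn
    (by push_cast; omega) hak hμ (by exact_mod_cast h.fr.sum_ge hi) (by linarith)
    c1 c2 c3 c4 ?_ c7 ?_ ?_ ?_ H3
  · exact_mod_cast c5
  · intro h0
    obtain ⟨d1, d2, d3⟩ := c8 h0
    refine ⟨d1, d2, ?_⟩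
    rcases d3 with d3 | d3 | d3
    · exact Or.inl d3
    · right; left
      push_cast
      linarith
    · exact Or.inr (Or.inr d3)
  · have := h.fr.sys.chQ.anti 0 (2 * i) (by omega) (by omega)
    linarith
  · push_cast
    linarith

/-- a static structure with a large difference -/
lemma Ctx.smallG3 (hnv : ¬ Val B θ) {i : ℕ} (hi : i < ℓ)
    (hK : |q (2 * i) - q (2 * i + 1) - p 0| ≤ θ - 2)
    (hD : ∀ l < ℓ, l ≠ i → q (2 * l) - q (2 * l + 1) ≤ θ - 2) (hp : p 0 ≤ θ - 2)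
    (hT : |q (2 * i) - q (2 * i + 1) - p 0| + (AA q ℓ - (q (2 * i) - q (2 * i + 1))) +
      (p 0 - AA p ℓ) ≤ 2 * (θ - 2)) : False := by
  have hl := h.fr.l2
  have hpn := h.fr.pn (i := 0) (by omega)
  have he' : ∀ i, i + 1 < ℓ → p (2 * i + 1) - p (2 * i + 2) ≤ θ - 2 := by
    intro i hi
    have h1 := h.fr.sys.chP.anti 0 (2 * i + 1) (by omega) (by omega)
    have h2 := h.fr.pn (i := 2 * i + 2) (by omega)
    linarith
  have g := h.fr.sG3Q (K := θ - 2) (by linarith) i 0 hi (by omega)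
    (by rw [Nat.mul_zero]; exact hK) hD (by simp) (fun l _ hl' => he' l hl')
  refine hnv (g.mono ?_)
  have hM : ((MM B (uq (2 * i)) (up (2 * 0)) - MM B (uq (2 * i)) (uq (2 * i + 1)) -
      MM B (uq (2 * i + 1)) (up (2 * 0)) : ℤ) : ℝ) ≤ 2 := by
    have c1 := h.MM2 (uq (2 * i)) (up (2 * 0))
    have c2 := h.MM0 (uq (2 * i)) (uq (2 * i + 1))
    have c3 := h.MM0 (uq (2 * i + 1)) (up (2 * 0))
    push_cast
    linarith
  have hX : max (θ - 2) ((|q (2 * i) - q (2 * i + 1) - p (2 * 0)| +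
      (AA q ℓ - (q (2 * i) - q (2 * i + 1))) + (AA p 0 + p (2 * 0) - (AA p ℓ - AA p 0))) / 2) ≤
      θ - 2 := by
    refine max_le le_rfl ?_
    rw [AA_zero, Nat.mul_zero]
    linarith
  linarith

/-- facts about a hub -/
lemma Ctx.smallHub {i : ℕ} (hi : i < ℓ) : AA q i + q (2 * i) ≤ q 0 ∧ 0 ≤ AA q i ∧
    AA q ℓ - AA q i ≤ q (2 * i) ∧ AA q i + (q (2 * i) - q (2 * i + 1)) ≤ AA q ℓ := by
  have hE := h.fr.qE (Nat.zero_le i) hi
  rw [AA_zero] at hE
  simp only [Nat.mul_zero, sub_zero] at hE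
  have hAi : 0 ≤ AA q i := by
    have := AA_mono h.fr.sys.chQ (Nat.zero_le i) (by omega)
    rwa [AA_zero] at this
  have hAi1 : AA q (i + 1) ≤ AA q ℓ := AA_mono h.fr.sys.chQ (by omega) (by omega)
  rw [AA_succ] at hAi1
  exact ⟨hE, hAi, h.fr.qT hi, hAi1⟩

/-- the number of hubs -/
lemma Ctx.smallHubCard {j : ℕ} (hj : j < 2 * ℓ) (hqj : 0 < q j) :
    q j ≤ (Rl.card : ℝ) - ((j : ℝ) + 1) := by
  have h1 := h.realQ0 hj hqj
  rw [h.fr.sys.realQ j hj] at h1
  have := h.fr.hub_card (a := j + 1) (by omega) (by omega)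
  rw [Nat.add_sub_cancel] at this
  push_cast at this
  exact this

/-- the range `n < 2k-1`, a difference larger than `θ` -/
lemma Ctx.smallA (hn : (Rl.card : ℤ) < 2 * k - 1) (hnv : ¬ Val B θ) (hpq : p 0 ≤ q 0) {i : ℕ}
    (hi : i < ℓ) (hD : θ < q (2 * i) - q (2 * i + 1)) : False := by
  have hl := h.fr.l2
  obtain ⟨hout, hk1, hp0, hp1, hlam, hθ⟩ := h.smallFacts hn hnv hpq
  have hqθ := h.top hnv hpq
  have hq : 0 < q 0 := by linarith only [hqθ, hθ]
  have hnr : (Rl.card : ℝ) ≤ 2 * k - 2 := by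
    have : (Rl.card : ℤ) ≤ 2 * k - 2 := by omega
    exact_mod_cast this
  have hqn := h.qle (i := 0) (by omega) hq
  have hA0 := h.fr.qA0
  have hDi := h.fr.qD hi
  obtain ⟨a1, a2, a3, a4⟩ := h.smallHub hi
  have hqi1 := h.fr.qn (i := 2 * i + 1) (by omega)
  have hDl : ∀ l < ℓ, l ≠ i → q (2 * l) - q (2 * l + 1) ≤ q 0 - θ := by
    intro l hl' hli
    have := h.fr.qDD hli hl' hi
    linarith only [this, hA0, hD]
  rcases le_or_gt (q 0 - θ + 2) (p 0) with hp | hp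
  · have e : |q (2 * i) - q (2 * i + 1) - p 0| = q (2 * i) - q (2 * i + 1) - p 0 :=
      abs_of_nonneg (by linarith only [hD, hp1])
    refine h.smallG3 hnv hi ?_ ?_ (by linarith only [hp1]) ?_
    · rw [e]
      linarith only [hDi, hA0, hp]
    · intro l hl' hli
      have := hDl l hl' hli
      linarith only [this, hp, hp1]
    · rw [e]
      have := AA_mono h.fr.sys.chP (Nat.zero_le ℓ) (by omega)
      rw [AA_zero] at this
      linarith only [this, hA0, hp, hp1]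
  · have hμ : 0 < q (2 * i) := by linarith only [hD, hqi1, hθ]
    have hc := h.smallHubCard (j := 2 * i) (by omega) hμ
    refine h.smallT1 hn hnv hpq hi hμ ?_ ?_ ?_ ?_ ?_ ?_ ?_
    · have h1 : ((2 * i + 1 : ℕ) : ℝ) < k := by
        push_cast at hc ⊢
        linarith only [hc, hD, hqi1, hlam, hnr]
      have h2 : ((2 * i + 1 : ℕ) : ℤ) < k := by exact_mod_cast h1
      exact h2.le
    · intro x hx
      have hx1 : x ≤ Rl.card - 1 - q 0 := by
        rw [← hx]; exact max_le (by linarith only [hqn]) (by linarith only [hqn])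
      rcases max_choice 0 ((Rl.card : ℝ) - 1 - q 0 - 1) with h1 | h1 <;> rw [h1] at hx
      · refine ⟨?_, ?_, ?_, ?_⟩ <;>
          linarith only [hx, hx1, hD, hqi1, a1, a2, hlam, hp, hp1, hqn, hθ]
      · refine ⟨?_, ?_, ?_, ?_⟩ <;>
          linarith only [hx, hx1, hD, hqi1, a1, a2, hlam, hp, hp1, hqn, hθ]
    · linarith only [hp, hlam]
    · linarith only [a2, hD, hqi1, hlam]
    · intro l hl'
      have := hDl l (by omega) (by omega)
      linarith only [this, hqn, hlam]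
    · linarith only [a1, hqn, hlam, hD, hqi1, hθ]
    · linarith only [a1, hp1, hqn, hlam, hD, hqi1, hθ]

/-- the range `n < 2k-1`, two large differences -/
lemma Ctx.smallB (hn : (Rl.card : ℤ) < 2 * k - 1) (hnv : ¬ Val B θ) (hpq : p 0 ≤ q 0)
    (hN1 : ∀ i < ℓ, q (2 * i) - q (2 * i + 1) ≤ θ) (hA : 2 * θ < AA q ℓ + AA p ℓ)
    (hz : q 0 + 2 ≤ 2 * θ) {i l : ℕ} (hil : i < l) (hl2 : l < ℓ)
    (hD1 : θ - 2 < q (2 * i) - q (2 * i + 1)) (hD2 : θ - 2 < q (2 * l) - q (2 * l + 1)) :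
    False := by
  have hl := h.fr.l2
  obtain ⟨hout, hk1, hp0, hp1, hlam, hθ⟩ := h.smallFacts hn hnv hpq
  have hqθ := h.top hnv hpq
  have hq : 0 < q 0 := by linarith only [hqθ, hθ]
  have hnr : (Rl.card : ℝ) ≤ 2 * k - 2 := by
    have : (Rl.card : ℤ) ≤ 2 * k - 2 := by omega
    exact_mod_cast this
  have hqn := h.qle (i := 0) (by omega) hq
  have hA0 := h.fr.qA0
  have hA1 := h.fr.pA0
  obtain ⟨a1, a2, a3, a4⟩ := h.smallHub hl2
  have hAl : θ - 2 < AA q l := by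
    have h1 := h.fr.qgA (i := 0) (l := i) (j := l) (by omega) hil hl2.le
    rw [AA_zero] at h1
    linarith only [h1, hD1]
  have hqi1 := h.fr.qn (i := 2 * l + 1) (by omega)
  have hμ : 0 < q (2 * l) := by linarith only [hD2, hqi1, hθ]
  have hc := h.smallHubCard (j := 2 * l) (by omega) hμ
  refine h.smallT1 hn hnv hpq hl2 hμ ?_ ?_ ?_ ?_ ?_ ?_ ?_
  · have h1 : ((2 * l + 1 : ℕ) : ℝ) < k + 1 := by
      push_cast at hc ⊢
      linarith only [hc, hD2, hqi1, hlam, hnr]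
    have h2 : ((2 * l + 1 : ℕ) : ℤ) < k + 1 := by exact_mod_cast h1
    exact Int.lt_add_one_iff.1 h2
  · intro x hx
    rcases max_choice 0 ((Rl.card : ℝ) - 1 - q 0 - 1) with h1 | h1 <;> rw [h1] at hx
    · refine ⟨?_, ?_, ?_, ?_⟩ <;> linarith only [hx, hAl, hD2, hqi1, a1, hz, hθ, hp1, hlam]
    · refine ⟨?_, ?_, ?_, ?_⟩ <;> linarith only [hx, hAl, hD2, hqi1, a1, hz, hθ, hp1, hlam]
  · linarith only [hAl, hD2, hqi1, a1, hθ, hp1, hlam]
  · linarith only [hAl, hD2, hqi1, hlam, hA, hA0, hA1, hz, hp1]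
  · exact fun m hm => hN1 m (by omega)
  · linarith only [hAl, hD2, hqi1, a1, hz, hθ, hlam]
  · linarith only [hAl, hD2, hqi1, a1, hz, hθ, hp1]

/-- the range `n < 2k-1`, one large difference -/
lemma Ctx.smallC (hn : (Rl.card : ℤ) < 2 * k - 1) (hnv : ¬ Val B θ) (hpq : p 0 ≤ q 0)
    (hN1 : ∀ i < ℓ, q (2 * i) - q (2 * i + 1) ≤ θ) (hA : 2 * θ < AA q ℓ + AA p ℓ)
    (hz : q 0 + 2 ≤ 2 * θ) {i : ℕ} (hi : i < ℓ) (hDi : θ - 2 < q (2 * i) - q (2 * i + 1))
    (hG2 : ∀ l < ℓ, l ≠ i → q (2 * l) - q (2 * l + 1) ≤ θ - 2) : False := by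
  obtain ⟨hout, hk1, hp0, hp1, hlam, hθ⟩ := h.smallFacts hn hnv hpq
  have hA0 := h.fr.qA0
  have hA1 := h.fr.pA0
  have e : |q (2 * i) - q (2 * i + 1) - p 0| = q (2 * i) - q (2 * i + 1) - p 0 :=
    abs_of_nonneg (by linarith only [hDi, hp1])
  have hN := hN1 i hi
  refine h.smallG3 hnv hi ?_ (fun l hl' hli => hG2 l hl' hli) (by linarith only [hp1]) ?_
  · rw [e]
    linarith only [hN, hA, hA0, hA1, hz]
  · rw [e]
    linarith only [hA, hA0, hz]

/-- the range `n < 2k-1`, no large difference -/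
lemma Ctx.smallD (hn : (Rl.card : ℤ) < 2 * k - 1) (hnv : ¬ Val B θ) (hpq : p 0 ≤ q 0)
    (hA : 2 * θ < AA q ℓ + AA p ℓ) (hz : q 0 + 2 ≤ 2 * θ)
    (hG : ∀ i < ℓ, q (2 * i) - q (2 * i + 1) ≤ θ - 2) : False := by
  classical
  have hl := h.fr.l2
  obtain ⟨hout, hk1, hp0, hp1, hlam, hθ⟩ := h.smallFacts hn hnv hpq
  have hA1 := h.fr.pA0
  have hpn := h.fr.pn (i := 0) (by omega)
  have hex : ∃ l, l < ℓ ∧ q (2 * l + 1) ≤ p 0 := ⟨ℓ - 1, by omega, by
    have := h.fr.qend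
    rw [show 2 * (ℓ - 1) + 1 = 2 * ℓ - 1 by omega, this]
    exact hpn⟩
  obtain ⟨l, ⟨hl1, h1⟩, h2⟩ : ∃ l, (l < ℓ ∧ q (2 * l + 1) ≤ p 0) ∧
      ∀ m < l, p 0 < q (2 * m + 1) := by
    refine ⟨Nat.find hex, Nat.find_spec hex, fun m hm => ?_⟩
    have h3 := Nat.find_min hex hm
    push Not at h3
    exact h3 (by have := (Nat.find_spec hex).1; omega)
  have hK0 : 0 ≤ θ - 2 := by linarith only [hθ]
  have he : ∀ i, i + 1 < ℓ → q (2 * i + 1) - q (2 * i + 2) ≤ θ - 2 := by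
    intro i hi
    have := h.fr.qeT (i := 0) (l := i) (by omega) hi
    simp only [Nat.mul_zero, AA_zero, sub_zero] at this
    linarith only [this, hz, hA, hA1, hp1]
  have he' : ∀ i, i + 1 < ℓ → p (2 * i + 1) - p (2 * i + 2) ≤ θ - 2 := by
    intro i hi
    have h3 := h.fr.sys.chP.anti 0 (2 * i + 1) (by omega) (by omega)
    have h4 := h.fr.pn (i := 2 * i + 2) (by omega)
    linarith only [h3, h4, hp1]
  obtain ⟨a1, a2, a3, a4⟩ := h.smallHub hl1
  have hDl := hG l hl1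
  have habs : |q (2 * l) - p 0| ≤ θ - 2 ∧
      |q (2 * l) - p 0| + AA q l + (q (2 * l) - (AA q ℓ - AA q l)) + (p 0 - AA p ℓ) ≤
        2 * q 0 - AA q ℓ - AA p ℓ := by
    rcases le_total (p 0) (q (2 * l)) with h3 | h3
    · rw [abs_of_nonneg (by linarith only [h3])]
      constructor
      · linarith only [hDl, h1]
      · linarith only [a1]
    · rw [abs_of_nonpos (by linarith only [h3])]
      by_cases hl0 : l = 0
      · subst hl0
        have e0 : q (2 * 0) = q 0 := rfl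
        have e1 : AA q 0 = 0 := AA_zero q
        constructor
        · linarith only [e0, hpq, hθ]
        · linarith only [e0, e1, hpq]
      · obtain ⟨m, rfl⟩ : ∃ m, l = m + 1 := ⟨l - 1, by omega⟩
        have b1 := h2 m (by omega)
        have b2 := he m (by omega)
        have b3 := h.fr.qE (i := 0) (j := m) (by omega) (by omega)
        simp only [Nat.mul_zero, AA_zero, sub_zero] at b3
        have b4 := AA_succ q m
        have b5 : q (2 * (m + 1)) = q (2 * m + 2) := by ring_nf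
        constructor
        · linarith only [b1, b2, b5]
        · linarith only [b1, b3, b4]
  have g := h.fr.sE1 hK0 l hl1 habs.1 (fun i hi => hG i (by omega))
    (fun i _ hi => he i hi) he'
  refine hnv (g.mono ?_)
  have c1 := h.MM2 (uq (2 * l)) (up 0)
  have : max (θ - 2) ((|q (2 * l) - p 0| + AA q l + (q (2 * l) - (AA q ℓ - AA q l)) +
    (p 0 - AA p ℓ)) / 2) ≤ θ - 2 := max_le le_rfl (by linarith only [habs.2, hz, hA])
  linarith only [c1, this]

/-- the range `n < 2k-1`, the case `q 0 = n - 1` and `λ < 2` -/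
lemma Ctx.smallE (hn : (Rl.card : ℤ) < 2 * k - 1) (hnv : ¬ Val B θ) (hpq : p 0 ≤ q 0)
    (hN1 : ∀ i < ℓ, q (2 * i) - q (2 * i + 1) ≤ θ) (hA : 2 * θ < AA q ℓ + AA p ℓ)
    (hz : 2 * θ < q 0 + 2) : False := by
  classical
  have hl := h.fr.l2
  obtain ⟨hout, hk1, hp0, hp1, hlam, hθ⟩ := h.smallFacts hn hnv hpq
  have hqθ := h.top hnv hpq
  have hq : 0 < q 0 := by linarith only [hqθ, hθ]
  have k3 := h.k3
  have hnr : (Rl.card : ℝ) ≤ 2 * k - 2 := by
    have : (Rl.card : ℤ) ≤ 2 * k - 2 := by omega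
    exact_mod_cast this
  have hqn := h.qle (i := 0) (by omega) hq
  have hA1 := h.fr.pA0
  obtain ⟨z, hz0, hz1⟩ := h.zeta (i := 0) (by omega) hq
  have hz2 : z = 0 := by
    have h1 : (z : ℝ) < 1 := by rw [hz1]; linarith only [hz, hlam]
    have h2 : z < 1 := by exact_mod_cast h1
    omega
  rw [hz2] at hz1
  push_cast at hz1
  have hO := h.O1 hout (i := 0) (by omega) hq
  have k3r := h.k3r
  have h3n : 3 * (Rl.card : ℝ) < 4 * k + 1 := by
    have h1 : 0 < (2 * (k : ℝ) - 1) * (Rl.card + 1 - 2 * θ) :=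
      mul_pos (by linarith only [k3r]) (by linarith only [hz, hz1])
    linarith only [h1, hO, hz1]
  have hex : ∃ i, i < ℓ ∧ q (2 * i + 1) ≤ θ ∧ p 0 + q 0 - 2 * θ ≤ AA q (i + 1) :=
    ⟨ℓ - 1, by omega, by
      have := h.fr.qend
      rw [show 2 * (ℓ - 1) + 1 = 2 * ℓ - 1 by omega, this]
      exact h.θ0, by
      rw [show ℓ - 1 + 1 = ℓ by omega]
      linarith only [hA, hA1, hp1, hqn, hlam]⟩
  obtain ⟨i, ⟨hi, hi1, hi2⟩, hmin⟩ : ∃ i, (i < ℓ ∧ q (2 * i + 1) ≤ θ ∧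
      p 0 + q 0 - 2 * θ ≤ AA q (i + 1)) ∧
      ∀ m < i, θ < q (2 * m + 1) ∨ AA q (m + 1) < p 0 + q 0 - 2 * θ := by
    refine ⟨Nat.find hex, Nat.find_spec hex, fun m hm => ?_⟩
    have h3 := Nat.find_min hex hm
    by_contra hc
    push Not at hc
    exact h3 ⟨by have := (Nat.find_spec hex).1; omega, hc.1, hc.2⟩
  obtain ⟨a1, a2, a3, a4⟩ := h.smallHub hi
  rw [AA_succ] at hi2
  -- the three cases
  have hcases : AA q i < θ - 1 ∧ 0 < q (2 * i) ∧ ((2 * i + 1 : ℕ) : ℤ) ≤ k := by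
    rcases Nat.eq_zero_or_pos i with h0 | h0
    · subst h0
      rw [AA_zero]
      refine ⟨by linarith only [hθ], by simpa using hq, ?_⟩
      push_cast
      omega
    · obtain ⟨m, rfl⟩ : ∃ m, i = m + 1 := ⟨i - 1, by omega⟩
      rcases hmin m (by omega) with h1 | h1
      · obtain ⟨b1, b2, b3, b4⟩ := h.smallHub (i := m) (by omega)
        have b5 := AA_succ q m
        have hA2 : AA q (m + 1) < θ - 1 := by linarith only [b1, b5, h1, hqn, hlam]
        have hμ : 0 < q (2 * (m + 1)) := by linarith only [a3, hA, hA1, hp1, hA2, hθ]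
        refine ⟨hA2, hμ, ?_⟩
        have hc := h.smallHubCard (j := 2 * m + 1) (by omega) (by linarith only [h1, hθ])
        have h2 : ((2 * (m + 1) + 1 : ℕ) : ℝ) < k + 1 := by
          push_cast at hc ⊢
          linarith only [hc, h1, hlam, hnr]
        have h3 : ((2 * (m + 1) + 1 : ℕ) : ℤ) < k + 1 := by exact_mod_cast h2
        exact Int.lt_add_one_iff.1 h3
      · have hA2 : AA q (m + 1) < θ - 1 := by linarith only [h1, hp1, hqn, hlam]
        have hμ : 0 < q (2 * (m + 1)) := by linarith only [a3, hA, hA1, hp1, hA2, hθ]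
        refine ⟨hA2, hμ, ?_⟩
        have hc := h.smallHubCard (j := 2 * (m + 1)) (by omega) hμ
        have h2 : ((2 * (m + 1) + 1 : ℕ) : ℝ) < k + 1 := by
          push_cast at hc ⊢
          linarith only [hc, a3, hA, hA1, h1, hz1, hlam, hp0, h3n, k3r]
        have h3 : ((2 * (m + 1) + 1 : ℕ) : ℤ) < k + 1 := by exact_mod_cast h2
        exact Int.lt_add_one_iff.1 h3
  obtain ⟨hA2, hμ, hak⟩ := hcases
  refine h.smallT1 hn hnv hpq hi hμ hak ?_ ?_ ?_ ?_ ?_ ?_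
  · intro x hx
    have hx0 : x = 0 := by
      rw [← hx]
      exact max_eq_left (by linarith only [hz1])
    rw [hx0]
    refine ⟨?_, ?_, ?_, ?_⟩
    · linarith only [hi1]
    · linarith only [hp1]
    · linarith only [a3, hA, hA1, hp1, hqn, hlam]
    · linarith only [hi2]
  · linarith only [hz1, hp1, hθ]
  · linarith only [hz1, a3, hA, hA1, hp1, hqn, hlam]
  · exact fun m hm => hN1 m (by omega)
  · linarith only [hA2, hlam, hμ]
  · linarith only [hA2, hp1, hμ]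

/-- **The range `n < 2k-1`, `p 0 ≤ q 0`.** -/
theorem Ctx.small (hn : (Rl.card : ℤ) < 2 * k - 1) (hpq : p 0 ≤ q 0) : Val B θ := by
  by_contra hnv
  by_cases hN1 : ∃ i < ℓ, θ < q (2 * i) - q (2 * i + 1)
  · obtain ⟨i, hi, hD⟩ := hN1
    exact h.smallA hn hnv hpq hi hD
  · push Not at hN1
    have hA : 2 * θ < AA q ℓ + AA p ℓ := by
      rcases h.fr.failA h.θ0 hnv with ⟨l, hl', h1⟩ | ⟨l, hl', h1⟩ | h1
      · exact absurd h1 (not_lt.2 (hN1 l hl'))
      · have h2 := h.fr.pD hl'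
        have h3 := h.fr.pA0
        have h4 := (h.smallFacts hn hnv hpq).2.2.2.1
        linarith only [h1, h2, h3, h4]
      · exact h1
    rcases le_or_gt (q 0 + 2) (2 * θ) with hz | hz
    · by_cases hG : ∃ i < ℓ, θ - 2 < q (2 * i) - q (2 * i + 1)
      · obtain ⟨i, hi, hDi⟩ := hG
        by_cases hG2 : ∃ l < ℓ, l ≠ i ∧ θ - 2 < q (2 * l) - q (2 * l + 1)
        · obtain ⟨l, hl', hli, hDl⟩ := hG2
          rcases lt_or_gt_of_ne hli with h1 | h1
          · exact h.smallB hn hnv hpq hN1 hA hz h1 hi hDl hDi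
          · exact h.smallB hn hnv hpq hN1 hA hz h1 hl' hDi hDl
        · push Not at hG2
          exact h.smallC hn hnv hpq hN1 hA hz hi hDi hG2
      · push Not at hG
        exact h.smallD hn hnv hpq hA hz hG
    · exact h.smallE hn hnv hpq hN1 hA hz

end small

end Pool.Agent.Exact
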