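import Pool.Agent.Lib_helper23.Exact.Tree2

/-!
# Counting arcs between hubs and bad components
-/

set_option autoImplicit false
set_option linter.unusedSectionVars false

namespace Pool.Agent.Exact

open Finset

section count

variable {V : Type*} [Fintype V] [DecidableEq V] {B : V → V → ℤ} {Rl : Finset V}

/-- the number of arcs leaving a vertex -/
lemma outdeg_le (h1 : ∀ u v, B u v ≤ 1) (hB : ∀ v, B v v = 0)
    (hdum : ∀ v, v ∉ Rl → ∀ u, B u v = 0 ∧ B v u = 0) {v : V} (hv : v ∈ Rl) :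
    ∑ u, B v u ≤ (Rl.card : ℤ) - 1 := by
  have e : ∑ u, B v u = ∑ u ∈ Rl.erase v, B v u := by
    refine (Finset.sum_subset (Finset.subset_univ _) ?_).symm
    intro u _ hu
    by_cases huv : u = v
    · rw [huv, hB]
    · have hur : u ∉ Rl := fun h' => hu (Finset.mem_erase.2 ⟨huv, h'⟩)
      exact (hdum u hur v).1
  rw [e]
  have h2 : ∑ u ∈ Rl.erase v, B v u ≤ ∑ _u ∈ Rl.erase v, (1 : ℤ) :=
    Finset.sum_le_sum fun u _ => h1 v u
  rw [Finset.sum_const, nsmul_eq_mul, mul_one, Finset.card_erase_of_mem hv] at h2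
  have : 1 ≤ Rl.card := Finset.card_pos.2 ⟨v, hv⟩
  rw [Nat.cast_sub this] at h2
  simpa using h2

/-- the arcs leaving a bad component -/
lemma Bad.arcs (h0 : ∀ u v, 0 ≤ B u v) (hB : ∀ v, B v v = 0)
    (hdum : ∀ v, v ∉ Rl → ∀ u, B u v = 0 ∧ B v u = 0) {k : ℤ} (hk : 1 ≤ k)
    (hdeg : ∀ v ∈ Rl, k ≤ ∑ u, B v u) {W R K : Finset V} (hU : W ∪ R = Rl)
    (hWR : Disjoint W R) (hb : Bad B R K) (hne : K.Nonempty) :
    k ≤ ∑ u ∈ K, ∑ w ∈ W, B u w ∨ 2 * k + 1 ≤ (K.card : ℤ) := by
  rcases lt_or_ge (K.card : ℤ) (2 * k + 1) with hc | hc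
  · left
    have hKR := hb.cl.1
    have e1 : ∀ u ∈ K, ∑ w, B u w = ∑ w ∈ K, B u w + ∑ w ∈ W, B u w := by
      intro u hu
      have hd : Disjoint K W := (Finset.disjoint_of_subset_right hKR hWR).symm
      rw [← Finset.sum_union hd]
      refine (Finset.sum_subset (Finset.subset_univ _) ?_).symm
      intro w _ hw
      rw [Finset.mem_union, not_or] at hw
      by_cases hwR : w ∈ R
      · have := hb.cl.2 u hu w (Finset.mem_sdiff.2 ⟨hwR, hw.1⟩)
        unfold MM at this
        have a1 := h0 u w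
        have a2 := h0 w u
        omega
      · have hwr : w ∉ Rl := by
          rw [← hU, Finset.mem_union, not_or]
          exact ⟨hw.2, hwR⟩
        exact (hdum w hwr u).1
    have e2 : k * K.card ≤ EE B K + ∑ u ∈ K, ∑ w ∈ W, B u w := by
      have h2 : ∑ _u ∈ K, k ≤ ∑ u ∈ K, ∑ w, B u w := by
        refine Finset.sum_le_sum fun u hu => hdeg u ?_
        rw [← hU]
        exact Finset.mem_union_right _ (hKR hu)
      rw [Finset.sum_const, nsmul_eq_mul, Finset.sum_congr rfl e1, Finset.sum_add_distrib] at h2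
      unfold EE
      linarith
    have e3 := EE_le_of_simple hB hb.simple
    have hc1 : (1 : ℤ) ≤ K.card := by exact_mod_cast Finset.card_pos.2 hne
    nlinarith
  · exact Or.inr hc

/-- **Counting for the bad components**, minimum outdegree at least `k` -/
theorem nc_count (h0 : ∀ u v, 0 ≤ B u v) (h1 : ∀ u v, B u v ≤ 1) (hB : ∀ v, B v v = 0)
    (hdum : ∀ v, v ∉ Rl → ∀ u, B u v = 0 ∧ B v u = 0) {k : ℤ} (hk : 1 ≤ k)
    (hdeg : ∀ v ∈ Rl, k ≤ ∑ u, B v u) {W R : Finset V} (hU : W ∪ R = Rl)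
    (hWR : Disjoint W R) {S : Finset V} {Kc : V → Finset V}
    (hb : ∀ v ∈ S, Bad B R (Kc v) ∧ v ∈ Kc v)
    (hd : ∀ u ∈ S, ∀ v ∈ S, u ≠ v → Disjoint (Kc u) (Kc v)) :
    ∃ hl : ℤ, 0 ≤ hl ∧ hl ≤ S.card ∧ 2 * k * hl + S.card ≤ R.card ∧
      ∑ w ∈ W, im B w ≤ W.card * R.card - k * (S.card - hl) := by
  classical
  set big : V → Prop := fun v => 2 * k + 1 ≤ ((Kc v).card : ℤ) with hbig
  have hpd : (S : Set V).PairwiseDisjoint Kc := fun u hu v hv huv => hd u hu v hv huv
  have hsub : S.biUnion Kc ⊆ R := by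
    intro x hx
    rw [Finset.mem_biUnion] at hx
    obtain ⟨v, hv, hx⟩ := hx
    exact (hb v hv).1.cl.1 hx
  have hf : ∀ c : ℤ, ∑ v ∈ S, (if big v then c else 0) = c * (S.filter big).card := by
    intro c
    rw [← Finset.sum_filter, Finset.sum_const, nsmul_eq_mul, mul_comm]
  refine ⟨(S.filter big).card, Nat.cast_nonneg _, ?_, ?_, ?_⟩
  · exact_mod_cast Finset.card_filter_le _ _
  · have h2 : ((S.biUnion Kc).card : ℤ) = ∑ v ∈ S, ((Kc v).card : ℤ) := by
      rw [Finset.card_biUnion hpd]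
      push_cast
      rfl
    have h3 : ((S.biUnion Kc).card : ℤ) ≤ R.card := by exact_mod_cast Finset.card_le_card hsub
    have h4 : ∑ v ∈ S, ((if big v then 2 * k else 0) + 1) ≤ ∑ v ∈ S, ((Kc v).card : ℤ) := by
      refine Finset.sum_le_sum fun v hv => ?_
      split_ifs with h5
      · exact h5
      · have : 0 < (Kc v).card := Finset.card_pos.2 ⟨v, (hb v hv).2⟩
        have : (1 : ℤ) ≤ (Kc v).card := by exact_mod_cast this
        linarith
    rw [Finset.sum_add_distrib, hf, Finset.sum_const, nsmul_eq_mul, mul_one] at h4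
    linarith
  · have e1 : ∑ w ∈ W, im B w = ∑ w ∈ W, ∑ u ∈ R, (B w u - B u w) := by
      rw [sum_im]
      refine Finset.sum_congr rfl fun w _ => ?_
      refine (Finset.sum_subset ?_ ?_).symm
      · intro u hu
        rw [Finset.mem_compl]
        exact Finset.disjoint_right.1 hWR hu
      · intro u hu hu'
        rw [Finset.mem_compl] at hu
        have hur : u ∉ Rl := by
          rw [← hU, Finset.mem_union, not_or]
          exact ⟨hu, hu'⟩
        rw [(hdum u hur w).1, (hdum u hur w).2, sub_self]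
    have e2 : ∑ w ∈ W, ∑ u ∈ R, (B w u - B u w) ≤
        W.card * R.card - ∑ w ∈ W, ∑ u ∈ R, B u w := by
      have : ∑ w ∈ W, ∑ u ∈ R, (B w u - B u w) ≤ ∑ w ∈ W, ∑ u ∈ R, ((1 : ℤ) - B u w) :=
        Finset.sum_le_sum fun w _ => Finset.sum_le_sum fun u _ => by linarith [h1 w u]
      refine this.trans (le_of_eq ?_)
      simp only [Finset.sum_sub_distrib, Finset.sum_const, nsmul_eq_mul, mul_one]
    have e3 : ∑ w ∈ W, ∑ u ∈ R, B u w = ∑ u ∈ R, ∑ w ∈ W, B u w := Finset.sum_comm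
    have e4 : ∑ v ∈ S, ∑ u ∈ Kc v, ∑ w ∈ W, B u w ≤ ∑ u ∈ R, ∑ w ∈ W, B u w := by
      rw [← Finset.sum_biUnion hpd]
      exact Finset.sum_le_sum_of_subset_of_nonneg hsub fun u _ _ =>
        Finset.sum_nonneg fun w _ => h0 u w
    have e5 : ∑ v ∈ S, (k - if big v then k else 0) ≤ ∑ v ∈ S, ∑ u ∈ Kc v, ∑ w ∈ W, B u w := by
      refine Finset.sum_le_sum fun v hv => ?_
      have hnn : 0 ≤ ∑ u ∈ Kc v, ∑ w ∈ W, B u w :=
        Finset.sum_nonneg fun u _ => Finset.sum_nonneg fun w _ => h0 u w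
      split_ifs with h5
      · linarith
      · rcases (hb v hv).1.arcs h0 hB hdum hk hdeg hU hWR ⟨v, (hb v hv).2⟩ with h6 | h6
        · linarith
        · exact absurd h6 h5
    rw [Finset.sum_sub_distrib, hf, Finset.sum_const, nsmul_eq_mul] at e5
    have e6 : k * (S.card - ((S.filter big).card : ℤ)) = S.card * k - k * (S.filter big).card := by
      ring
    rw [e1, e6]
    linarith

end count

variable {V : Type*} [Fintype V] [DecidableEq V]
variable {B : V → V → ℤ} {Rl : Finset V} {ℓ nQ nP : ℕ} {uq up : ℕ → V} {q p : ℕ → ℝ}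
variable {k : ℤ} {θ : ℝ}

lemma Frame.iqf (h : Frame B Rl ℓ nQ nP uq up q p) {a : ℕ} (ha : a ≤ nQ) :
    iq 0 a ⊆ full ℓ := by
  have := h.nQle
  (intro x hx; revert hx; rcases x with x | x <;>
    simp only [Finset.mem_union, Finset.mem_insert, Finset.mem_singleton, inl_mem_full,
      inr_mem_full, inl_mem_iq, inr_mem_iq, inl_mem_ip, inr_mem_ip, Sum.inl.injEq, Sum.inr.injEq,
      reduceCtorEq, Finset.notMem_empty, or_false, false_or, false_imp_iff, imp_false,
      implies_true, not_false_eq_true, iff_false, false_iff] <;> omega)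

/-- the sum of the imbalances of hubs -/
lemma Frame.sum_hub (h : Frame B Rl ℓ nQ nP uq up q p) {a : ℕ} (ha : a ≤ nQ) :
    (((∑ v ∈ vs uq up (iq 0 a), im B v : ℤ)) : ℝ) = ∑ j ∈ range a, q j := by
  have hQ := h.nQle
  have e1 : vs uq up (iq 0 a) = (range a).image uq := by
    unfold vs
    rw [image_iq]
    unfold sg
    rw [Nat.Ico_zero_eq_range]
  rw [e1, Finset.sum_image (fun i hi j hj e => h.sys.chQ.inj i (by
    have := Finset.mem_range.1 hi; omega) j (by have := Finset.mem_range.1 hj; omega) e)]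
  push_cast
  refine Finset.sum_congr rfl fun j hj => ?_
  have := Finset.mem_range.1 hj
  exact h.sys.wtQ j (by omega)

lemma Frame.card_hub (h : Frame B Rl ℓ nQ nP uq up q p) {a : ℕ} (ha : a ≤ nQ) :
    (vs uq up (iq 0 a)).card = a := by
  have hQ := h.nQle
  have e1 : vs uq up (iq 0 a) = (range a).image uq := by
    unfold vs
    rw [image_iq]
    unfold sg
    rw [Nat.Ico_zero_eq_range]
  rw [e1, Finset.card_image_of_injOn (fun i hi j hj e => h.sys.chQ.inj i (by
    have := Finset.mem_range.1 hi; omega) j (by have := Finset.mem_range.1 hj; omega) e),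
    Finset.card_range]

lemma Frame.hub_un (h : Frame B Rl ℓ nQ nP uq up q p) {a : ℕ} (ha : a ≤ nQ) :
    vs uq up (iq 0 a) ∪ vs uq up (rr nQ nP a 0) = Rl := by
  rw [← h.real]
  unfold vs
  rw [← Finset.image_union]
  congr 1
  unfold rr
  (ext x; rcases x with x | x <;>
    simp only [Finset.mem_union, Finset.mem_insert, Finset.mem_singleton, inl_mem_full,
      inr_mem_full, inl_mem_iq, inr_mem_iq, inl_mem_ip, inr_mem_ip, Sum.inl.injEq, Sum.inr.injEq,
      reduceCtorEq, Finset.notMem_empty, or_false, false_or, false_imp_iff, imp_false,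
      implies_true, not_false_eq_true, iff_false, false_iff] <;> omega)

lemma Frame.hub_dj (h : Frame B Rl ℓ nQ nP uq up q p) {a : ℕ} (ha : a ≤ nQ) :
    Disjoint (vs uq up (iq 0 a)) (vs uq up (rr nQ nP a 0)) := by
  have hQ := h.nQle
  have hP := h.nPle
  refine h.disj (h.iqf ha) (by unfold rr; (intro x hx; revert hx; rcases x with x | x <;>
    simp only [Finset.mem_union, Finset.mem_insert, Finset.mem_singleton, inl_mem_full,
      inr_mem_full, inl_mem_iq, inr_mem_iq, inl_mem_ip, inr_mem_ip, Sum.inl.injEq, Sum.inr.injEq,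
      reduceCtorEq, Finset.notMem_empty, or_false, false_or, false_imp_iff, imp_false,
      implies_true, not_false_eq_true, iff_false, false_iff] <;> omega)) ?_
  unfold rr
  (rw [Finset.disjoint_left]; intro x hx hx'; revert hx hx'; rcases x with x | x <;>
    simp only [Finset.mem_union, Finset.mem_insert, Finset.mem_singleton, inl_mem_full,
      inr_mem_full, inl_mem_iq, inr_mem_iq, inl_mem_ip, inr_mem_ip, Sum.inl.injEq, Sum.inr.injEq,
      reduceCtorEq, Finset.notMem_empty, or_false, false_or, false_imp_iff, imp_false,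
      implies_true, not_false_eq_true, iff_false, false_iff] <;> omega)

/-- the counting facts for the hubs `uq 0, …, uq (a-1)` -/
theorem Ctx.cnt (h : Ctx B Rl ℓ nQ nP uq up q p k θ) (hout : ∀ v ∈ Rl, k ≤ ∑ u, B v u) {a : ℕ}
    (ha : a ≤ nQ) {pick : Finset V → V} {Rs S : Finset V} {g : ℤ} {Kc : V → Finset V}
    (hdec : Dec B pick (vs uq up (rr nQ nP a 0)) Rs S g Kc) :
    ∃ hl : ℤ, 0 ≤ hl ∧ hl ≤ S.card ∧ 2 * k * hl + S.card ≤ (Rl.card : ℤ) - a ∧
      (Rs.card : ℤ) + S.card = Rl.card - a ∧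
      ∑ j ∈ range a, q j ≤ a * ((Rl.card : ℝ) - a) - k * (S.card - hl) ∧
      (k : ℝ) * (Rl.card - a) + ∑ j ∈ range a, q j ≤ (2 * k - 1) * θ := by
  have k3 := h.k3
  have hcW := h.fr.card_hub ha
  have hU := h.fr.hub_un ha
  have hdj := h.fr.hub_dj ha
  have hcR : ((vs uq up (rr nQ nP a 0)).card : ℤ) = Rl.card - a := by
    rw [← hU, Finset.card_union_of_disjoint hdj, hcW]
    push_cast
    ring
  obtain ⟨hl, c1, c2, c3, c4⟩ := nc_count h.fr.sys.B0 h.fr.sys.B1 h.fr.sys.Bd h.fr.sys.dummy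
    (k := k) (by omega) hout hU hdj (S := S) (Kc := Kc)
    (fun v hv => ⟨(hdec.bad v hv).1, (hdec.bad v hv).2.1⟩) hdec.kd
  refine ⟨hl, c1, c2, by rw [← hcR]; exact c3, ?_, ?_, ?_⟩
  · rw [← hcR, ← hdec.un, Finset.card_union_of_disjoint hdec.dj]
    push_cast
    ring
  · rw [← h.fr.sum_hub ha]
    rw [hcW, hcR] at c4
    exact_mod_cast c4
  · rw [← h.fr.sum_hub ha, h.hm]
    have h1 := mm_ge_out h.fr.sys.B0 h.fr.sys.dummy hout (S := vs uq up (iq 0 a))
      (by rw [← hU]; exact Finset.subset_union_left)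
    rw [hcW] at h1
    exact_mod_cast h1

end Pool.Agent.Exact
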