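import Pool.Agent.Lib_helper23.Exact.NCount
import Pool.Agent.Lib_helper68.Exact.Arr

/-!
# No crossing, all hubs of the first type (minimum outdegree at least `k`)
-/

set_option autoImplicit false
set_option linter.unusedSectionVars false

namespace Pool.Agent.Exact

open Finset

variable {V : Type*} [Fintype V] [DecidableEq V]
variable {B : V → V → ℤ} {Rl : Finset V} {ℓ nQ nP : ℕ} {uq up : ℕ → V} {q p : ℕ → ℝ}
variable {k : ℤ} {θ : ℝ}

/-- closing the end of the path -/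
lemma EnI.close {a b : ℕ} {Db β K t : ℝ} (hE : EnI B uq up a b Db β)
    (hst : StI B uq up (hb1 a b) 0 K t) (hK : 0 ≤ K) (h1 : Db + K ≤ θ) (h2 : Db + t ≤ θ)
    (h3 : β ≤ θ) : Val B θ := by
  obtain ⟨D, L, hL, hD, hDL, hv⟩ := hE
  refine (hv 0 K t hK hst).mono ?_
  rw [add_zero, ← max_add_add_left, ← max_add_add_left]
  refine max_le (max_le ?_ ?_) ?_ <;> linarith

/-- closing the end of the path, with a last vertex -/
lemma Frame.closeOut (h : Frame B Rl ℓ nQ nP uq up q p) {a b : ℕ} {S : Finset V} {D1 β K t : ℝ}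
    (hbP : b ≤ nP) (haQ : a ≤ nQ) (hS : S ⊆ vs uq up (rr nQ nP a b))
    (hO : OutI B uq up a b S D1 β) (hCrS : CrSI B uq up p a b (D1 + 1) → Val B θ)
    (hst : StI B uq up (hb1 a b) 0 K t) (hK : 0 ≤ K) (h1 : D1 + 1 + K ≤ θ)
    (h2 : D1 + 1 + t ≤ θ) (h3 : β ≤ θ) : Val B θ := by
  rcases h.outI hbP haQ hS hO with h4 | h4
  · exact hCrS h4.toS
  · exact h4.close hst hK h1 h2 h3

/-- vertices with negative imbalance -/
lemma Frame.im_neg (h : Frame B Rl ℓ nQ nP uq up q p) {v : V} (hv : im B v < 0) :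
    |((im B v : ℤ) : ℝ)| ≤ p 0 := by
  have hv' : ((im B v : ℤ) : ℝ) < 0 := by exact_mod_cast hv
  rcases h.sys.cover v with ⟨i, hi, rfl⟩ | ⟨i, hi, rfl⟩
  · exfalso
    rw [h.sys.wtQ i hi] at hv'
    have := h.sys.chQ.nn i hi
    linarith
  · rw [abs_of_neg hv', h.sys.wtP i hi, neg_neg]
    exact h.sys.chP.anti 0 i (Nat.zero_le _) hi

/-- the charge of the rest -/
lemma Ctx.chle (h : Ctx B Rl ℓ nQ nP uq up q p k θ) {a b : ℕ} (ha : 1 ≤ a) (hq : 0 < q 0) :
    ch (MM B (uq 0)) (vs uq up (rr nQ nP a b)) ≤ (Rl.card : ℤ) - 1 - im B (uq 0) := by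
  have hl := h.fr.l2
  have hQ := h.fr.nQle
  have hP := h.fr.nPle
  have hr := h.realQ0 (i := 0) (by omega) hq
  have h1 := charge_sum h.fr.sys.B0 h.fr.sys.B1 h.fr.sys.Bd h.fr.sys.dummy hr 1 (Or.inl rfl)
    (T := vs uq up (rr nQ nP a b)) (by
      rw [← h.fr.real]
      refine vs_mono ?_
      unfold rr
      (intro x hx; revert hx; rcases x with x | x <;>
    simp only [Finset.mem_union, Finset.mem_insert, Finset.mem_singleton, inl_mem_full,
      inr_mem_full, inl_mem_iq, inr_mem_iq, inl_mem_ip, inr_mem_ip, Sum.inl.injEq, Sum.inr.injEq,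
      reduceCtorEq, Finset.notMem_empty, or_false, false_or, false_imp_iff, imp_false,
      implies_true, not_false_eq_true, iff_false, false_iff] <;> omega)) (by
      intro hmem
      unfold vs at hmem
      rw [Finset.mem_image] at hmem
      obtain ⟨x, hx, hx'⟩ := hmem
      have h2 : x ∈ full ℓ := by
        have : rr nQ nP a b ⊆ full ℓ := by unfold rr; (intro x hx; revert hx; rcases x with x | x <;>
    simp only [Finset.mem_union, Finset.mem_insert, Finset.mem_singleton, inl_mem_full,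
      inr_mem_full, inl_mem_iq, inr_mem_iq, inl_mem_ip, inr_mem_ip, Sum.inl.injEq, Sum.inr.injEq,
      reduceCtorEq, Finset.notMem_empty, or_false, false_or, false_imp_iff, imp_false,
      implies_true, not_false_eq_true, iff_false, false_iff] <;> omega)
        exact this hx
      have h3 : x = Sum.inl 0 := h.fr.inj h2 (by simp; omega) hx'
      rw [h3] at hx
      unfold rr at hx
      simp only [Finset.mem_union, inl_mem_iq, inl_mem_ip, or_false] at hx
      omega)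
  rw [one_mul] at h1
  refine le_trans ?_ h1
  unfold ch
  refine Finset.sum_le_sum fun v _ => ?_
  have h2 := mult_le h.fr.sys.B0 h.fr.sys.B1 (uq 0) v 1 (Or.inl rfl)
  split_ifs with h3
  · exact (abs_nonneg _).trans h2
  · have h4 : MM B (uq 0) v - 1 ≠ 0 := fun e => h3 (by linarith)
    have h5 := Int.one_le_abs h4
    exact h5.trans h2

/-- **No crossing for hubs `uq 0, …, uq (2i)`.** -/
theorem Ctx.nc0 (h : Ctx B Rl ℓ nQ nP uq up q p k θ) (hnv : ¬ Val B θ)
    (hout : ∀ v ∈ Rl, k ≤ ∑ u, B v u) {i : ℕ} (hi : i < ℓ) (hqi : 0 < q (2 * i))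
    (hlam : 0 ≤ 2 * θ - Rl.card + 1)
    (hCr : CrI B uq up q p (2 * i + 1) 0 (max 0 ((Rl.card : ℝ) - 1 - q 0 - 1)) → Val B θ)
    (hCrS : ∀ D : ℝ, D ≤ (Rl.card : ℝ) - 1 - q 0 → CrSI B uq up p (2 * i + 1) 0 D → Val B θ)
    (ht : (Rl.card : ℝ) - 1 - q 0 + (q 0 - q (2 * i) - AA q i) ≤ θ)
    (hD : ∀ l < i, q (2 * l) - q (2 * l + 1) ≤ θ) (hp : p 0 ≤ θ) :
    ∃ ρ σ hl g nb : ℤ, 0 ≤ ρ ∧ 0 ≤ hl ∧ hl ≤ σ ∧
      2 * k * hl + σ ≤ (Rl.card : ℤ) - (2 * i + 1 : ℕ) ∧
      ρ + σ = (Rl.card : ℤ) - (2 * i + 1 : ℕ) ∧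
      ∑ j ∈ range (2 * i + 1), q j ≤
        (2 * i + 1 : ℕ) * ((Rl.card : ℝ) - (2 * i + 1 : ℕ)) - k * (σ - hl) ∧
      (k : ℝ) * (Rl.card - (2 * i + 1 : ℕ)) + ∑ j ∈ range (2 * i + 1), q j ≤ (2 * k - 1) * θ ∧
      ρ ≤ 2 * g ∧ (0 < ρ → 1 ≤ nb ∧ ρ ≤ g + nb ∧
        (θ + g < q (2 * i) ∨ 3 * θ - Rl.card + nb + 2 * g < AA q i + q (2 * i) ∨
          (nb = 1 ∧ 2 * θ + 2 * g < AA q i + q (2 * i) + p 0))) := by
  classical
  have hl2 := h.fr.l2
  have hQle := h.fr.nQle
  have hθ0 := h.θ0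
  have hq0 : 0 < q 0 := lt_of_lt_of_le hqi (h.fr.sys.chQ.anti 0 (2 * i) (by omega) (by omega))
  have haQ : 2 * i + 1 ≤ nQ := by
    have h1 := h.realQ0 (i := 2 * i) (by omega) hqi
    rw [h.fr.sys.realQ (2 * i) (by omega)] at h1
    omega
  obtain ⟨pick, hpick⟩ : ∃ pick : Finset V → V, ∀ K : Finset V, K.Nonempty → pick K ∈ K := by
    refine ⟨fun K => if hK : K.Nonempty then hK.choose else uq 0, fun K hK => ?_⟩
    simp only [hK, dif_pos]
    exact hK.choose_spec
  obtain ⟨Rs, S, g, Kc, hdec, hcut⟩ := h.fr.cut (a := 2 * i + 1) (b := 0) (by omega) haQ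
    (by omega) hq0 pick hpick
  obtain ⟨hl, c1, c2, c3, c4, c5, c6⟩ := h.cnt hout haQ hdec
  -- reduce to the case of a nonempty set
  rcases Rs.eq_empty_or_nonempty with hRs | hRs
  · refine ⟨Rs.card, S.card, hl, g, 0, Nat.cast_nonneg _, c1, c2, c3, c4, c5, c6, hdec.cg, ?_⟩
    intro h0
    rw [hRs] at h0
    simp at h0
  set R := vs uq up (rr nQ nP (2 * i + 1) 0) with hR
  obtain ⟨Y, nb, hY, hnb0, hnbe, hnb1, hcard, hT2, hT2A, hT1⟩ := hcut (ch (MM B (uq 0)) R) 1
    le_rfl le_rfl (fun e => absurd e hRs.ne_empty)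
  have hch := h.chle (a := 2 * i + 1) (b := 0) (by omega) hq0
  have himq : ((im B (uq 0) : ℤ) : ℝ) = q 0 := h.fr.sys.wtQ 0 (by omega)
  have hcR : ((ch (MM B (uq 0)) R : ℤ) : ℝ) ≤ (Rl.card : ℝ) - 1 - q 0 := by
    rw [← himq]
    exact_mod_cast hch
  set cR := ch (MM B (uq 0)) R with hcRdef
  have hnb1' : 1 ≤ nb := hnb1 hRs
  have hnb1r : (1 : ℝ) ≤ nb := by exact_mod_cast hnb1'
  have hYr : (0 : ℝ) ≤ Y := by exact_mod_cast hY.1
  refine ⟨Rs.card, S.card, hl, g, nb, Nat.cast_nonneg _, c1, c2, c3, c4, c5, c6, hdec.cg,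
    fun _ => ⟨hnb1', hcard, ?_⟩⟩
  have hgr : (0 : ℝ) ≤ g := by exact_mod_cast hdec.g0
  -- the arrangement of the other hubs
  set t : ℝ := q 0 - q (2 * i) - AA q i with htdef
  have htE : ∀ l < i, q (2 * l + 1) - q (2 * l + 2) ≤ t := by
    intro l hl'
    have := h.fr.qgE (Nat.zero_le l) hl' hi
    rw [AA_zero] at this
    simp only [Nat.mul_zero] at this
    linarith
  have ht0 : 0 ≤ t := by
    have := h.fr.qE (Nat.zero_le i) hi
    rw [AA_zero] at this
    simp only [Nat.mul_zero] at this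
    linarith
  have harr : StI B uq up (hb1 (2 * i + 1) 0) 0 t t := by
    have := h.fr.aPure (K := t) i 0 hi (Nat.zero_le _) htE (by simp)
    rw [AA_zero, add_zero] at this
    exact this
  have hζ : (0 : ℝ) ≤ Rl.card - 1 - q 0 := by
    have := h.qle (i := 0) (by omega) hq0
    linarith
  have hSR : S ⊆ R := by
    rw [← hdec.un]
    exact Finset.subset_union_right
  rcases hT1 with hT1 | hT1
  · exfalso
    refine hnv (hCr ?_)
    intro M K t' hK h1 h2 h3
    refine (hT1 M K t' hK h1 h2 h3).mono ?_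
    have h4 : ((max 0 (cR - 1) : ℤ) : ℝ) ≤ max 0 ((Rl.card : ℝ) - 1 - q 0 - 1) := by
      push_cast
      exact max_le_max le_rfl (by linarith)
    linarith
  · -- the end of the path
    have hY1 : (Y : ℝ) < cR - nb + q 0 - θ := by
      by_contra hc
      push Not at hc
      exact hnv (h.fr.closeOut (Nat.zero_le _) haQ hSR hT1.t (hCrS _ (by linarith)) harr ht0
        (by linarith) (by linarith) (by linarith))
    have hv1 : ∀ v ∈ S, 0 ≤ im B v → |((im B v : ℤ) : ℝ)| < cR - nb + q 0 - θ := by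
      intro v hv hv0
      by_contra hc
      push Not at hc
      exact hnv (h.fr.closeOut (Nat.zero_le _) haQ hSR (hT1.v v hv hv0) (hCrS _ (by linarith))
        harr ht0 (by linarith) (by linarith) (by linarith))
    have hv2 : 2 ≤ nb → ∀ v ∈ S, |((im B v : ℤ) : ℝ)| < cR - nb + q 0 - θ + 1 := by
      intro hnb v hv
      by_contra hc
      push Not at hc
      have hnbr : (2 : ℝ) ≤ nb := by exact_mod_cast hnb
      exact hnv (h.fr.closeOut (Nat.zero_le _) haQ hSR (hT1.v' (by linarith) v hv)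
        (hCrS _ (by linarith)) harr ht0 (by linarith) (by linarith) (by linarith))
    -- all neutral vertices signed greedily
    have harr2 : ∀ K : ℝ, θ ≤ K → q (2 * i) ≤ K →
        StI B uq up (hb (2 * i + 1) 0) 0 K (AA q i + q (2 * i)) := by
      intro K hK1 hK2
      have := h.fr.tA (K := K) i 0 hi (Nat.zero_le _) hK2 (fun l hl' => (hD l hl').trans hK1)
        (by simp)
      rw [AA_zero, add_zero] at this
      exact this
    by_contra hcon
    push Not at hcon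
    obtain ⟨hc1, hc2, hc3⟩ := hcon
    have key : ∀ y0 : ℝ, (Y : ℝ) ≤ y0 → (∀ v ∈ S, |((im B v : ℤ) : ℝ)| ≤ y0) → y0 ≤ θ →
        y0 + (AA q i + q (2 * i)) ≤ 2 * θ + 2 * g → False := by
      intro y0 h1 h2 h3 h4
      refine hnv ((hT2 y0 0 (θ + g) _ (by linarith) (by linarith) h2
        (harr2 (θ + g) (by linarith) hc1)).mono ?_)
      have h5 : (0 : ℝ) ≤ ∑ v ∈ S, |((im B v : ℤ) : ℝ)| :=
        Finset.sum_nonneg fun v _ => abs_nonneg _
      have h6 : max ((Y : ℝ) - ∑ v ∈ S, |((im B v : ℤ) : ℝ)|) y0 = y0 :=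
        max_eq_right (by linarith)
      rw [h6, add_zero, ← max_add_add_left, ← max_add_add_left]
      refine max_le (max_le ?_ ?_) ?_ <;> linarith
    rcases lt_or_ge 1 nb with hnb2 | hnb2
    · have hnb2' : 2 ≤ nb := by omega
      have hnb2r : (2 : ℝ) ≤ nb := by exact_mod_cast hnb2'
      refine key ((Rl.card : ℝ) - θ - nb) ?_ (fun v hv => ?_) ?_ ?_
      · linarith
      · have := hv2 hnb2' v hv
        linarith
      · linarith
      · linarith
    · have hnb3 : nb = 1 := le_antisymm hnb2 hnb1'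
      have hnb3r : (nb : ℝ) = 1 := by rw [hnb3]; norm_num
      have hc3' := hc3 hnb3
      refine key (max ((Rl.card : ℝ) - θ - nb) (p 0)) ?_ (fun v hv => ?_) ?_ ?_
      · exact le_max_of_le_left (by linarith)
      · rcases lt_or_ge (im B v) 0 with h1 | h1
        · exact le_max_of_le_right (h.fr.im_neg h1)
        · have := hv1 v hv h1
          exact le_max_of_le_left (by linarith)
      · exact max_le (by linarith) hp
      · rcases max_choice ((Rl.card : ℝ) - θ - nb) (p 0) with h1 | h1 <;> rw [h1] <;> linarith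

end Pool.Agent.Exact
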