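import Pool.Agent.Lib_helper23.Exact.PiC
import Pool.Agent.Lib_helper68.Exact.PoAll

/-!
# Hubs of both types, an odd number of the first, minimum indegree at least `k`:
the leaves 1a, 1c, 3b
-/

set_option autoImplicit false
set_option linter.unusedSectionVars false

namespace Pool.Agent.Exact

open Finset

variable {V : Type*} [Fintype V] [DecidableEq V]
variable {B : V → V → ℤ} {Rl : Finset V} {ℓ nQ nP : ℕ} {uq up : ℕ → V} {q p : ℕ → ℝ}
variable {k : ℤ} {θ : ℝ}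

section
variable (h : Ctx B Rl ℓ nQ nP uq up q p k θ)
include h

/-- all leaves with an odd number of hubs of the first type, minimum indegree at least `k` -/
theorem Ctx.piMain (hn : 2 * k - 1 ≤ (Rl.card : ℤ)) (hnv : ¬ Val B θ) (hpq : p 0 ≤ q 0)
    (hin : ∀ v ∈ Rl, k ≤ ∑ u, B u v) {i j : ℕ} (hi : i < ℓ) (hj : j + 1 < ℓ)
    (hC : Closed B nQ nP uq up q p θ (2 * i + 1) (2 * (j + 1))) {m : ℝ} (hm : 2 ≤ m)
    (hm4 : m ≤ 4) (m1 : θ - m ≤ q (2 * i)) (m2 : θ - 2 ≤ p (2 * j + 1))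
    (hR : cRr B nQ nP uq up (2 * i + 1) (2 * (j + 1)) + (q 0 - θ + m) ≤ θ)
    (hp : p (2 * (j + 1)) < q 0 - θ + 2) (hq : q (2 * i + 1) ≤ q 0 - θ + 4) : False := by
  have hl := h.fr.l2
  have hθ3 := h.θ3 hn
  have hqθ := h.top hnv hpq
  have haQ := hC.aQ
  have hbP := hC.bP
  have hq0 : 0 < q 0 := by linarith
  have hlam := h.lam2 hn
  have k3r := h.k3r
  have hqK := h.qleK hin (i := 0) (by omega) hq0
  have hqa := h.fr.qa (i := 0) (j := 2 * i) (by omega) (by omega)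
  have hpa := h.fr.pa (i := 0) (j := 2 * j + 1) (by omega) (by omega)
  have hcR' := h.cR hC.a1 haQ hbP
  have : Nonempty V := ⟨uq 0⟩
  obtain ⟨pick, hpick⟩ := exists_pickI B
  obtain ⟨Rs, S, g, Kc, hd, hcut⟩ := h.fr.cut hC.a1 haQ hbP hq0 pick
    (fun K hK => (hpick K hK).1)
  obtain ⟨n1, n2, n3⟩ := h.piNum hn hin hi (by omega) haQ hbP hq0 hd hpick m2 hqθ.le
  have hy8 : q 0 - θ + 8 ≤ θ := by linarith
  have hSR : S ⊆ vs uq up (rr nQ nP (2 * i + 1) (2 * (j + 1))) := by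
    rw [← hd.un]
    exact Finset.subset_union_right
  have hneg : ∀ v ∈ S, im B v < 0 → |((im B v : ℤ) : ℝ)| < q 0 - θ + 2 := by
    intro v hv hv0
    exact lt_of_le_of_lt (h.fr.negR (hSR hv) hv0) hp
  obtain ⟨i1, i2, i3, i4⟩ := h.fr.qgap hi
  have g0 : (0 : ℝ) ≤ g := by exact_mod_cast hd.g0
  rcases Rs.eq_empty_or_nonempty with hRs | hRs
  · obtain ⟨Y, nb, hY, -, -, -, -, hT2, -, -⟩ := hcut _ 0 le_rfl (by norm_num) (fun _ => le_rfl)
    have hY0 : Y = 0 := hY.2 hRs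
    have hY0r : (Y : ℝ) = 0 := by rw [hY0]; simp
    have hS : ∀ v ∈ S, |((im B v : ℤ) : ℝ)| ≤ q 0 - θ + 4 := by
      intro v hv
      rcases lt_or_ge (im B v) 0 with hv0 | hv0
      · linarith [hneg v hv hv0]
      · exact (h.fr.posR (hSR hv) hv0 (by omega)).trans hq
    rcases lt_or_ge θ (q (2 * i)) with h1 | h1
    · exact h.piEm hn hnv hin hi hj hC hq0 hd hpick hRs hY0 hT2 (z := q 0 - θ + 4)
        (by linarith) hS (by linarith) (by linarith) (by linarith) (by linarith) hneg m2 h1.le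
        (by linarith)
    · exact hnv (h.poA hi (by omega) hT2 (z := q 0 - θ + 4) (by linarith) hS (by linarith)
        (by linarith) (by linarith) (by linarith) (by linarith) (by linarith) (by linarith))
  · obtain ⟨cR, hcRd⟩ : ∃ cR : ℤ, cR = ch (MM B (uq 0))
        (vs uq up (rr nQ nP (2 * i + 1) (2 * (j + 1)))) := ⟨_, rfl⟩
    have hcRr : (cR : ℝ) = cRr B nQ nP uq up (2 * i + 1) (2 * (j + 1)) := by
      unfold cRr
      rw [hcRd]
    obtain ⟨Y, nb, hY, -, -, hnb, hcard, hT2, -, hT1⟩ := hcut cR 1 hcRd.ge le_rfl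
      (fun h1 => absurd h1 (Finset.nonempty_iff_ne_empty.1 hRs))
    have hnb1 := hnb hRs
    have hnbr : (1 : ℝ) ≤ nb := by exact_mod_cast hnb1
    have c1 : 1 ≤ (Rs.card : ℤ) := by
      have := Finset.card_pos.2 hRs
      exact_mod_cast this
    have g1 : 1 ≤ g := by
      have := hd.cg
      omega
    have g1r : (1 : ℝ) ≤ g := by exact_mod_cast g1
    rcases hT1 with hT1 | hT1
    · refine hnv (hC.cr _ ?_ hT1)
      rw [← hcRr]
      push_cast
      exact le_rfl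
    rw [← hcRr] at hR hcR'
    obtain ⟨z0, hSz, hYz, hΓ⟩ := h.poT1 hnv hi (by omega) haQ hbP hpq hSR (m := m)
      (z := (Rl.card : ℝ) - 2 - θ) hT2 hT1
      (fun D hD' hC' => hC.crs D (by rw [← hcRr]; exact hD') hC') hY.1 hnb1
      g1 (by linarith) (by linarith) m1 (by linarith) hR (by linarith)
      (by linarith) (by linarith) (Or.inl (by linarith)) (by linarith) (by
        intro v hv hv0
        left
        have := hneg v hv hv0
        linarith) (by linarith) (by linarith)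
    rcases lt_or_ge (θ + g) (q (2 * i)) with h1 | h1
    · exact h.piNe hn hnv hin hi hj hC hq0 hd hpick hRs hT2 z0 hSz hYz (by linarith)
        (by linarith) (by linarith) (by linarith) hneg m2 h1.le hΓ
    · exact hnv (h.poA hi (by omega) hT2 z0 hSz hYz h1 (by linarith) (by linarith) (by linarith)
        (by linarith) (by linarith))

/-- **Leaf 1a**, minimum indegree at least `k`. -/
theorem Ctx.pi1a (hn : 2 * k - 1 ≤ (Rl.card : ℤ)) (hnv : ¬ Val B θ) (hpq : p 0 ≤ q 0)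
    (hin : ∀ v ∈ Rl, k ≤ ∑ u, B u v) {i j : ℕ} (hi : i < ℓ) (hj : j + 1 < ℓ)
    (hD : θ < q (2 * i) - q (2 * i + 1)) (hE : θ - 2 < p (2 * j + 1) - p (2 * j + 2))
    (hC : Closed B nQ nP uq up q p θ (2 * i + 1) (2 * (j + 1))) : False := by
  have hl := h.fr.l2
  have hlam := h.lam2 hn
  have f1 := h.fr.qn (i := 2 * i + 1) (by omega)
  have f2 := h.fr.pn (i := 2 * j + 2) (by omega)
  have f4 := h.fr.qa (i := 0) (j := 2 * i) (by omega) (by omega)
  have e3 := h.fr.pa (i := 0) (j := 2 * j + 1) (by omega) (by omega)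
  have hcR' := h.cR hC.a1 hC.aQ hC.bP
  have h2 : p (2 * (j + 1)) = p (2 * j + 2) := by ring_nf
  exact h.piMain hn hnv hpq hin hi hj hC (m := 2) le_rfl (by norm_num) (by linarith)
    (by linarith) (by linarith) (by linarith) (by linarith)

/-- **Leaf 1c**, minimum indegree at least `k`. -/
theorem Ctx.pi1c (hn : 2 * k - 1 ≤ (Rl.card : ℤ)) (hnv : ¬ Val B θ) (hpq : p 0 ≤ q 0)
    (hin : ∀ v ∈ Rl, k ≤ ∑ u, B u v) {i r : ℕ} (hi : i < ℓ) (hr : r < ℓ)
    (hp : q 0 - θ + 2 ≤ p 0)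
    (hD : θ < q (2 * i) - q (2 * i + 1))
    (hh : ∀ l < r, θ < p (2 * l + 1))
    (hp2 : p (2 * r) < q (2 * i) - q (2 * i + 1) - θ + 2)
    (hC : Closed B nQ nP uq up q p θ (2 * i + 1) (2 * r)) : False := by
  have hl := h.fr.l2
  have hlam := h.lam2 hn
  have f1 := h.fr.qn (i := 2 * i + 1) (by omega)
  have f4 := h.fr.qa (i := 0) (j := 2 * i) (by omega) (by omega)
  rcases Nat.eq_zero_or_pos r with hr0 | hr0
  · subst hr0
    rw [Nat.mul_zero] at hp2
    linarith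
  obtain ⟨j, rfl⟩ : ∃ j, r = j + 1 := ⟨r - 1, by omega⟩
  have hE : θ < p (2 * j + 1) := hh j (by omega)
  have hcR' := h.cR hC.a1 hC.aQ hC.bP
  exact h.piMain hn hnv hpq hin hi hr hC (m := 2) le_rfl (by norm_num) (by linarith)
    (by linarith) (by linarith) (by linarith) (by linarith)

/-- **Leaf 3b**, minimum indegree at least `k`. -/
theorem Ctx.pi3b (hn : 2 * k - 1 ≤ (Rl.card : ℤ)) (hnv : ¬ Val B θ) (hpq : p 0 ≤ q 0)
    (hin : ∀ v ∈ Rl, k ≤ ∑ u, B u v) {j i : ℕ} (hj : j + 1 < ℓ) (hi : i < ℓ)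
    (hlam : 3 < 2 * θ - (Rl.card : ℝ) + 1)
    (hE : θ - MM B (uq 0) (up 0) < p (2 * j + 1) - p (2 * j + 2))
    (h1 : θ - (MM B (uq 0) (up 0) + 2) < q (2 * i))
    (h3 : q (2 * i + 1) < p (2 * j + 1) - p (2 * j + 2) - θ + (MM B (uq 0) (up 0) + 2))
    (hC : Closed B nQ nP uq up q p θ (2 * i + 1) (2 * (j + 1))) : False := by
  have hl := h.fr.l2
  have hM0 := h.MM0 (uq 0) (up 0)
  have hM2 := h.MM2 (uq 0) (up 0)
  have f2 := h.fr.pn (i := 2 * j + 2) (by omega)
  have e3 := h.fr.pa (i := 0) (j := 2 * j + 1) (by omega) (by omega)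
  have hcRB := h.cRB hC.a1 hC.aQ hC.bP (by omega)
  have hcR' := h.cR hC.a1 hC.aQ hC.bP
  have h2 : p (2 * (j + 1)) = p (2 * j + 2) := by ring_nf
  refine h.piMain hn hnv hpq hin hi hj hC (m := MM B (uq 0) (up 0) + 2) (by linarith)
    (by linarith) (by linarith) (by linarith) ?_ (by linarith) (by linarith)
  rcases le_or_gt ((MM B (uq 0) (up 0) : ℤ) : ℝ) 1 with h4 | h4
  · linarith
  · linarith

end

end Pool.Agent.Exact
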