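import Pool.Agent.Lib_helper23.Exact.BudC
import Pool.Agent.Lib_helper23.Exact.ArithPi
import Pool.Agent.Lib_helper68.Exact.PoT1
import Pool.Agent.Lib_helper68.Exact.PoEm
import Pool.Agent.Lib_helper68.Exact.PoNC2

/-!
# Hubs of both types, an odd number of the first, minimum indegree at least `k`: closing
-/

set_option autoImplicit false
set_option linter.unusedSectionVars false

namespace Pool.Agent.Exact

open Finset

variable {V : Type*} [Fintype V] [DecidableEq V]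
variable {B : V → V → ℤ} {Rl : Finset V} {ℓ nQ nP : ℕ} {uq up : ℕ → V} {q p : ℕ → ℝ}
variable {k : ℤ} {θ : ℝ}

/-- consequences of the failure of the path with a budget, independent rest -/
theorem t1c_ineq {a b : ℕ} {R : Finset V} {θ y t : ℝ}
    (hB0 : ∀ u v, 0 ≤ B u v) (hB1 : ∀ u v, B u v ≤ 1)
    (hall : ∀ (l : List V) (M K t θ : ℝ), StI B uq up (hb1 a b) M K t → 0 ≤ K →
      BCon B (uq 0) (Hmf B (uq 0) R) (q 0) (Gam B (uq 0) R) l M K t θ → Val B θ)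
    (hst : StI B uq up (hb1 a b) 0 t t) (ht : 0 ≤ t) (hnv : ¬ Val B θ)
    (hβ : ∀ w ∈ Hmf B (uq 0) R, |((im B w : ℤ) : ℝ)| < y + 2)
    (hq : q 0 = θ + y) (hty : t ≤ y + 2) (hy : y + 4 ≤ θ) (hy0 : 0 ≤ y) :
    ((G0 B (uq 0) R : ℤ) : ℝ) < y ∨
      (θ - y - 6) * ((G0 B (uq 0) R : ℤ) : ℝ) ≤ y * ((∑ v ∈ R, MM B (uq 0) v : ℤ) : ℝ) := by
  classical
  set Hm := Hmf B (uq 0) R with hHm
  set Γ := Gam B (uq 0) R with hΓ
  have hGam0 : (0 : ℤ) ≤ Γ := Gam_nn _ _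
  have hGam0r : (0 : ℝ) ≤ Γ := by exact_mod_cast hGam0
  have hm0 : ∀ v, 0 ≤ MM B (uq 0) v := fun v => (MM_range hB0 hB1 (uq 0) v).1
  have hm2 : ∀ v, MM B (uq 0) v ≤ 2 := fun v => (MM_range hB0 hB1 (uq 0) v).2
  have hno : ∀ F ⊆ Hm, ((∑ v ∈ F, MM B (uq 0) v : ℤ) : ℝ) ≤ θ - y - 4 →
      ((∑ v ∈ F, exc B (uq 0) v + Γ : ℤ) : ℝ) < y := by
    intro F hF hc
    by_contra hcon
    push Not at hcon
    have hsum : ∑ v ∈ F, (im B v + MM B (uq 0) v) = - ∑ v ∈ F, exc B (uq 0) v := by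
      rw [← Finset.sum_neg_distrib]
      refine Finset.sum_congr rfl fun v _ => ?_
      unfold exc
      ring
    refine hnv (hall F.toList 0 t t θ hst ht ⟨F.nodup_toList, ?_, ?_, ?_, ?_, ?_, ?_⟩)
    · intro v hv
      exact hF (Finset.mem_toList.1 hv)
    · intro l1 v l2 he w hw _
      have hnd : (l1 ++ v :: l2).Nodup := by rw [← he]; exact F.nodup_toList
      have hvl1 : v ∉ l1 := by
        intro h'
        exact (List.nodup_append.1 hnd).2.2 v h' v (by simp) rfl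
      have h1 : ∑ u ∈ l1.toFinset, MM B (uq 0) u + MM B (uq 0) v ≤ ∑ u ∈ F, MM B (uq 0) u := by
        have h2 : insert v l1.toFinset ⊆ F := by
          intro u hu
          rw [← Finset.mem_toList, he]
          rw [Finset.mem_insert, List.mem_toFinset] at hu
          rcases hu with rfl | hu
          · simp
          · simp [hu]
        have h3 := Finset.sum_le_sum_of_subset_of_nonneg (f := fun u => MM B (uq 0) u) h2
          fun u _ _ => hm0 u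
        rw [Finset.sum_insert (by rwa [List.mem_toFinset])] at h3
        linarith
      have h1r : ((∑ u ∈ l1.toFinset, MM B (uq 0) u + MM B (uq 0) v : ℤ) : ℝ) ≤
          ((∑ u ∈ F, MM B (uq 0) u : ℤ) : ℝ) := by exact_mod_cast h1
      have h4 := hβ w hw
      constructor <;> linarith
    · rw [Finset.toList_toFinset]
      push_cast at hc ⊢
      linarith
    · intro w hw _
      rw [Finset.toList_toFinset]
      have h4 := hβ w hw
      push_cast at hc h4 ⊢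
      constructor <;> linarith
    · rw [Finset.toList_toFinset, hsum, hq]
      push_cast at hcon ⊢
      linarith
    · rw [Finset.toList_toFinset, hsum, hq]
      push_cast at hcon hc ⊢
      linarith
  have h0 := hno ∅ (Finset.empty_subset _) (by simp; linarith)
  simp only [Finset.sum_empty, zero_add] at h0
  have hexc : ∀ v ∈ Hm, 1 ≤ exc B (uq 0) v := by
    intro v hv
    obtain ⟨h1, h2, h3⟩ := (mem_Hmf hB0 _ _ _).1 hv
    unfold exc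
    linarith
  set E : ℝ := ∑ v ∈ Hm, ((exc B (uq 0) v : ℤ) : ℝ) with hE
  set c : ℝ := ∑ v ∈ Hm, ((MM B (uq 0) v : ℤ) : ℝ) with hc
  have hG : ((G0 B (uq 0) R : ℤ) : ℝ) = E + Γ := by
    unfold G0
    rw [hE]
    push_cast
    rfl
  have hcR : c ≤ ((∑ v ∈ R, MM B (uq 0) v : ℤ) : ℝ) := by
    rw [hc]
    push_cast
    refine Finset.sum_le_sum_of_subset_of_nonneg (Hmf_sub _ _) fun v _ _ => ?_
    exact_mod_cast hm0 v
  rw [hG]
  rcases le_or_gt c (θ - y - 4) with h1 | h1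
  · left
    have h2 := hno Hm (Finset.Subset.refl _) (by push_cast; exact h1)
    rw [hE]
    push_cast at h2
    exact h2
  rcases ratio_fail (f := fun v => ((exc B (uq 0) v : ℤ) : ℝ))
    (m := fun v => ((MM B (uq 0) v : ℤ) : ℝ)) (S := Hm)
    (fun v _ => ⟨by exact_mod_cast hm0 v, by exact_mod_cast hm2 v⟩)
    (fun v hv _ => by
      have := hexc v hv
      exact_mod_cast (by linarith : (0 : ℤ) ≤ exc B (uq 0) v)) (W := θ - y - 4) (w := y - Γ)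
    (by linarith) (by linarith) (fun F hF hFc => by
      have h2 := hno F hF (by push_cast; exact hFc)
      push_cast at h2
      linarith) with h2 | h2
  · left
    linarith
  · right
    have h3 : 0 ≤ (c - (θ - y - 6)) * Γ := mul_nonneg (by linarith) hGam0r
    have h4 : y * c ≤ y * ((∑ v ∈ R, MM B (uq 0) v : ℤ) : ℝ) :=
      mul_le_mul_of_nonneg_left hcR hy0
    have h5 : (θ - y - 4 - 2) * E ≤ (y - Γ) * c := h2
    linarith

section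
variable (h : Ctx B Rl ℓ nQ nP uq up q p k θ)
include h

/-- `TE` fails -/
theorem Ctx.piT (hnv : ¬ Val B θ) {i j : ℕ} (hi : i < ℓ) (hj : j < ℓ) {S : Finset V} {g Y : ℤ}
    (hT2 : T2I B uq up (2 * i + 1) (2 * (j + 1)) S g Y) {z : ℝ} (hz0 : 0 ≤ z)
    (hS : ∀ v ∈ S, |((im B v : ℤ) : ℝ)| ≤ z) (hY : (Y : ℝ) ≤ z)
    (gP' : p 0 - p (2 * j + 1) ≤ q (2 * i)) (gQ : AA q i ≤ θ + g - 2)
    (gE : p 0 - p (2 * j + 1) ≤ θ + g - 2) (hz : z + 2 ≤ θ + g) :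
    q 0 - q (2 * i) - AA q i + AA p (j + 1) < q 0 - θ - g + 2 := by
  have hl := h.fr.l2
  obtain ⟨q1, q2, q3, q4⟩ := h.fr.qgap hi
  obtain ⟨p1, p2, p3, p4⟩ := h.fr.pgap hj
  have e1 := AA_succ p j
  have hN0 := h.MM0 (up (2 * j + 1)) (uq (2 * i))
  by_contra hc
  push Not at hc
  exact hnv (h.poTE hi hj hT2 hz0 hS hY (by linarith) gP' gQ gE (by linarith) (by linarith))

/-- the sorted pairs of the hubs -/
lemma Ctx.piSt {i j : ℕ} (hi : i < ℓ) (hj : j + 1 < ℓ) :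
    StI B uq up (hb1 (2 * i + 1) (2 * (j + 1))) 0 (q 0 - q (2 * i) - AA q i + AA p (j + 1))
      (q 0 - q (2 * i) - AA q i + AA p (j + 1)) ∧
      0 ≤ q 0 - q (2 * i) - AA q i + AA p (j + 1) := by
  have hl := h.fr.l2
  obtain ⟨q1, q2, q3, q4⟩ := h.fr.qgap hi
  obtain ⟨p1, p2, p3, p4⟩ := h.fr.pgap (j := j + 1) hj
  refine ⟨h.fr.aPure (K := q 0 - q (2 * i) - AA q i + AA p (j + 1)) i (j + 1) hi (by omega)
    (fun l hl' => ?_) (fun l hl' => ?_), by linarith⟩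
  · have := q4 l hl'; linarith
  · have := p3 l hl'; linarith

/-- the sum of the weights of the hubs -/
lemma Ctx.piSQ {i : ℕ} (hi : i < ℓ) {x : ℝ} (hx : x ≤ q (2 * i)) :
    q 0 + (((2 * i + 1 : ℕ) : ℝ) - 1) * x ≤ ∑ l ∈ range (2 * i + 1), q l := by
  have hl := h.fr.l2
  have h1 : ∀ l ∈ range (2 * i), x ≤ q (l + 1) := by
    intro l hl'
    have := h.fr.qa (i := l + 1) (j := 2 * i) (by have := Finset.mem_range.1 hl'; omega)
      (by omega)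
    linarith
  rw [Finset.sum_range_succ']
  have h2 := Finset.sum_le_sum h1
  rw [Finset.sum_const, Finset.card_range, nsmul_eq_mul] at h2
  push_cast at h2 ⊢
  linarith

/-- the sum of the weights of the hubs of the second type -/
lemma Ctx.piSP {j : ℕ} (hj : j < ℓ) {x : ℝ} (hx : x ≤ p (2 * j + 1)) :
    ((2 * (j + 1) : ℕ) : ℝ) * x ≤ ∑ l ∈ range (2 * (j + 1)), p l := by
  have hl := h.fr.l2
  have h1 : ∀ l ∈ range (2 * (j + 1)), x ≤ p l := by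
    intro l hl'
    have := h.fr.pa (i := l) (j := 2 * j + 1) (by have := Finset.mem_range.1 hl'; omega)
      (by omega)
    linarith
  have h2 := Finset.sum_le_sum h1
  rwa [Finset.sum_const, Finset.card_range, nsmul_eq_mul] at h2

variable {Rs S : Finset V} {g : ℤ} {Kc : V → Finset V} {pick : Finset V → V}

/-- the numbers of hubs -/
lemma Ctx.piNum (hn : 2 * k - 1 ≤ (Rl.card : ℤ)) (hin : ∀ v ∈ Rl, k ≤ ∑ u, B u v) {i j : ℕ}
    (hi : i < ℓ) (hj : j < ℓ) (haQ : 2 * i + 1 ≤ nQ) (hbP : 2 * (j + 1) ≤ nP) (hq0 : 0 < q 0)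
    (hd : Dec B pick (vs uq up (rr nQ nP (2 * i + 1) (2 * (j + 1)))) Rs S g Kc)
    (hpick : ∀ K : Finset V, K.Nonempty → pick K ∈ K ∧ outdg B K (pick K) ≤ indg B K (pick K))
    (hv : θ - 2 ≤ p (2 * j + 1)) (hq : θ ≤ q 0) :
    (1 : ℝ) ≤ k - ((2 * (j + 1) : ℕ) : ℝ) - 1 ∧ (8 : ℝ) ≤ 2 * θ - Rl.card + 1 + k ∧
    (θ + g ≤ q 0 → ((2 * i + 1 : ℕ) : ℝ) < k → (1 : ℝ) ≤ k - ((2 * i + 1 : ℕ) : ℝ) ∧
      k - ((2 * i + 1 : ℕ) : ℝ) ≤ k - ((2 * (j + 1) : ℕ) : ℝ) - 1 ∧ (5 : ℝ) ≤ k) := by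
  have hl := h.fr.l2
  have c := h.cntPi hin (by omega) haQ hbP hq0 hd hpick
  have hlam := h.lam2 hn
  have hqK := h.qleK hin (i := 0) (by omega) hq0
  have hSP := h.piSP hj hv
  have hb0 : (0 : ℝ) ≤ ((2 * (j + 1) : ℕ) : ℝ) := Nat.cast_nonneg _
  have hb2 : (2 : ℝ) ≤ ((2 * (j + 1) : ℕ) : ℝ) := by push_cast; linarith [(Nat.cast_nonneg j : (0 : ℝ) ≤ j)]
  have h1 := Pi.kpos c hSP hb0 hlam hqK hq
  have h2 : 0 < k - ((2 * (j + 1) : ℕ) : ℤ) - 1 := by exact_mod_cast h1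
  have h3 : 1 ≤ k - ((2 * (j + 1) : ℕ) : ℤ) - 1 := by omega
  have h3r : (1 : ℝ) ≤ k - ((2 * (j + 1) : ℕ) : ℝ) - 1 := by exact_mod_cast h3
  refine ⟨h3r, ?_, ?_⟩
  · have h4 := Pi.base c hSP
    have h5 : 0 ≤ (((2 * (j + 1) : ℕ) : ℝ) + 1) * (θ - (2 * θ - Rl.card + 1) - k) :=
      mul_nonneg (by linarith) (by linarith)
    by_contra hcon
    push Not at hcon
    have k5 : (k : ℝ) < 6 := by linarith
    have k5' : k < 6 := by exact_mod_cast k5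
    have h6 : j = 0 := by push_cast at h3; omega
    subst h6
    have h7 : k = 4 ∨ k = 5 := by push_cast at h3; omega
    rcases h7 with rfl | rfl
    · norm_num at h4 hcon h5
      linarith
    · norm_num at h4 hcon h5
      linarith
  · intro hg hak
    have hak' : ((2 * i + 1 : ℕ) : ℤ) < k := by exact_mod_cast hak
    have hg0 : (0 : ℝ) ≤ g := by exact_mod_cast hd.g0
    have hcg : (Rs.card : ℝ) ≤ 2 * g := by exact_mod_cast hd.cg
    have h4 := Pi.apos c hSP hb2 hlam hqK hg hg0 hcg hak.le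
    have h5 : k - ((2 * i + 1 : ℕ) : ℤ) < k - ((2 * (j + 1) : ℕ) : ℤ) - 1 := by exact_mod_cast h4
    have h6 : 1 ≤ k - ((2 * i + 1 : ℕ) : ℤ) := by omega
    have h7 : k - ((2 * i + 1 : ℕ) : ℤ) ≤ k - ((2 * (j + 1) : ℕ) : ℤ) - 1 := h5.le
    have h8 : 5 ≤ k := by push_cast at *; omega
    exact ⟨by exact_mod_cast h6, by exact_mod_cast h7, by exact_mod_cast h8⟩

/-- **Nonempty `Rs`, an item fails and the hubs of the first type are high.** -/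
theorem Ctx.piNe (hn : 2 * k - 1 ≤ (Rl.card : ℤ)) (hnv : ¬ Val B θ)
    (hin : ∀ v ∈ Rl, k ≤ ∑ u, B u v) {i j : ℕ} (hi : i < ℓ) (hj : j + 1 < ℓ)
    (hC : Closed B nQ nP uq up q p θ (2 * i + 1) (2 * (j + 1))) (hq0 : 0 < q 0)
    (hd : Dec B pick (vs uq up (rr nQ nP (2 * i + 1) (2 * (j + 1)))) Rs S g Kc)
    (hpick : ∀ K : Finset V, K.Nonempty → pick K ∈ K ∧ outdg B K (pick K) ≤ indg B K (pick K))
    (hRs : Rs.Nonempty) {Y : ℤ}
    (hT2 : T2I B uq up (2 * i + 1) (2 * (j + 1)) S g Y) {z : ℝ} (hz0 : 0 ≤ z)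
    (hS : ∀ v ∈ S, |((im B v : ℤ) : ℝ)| ≤ z) (hY : (Y : ℝ) ≤ z)
    (gP' : p 0 - p (2 * j + 1) ≤ q (2 * i)) (gQ : AA q i ≤ θ + g - 2)
    (gE : p 0 - p (2 * j + 1) ≤ θ + g - 2) (hz : z + 2 ≤ θ + g)
    (hneg : ∀ v ∈ S, im B v < 0 → |((im B v : ℤ) : ℝ)| < q 0 - θ + 2)
    (hv : θ - 2 ≤ p (2 * j + 1)) (hu : θ + g ≤ q (2 * i))
    (hΓ : ((Gam B (uq 0) S : ℤ) : ℝ) < q 0 - θ - g) : False := by
  classical
  have hl := h.fr.l2
  have haQ := hC.aQ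
  have hbP := hC.bP
  have hlam := h.lam2 hn
  have hqK := h.qleK hin (i := 0) (by omega) hq0
  have hcR := h.cR hC.a1 haQ hbP
  have hqa := h.fr.qa (i := 0) (j := 2 * i) (by omega) (by omega)
  have c := h.cntPi hin hC.a1 haQ hbP hq0 hd hpick
  have hSP := h.piSP (j := j) (by omega) hv
  have hSQ := h.piSQ hi hu
  have hT := h.piT hnv hi (by omega) hT2 hz0 hS hY gP' gQ gE hz
  obtain ⟨hst, ht0⟩ := h.piSt hi hj
  have k3r := h.k3r
  have c1 : 1 ≤ (Rs.card : ℤ) := by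
    have := Finset.card_pos.2 hRs
    exact_mod_cast this
  have g1 : 1 ≤ g := by
    have := hd.cg
    omega
  have g1r : (1 : ℝ) ≤ g := by exact_mod_cast g1
  have hcg : (Rs.card : ℝ) ≤ 2 * g := by exact_mod_cast hd.cg
  have hΓ0 : (0 : ℝ) ≤ ((Gam B (uq 0) S : ℤ) : ℝ) := by exact_mod_cast Gam_nn (B := B) (uq 0) S
  obtain ⟨n1, n2, n3⟩ := h.piNum hn hin hi (by omega) haQ hbP hq0 hd hpick hv (by linarith)
  obtain ⟨nb, hnb0, hnb1, hcard, hall⟩ := h.fr.bud hC.a1 haQ hbP hq0 hd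
  have hnb := hnb1 hRs
  have hnbr : (1 : ℝ) ≤ nb := by exact_mod_cast hnb
  obtain ⟨cR, hcRd⟩ : ∃ cR : ℤ, cR = ch (MM B (uq 0))
      (vs uq up (rr nQ nP (2 * i + 1) (2 * (j + 1)))) := ⟨_, rfl⟩
  have hcRr : (cR : ℝ) = cRr B nQ nP uq up (2 * i + 1) (2 * (j + 1)) := by
    unfold cRr
    rw [hcRd]
  rcases hall cR 1 hcRd.ge le_rfl (fun h1 => absurd h1 (Finset.nonempty_iff_ne_empty.1 hRs))
    with h1 | h1
  · refine hnv (hC.cr _ ?_ h1)
    rw [← hcRr]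
    push_cast
    exact le_rfl
  obtain ⟨t, htd⟩ : ∃ t, t = q 0 - q (2 * i) - AA q i + AA p (j + 1) := ⟨_, rfl⟩
  obtain ⟨y, hyd⟩ : ∃ y, y = q 0 - θ := ⟨_, rfl⟩
  obtain ⟨lam, hlm⟩ : ∃ lam : ℝ, lam = 2 * θ - Rl.card + 1 := ⟨_, rfl⟩
  rw [← htd] at hst ht0 hT
  have hβ : ∀ w ∈ Hmf B (uq 0) S, |((im B w : ℤ) : ℝ)| < y + 2 := by
    intro w hw
    obtain ⟨w1, w2, w3⟩ := (mem_Hmf h.fr.sys.B0 _ _ _).1 hw
    rw [hyd]
    exact hneg w w1 (by linarith)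
  have hDb : ((cR - nb : ℤ) : ℝ) ≤ θ - lam - y - nb := by
    push_cast
    rw [hcRr, hlm, hyd]
    linarith
  obtain ⟨l0, nd, mem, len, srt, hf⟩ := t1b_fail h.fr.sys.B0 h.fr.sys.B1 h1 hst ht0 hnv hβ hDb
    (by linarith) hnb (by linarith) (by linarith)
  -- the budget
  obtain ⟨j', hj1, hj2⟩ : ∃ j' : ℕ, (j' : ℝ) ≤ lam + nb + g - 3 ∧ lam + nb + g - 3 < j' + 1 :=
    ⟨⌊lam + nb + g - 3⌋₊, Nat.floor_le (by linarith), Nat.lt_floor_add_one _⟩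
  have hP : 0 < q 0 - θ - g := lt_of_le_of_lt hΓ0 hΓ
  have hG := G0_ge (B := B) (uq 0) S
  have hGr : ((- ∑ v ∈ S, im B v : ℤ) : ℝ) - ((∑ v ∈ S, MM B (uq 0) v : ℤ) : ℝ) ≤
      ((G0 B (uq 0) S : ℤ) : ℝ) := by
    rw [Finset.sum_add_distrib] at hG
    have : - ∑ v ∈ S, im B v - ∑ v ∈ S, MM B (uq 0) v ≤ G0 B (uq 0) S := by linarith
    exact_mod_cast this
  have hb2 : (2 : ℝ) ≤ ((2 * (j + 1) : ℕ) : ℝ) := by
    push_cast; linarith [(Nat.cast_nonneg j : (0 : ℝ) ≤ j)]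
  have ha1 : (1 : ℝ) ≤ ((2 * i + 1 : ℕ) : ℝ) := by
    push_cast; linarith [(Nat.cast_nonneg i : (0 : ℝ) ≤ i)]
  obtain ⟨m1, m2⟩ := Pi.main1 c hSP hSQ hGr hb2 ha1 hlam hqK g1r hcg hP n1
    (fun h2 => ⟨(n3 (by linarith) h2).1, (n3 (by linarith) h2).2.1⟩)
  rcases t1b_ineq len nd mem srt hf j' (by linarith) (by linarith) with h2 | h2
  · linarith
  · have hG0 : 0 ≤ ((G0 B (uq 0) S : ℤ) : ℝ) := by linarith
    have h3 : (2 * θ - Rl.card + 1 + g - 3) * ((G0 B (uq 0) S : ℤ) : ℝ) ≤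
        (j' : ℝ) * ((G0 B (uq 0) S : ℤ) : ℝ) :=
      mul_le_mul_of_nonneg_right (by linarith) hG0
    rw [hyd] at h2
    linarith

/-- **Empty `Rs` and the hubs of the first type are high.** -/
theorem Ctx.piEm (hn : 2 * k - 1 ≤ (Rl.card : ℤ)) (hnv : ¬ Val B θ)
    (hin : ∀ v ∈ Rl, k ≤ ∑ u, B u v) {i j : ℕ} (hi : i < ℓ) (hj : j + 1 < ℓ)
    (hC : Closed B nQ nP uq up q p θ (2 * i + 1) (2 * (j + 1))) (hq0 : 0 < q 0)
    (hd : Dec B pick (vs uq up (rr nQ nP (2 * i + 1) (2 * (j + 1)))) Rs S g Kc)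
    (hpick : ∀ K : Finset V, K.Nonempty → pick K ∈ K ∧ outdg B K (pick K) ≤ indg B K (pick K))
    (hRs : Rs = ∅) {Y : ℤ} (hY : Y = 0)
    (hT2 : T2I B uq up (2 * i + 1) (2 * (j + 1)) S g Y) {z : ℝ} (hz0 : 0 ≤ z)
    (hS : ∀ v ∈ S, |((im B v : ℤ) : ℝ)| ≤ z)
    (gP' : p 0 - p (2 * j + 1) ≤ q (2 * i)) (gQ : AA q i ≤ θ - 2)
    (gE : p 0 - p (2 * j + 1) ≤ θ - 2) (hz : z + 2 ≤ θ)
    (hneg : ∀ v ∈ S, im B v < 0 → |((im B v : ℤ) : ℝ)| < q 0 - θ + 2)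
    (hv : θ - 2 ≤ p (2 * j + 1)) (hu : θ ≤ q (2 * i)) (hy : 0 < q 0 - θ) : False := by
  classical
  have hl := h.fr.l2
  have haQ := hC.aQ
  have hbP := hC.bP
  have hlam := h.lam2 hn
  have hqK := h.qleK hin (i := 0) (by omega) hq0
  have hg : g = 0 := hd.bl.gz hRs
  have hgr : (g : ℝ) = 0 := by rw [hg]; simp
  have hSR : S = vs uq up (rr nQ nP (2 * i + 1) (2 * (j + 1))) := by
    rw [← hd.un, hRs, Finset.empty_union]
  have c := h.cntPi hin hC.a1 haQ hbP hq0 hd hpick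
  rw [hRs] at c
  simp only [Finset.card_empty, Nat.cast_zero] at c
  have hSP := h.piSP (j := j) (by omega) hv
  have hSQ := h.piSQ hi hu
  have hT := h.piT hnv hi (by omega) hT2 hz0 hS (by rw [hY]; simpa using hz0) gP'
    (by rw [hgr]; linarith) (by rw [hgr]; linarith) (by rw [hgr]; linarith)
  rw [hgr] at hT
  obtain ⟨hst, ht0⟩ := h.piSt hi hj
  obtain ⟨n1, n2, n3⟩ := h.piNum hn hin hi (by omega) haQ hbP hq0 hd hpick hv (by linarith)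
  have hind := hd.ind
  rw [hSR] at hind
  rcases h.fr.budC hC.a1 haQ hbP hq0 hind with h1 | h1
  · exact hnv (hC.cr _ (by simp) h1)
  rw [← hSR] at h1
  obtain ⟨t, htd⟩ : ∃ t, t = q 0 - q (2 * i) - AA q i + AA p (j + 1) := ⟨_, rfl⟩
  rw [← htd] at hst ht0 hT
  have hβ : ∀ w ∈ Hmf B (uq 0) S, |((im B w : ℤ) : ℝ)| < (q 0 - θ) + 2 := by
    intro w hw
    obtain ⟨w1, w2, w3⟩ := (mem_Hmf h.fr.sys.B0 _ _ _).1 hw
    exact hneg w w1 (by linarith)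
  have hG := G0_ge (B := B) (uq 0) S
  have hGr : ((- ∑ v ∈ S, im B v : ℤ) : ℝ) - ((∑ v ∈ S, MM B (uq 0) v : ℤ) : ℝ) ≤
      ((G0 B (uq 0) S : ℤ) : ℝ) := by
    rw [Finset.sum_add_distrib] at hG
    have : - ∑ v ∈ S, im B v - ∑ v ∈ S, MM B (uq 0) v ≤ G0 B (uq 0) S := by linarith
    exact_mod_cast this
  have hb2 : (2 : ℝ) ≤ ((2 * (j + 1) : ℕ) : ℝ) := by
    push_cast; linarith [(Nat.cast_nonneg j : (0 : ℝ) ≤ j)]
  have ha1 : (1 : ℝ) ≤ ((2 * i + 1 : ℕ) : ℝ) := by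
    push_cast; linarith [(Nat.cast_nonneg i : (0 : ℝ) ≤ i)]
  obtain ⟨m1, m2⟩ := Pi.main0 c hSP hSQ hGr hb2 ha1 hlam hqK hy n1
    (fun h2 => n3 (by rw [hgr]; linarith) h2)
  rcases t1c_ineq h.fr.sys.B0 h.fr.sys.B1 h1 hst ht0 hnv hβ (by ring) (by linarith)
    (by linarith) hy.le with h2 | h2
  · linarith
  · have h3 : (q 0 - θ) * ((∑ v ∈ S, MM B (uq 0) v : ℤ) : ℝ) ≤
        (q 0 - θ) * ((S.card : ℝ) + (Rl.card - 1 - q 0)) :=
      mul_le_mul_of_nonneg_left c.c hy.le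
    linarith

end

end Pool.Agent.Exact
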