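import Mathlib

/-!
# Choosing a subset of small cost and large gain
-/

set_option autoImplicit false

namespace Pool.Agent.Exact

open Finset

theorem exists_ratio {α : Type*} [DecidableEq α] (f m : α → ℝ) : ∀ (n : ℕ) (S : Finset α),
    S.card = n → (∀ v ∈ S, 0 ≤ m v ∧ m v ≤ 2) → (∀ v ∈ S, m v = 0 → 0 ≤ f v) →
    ∀ W : ℝ, 0 ≤ W → ∃ F ⊆ S, ∑ v ∈ F, m v ≤ W ∧ (F = S ∨ W - 2 < ∑ v ∈ F, m v) ∧
      (∑ v ∈ F, m v) * ∑ v ∈ S, f v ≤ (∑ v ∈ F, f v) * ∑ v ∈ S, m v := by
  intro n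
  induction n using Nat.strong_induction_on with
  | _ n ih =>
    intro S hSn hm hf W hW
    rcases le_or_gt (∑ v ∈ S, m v) W with h1 | h1
    · exact ⟨S, Finset.Subset.refl _, h1, Or.inl rfl, le_of_eq (mul_comm _ _)⟩
    · have hne : (S.filter fun v => 0 < m v).Nonempty := by
        rw [Finset.filter_nonempty_iff]
        by_contra hc
        push Not at hc
        have : ∑ v ∈ S, m v ≤ 0 := Finset.sum_nonpos fun v hv => hc v hv
        linarith
      obtain ⟨v, hv, hmin⟩ := Finset.exists_min_image _ (fun v => f v / m v) hne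
      rw [Finset.mem_filter] at hv
      obtain ⟨hvS, hv0⟩ := hv
      have hsub : ∀ u ∈ S.erase v, u ∈ S := fun u hu => Finset.mem_of_mem_erase hu
      have key : ∀ u ∈ S, m u * f v ≤ f u * m v := by
        intro u hu
        rcases (hm u hu).1.eq_or_lt with h2 | h2
        · rw [← h2, zero_mul]
          exact mul_nonneg (hf u hu h2.symm) hv0.le
        · have h3 := hmin u (Finset.mem_filter.2 ⟨hu, h2⟩)
          rw [div_le_div_iff₀ hv0 h2] at h3
          linarith
      have hmS : ∑ u ∈ S, m u = m v + ∑ u ∈ S.erase v, m u := (Finset.add_sum_erase _ _ hvS).symm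
      have hfS : ∑ u ∈ S, f u = f v + ∑ u ∈ S.erase v, f u := (Finset.add_sum_erase _ _ hvS).symm
      have hM0 : 0 ≤ ∑ u ∈ S.erase v, m u := Finset.sum_nonneg fun u hu => (hm u (hsub u hu)).1
      have hkey : (∑ u ∈ S.erase v, m u) * f v ≤ (∑ u ∈ S.erase v, f u) * m v := by
        rw [Finset.sum_mul, Finset.sum_mul]
        exact Finset.sum_le_sum fun u hu => key u (hsub u hu)
      have hrat : (∑ u ∈ S.erase v, m u) * ∑ u ∈ S, f u ≤
          (∑ u ∈ S.erase v, f u) * ∑ u ∈ S, m u := by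
        rw [hmS, hfS]
        nlinarith
      rcases le_or_gt (∑ u ∈ S.erase v, m u) W with h2 | h2
      · refine ⟨S.erase v, Finset.erase_subset _ _, h2, Or.inr ?_, hrat⟩
        have := (hm v hvS).2
        linarith
      · have hlt : (S.erase v).card < n := by rw [← hSn]; exact Finset.card_erase_lt_of_mem hvS
        obtain ⟨F, hF, a1, a2, a3⟩ := ih _ hlt (S.erase v) rfl (fun u hu => hm u (hsub u hu))
          (fun u hu => hf u (hsub u hu)) W hW
        have hFm : 0 ≤ ∑ u ∈ F, m u := Finset.sum_nonneg fun u hu => (hm u (hsub u (hF hu))).1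
        have a2' : W - 2 < ∑ u ∈ F, m u := by
          rcases a2 with a2 | a2
          · rw [a2] at a1; linarith
          · exact a2
        refine ⟨F, hF.trans (Finset.erase_subset _ _), a1, Or.inr a2', ?_⟩
        have hpos : 0 < ∑ u ∈ S.erase v, m u := by linarith
        have hS0 : 0 ≤ ∑ u ∈ S, m u := by rw [hmS]; linarith
        have b1 : (∑ u ∈ F, m u) * ((∑ u ∈ S.erase v, m u) * ∑ u ∈ S, f u) ≤
            (∑ u ∈ F, m u) * ((∑ u ∈ S.erase v, f u) * ∑ u ∈ S, m u) :=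
          mul_le_mul_of_nonneg_left hrat hFm
        have b2 : ((∑ u ∈ F, m u) * ∑ u ∈ S.erase v, f u) * ∑ u ∈ S, m u ≤
            ((∑ u ∈ F, f u) * ∑ u ∈ S.erase v, m u) * ∑ u ∈ S, m u :=
          mul_le_mul_of_nonneg_right a3 hS0
        refine le_of_mul_le_mul_left ?_ hpos
        calc (∑ u ∈ S.erase v, m u) * ((∑ u ∈ F, m u) * ∑ u ∈ S, f u)
            = (∑ u ∈ F, m u) * ((∑ u ∈ S.erase v, m u) * ∑ u ∈ S, f u) := by ring
          _ ≤ (∑ u ∈ F, m u) * ((∑ u ∈ S.erase v, f u) * ∑ u ∈ S, m u) := b1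
          _ = ((∑ u ∈ F, m u) * ∑ u ∈ S.erase v, f u) * ∑ u ∈ S, m u := by ring
          _ ≤ ((∑ u ∈ F, f u) * ∑ u ∈ S.erase v, m u) * ∑ u ∈ S, m u := b2
          _ = (∑ u ∈ S.erase v, m u) * ((∑ u ∈ F, f u) * ∑ u ∈ S, m u) := by ring

/-- no subset of cost at most `W` has gain at least `w` -/
theorem ratio_fail {α : Type*} [DecidableEq α] {f m : α → ℝ} {S : Finset α}
    (hm : ∀ v ∈ S, 0 ≤ m v ∧ m v ≤ 2) (hf : ∀ v ∈ S, m v = 0 → 0 ≤ f v) {W w : ℝ} (hW : 0 ≤ W)
    (hw : 0 < w) (hno : ∀ F ⊆ S, ∑ v ∈ F, m v ≤ W → ∑ v ∈ F, f v < w) :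
    ∑ v ∈ S, f v < w ∨ (W - 2) * ∑ v ∈ S, f v ≤ w * ∑ v ∈ S, m v := by
  obtain ⟨F, hF, a1, a2, a3⟩ := exists_ratio f m S.card S rfl hm hf W hW
  have h1 := hno F hF a1
  rcases a2 with a2 | a2
  · left; rw [← a2]; exact h1
  · have hS0 : 0 ≤ ∑ v ∈ S, m v := Finset.sum_nonneg fun v hv => (hm v hv).1
    rcases lt_or_ge (∑ v ∈ S, f v) w with h2 | h2
    · exact Or.inl h2
    · right
      have h3 : (W - 2) * ∑ v ∈ S, f v ≤ (∑ v ∈ F, m v) * ∑ v ∈ S, f v :=
        mul_le_mul_of_nonneg_right a2.le (by linarith)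
      have h4 : (∑ v ∈ F, f v) * ∑ v ∈ S, m v ≤ w * ∑ v ∈ S, m v :=
        mul_le_mul_of_nonneg_right h1.le hS0
      linarith

/-- a minimal set of large gain -/
theorem exists_minimal {α : Type*} [DecidableEq α] (f : α → ℝ) (w : ℝ) : ∀ (n : ℕ)
    (S : Finset α), S.card = n → w ≤ ∑ v ∈ S, f v →
    ∃ F ⊆ S, w ≤ ∑ v ∈ F, f v ∧ ∀ v ∈ F, ∑ u ∈ F.erase v, f u < w := by
  intro n
  induction n using Nat.strong_induction_on with
  | _ n ih =>
    intro S hSn hS
    by_cases hc : ∃ v ∈ S, w ≤ ∑ u ∈ S.erase v, f u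
    · obtain ⟨v, hv, h1⟩ := hc
      have hlt : (S.erase v).card < n := by rw [← hSn]; exact Finset.card_erase_lt_of_mem hv
      obtain ⟨F, hF, a1, a2⟩ := ih _ hlt (S.erase v) rfl h1
      exact ⟨F, hF.trans (Finset.erase_subset _ _), a1, a2⟩
    · push Not at hc
      exact ⟨S, Finset.Subset.refl _, hS, hc⟩

/-- the largest elements of a sorted list -/
theorem sorted_take {α : Type*} (f : α → ℤ) (l : List α) (hs : l.Pairwise fun a b => f b ≤ f a)
    (j : ℕ) (hj : j ≤ l.length) :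
    (j : ℤ) * (l.map f).sum ≤ l.length * ((l.take j).map f).sum := by
  rcases hj.eq_or_lt with h1 | h1
  · rw [h1, List.take_length]
  · have e : (l.map f).sum = ((l.take j).map f).sum + ((l.drop j).map f).sum := by
      rw [← List.sum_append, ← List.map_append, List.take_append_drop]
    set c : ℤ := f l[j] with hc
    have a1 : (j : ℤ) * c ≤ ((l.take j).map f).sum := by
      have h2 : ∀ x ∈ (l.take j).map f, c ≤ x := by
        intro x hx
        rw [List.mem_map] at hx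
        obtain ⟨v, hv, rfl⟩ := hx
        obtain ⟨i, hi, rfl⟩ := List.getElem_of_mem hv
        rw [List.length_take] at hi
        rw [List.getElem_take]
        exact List.pairwise_iff_getElem.1 hs i j (by omega) h1 (by omega)
      have h3 := List.card_nsmul_le_sum _ c h2
      rw [List.length_map, List.length_take, min_eq_left h1.le, nsmul_eq_mul] at h3
      exact h3
    have a2 : ((l.drop j).map f).sum ≤ (l.length - j : ℤ) * c := by
      have h2 : ∀ x ∈ (l.drop j).map f, x ≤ c := by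
        intro x hx
        rw [List.mem_map] at hx
        obtain ⟨v, hv, rfl⟩ := hx
        obtain ⟨i, hi, rfl⟩ := List.getElem_of_mem hv
        rw [List.length_drop] at hi
        rw [List.getElem_drop]
        rcases Nat.eq_zero_or_pos i with h3 | h3
        · subst h3
          simp only [Nat.add_zero]
          exact le_rfl
        · exact List.pairwise_iff_getElem.1 hs j (j + i) h1 (by omega) (by omega)
      have h3 := List.sum_le_card_nsmul _ c h2
      rw [List.length_map, List.length_drop, nsmul_eq_mul, Nat.cast_sub h1.le] at h3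
      exact h3
    rw [e]
    have h4 : (0 : ℤ) ≤ j := Nat.cast_nonneg _
    have h5 : (0 : ℤ) ≤ l.length - j := by
      have : (j : ℤ) ≤ l.length := by exact_mod_cast h1.le
      linarith
    nlinarith [mul_le_mul_of_nonneg_left a2 h4, mul_le_mul_of_nonneg_left a1 h5]

/-- the sum of a prefix of a sorted list -/
theorem sorted_take_ge {α : Type*} (f : α → ℤ) (l : List α)
    (hs : l.Pairwise fun a b => f b ≤ f a) (j : ℕ) (hj : j < l.length) :
    ((j : ℤ) + 1) * f l[j] ≤ ((l.take (j + 1)).map f).sum := by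
  have h2 : ∀ x ∈ (l.take (j + 1)).map f, f l[j] ≤ x := by
    intro x hx
    rw [List.mem_map] at hx
    obtain ⟨v, hv, rfl⟩ := hx
    obtain ⟨i, hi, rfl⟩ := List.getElem_of_mem hv
    rw [List.length_take] at hi
    rw [List.getElem_take]
    rcases Nat.lt_or_ge i j with h3 | h3
    · exact List.pairwise_iff_getElem.1 hs i j (by omega) hj h3
    · have : i = j := by omega
      subst this
      exact le_rfl
  have h3 := List.card_nsmul_le_sum _ (f l[j]) h2
  rw [List.length_map, List.length_take, min_eq_left (by omega), nsmul_eq_mul] at h3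
  push_cast at h3
  exact h3

/-- a product of sums -/
lemma cs_aux {x1 x2 y1 y2 c1 c2 : ℝ} (hx1 : 0 ≤ x1) (hx2 : 0 ≤ x2) (hy1 : 0 ≤ y1)
    (hy2 : 0 ≤ y2) (hc1 : 0 ≤ c1) (hc2 : 0 ≤ c2) (h1 : c1 ^ 2 ≤ x1 * x2)
    (h2 : c2 ^ 2 ≤ y1 * y2) : (c1 + c2) ^ 2 ≤ (x1 + y1) * (x2 + y2) := by
  have h3 : c1 * c2 ≤ (x1 * y2 + x2 * y1) / 2 := by
    have h4 : (c1 * c2) ^ 2 ≤ ((x1 * y2 + x2 * y1) / 2) ^ 2 := by
      have h5 : (c1 * c2) ^ 2 ≤ (x1 * x2) * (y1 * y2) := by
        rw [mul_pow]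
        exact mul_le_mul h1 h2 (sq_nonneg _) (mul_nonneg hx1 hx2)
      nlinarith [sq_nonneg (x1 * y2 - x2 * y1)]
    have h6 : 0 ≤ (x1 * y2 + x2 * y1) / 2 := by
      have := mul_nonneg hx1 hy2
      have := mul_nonneg hx2 hy1
      linarith
    exact (abs_le_of_sq_le_sq' h4 h6).2
  nlinarith

end Pool.Agent.Exact
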