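import Pool.Agent.Lib_helper68.Exact.Lists
import Pool.Agent.Lib_helper68.Exact.Swap
import Pool.Agent.Lib_helper68.Exact.Leaf2

/-!
# The remaining static structures

`sG3P` is the structure `sG3Q` for the other type, `sH` aligns the two largest vertices and uses a
triple, `sE1` aligns `q (2l)` with `p 0`.
-/

set_option autoImplicit false
set_option linter.unusedSectionVars false

namespace Pool.Agent.Exact

open Finset

variable {V : Type*} [Fintype V] [DecidableEq V]
variable {B : V → V → ℤ} {Rl : Finset V} {ℓ nQ nP : ℕ} {uq up : ℕ → V} {q p : ℕ → ℝ}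

/-- the triple `p_{2i}+, p_{2i+1}-, q_{2r}+` -/
theorem Frame.sG3P (h : Frame B Rl ℓ nQ nP uq up q p) {K : ℝ} (hK0 : 0 ≤ K) (i r : ℕ)
    (hi : i < ℓ) (hr : r < ℓ) (h0 : |p (2 * i) - p (2 * i + 1) - q (2 * r)| ≤ K)
    (hP : ∀ l < ℓ, l ≠ i → p (2 * l) - p (2 * l + 1) ≤ K)
    (hQ1 : ∀ l < r, q (2 * l) - q (2 * l + 1) ≤ K)
    (hQ2 : ∀ l, r ≤ l → l + 1 < ℓ → q (2 * l + 1) - q (2 * l + 2) ≤ K) :
    Val B (((MM B (up (2 * i)) (uq (2 * r)) - MM B (up (2 * i)) (up (2 * i + 1)) -
        MM B (up (2 * i + 1)) (uq (2 * r)) : ℤ) : ℝ) +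
      max K ((|p (2 * i) - p (2 * i + 1) - q (2 * r)| + (AA p ℓ - (p (2 * i) - p (2 * i + 1))) +
        (AA q r + q (2 * r) - (AA q ℓ - AA q r))) / 2)) := by
  have h1 := h.swap.sG3Q hK0 i r hi hr h0 hP hQ1 hQ2
  simp only [MM_Tr] at h1
  exact Val_Tr h1

/-- the tops aligned, and the triple `p_{2j+1}+, p_{2j+2}-, q_{2l+1}+` -/
theorem Frame.sH (h : Frame B Rl ℓ nQ nP uq up q p) {K : ℝ} (hK0 : 0 ≤ K) (j l : ℕ)
    (hj : j + 1 < ℓ) (hl : l < ℓ) (h0 : |q 0 - p 0| ≤ K)
    (h1 : |p (2 * j + 1) - p (2 * j + 2) - q (2 * l + 1)| ≤ K)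
    (hQ1 : ∀ i < l, q (2 * i + 1) - q (2 * i + 2) ≤ K)
    (hQ2 : ∀ i < ℓ, l < i → q (2 * i) - q (2 * i + 1) ≤ K)
    (hP : ∀ i, i + 1 < ℓ → i ≠ j → p (2 * i + 1) - p (2 * i + 2) ≤ K) :
    Val B (((MM B (uq 0) (up 0) + (MM B (up (2 * j + 1)) (uq (2 * l + 1)) -
        MM B (up (2 * j + 1)) (up (2 * j + 2)) - MM B (up (2 * j + 2)) (uq (2 * l + 1))) : ℤ) : ℝ) +
      max K ((|q 0 - p 0| + |p (2 * j + 1) - p (2 * j + 2) - q (2 * l + 1)| +
        (q 0 - q (2 * l) - AA q l) + (AA q ℓ - AA q (l + 1)) +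
        (p 0 - AA p ℓ - (p (2 * j + 1) - p (2 * j + 2)))) / 2)) := by
  have hl2 := h.l2
  have a1 := h.Qo (K := K) 0 l (Nat.zero_le _) hl fun i _ h2 => hQ1 i h2
  have a2 := h.Qe (K := K) (l + 1) ℓ (by omega) le_rfl fun i h2 h3 => hQ2 i h3 (by omega)
  have a3 := h.Po (K := K) 0 j (Nat.zero_le _) (by omega) fun i _ h2 => hP i (by omega) (by omega)
  have a4 := h.Pot (K := K) hK0 (j + 1) hj fun i h2 h3 => hP i h3 (by omega)
  have a5 := h.QP (K := K) 0 0 (by omega) (by omega) h0
  have a6 := h.tri (x := Sum.inr (2 * j + 1)) (y := Sum.inr (2 * j + 2))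
    (z := Sum.inl (2 * l + 1))
    (by rw [inr_mem_full]; omega) (by rw [inr_mem_full]; omega) (by rw [inl_mem_full]; omega)
    (by simp) (by simp) (by simp) 1 (-1) 1 (Or.inl rfl) (Or.inr rfl) (Or.inl rfl) le_rfl
    (K := |p (2 * j + 1) - p (2 * j + 2) - q (2 * l + 1)|) (by
      have e1 := h.sys.wtP (2 * j + 1) (by omega)
      have e2 := h.sys.wtP (2 * j + 2) (by omega)
      have e3 := h.sys.wtQ (2 * l + 1) (by omega)
      push_cast
      simp only [vx, Sum.elim_inl, Sum.elim_inr]
      rw [e1, e2, e3, ← abs_neg]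
      apply le_of_eq
      congr 1
      ring)
  have a6' := a6.mono le_rfl h1 le_rfl
  have b1 := h.jn a1 a2 (by (intro x hx; revert hx; rcases x with x | x <;>
    simp only [Finset.mem_union, Finset.mem_insert, Finset.mem_singleton, inl_mem_full,
      inr_mem_full, inl_mem_iq, inr_mem_iq, inl_mem_ip, inr_mem_ip, Sum.inl.injEq, Sum.inr.injEq,
      reduceCtorEq, Finset.notMem_empty, or_false, false_or, false_imp_iff, imp_false,
      implies_true, not_false_eq_true, iff_false, false_iff] <;> omega)) (by (rw [Finset.disjoint_left]; intro x hx hx'; revert hx hx'; rcases x with x | x <;>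
    simp only [Finset.mem_union, Finset.mem_insert, Finset.mem_singleton, inl_mem_full,
      inr_mem_full, inl_mem_iq, inr_mem_iq, inl_mem_ip, inr_mem_ip, Sum.inl.injEq, Sum.inr.injEq,
      reduceCtorEq, Finset.notMem_empty, or_false, false_or, false_imp_iff, imp_false,
      implies_true, not_false_eq_true, iff_false, false_iff] <;> omega))
  have b2 := h.jn a3 a4 (by (intro x hx; revert hx; rcases x with x | x <;>
    simp only [Finset.mem_union, Finset.mem_insert, Finset.mem_singleton, inl_mem_full,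
      inr_mem_full, inl_mem_iq, inr_mem_iq, inl_mem_ip, inr_mem_ip, Sum.inl.injEq, Sum.inr.injEq,
      reduceCtorEq, Finset.notMem_empty, or_false, false_or, false_imp_iff, imp_false,
      implies_true, not_false_eq_true, iff_false, false_iff] <;> omega)) (by (rw [Finset.disjoint_left]; intro x hx hx'; revert hx hx'; rcases x with x | x <;>
    simp only [Finset.mem_union, Finset.mem_insert, Finset.mem_singleton, inl_mem_full,
      inr_mem_full, inl_mem_iq, inr_mem_iq, inl_mem_ip, inr_mem_ip, Sum.inl.injEq, Sum.inr.injEq,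
      reduceCtorEq, Finset.notMem_empty, or_false, false_or, false_imp_iff, imp_false,
      implies_true, not_false_eq_true, iff_false, false_iff] <;> omega))
  have b3 := h.jn b1 b2 (by (intro x hx; revert hx; rcases x with x | x <;>
    simp only [Finset.mem_union, Finset.mem_insert, Finset.mem_singleton, inl_mem_full,
      inr_mem_full, inl_mem_iq, inr_mem_iq, inl_mem_ip, inr_mem_ip, Sum.inl.injEq, Sum.inr.injEq,
      reduceCtorEq, Finset.notMem_empty, or_false, false_or, false_imp_iff, imp_false,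
      implies_true, not_false_eq_true, iff_false, false_iff] <;> omega)) (by (rw [Finset.disjoint_left]; intro x hx hx'; revert hx hx'; rcases x with x | x <;>
    simp only [Finset.mem_union, Finset.mem_insert, Finset.mem_singleton, inl_mem_full,
      inr_mem_full, inl_mem_iq, inr_mem_iq, inl_mem_ip, inr_mem_ip, Sum.inl.injEq, Sum.inr.injEq,
      reduceCtorEq, Finset.notMem_empty, or_false, false_or, false_imp_iff, imp_false,
      implies_true, not_false_eq_true, iff_false, false_iff] <;> omega))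
  have b4 := h.jn a5 a6' (by (intro x hx; revert hx; rcases x with x | x <;>
    simp only [Finset.mem_union, Finset.mem_insert, Finset.mem_singleton, inl_mem_full,
      inr_mem_full, inl_mem_iq, inr_mem_iq, inl_mem_ip, inr_mem_ip, Sum.inl.injEq, Sum.inr.injEq,
      reduceCtorEq, Finset.notMem_empty, or_false, false_or, false_imp_iff, imp_false,
      implies_true, not_false_eq_true, iff_false, false_iff] <;> omega)) (by (rw [Finset.disjoint_left]; intro x hx hx'; revert hx hx'; rcases x with x | x <;>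
    simp only [Finset.mem_union, Finset.mem_insert, Finset.mem_singleton, inl_mem_full,
      inr_mem_full, inl_mem_iq, inr_mem_iq, inl_mem_ip, inr_mem_ip, Sum.inl.injEq, Sum.inr.injEq,
      reduceCtorEq, Finset.notMem_empty, or_false, false_or, false_imp_iff, imp_false,
      implies_true, not_false_eq_true, iff_false, false_iff] <;> omega))
  have b5 := h.join (U := full ℓ) b4 b3 (by (ext x; rcases x with x | x <;>
    simp only [Finset.mem_union, Finset.mem_insert, Finset.mem_singleton, inl_mem_full,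
      inr_mem_full, inl_mem_iq, inr_mem_iq, inl_mem_ip, inr_mem_ip, Sum.inl.injEq, Sum.inr.injEq,
      reduceCtorEq, Finset.notMem_empty, or_false, false_or, false_imp_iff, imp_false,
      implies_true, not_false_eq_true, iff_false, false_iff] <;> omega)) (by (intro x hx; revert hx; rcases x with x | x <;>
    simp only [Finset.mem_union, Finset.mem_insert, Finset.mem_singleton, inl_mem_full,
      inr_mem_full, inl_mem_iq, inr_mem_iq, inl_mem_ip, inr_mem_ip, Sum.inl.injEq, Sum.inr.injEq,
      reduceCtorEq, Finset.notMem_empty, or_false, false_or, false_imp_iff, imp_false,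
      implies_true, not_false_eq_true, iff_false, false_iff] <;> omega)) (by (rw [Finset.disjoint_left]; intro x hx hx'; revert hx hx'; rcases x with x | x <;>
    simp only [Finset.mem_union, Finset.mem_insert, Finset.mem_singleton, inl_mem_full,
      inr_mem_full, inl_mem_iq, inr_mem_iq, inl_mem_ip, inr_mem_ip, Sum.inl.injEq, Sum.inr.injEq,
      reduceCtorEq, Finset.notMem_empty, or_false, false_or, false_imp_iff, imp_false,
      implies_true, not_false_eq_true, iff_false, false_iff] <;> omega))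
  have b6 := h.val hK0 b5
  refine b6.mono ?_
  rw [AA_zero, AA_zero, AA_succ p j]
  simp only [vx, Sum.elim_inl, Sum.elim_inr]
  have e4 : (MM B (up (2 * j + 1)) (up (2 * j + 2)) * (1 * -1) +
      MM B (up (2 * j + 1)) (uq (2 * l + 1)) * (1 * 1)
      + MM B (up (2 * j + 2)) (uq (2 * l + 1)) * (-1 * 1)) =
      MM B (up (2 * j + 1)) (uq (2 * l + 1)) - MM B (up (2 * j + 1)) (up (2 * j + 2)) -
        MM B (up (2 * j + 2)) (uq (2 * l + 1)) := by ring
  rw [e4]
  push_cast
  refine add_le_add (by linarith) (max_le_max le_rfl ?_)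
  have e6 : p (2 * (j + 1)) = p (2 * j + 2) := by ring_nf
  rw [e6]
  linarith

/-- the tops aligned, and the triple `q_{2j+1}+, q_{2j+2}-, p_{2l+1}+` -/
theorem Frame.sHQ (h : Frame B Rl ℓ nQ nP uq up q p) {K : ℝ} (hK0 : 0 ≤ K) (j l : ℕ)
    (hj : j + 1 < ℓ) (hl : l < ℓ) (h0 : |q 0 - p 0| ≤ K)
    (h1 : |q (2 * j + 1) - q (2 * j + 2) - p (2 * l + 1)| ≤ K)
    (hP1 : ∀ i < l, p (2 * i + 1) - p (2 * i + 2) ≤ K)
    (hP2 : ∀ i < ℓ, l < i → p (2 * i) - p (2 * i + 1) ≤ K)
    (hQ : ∀ i, i + 1 < ℓ → i ≠ j → q (2 * i + 1) - q (2 * i + 2) ≤ K) :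
    Val B (((MM B (uq 0) (up 0) + (MM B (uq (2 * j + 1)) (up (2 * l + 1)) -
        MM B (uq (2 * j + 1)) (uq (2 * j + 2)) - MM B (uq (2 * j + 2)) (up (2 * l + 1))) : ℤ) : ℝ) +
      max K ((|q 0 - p 0| + |q (2 * j + 1) - q (2 * j + 2) - p (2 * l + 1)| +
        (p 0 - p (2 * l) - AA p l) + (AA p ℓ - AA p (l + 1)) +
        (q 0 - AA q ℓ - (q (2 * j + 1) - q (2 * j + 2)))) / 2)) := by
  have h2 := h.swap.sH hK0 j l hj hl (by rw [abs_sub_comm]; exact h0) h1 hP1 hP2 hQ
  simp only [MM_Tr] at h2
  rw [MM_comm (up 0) (uq 0), abs_sub_comm (p 0) (q 0)] at h2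
  exact Val_Tr h2

/-- `(q_{2l}, p_0)` aligned -/
theorem Frame.sE1 (h : Frame B Rl ℓ nQ nP uq up q p) {K : ℝ} (hK0 : 0 ≤ K) (l : ℕ)
    (hl : l < ℓ) (h0 : |q (2 * l) - p 0| ≤ K)
    (hQ1 : ∀ i < l, q (2 * i) - q (2 * i + 1) ≤ K)
    (hQ2 : ∀ i, l ≤ i → i + 1 < ℓ → q (2 * i + 1) - q (2 * i + 2) ≤ K)
    (hP : ∀ i, i + 1 < ℓ → p (2 * i + 1) - p (2 * i + 2) ≤ K) :
    Val B (((MM B (uq (2 * l)) (up 0) : ℤ) : ℝ) +
      max K ((|q (2 * l) - p 0| + AA q l + (q (2 * l) - (AA q ℓ - AA q l)) +
        (p 0 - AA p ℓ)) / 2)) := by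
  have hl2 := h.l2
  have a1 := h.Qe (K := K) 0 l (Nat.zero_le _) hl.le fun i _ h2 => hQ1 i h2
  have a2 := h.Qot (K := K) hK0 l hl hQ2
  have a3 := h.Pot (K := K) hK0 0 (by omega) fun i _ h2 => hP i h2
  have a5 := h.QP (K := K) (2 * l) 0 (by omega) (by omega) h0
  have b1 := h.jn a1 a2 (by (intro x hx; revert hx; rcases x with x | x <;>
    simp only [Finset.mem_union, Finset.mem_insert, Finset.mem_singleton, inl_mem_full,
      inr_mem_full, inl_mem_iq, inr_mem_iq, inl_mem_ip, inr_mem_ip, Sum.inl.injEq, Sum.inr.injEq,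
      reduceCtorEq, Finset.notMem_empty, or_false, false_or, false_imp_iff, imp_false,
      implies_true, not_false_eq_true, iff_false, false_iff] <;> omega)) (by (rw [Finset.disjoint_left]; intro x hx hx'; revert hx hx'; rcases x with x | x <;>
    simp only [Finset.mem_union, Finset.mem_insert, Finset.mem_singleton, inl_mem_full,
      inr_mem_full, inl_mem_iq, inr_mem_iq, inl_mem_ip, inr_mem_ip, Sum.inl.injEq, Sum.inr.injEq,
      reduceCtorEq, Finset.notMem_empty, or_false, false_or, false_imp_iff, imp_false,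
      implies_true, not_false_eq_true, iff_false, false_iff] <;> omega))
  have b2 := h.jn b1 a3 (by (intro x hx; revert hx; rcases x with x | x <;>
    simp only [Finset.mem_union, Finset.mem_insert, Finset.mem_singleton, inl_mem_full,
      inr_mem_full, inl_mem_iq, inr_mem_iq, inl_mem_ip, inr_mem_ip, Sum.inl.injEq, Sum.inr.injEq,
      reduceCtorEq, Finset.notMem_empty, or_false, false_or, false_imp_iff, imp_false,
      implies_true, not_false_eq_true, iff_false, false_iff] <;> omega)) (by (rw [Finset.disjoint_left]; intro x hx hx'; revert hx hx'; rcases x with x | x <;>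
    simp only [Finset.mem_union, Finset.mem_insert, Finset.mem_singleton, inl_mem_full,
      inr_mem_full, inl_mem_iq, inr_mem_iq, inl_mem_ip, inr_mem_ip, Sum.inl.injEq, Sum.inr.injEq,
      reduceCtorEq, Finset.notMem_empty, or_false, false_or, false_imp_iff, imp_false,
      implies_true, not_false_eq_true, iff_false, false_iff] <;> omega))
  have b5 := h.join (U := full ℓ) a5 b2 (by (ext x; rcases x with x | x <;>
    simp only [Finset.mem_union, Finset.mem_insert, Finset.mem_singleton, inl_mem_full,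
      inr_mem_full, inl_mem_iq, inr_mem_iq, inl_mem_ip, inr_mem_ip, Sum.inl.injEq, Sum.inr.injEq,
      reduceCtorEq, Finset.notMem_empty, or_false, false_or, false_imp_iff, imp_false,
      implies_true, not_false_eq_true, iff_false, false_iff] <;> omega)) (by (intro x hx; revert hx; rcases x with x | x <;>
    simp only [Finset.mem_union, Finset.mem_insert, Finset.mem_singleton, inl_mem_full,
      inr_mem_full, inl_mem_iq, inr_mem_iq, inl_mem_ip, inr_mem_ip, Sum.inl.injEq, Sum.inr.injEq,
      reduceCtorEq, Finset.notMem_empty, or_false, false_or, false_imp_iff, imp_false,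
      implies_true, not_false_eq_true, iff_false, false_iff] <;> omega)) (by (rw [Finset.disjoint_left]; intro x hx hx'; revert hx hx'; rcases x with x | x <;>
    simp only [Finset.mem_union, Finset.mem_insert, Finset.mem_singleton, inl_mem_full,
      inr_mem_full, inl_mem_iq, inr_mem_iq, inl_mem_ip, inr_mem_ip, Sum.inl.injEq, Sum.inr.injEq,
      reduceCtorEq, Finset.notMem_empty, or_false, false_or, false_imp_iff, imp_false,
      implies_true, not_false_eq_true, iff_false, false_iff] <;> omega))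
  have b6 := h.val hK0 b5
  refine b6.mono ?_
  rw [AA_zero, AA_zero]
  refine add_le_add (by linarith) (max_le_max le_rfl ?_)
  linarith

end Pool.Agent.Exact
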