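import Pool.Agent.Lib_helper23.Exact.Bud
import Pool.Agent.Lib_helper23.Exact.Ratio
import Pool.Agent.Lib_helper68.Exact.CntO

/-!
# Consequences of the failure of the path with a budget, and attaching vertices to a hub
-/

set_option autoImplicit false
set_option linter.unusedSectionVars false

namespace Pool.Agent.Exact

open Finset

variable {V : Type*} [Fintype V] [DecidableEq V]
variable {B : V → V → ℤ} {Rl : Finset V} {ℓ nQ nP : ℕ} {uq up : ℕ → V} {q p : ℕ → ℝ}

/-- the excess of a vertex -/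
def exc (B : V → V → ℤ) (h v : V) : ℤ := -(im B v + MM B h v)

/-- all excesses -/
noncomputable def G0 (B : V → V → ℤ) (h : V) (S : Finset V) : ℤ :=
  ∑ v ∈ Hmf B h S, exc B h v + Gam B h S

lemma G0_ge (h : V) (S : Finset V) : - ∑ v ∈ S, (im B v + MM B h v) ≤ G0 B h S := by
  classical
  have hG : Gam B h S = ∑ v ∈ S.filter (Harm (MM B h) (im B)), |MM B h v + im B v| := by
    unfold Gam
    congr
  have hH : Hmf B h S = S.filter fun v => ¬ Harm (MM B h) (im B) v := by
    unfold Hmf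
    congr
  unfold G0
  rw [hG, hH, ← Finset.sum_filter_add_sum_filter_not S (Harm (MM B h) (im B)), neg_add]
  have h1 : - ∑ v ∈ S.filter (Harm (MM B h) (im B)), (im B v + MM B h v) ≤
      ∑ v ∈ S.filter (Harm (MM B h) (im B)), |MM B h v + im B v| := by
    rw [← Finset.sum_neg_distrib]
    refine Finset.sum_le_sum fun v _ => ?_
    have := neg_abs_le (MM B h v + im B v)
    linarith
  have h2 : - ∑ v ∈ S.filter (fun v => ¬ Harm (MM B h) (im B) v), (im B v + MM B h v) =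
      ∑ v ∈ S.filter (fun v => ¬ Harm (MM B h) (im B) v), exc B h v := by
    rw [← Finset.sum_neg_distrib]
    rfl
  linarith

/-- **The path with a budget fails.** -/
theorem t1b_fail {a b : ℕ} {S : Finset V} {g nb cR : ℤ} {θ y lam t : ℝ}
    (hB0 : ∀ u v, 0 ≤ B u v) (hB1 : ∀ u v, B u v ≤ 1)
    (hall : ∀ (l : List V), l.Nodup → (∀ v ∈ l, v ∈ Hmf B (uq 0) S) → ∀ M K t θ : ℝ,
        StI B uq up (hb1 a b) M K t → 0 ≤ K →
        (∀ l1 v l2, l = l1 ++ v :: l2 → ∀ w ∈ Hmf B (uq 0) S, w ∉ l1 →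
          ((cR - nb : ℤ) : ℝ) + l1.length + 1 + M + |((im B w : ℤ) : ℝ)| ≤ θ ∧
          2 * (((cR - nb : ℤ) : ℝ) + l1.length + 1 + M) + t + |((im B w : ℤ) : ℝ)| ≤ 2 * θ) →
        ((cR - nb : ℤ) : ℝ) + l.length + 1 + M + K ≤ θ →
        (∀ w ∈ Hmf B (uq 0) S, w ∉ l →
          ((cR - nb : ℤ) : ℝ) + l.length + M + |((im B w : ℤ) : ℝ)| ≤ θ ∧
          2 * (((cR - nb : ℤ) : ℝ) + l.length + M) + 1 + t + |((im B w : ℤ) : ℝ)| ≤ 2 * θ) →
        q 0 - g - Gam B (uq 0) S +
          ((∑ v ∈ l.toFinset, (im B v + MM B (uq 0) v) : ℤ) : ℝ) + M ≤ θ →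
        ((cR - nb : ℤ) : ℝ) + l.length + 1 + (q 0 - g - Gam B (uq 0) S +
          ((∑ v ∈ l.toFinset, (im B v + MM B (uq 0) v) : ℤ) : ℝ)) + 2 * M + t ≤ 2 * θ →
        Val B θ)
    (hst : StI B uq up (hb1 a b) 0 t t) (ht : 0 ≤ t) (hnv : ¬ Val B θ)
    (hβ : ∀ w ∈ Hmf B (uq 0) S, |((im B w : ℤ) : ℝ)| < y + 2)
    (hD : ((cR - nb : ℤ) : ℝ) ≤ θ - lam - y - nb) (hlam : 2 ≤ lam) (hnb : 1 ≤ nb)
    (h4 : 4 ≤ lam + nb + g) (hq : q 0 = θ + y) :
    ∃ l0 : List V, l0.Nodup ∧ (∀ v, v ∈ l0 ↔ v ∈ Hmf B (uq 0) S) ∧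
      l0.length = (Hmf B (uq 0) S).card ∧
      l0.Pairwise (fun a b => exc B (uq 0) b ≤ exc B (uq 0) a) ∧
      ∀ j ≤ l0.length, ((cR - nb : ℤ) : ℝ) + j + 1 + t ≤ θ →
        ((((l0.take j).map (exc B (uq 0))).sum + Gam B (uq 0) S : ℤ) : ℝ) < y - g := by
  classical
  generalize ((cR - nb : ℤ) : ℝ) = D0 at *
  obtain ⟨l0, nd, mem, len, srt⟩ := exists_sorted (exc B (uq 0)) (Hmf B (uq 0) S)
  refine ⟨l0, nd, mem, len, srt, ?_⟩
  have hnbr : (1 : ℝ) ≤ nb := by exact_mod_cast hnb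
  have hGam0 : (0 : ℤ) ≤ Gam B (uq 0) S := Gam_nn _ _
  have hGam0r : (0 : ℝ) ≤ Gam B (uq 0) S := by exact_mod_cast hGam0
  have hexc : ∀ v ∈ Hmf B (uq 0) S, 1 ≤ exc B (uq 0) v ∧
      |((im B v : ℤ) : ℝ)| ≤ (exc B (uq 0) v : ℝ) + 2 := by
    intro v hv
    obtain ⟨h1, h2, h3⟩ := (mem_Hmf hB0 _ _ _).1 hv
    have h5 := (MM_range hB0 hB1 (uq 0) v).2
    have h6 : im B v < 0 := by linarith
    have h6r : ((im B v : ℤ) : ℝ) < 0 := by exact_mod_cast h6
    refine ⟨by unfold exc; linarith, ?_⟩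
    rw [abs_of_neg h6r]
    unfold exc
    have h5r : ((MM B (uq 0) v : ℤ) : ℝ) ≤ 2 := by exact_mod_cast h5
    push_cast
    linarith
  have hgain : ∀ j, 0 ≤ ((l0.take j).map (exc B (uq 0))).sum := by
    intro j
    refine List.sum_nonneg fun x hx => ?_
    rw [List.mem_map] at hx
    obtain ⟨v, hv, rfl⟩ := hx
    have := (hexc v ((mem v).1 (List.mem_of_mem_take hv))).1
    linarith
  -- bounds after a prefix
  have hrem : ∀ i, i ≤ l0.length → (∀ i' ≤ i, D0 + i' + 1 + t ≤ θ →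
      ((((l0.take i').map (exc B (uq 0))).sum + Gam B (uq 0) S : ℤ) : ℝ) < y - g) →
      D0 + i + 1 + t ≤ θ →
      ∀ w ∈ Hmf B (uq 0) S, w ∉ l0.take i → D0 + i + 1 +
        |((im B w : ℤ) : ℝ)| ≤ θ := by
    intro i hi hprev hit w hw hwi
    rcases Nat.eq_zero_or_pos i with h0 | h0
    · subst h0
      have := hβ w hw
      push_cast
      linarith
    · obtain ⟨i0, rfl⟩ : ∃ i0, i = i0 + 1 := ⟨i - 1, by omega⟩
      have hi0 : i0 < l0.length := by omega
      have h1 := hprev (i0 + 1) le_rfl hit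
      have h2 := sorted_take_ge (exc B (uq 0)) l0 srt i0 hi0
      set q' : ℤ := exc B (uq 0) l0[i0] with hq'
      have hq1 : 1 ≤ q' := (hexc _ ((mem _).1 (List.getElem_mem hi0))).1
      have hwq : exc B (uq 0) w ≤ q' := by
        obtain ⟨jw, hjw, hjw'⟩ := List.getElem_of_mem ((mem w).2 hw)
        have hjw2 : i0 + 1 ≤ jw := by
          by_contra hc
          push Not at hc
          apply hwi
          rw [← hjw']
          rw [List.mem_take_iff_getElem]
          exact ⟨jw, by omega, rfl⟩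
        rw [← hjw']
        exact List.pairwise_iff_getElem.1 srt i0 jw hi0 hjw (by omega)
      have hβw := (hexc w hw).2
      have h5 : (i0 : ℤ) + 1 + q' ≤ ((i0 : ℤ) + 1) * q' + 1 := by
        have : (0 : ℤ) ≤ i0 := Nat.cast_nonneg _
        nlinarith [mul_nonneg this (by linarith : (0 : ℤ) ≤ q' - 1)]
      have h6 : (i0 : ℤ) + 1 + q' ≤ ((l0.take (i0 + 1)).map (exc B (uq 0))).sum +
          Gam B (uq 0) S + 1 := by linarith
      have h6r : (i0 : ℝ) + 1 + q' ≤ ((((l0.take (i0 + 1)).map (exc B (uq 0))).sum +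
          Gam B (uq 0) S : ℤ) : ℝ) + 1 := by exact_mod_cast h6
      have h7 : ((exc B (uq 0) w : ℤ) : ℝ) ≤ q' := by exact_mod_cast hwq
      push_cast at h6r h1 ⊢
      linarith
  intro j
  induction j using Nat.strong_induction_on with
  | _ j ih =>
    intro hj hjt
    have hprev : ∀ i' < j, ((((l0.take i').map (exc B (uq 0))).sum +
        Gam B (uq 0) S : ℤ) : ℝ) < y - g := by
      intro i' hi'
      refine ih i' hi' (by omega) ?_
      have : (i' : ℝ) ≤ j := by exact_mod_cast hi'.le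
      linarith
    by_contra hcon
    push Not at hcon
    apply hnv
    have hlen : (l0.take j).length = j := by rw [List.length_take, min_eq_left hj]
    have hndj : (l0.take j).Nodup := nd.sublist (List.take_sublist _ _)
    have hsum : ∑ v ∈ (l0.take j).toFinset, (im B v + MM B (uq 0) v) =
        - ((l0.take j).map (exc B (uq 0))).sum := by
      rw [List.sum_toFinset _ hndj]
      induction (l0.take j) with
      | nil => simp
      | cons x l ih2 =>
        simp only [List.map_cons, List.sum_cons]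
        rw [ih2]
        unfold exc
        ring
    refine hall (l0.take j) hndj (fun v hv => (mem v).1 (List.mem_of_mem_take hv)) 0 t t θ hst ht
      ?_ ?_ ?_ ?_ ?_
    · intro l1 v l2 he w hw hwl
      have hl1 : l1.length < j := by
        have := congrArg List.length he
        rw [hlen, List.length_append, List.length_cons] at this
        omega
      have hl1e : l1 = l0.take l1.length := by
        have h5 : (l0.take j).take l1.length = l1 := by rw [he]; simp
        rw [List.take_take, min_eq_left hl1.le] at h5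
        exact h5.symm
      rw [hl1e] at hwl
      have hcast : (l1.length : ℝ) ≤ j := by exact_mod_cast hl1.le
      have h6 := hrem l1.length (by omega) (fun i' hi' _ => hprev i' (by omega)) (by linarith) w
        hw hwl
      constructor <;> linarith
    · rw [hlen]
      linarith
    · intro w hw hwl
      rw [hlen]
      rcases Nat.eq_zero_or_pos j with h0 | h0
      · subst h0
        have := hβ w hw
        push_cast at hjt ⊢
        constructor <;> linarith
      · obtain ⟨j0, rfl⟩ : ∃ j0, j = j0 + 1 := ⟨j - 1, by omega⟩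
        -- bound by the previous prefix
        have h6 : D0 + (j0 : ℝ) + 1 + |((im B w : ℤ) : ℝ)| ≤ θ := by
          refine hrem j0 (by omega) (fun i' hi' _ => hprev i' (by omega)) ?_ w hw ?_
          · push_cast at hjt
            linarith
          · intro h7
            apply hwl
            have h8 : l0.take j0 <+: l0.take (j0 + 1) := by
              rw [List.take_add_one]
              exact List.prefix_append _ _
            exact h8.subset h7
        push_cast at hjt ⊢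
        constructor <;> linarith
    · rw [hsum]
      rw [hq]
      push_cast at hcon ⊢
      linarith
    · rw [hsum, hlen, hq]
      push_cast at hcon ⊢
      linarith

/-- the inequality from the failure of the path with a budget -/
theorem t1b_ineq {S : Finset V} {D t θ y : ℝ} {g : ℤ} {l0 : List V}
    (len : l0.length = (Hmf B (uq 0) S).card) (nd : l0.Nodup)
    (mem : ∀ v, v ∈ l0 ↔ v ∈ Hmf B (uq 0) S)
    (srt : l0.Pairwise (fun a b => exc B (uq 0) b ≤ exc B (uq 0) a))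
    (hf : ∀ j ≤ l0.length, D + j + 1 + t ≤ θ →
      ((((l0.take j).map (exc B (uq 0))).sum + Gam B (uq 0) S : ℤ) : ℝ) < y - g)
    (j : ℕ) (hj : D + j + 1 + t ≤ θ) (hP : 0 ≤ y - g) :
    ((G0 B (uq 0) S : ℤ) : ℝ) < y - g ∨
      (j : ℝ) * ((G0 B (uq 0) S : ℤ) : ℝ) < (S.card : ℝ) * (y - g) := by
  classical
  have hE : ∑ v ∈ Hmf B (uq 0) S, exc B (uq 0) v = (l0.map (exc B (uq 0))).sum := by
    rw [← List.sum_toFinset _ nd]
    congr 1
    ext v
    rw [List.mem_toFinset, mem]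
  have hGam0 : (0 : ℤ) ≤ Gam B (uq 0) S := Gam_nn _ _
  rcases le_or_gt l0.length j with h1 | h1
  · left
    have h2 := hf l0.length le_rfl (by
      have : (l0.length : ℝ) ≤ j := by exact_mod_cast h1
      linarith)
    rw [List.take_length] at h2
    unfold G0
    rw [hE]
    exact h2
  · right
    have h2 := hf j h1.le hj
    have h3 := sorted_take (exc B (uq 0)) l0 srt j h1.le
    have h4 : (j : ℤ) * G0 B (uq 0) S ≤ l0.length * (((l0.take j).map (exc B (uq 0))).sum +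
        Gam B (uq 0) S) := by
      unfold G0
      rw [hE]
      have h5 : (j : ℤ) ≤ l0.length := by exact_mod_cast h1.le
      nlinarith [mul_le_mul_of_nonneg_right h5 hGam0]
    have h4r : (j : ℝ) * ((G0 B (uq 0) S : ℤ) : ℝ) ≤ l0.length *
        ((((l0.take j).map (exc B (uq 0))).sum + Gam B (uq 0) S : ℤ) : ℝ) := by
      exact_mod_cast h4
    have h6 : (0 : ℝ) < l0.length := by
      have : 0 < l0.length := by omega
      exact_mod_cast this
    have h7 := mul_lt_mul_of_pos_left h2 h6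
    have h8 : (l0.length : ℝ) ≤ S.card := by
      rw [len]
      exact_mod_cast Finset.card_le_card (Hmf_sub _ _)
    have h9 := mul_le_mul_of_nonneg_right h8 hP
    linarith

/-- **Attaching vertices to a hub.** -/
theorem Frame.closeAp {a b : ℕ} {S F : Finset V} {g Y : ℤ} {θ y0 K0 t qz : ℝ} {z : ℕ ⊕ ℕ}
    (hT : T2A B uq up a b S g Y) (hz : z ∈ hb a b)
    (hst : StI B uq up ((hb a b).erase z) 0 K0 t) (hK0 : 0 ≤ K0) (ht : 0 ≤ t)
    (hqz : ((im B (vx uq up z) : ℤ) : ℝ) = qz) (hqz0 : 0 ≤ qz)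
    (hB0 : ∀ u v, 0 ≤ B u v) (hFS : F ⊆ S)
    (hF1 : qz - θ - g ≤ ∑ v ∈ F, (|((im B v : ℤ) : ℝ)| - MM B (vx uq up z) v))
    (hF2 : ∀ v ∈ F, ∑ u ∈ F.erase v, (|((im B u : ℤ) : ℝ)| - MM B (vx uq up z) u) < qz - θ - g)
    (hy0 : 0 ≤ y0) (hβ : ∀ v ∈ S, |((im B v : ℤ) : ℝ)| ≤ y0) (hY : (Y : ℝ) ≤ y0)
    (h1 : y0 + t + ∑ v ∈ F, ((MM B (vx uq up z) v : ℤ) : ℝ) ≤ θ + g)
    (h2 : K0 + ∑ v ∈ F, ((MM B (vx uq up z) v : ℤ) : ℝ) ≤ θ + g) : Val B θ := by
  classical
  set s : V → ℤ := fun v => if im B v < 0 then 1 else -1 with hs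
  have hs1 : ∀ v, s v = 1 ∨ s v = -1 := by
    intro v
    simp only [hs]
    split_ifs
    · exact Or.inl rfl
    · exact Or.inr rfl
  have hSF : S \ (S \ F) = F := by
    exact Finset.sdiff_sdiff_eq_self hFS
  set m : V → ℝ := fun v => ((MM B (vx uq up z) v : ℤ) : ℝ) with hm
  have hm0 : ∀ v, 0 ≤ m v := by
    intro v
    simp only [hm]
    have : 0 ≤ MM B (vx uq up z) v := by
      unfold MM
      linarith [hB0 (vx uq up z) v, hB0 v (vx uq up z)]
    exact_mod_cast this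
  set c : ℝ := ∑ v ∈ F, m v with hc
  have hc0 : 0 ≤ c := Finset.sum_nonneg fun v _ => hm0 v
  set L : ℝ := ((im B (vx uq up z) + ∑ v ∈ F, im B v * s v : ℤ) : ℝ) with hL
  have hLe : L = qz - ∑ v ∈ F, |((im B v : ℤ) : ℝ)| := by
    rw [hL]
    push_cast
    rw [hqz, sub_eq_add_neg, ← Finset.sum_neg_distrib]
    congr 1
    refine Finset.sum_congr rfl fun v _ => ?_
    simp only [hs]
    split_ifs with h3
    · have h4 : ((im B v : ℤ) : ℝ) < 0 := by exact_mod_cast h3
      rw [abs_of_neg h4]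
      push_cast
      ring
    · have h4 : (0 : ℝ) ≤ ((im B v : ℤ) : ℝ) := by exact_mod_cast not_lt.1 h3
      rw [abs_of_nonneg h4]
      push_cast
      ring
  have hcost : ((∑ v ∈ F, MM B (vx uq up z) v * s v : ℤ) : ℝ) ≤ c := by
    rw [hc]
    push_cast
    refine Finset.sum_le_sum fun v _ => ?_
    have h3 := hm0 v
    simp only [hm] at h3 ⊢
    rcases hs1 v with h4 | h4 <;> rw [h4] <;> push_cast <;> linarith
  have h3 := hT z hz (S \ F) Finset.sdiff_subset s hs1 y0 0 (max K0 |L|) t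
    (hK0.trans (le_max_left _ _)) hy0 (fun v hv => hβ v (Finset.mem_sdiff.1 hv).1)
    (by rw [hSF]; exact le_max_right _ _) (hst.mono le_rfl (le_max_left _ _) le_rfl)
  rw [hSF] at h3
  have h4 : max ((Y : ℝ) - ∑ v ∈ S \ F, |((im B v : ℤ) : ℝ)|) y0 = y0 := by
    refine max_eq_right ?_
    have : 0 ≤ ∑ v ∈ S \ F, |((im B v : ℤ) : ℝ)| := Finset.sum_nonneg fun v _ => abs_nonneg _
    linarith
  rw [h4, ← hL] at h3
  refine h3.mono ?_
  have hsplit : ∑ v ∈ F, (|((im B v : ℤ) : ℝ)| - MM B (vx uq up z) v) =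
      ∑ v ∈ F, |((im B v : ℤ) : ℝ)| - c := by
    rw [Finset.sum_sub_distrib]
  rw [hsplit] at hF1
  have hLb : |L| + c ≤ θ + g ∧ y0 + t + |L| + 2 * c ≤ 2 * θ + 2 * g := by
    rcases le_or_gt 0 L with h5 | h5
    · rw [abs_of_nonneg h5, hLe]
      constructor <;> linarith
    · rw [abs_of_neg h5, hLe]
      have hne : F.Nonempty := by
        by_contra hcon
        rw [Finset.not_nonempty_iff_eq_empty] at hcon
        rw [hLe, hcon, Finset.sum_empty] at h5
        linarith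
      obtain ⟨v, hv⟩ := hne
      have h6 := hF2 v hv
      have h7 : ∑ u ∈ F, (|((im B u : ℤ) : ℝ)| - MM B (vx uq up z) u) =
          (|((im B v : ℤ) : ℝ)| - MM B (vx uq up z) v) +
          ∑ u ∈ F.erase v, (|((im B u : ℤ) : ℝ)| - MM B (vx uq up z) u) :=
        (Finset.add_sum_erase _ _ hv).symm
      rw [hsplit] at h7
      have h8 := hβ v (hFS hv)
      have h9 := hm0 v
      simp only [hm] at h9
      constructor <;> linarith
  obtain ⟨hL1, hL2⟩ := hLb
  have e : -(g : ℝ) + (0 + ((∑ v ∈ F, MM B (vx uq up z) v * s v : ℤ) : ℝ)) ≤ -(g : ℝ) + c := by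
    linarith
  rw [← max_add_add_left, ← max_add_add_left]
  refine max_le (max_le ?_ (le_trans (b := -(g : ℝ) + c + max K0 |L|) (by linarith) ?_)) ?_
  · linarith
  · rcases max_choice K0 |L| with h5 | h5 <;> rw [h5] <;> linarith
  · linarith

/-- attaching vertices to a hub fails -/
theorem Frame.ap_fail {a b : ℕ} {S : Finset V} {g Y : ℤ} {θ y0 K0 t qz : ℝ} {z : ℕ ⊕ ℕ}
    (hT : T2A B uq up a b S g Y) (hz : z ∈ hb a b)
    (hst : StI B uq up ((hb a b).erase z) 0 K0 t) (hK0 : 0 ≤ K0) (hKt : K0 ≤ t)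
    (hqz : ((im B (vx uq up z) : ℤ) : ℝ) = qz) (hqz0 : 0 ≤ qz)
    (hB0 : ∀ u v, 0 ≤ B u v) (hy0 : 0 ≤ y0)
    (hβ : ∀ v ∈ S, |((im B v : ℤ) : ℝ)| ≤ y0) (hY : (Y : ℝ) ≤ y0) (hnv : ¬ Val B θ)
    (F : Finset V) (hFS : F ⊆ S)
    (hF : ∑ v ∈ F, ((MM B (vx uq up z) v : ℤ) : ℝ) ≤ θ + g - t - y0) :
    ∑ v ∈ F, (|((im B v : ℤ) : ℝ)| - MM B (vx uq up z) v) < qz - θ - g := by
  classical
  by_contra hc
  push Not at hc
  obtain ⟨F', hF', a1, a2⟩ := exists_minimal
    (fun v => |((im B v : ℤ) : ℝ)| - MM B (vx uq up z) v) (qz - θ - g) F.card F rfl hc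
  have hm0 : ∀ v, (0 : ℝ) ≤ ((MM B (vx uq up z) v : ℤ) : ℝ) := by
    intro v
    have : 0 ≤ MM B (vx uq up z) v := by
      unfold MM
      linarith [hB0 (vx uq up z) v, hB0 v (vx uq up z)]
    exact_mod_cast this
  have h3 : ∑ v ∈ F', ((MM B (vx uq up z) v : ℤ) : ℝ) ≤ θ + g - t - y0 :=
    (Finset.sum_le_sum_of_subset_of_nonneg hF' fun v _ _ => hm0 v).trans hF
  exact hnv (Frame.closeAp hT hz hst hK0 (hK0.trans hKt) hqz hqz0 hB0 (hF'.trans hFS) a1 a2 hy0 hβ
    hY (by linarith) (by linarith))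

end Pool.Agent.Exact
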