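import Pool.Agent.Lib_helper23.Exact.Facts

/-!
# The static branches of the decision tree
-/

set_option autoImplicit false
set_option linter.unusedSectionVars false

namespace Pool.Agent.Exact

open Finset

variable {V : Type*} [Fintype V] [DecidableEq V]
variable {B : V → V → ℤ} {Rl : Finset V} {ℓ nQ nP : ℕ} {uq up : ℕ → V} {q p : ℕ → ℝ}

section basic

variable (h : Frame B Rl ℓ nQ nP uq up q p)
include h

/-- one even difference and all odd differences -/
lemma Frame.qeT {i l : ℕ} (h1 : i ≤ l) (h2 : l + 1 < ℓ) :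
    AA q ℓ - AA q i + (q (2 * l + 1) - q (2 * l + 2)) ≤ q (2 * i) := by
  have a1 := h.qgE (i := i) (l := l) (j := l + 1) h1 (by omega) h2
  have a2 := h.qT (i := l + 1) h2
  linarith

lemma Frame.peT {i l : ℕ} (h1 : i ≤ l) (h2 : l + 1 < ℓ) :
    AA p ℓ - AA p i + (p (2 * l + 1) - p (2 * l + 2)) ≤ p (2 * i) := h.swap.qeT h1 h2

lemma Frame.qeT' {i j : ℕ} (h1 : i < j) (h2 : j + 1 < ℓ) :
    AA q ℓ + (q (2 * i + 1) - q (2 * i + 2)) + (q (2 * j + 1) - q (2 * j + 2)) ≤ q 0 := by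
  have a1 := h.qgE (i := 0) (l := i) (j := i + 1) (by omega) (by omega) (by omega)
  have a2 := h.qeT (i := i + 1) (l := j) (by omega) h2
  simp only [Nat.mul_zero, AA_zero, sub_zero] at a1
  linarith

/-- two even differences and all odd differences -/
lemma Frame.qeT2 {i j : ℕ} (h1 : i ≠ j) (h2 : i + 1 < ℓ) (h3 : j + 1 < ℓ) :
    AA q ℓ + (q (2 * i + 1) - q (2 * i + 2)) + (q (2 * j + 1) - q (2 * j + 2)) ≤ q 0 := by
  rcases lt_or_gt_of_ne h1 with h4 | h4
  · exact h.qeT' h4 h3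
  · have := h.qeT' h4 h2
    linarith

lemma Frame.peT2 {i j : ℕ} (h1 : i ≠ j) (h2 : i + 1 < ℓ) (h3 : j + 1 < ℓ) :
    AA p ℓ + (p (2 * i + 1) - p (2 * i + 2)) + (p (2 * j + 1) - p (2 * j + 2)) ≤ p 0 :=
  h.swap.qeT2 h1 h2 h3

/-- two odd differences -/
lemma Frame.qDD' {i j : ℕ} (h1 : i < j) (h3 : j < ℓ) :
    (q (2 * i) - q (2 * i + 1)) + (q (2 * j) - q (2 * j + 1)) ≤ AA q ℓ := by
  have a1 := h.qgA (i := 0) (l := i) (j := i + 1) (by omega) (by omega) (by omega)
  have a2 := h.qgA (i := i + 1) (l := j) (j := ℓ) (by omega) h3 le_rfl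
  rw [AA_zero] at a1
  linarith

lemma Frame.qDD {i j : ℕ} (h1 : i ≠ j) (h2 : i < ℓ) (h3 : j < ℓ) :
    (q (2 * i) - q (2 * i + 1)) + (q (2 * j) - q (2 * j + 1)) ≤ AA q ℓ := by
  rcases lt_or_gt_of_ne h1 with h4 | h4
  · exact h.qDD' h4 h3
  · have := h.qDD' h4 h2
    linarith

lemma Frame.pDD {i j : ℕ} (h1 : i ≠ j) (h2 : i < ℓ) (h3 : j < ℓ) :
    (p (2 * i) - p (2 * i + 1)) + (p (2 * j) - p (2 * j + 1)) ≤ AA p ℓ := h.swap.qDD h1 h2 h3

lemma Frame.qD {i : ℕ} (h2 : i < ℓ) : (q (2 * i) - q (2 * i + 1)) ≤ AA q ℓ := by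
  have a1 := h.qgA (i := 0) (l := i) (j := ℓ) (by omega) (by omega) le_rfl
  rw [AA_zero] at a1
  linarith

lemma Frame.pD {i : ℕ} (h2 : i < ℓ) : (p (2 * i) - p (2 * i + 1)) ≤ AA p ℓ := h.swap.qD h2

lemma Frame.qA0 : AA q ℓ ≤ q 0 := by
  have := h.qT (i := 0) (by have := h.l2; omega)
  simpa [AA_zero] using this

lemma Frame.pA0 : AA p ℓ ≤ p 0 := h.swap.qA0

/-- the end of the chain -/
lemma Frame.qend : q (2 * ℓ - 1) = 0 := by
  have hl := h.l2
  have := h.nQle
  exact h.zQ (by omega) (by omega)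

lemma Frame.pend : p (2 * ℓ - 1) = 0 := h.swap.qend

/-- the first small weight -/
lemma Frame.qfirst {t : ℝ} (ht : 0 ≤ t) :
    ∃ i, i < 2 * ℓ ∧ q i ≤ t ∧ ∀ j < i, t < q j := by
  classical
  have hl := h.l2
  have hex : ∃ i, i < 2 * ℓ ∧ q i ≤ t := ⟨2 * ℓ - 1, by omega, by rw [h.qend]; exact ht⟩
  refine ⟨Nat.find hex, (Nat.find_spec hex).1, (Nat.find_spec hex).2, fun j hj => ?_⟩
  have h1 := Nat.find_min hex hj
  push Not at h1
  exact h1 (by have := (Nat.find_spec hex).1; omega)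

lemma Frame.pfirst {t : ℝ} (ht : 0 ≤ t) :
    ∃ i, i < 2 * ℓ ∧ p i ≤ t ∧ ∀ j < i, t < p j := h.swap.qfirst ht

/-- structure A fails -/
lemma Frame.failA {θ : ℝ} (hθ : 0 ≤ θ) (hn : ¬ Val B θ) :
    (∃ l < ℓ, θ < q (2 * l) - q (2 * l + 1)) ∨ (∃ l < ℓ, θ < p (2 * l) - p (2 * l + 1)) ∨
      2 * θ < AA q ℓ + AA p ℓ := by
  by_contra hc
  push Not at hc
  obtain ⟨h1, h2, h3⟩ := hc
  exact hn ((h.sA hθ h1 h2).mono (max_le le_rfl (by linarith)))

end basic

/-- the value of structure B with cost `MB` -/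
def BSt (B : V → V → ℤ) (ℓ : ℕ) (q p : ℕ → ℝ) (MB : ℝ) : Prop :=
  ∀ K : ℝ, 0 ≤ K → |q 0 - p 0| ≤ K →
    (∀ l, l + 1 < ℓ → q (2 * l + 1) - q (2 * l + 2) ≤ K) →
    (∀ l, l + 1 < ℓ → p (2 * l + 1) - p (2 * l + 2) ≤ K) →
    Val B (MB + max K ((|q 0 - p 0| + (q 0 - AA q ℓ) + (p 0 - AA p ℓ)) / 2))

lemma Frame.bst (h : Frame B Rl ℓ nQ nP uq up q p) : BSt B ℓ q p (MM B (uq 0) (up 0)) :=
  fun _ hK h0 hQ hP => h.sB hK h0 hQ hP

/-- structure B fails -/
lemma failB {θ MB : ℝ} (hB : BSt B ℓ q p MB) (hpq : p 0 ≤ q 0) (hθ : MB ≤ θ)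
    (hn : ¬ Val B θ) :
    θ - MB < q 0 - p 0 ∨ (∃ l, l + 1 < ℓ ∧ θ - MB < q (2 * l + 1) - q (2 * l + 2)) ∨
      (∃ l, l + 1 < ℓ ∧ θ - MB < p (2 * l + 1) - p (2 * l + 2)) ∨
      2 * θ - 2 * MB < 2 * q 0 - AA q ℓ - AA p ℓ := by
  by_contra hc
  push Not at hc
  obtain ⟨h1, h2, h3, h4⟩ := hc
  have e : |q 0 - p 0| = q 0 - p 0 := abs_of_nonneg (by linarith)
  have h5 := hB (θ - MB) (by linarith) (by rw [e]; exact h1) h2 h3
  refine hn (h5.mono ?_)
  rw [e]
  have : max (θ - MB) ((q 0 - p 0 + (q 0 - AA q ℓ) + (p 0 - AA p ℓ)) / 2) ≤ θ - MB :=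
    max_le le_rfl (by linarith)
  linarith

variable {k : ℤ} {θ : ℝ}

section tree

variable (h : Ctx B Rl ℓ nQ nP uq up q p k θ)
include h

/-- (0): the largest weight is larger than `θ` -/
lemma Ctx.top (hnv : ¬ Val B θ) (hpq : p 0 ≤ q 0) : θ < q 0 := by
  by_contra hc
  push Not at hc
  have hl := h.fr.l2
  rcases h.fr.failA h.θ0 hnv with ⟨l, hl', h1⟩ | ⟨l, hl', h1⟩ | h1
  · have := h.fr.qD hl'
    have := h.fr.qA0
    linarith
  · have := h.fr.pD hl'
    have := h.fr.pA0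
    linarith
  · have := h.fr.qA0
    have := h.fr.pA0
    linarith

/-- `q_0 + 2 ≤ 2θ` -/
lemma Ctx.y2 (hn : 2 * k - 1 ≤ (Rl.card : ℤ)) (hq : 0 < q 0) : q 0 + 2 ≤ 2 * θ := by
  have hl := h.fr.l2
  have h1 := h.qle (i := 0) (by omega) hq
  have h2 := h.lam2 hn
  linarith

/-- case 1 -/
theorem Ctx.case1 (hn : 2 * k - 1 ≤ (Rl.card : ℤ)) (hnv : ¬ Val B θ) (hpq : p 0 ≤ q 0)
    (hp : q 0 - θ + 2 ≤ p 0) {i : ℕ} (hi : i < ℓ) (hD : θ < q (2 * i) - q (2 * i + 1)) :
    (∃ j, j + 1 < ℓ ∧ θ - 2 < p (2 * j + 1) - p (2 * j + 2)) ∨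
      (AA q ℓ + AA p ℓ < 2 * (q 0 - θ) + 2 * MM B (uq 0) (up 0) ∧ ∃ r < ℓ,
        (∀ l < r, θ < p (2 * l + 1)) ∧ p (2 * r) ≤ θ ∧
          p (2 * r) < q (2 * i) - q (2 * i + 1) - θ + 2) := by
  have hl := h.fr.l2
  have hqθ := h.top hnv hpq
  have hθ0 := h.θ0
  have hq : 0 < q 0 := by linarith
  have hpp : 0 < p 0 := by linarith
  obtain ⟨z1, z2, z3⟩ := h.Z1 hn hq hp hpp
  have hM2 := h.MM2 (uq 0) (up 0)
  have hM0 := h.MM0 (uq 0) (up 0)
  set MB : ℝ := ((MM B (uq 0) (up 0) : ℤ) : ℝ) with hMB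
  by_cases hE : ∃ j, j + 1 < ℓ ∧ θ - 2 < p (2 * j + 1) - p (2 * j + 2)
  · exact Or.inl hE
  · right
    push Not at hE
    have hA := h.fr.qD hi
    have hA0 := h.fr.qA0
    have he : ∀ l, l + 1 < ℓ → q (2 * l + 1) - q (2 * l + 2) ≤ q 0 - θ := by
      intro l hl'
      have := h.fr.qeT (i := 0) (l := l) (by omega) hl'
      simp only [Nat.mul_zero, AA_zero, sub_zero] at this
      linarith
    have hAA : AA q ℓ + AA p ℓ < 2 * (q 0 - θ) + 2 * MB := by
      rcases failB h.fr.bst hpq (by linarith) hnv with h1 | ⟨l, hl', h1⟩ | ⟨l, hl', h1⟩ | h1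
      · rw [← hMB] at h1
        linarith
      · have := he l hl'
        rw [← hMB] at h1
        linarith
      · have := hE l hl'
        rw [← hMB] at h1
        linarith
      · rw [← hMB] at h1
        linarith
    refine ⟨hAA, ?_⟩
    obtain ⟨i0, hi0, h1, h2⟩ := h.fr.pfirst hθ0
    -- the structure G3
    have key : ∀ r, r < ℓ → (∀ l < r, θ < p (2 * l + 1)) →
        |q (2 * i) - q (2 * i + 1) - p (2 * r)| ≤ θ - 2 →
        (p (2 * r) ≤ θ ∨ p (2 * r + 1) ≤ θ) → False := by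
      intro r hr h3 h4 h5
      have hK0 : 0 ≤ θ - 2 := by linarith
      have g1 := h.fr.sG3Q hK0 i r hi hr h4 (fun l hl' hne => by
          have := h.fr.qDD hne hl' hi
          linarith) (fun l hl' => by
          have a1 := h3 l hl'
          have a2 := h.fr.pa (i := 0) (j := 2 * l) (Nat.zero_le _) (by omega)
          linarith) (fun l _ hl' => hE l hl')
      refine hnv (g1.mono ?_)
      have c1 := h.MM2 (uq (2 * i)) (up (2 * r))
      have c2 := h.MM0 (uq (2 * i)) (uq (2 * i + 1))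
      have c3 := h.MM0 (uq (2 * i + 1)) (up (2 * r))
      have c4 := h.fr.pAm (i := r) (j := ℓ) hr.le le_rfl
      have c5 := h.fr.pgA (i := r) (l := r) (j := ℓ) le_rfl hr le_rfl
      push_cast
      have : max (θ - 2) ((|q (2 * i) - q (2 * i + 1) - p (2 * r)| +
          (AA q ℓ - (q (2 * i) - q (2 * i + 1))) +
          (AA p r + p (2 * r) - (AA p ℓ - AA p r))) / 2) ≤ θ - 2 := by
        refine max_le le_rfl ?_
        rcases le_total (p (2 * r)) (q (2 * i) - q (2 * i + 1)) with h6 | h6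
        · rw [abs_of_nonneg (by linarith)]
          linarith
        · rw [abs_of_nonpos (by linarith)]
          rcases h5 with h5 | h5
          · linarith
          · linarith
      linarith
    rcases Nat.even_or_odd' i0 with ⟨r, hr | hr⟩
    · -- even
      subst hr
      have hr : r < ℓ := by omega
      have h3 : ∀ l < r, θ < p (2 * l + 1) := fun l hl' => h2 _ (by omega)
      by_cases h4 : q (2 * i) - q (2 * i + 1) - θ + 2 ≤ p (2 * r)
      · exfalso
        refine key r hr h3 ?_ (Or.inl h1)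
        rw [abs_of_nonneg (by linarith)]
        linarith
      · push Not at h4
        exact ⟨r, hr, h3, h1, h4⟩
    · subst hr
      exfalso
      have hr : r < ℓ := by omega
      refine key r hr (fun l hl' => h2 _ (by omega)) ?_ (Or.inr h1)
      have a1 := h2 (2 * r) (by omega)
      have a2 := h.fr.pa (i := 0) (j := 2 * r) (Nat.zero_le _) (by omega)
      have a3 := h.fr.qa (i := 0) (j := 2 * i) (Nat.zero_le _) (by omega)
      have a4 := h.fr.qn (i := 2 * i + 1) (by omega)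
      rw [abs_le]
      constructor <;> linarith

/-- case 2 -/
theorem Ctx.case2 (hn : 2 * k - 1 ≤ (Rl.card : ℤ)) (hnv : ¬ Val B θ) (hpq : p 0 ≤ q 0 - 1)
    {MB : ℝ} (hB : BSt B ℓ q p MB) (hMB : MB ≤ MM B (uq 0) (up 0))
    {j : ℕ} (hj : j < ℓ) (hD : θ < p (2 * j) - p (2 * j + 1)) :
    (∃ i, i + 1 < ℓ ∧ θ - MB < q (2 * i + 1) - q (2 * i + 2)) ∨
      (AA q ℓ + AA p ℓ < 2 * (q 0 - θ) + 2 * MB ∧ ∃ i, i + 1 < ℓ ∧
        θ - 2 < q (2 * i + 1) ∧ q (2 * (i + 1)) ≤ θ - 2 ∧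
          q (2 * (i + 1)) < p (2 * j) - p (2 * j + 1) - θ + 2) := by
  have hl := h.fr.l2
  have hqθ := h.top hnv (by linarith)
  have hθ0 := h.θ0
  have hq : 0 < q 0 := by linarith
  have hy2 := h.y2 hn hq
  have hp0 := h.fr.pa (i := 0) (j := 2 * j) (Nat.zero_le _) (by omega)
  have hp1 := h.fr.pn (i := 2 * j + 1) (by omega)
  have hpp : 0 < p 0 := by linarith
  obtain ⟨z1, z2, z3⟩ := h.Z1 hn hq (by linarith) hpp
  have hM2 := h.MM2 (uq 0) (up 0)
  by_cases hE : ∃ i, i + 1 < ℓ ∧ θ - MB < q (2 * i + 1) - q (2 * i + 2)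
  · exact Or.inl hE
  · right
    push Not at hE
    have hA := h.fr.pD hj
    have hA0 := h.fr.pA0
    have he : ∀ l, l + 1 < ℓ → p (2 * l + 1) - p (2 * l + 2) ≤ q 0 - θ := by
      intro l hl'
      have := h.fr.peT (i := 0) (l := l) (by omega) hl'
      simp only [Nat.mul_zero, AA_zero, sub_zero] at this
      linarith
    have hAA : AA q ℓ + AA p ℓ < 2 * (q 0 - θ) + 2 * MB := by
      rcases failB hB (by linarith) (by linarith) hnv with h1 | ⟨l, hl', h1⟩ | ⟨l, hl', h1⟩ | h1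
      · linarith
      · have := hE l hl'
        linarith
      · have := he l hl'
        linarith
      · linarith
    refine ⟨hAA, ?_⟩
    have hK0 : 0 ≤ θ - 2 := by linarith
    obtain ⟨i0, hi0, h1, h2⟩ := h.fr.qfirst hK0
    -- the structure G3
    have key : ∀ r, r < ℓ → |p (2 * j) - p (2 * j + 1) - q (2 * r)| ≤ θ - 2 →
        q (2 * r + 1) ≤ θ - 2 → False := by
      intro r hr h4 h5
      have g1 := h.fr.sG3P hK0 j r hj hr h4 (fun l hl' hne => by
          have := h.fr.pDD hne hl' hj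
          linarith) (fun l hl' => by
          have a1 := h.fr.qD (i := l) (by omega)
          linarith) (fun l hl1 hl' => by
          have a1 := h.fr.qa (i := 2 * r + 1) (j := 2 * l + 1) (by omega) (by omega)
          have a2 := h.fr.qn (i := 2 * l + 2) (by omega)
          linarith)
      refine hnv (g1.mono ?_)
      have c1 := h.MM2 (up (2 * j)) (uq (2 * r))
      have c2 := h.MM0 (up (2 * j)) (up (2 * j + 1))
      have c3 := h.MM0 (up (2 * j + 1)) (uq (2 * r))
      have c4 := h.fr.qAm (i := r) (j := ℓ) hr.le le_rfl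
      have c5 := h.fr.qgA (i := r) (l := r) (j := ℓ) le_rfl hr le_rfl
      push_cast
      have : max (θ - 2) ((|p (2 * j) - p (2 * j + 1) - q (2 * r)| +
          (AA p ℓ - (p (2 * j) - p (2 * j + 1))) +
          (AA q r + q (2 * r) - (AA q ℓ - AA q r))) / 2) ≤ θ - 2 := by
        refine max_le le_rfl ?_
        rcases le_total (q (2 * r)) (p (2 * j) - p (2 * j + 1)) with h6 | h6
        · rw [abs_of_nonneg (by linarith)]
          linarith
        · rw [abs_of_nonpos (by linarith)]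
          linarith
      linarith
    rcases Nat.even_or_odd' i0 with ⟨r, hr | hr⟩
    · -- even
      subst hr
      have hr : r < ℓ := by omega
      have hr0 : r ≠ 0 := by
        rintro rfl
        rw [Nat.mul_zero] at h1
        linarith
      obtain ⟨i, rfl⟩ : ∃ i, r = i + 1 := ⟨r - 1, by omega⟩
      by_cases h4 : p (2 * j) - p (2 * j + 1) - θ + 2 ≤ q (2 * (i + 1))
      · exfalso
        refine key (i + 1) hr ?_ ?_
        · rw [abs_of_nonneg (by linarith)]
          linarith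
        · have := h.fr.qa (i := 2 * (i + 1)) (j := 2 * (i + 1) + 1) (by omega) (by omega)
          linarith
      · push Not at h4
        exact ⟨i, hr, h2 _ (by omega), h1, h4⟩
    · subst hr
      exfalso
      have hr : r < ℓ := by omega
      refine key r hr ?_ h1
      have a1 := h2 (2 * r) (by omega)
      have a2 := h.fr.qa (i := 0) (j := 2 * r) (Nat.zero_le _) (by omega)
      rw [abs_le]
      constructor <;> linarith

/-- case 3 with small `p_0`: the structure `E1` -/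
theorem Ctx.case3a (hn : 2 * k - 1 ≤ (Rl.card : ℤ)) (hnv : ¬ Val B θ) (hpq : p 0 ≤ q 0)
    (hp : p 0 < q 0 - θ + 2) (hD : ∀ l < ℓ, q (2 * l) - q (2 * l + 1) ≤ θ - 2)
    (hA : 2 * θ < AA q ℓ + AA p ℓ) : False := by
  have hl := h.fr.l2
  have hqθ := h.top hnv hpq
  have hθ0 := h.θ0
  have hq : 0 < q 0 := by linarith
  have hy2 := h.y2 hn hq
  have hA0 := h.fr.qA0
  have hA1 := h.fr.pA0
  have hp0 := h.fr.pn (i := 0) (by omega)
  classical
  have hex : ∃ l, l < ℓ ∧ q (2 * l + 1) ≤ p 0 := ⟨ℓ - 1, by omega, by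
    have := h.fr.qend
    rw [show 2 * (ℓ - 1) + 1 = 2 * ℓ - 1 by omega, this]
    exact hp0⟩
  obtain ⟨l, ⟨hl1, h1⟩, h2⟩ : ∃ l, (l < ℓ ∧ q (2 * l + 1) ≤ p 0) ∧
      ∀ m < l, p 0 < q (2 * m + 1) := by
    refine ⟨Nat.find hex, Nat.find_spec hex, fun m hm => ?_⟩
    have h3 := Nat.find_min hex hm
    push Not at h3
    exact h3 (by have := (Nat.find_spec hex).1; omega)
  have hK0 : 0 ≤ θ - 2 := by linarith
  have he : ∀ i, i + 1 < ℓ → q (2 * i + 1) - q (2 * i + 2) ≤ θ - 2 := by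
    intro i hi
    have := h.fr.qeT (i := 0) (l := i) (by omega) hi
    simp only [Nat.mul_zero, AA_zero, sub_zero] at this
    linarith
  have he' : ∀ i, i + 1 < ℓ → p (2 * i + 1) - p (2 * i + 2) ≤ θ - 2 := by
    intro i hi
    have := h.fr.peT (i := 0) (l := i) (by omega) hi
    simp only [Nat.mul_zero, AA_zero, sub_zero] at this
    linarith
  have hAl := h.fr.qE (i := 0) (j := l) (by omega) hl1
  simp only [Nat.mul_zero, AA_zero, sub_zero] at hAl
  have hDl := hD l hl1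
  have habs : |q (2 * l) - p 0| ≤ θ - 2 ∧
      |q (2 * l) - p 0| + AA q l + (q (2 * l) - (AA q ℓ - AA q l)) + (p 0 - AA p ℓ) ≤
        2 * q 0 - AA q ℓ - AA p ℓ := by
    rcases le_total (p 0) (q (2 * l)) with h3 | h3
    · rw [abs_of_nonneg (by linarith)]
      constructor <;> linarith
    · rw [abs_of_nonpos (by linarith)]
      by_cases hl0 : l = 0
      · subst hl0
        simp only [Nat.mul_zero] at *
        simp only [AA_zero] at *
        constructor <;> linarith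
      · obtain ⟨m, rfl⟩ : ∃ m, l = m + 1 := ⟨l - 1, by omega⟩
        have a1 := h2 m (by omega)
        have a2 := he m (by omega)
        have a3 := h.fr.qE (i := 0) (j := m) (by omega) (by omega)
        simp only [Nat.mul_zero, AA_zero, sub_zero] at a3
        have a4 := AA_succ q m
        have a5 : q (2 * (m + 1)) = q (2 * m + 2) := by ring_nf
        constructor <;> linarith
  have g := h.fr.sE1 hK0 l hl1 habs.1 (fun i hi => hD i (by omega)) (fun i _ hi => he i hi) he'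
  refine hnv (g.mono ?_)
  have c1 := h.MM2 (uq (2 * l)) (up 0)
  have : max (θ - 2) ((|q (2 * l) - p 0| + AA q l + (q (2 * l) - (AA q ℓ - AA q l)) +
      (p 0 - AA p ℓ)) / 2) ≤ θ - 2 := by
    refine max_le le_rfl ?_
    have := habs.2
    linarith
  linarith

/-- numerical facts in case 3b -/
theorem Ctx.case3b (hn : 2 * k - 1 ≤ (Rl.card : ℤ)) (hnv : ¬ Val B θ) (hpq : p 0 ≤ q 0)
    (hA : 2 * θ < AA q ℓ + AA p ℓ) {j : ℕ} (hj : j + 1 < ℓ)
    (hE : θ - MM B (uq 0) (up 0) < p (2 * j + 1) - p (2 * j + 2)) :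
    q 0 + MM B (uq 0) (up 0) + 2 ≤ 2 * θ ∧ 3 < 2 * θ - Rl.card + 1 ∧
      ∃ l < ℓ, θ - (MM B (uq 0) (up 0) + 2) < q (2 * l) ∧
        q (2 * l + 1) ≤ θ - (MM B (uq 0) (up 0) + 2) ∧
        q (2 * l + 1) < p (2 * j + 1) - p (2 * j + 2) - θ + (MM B (uq 0) (up 0) + 2) := by
  have hl := h.fr.l2
  have hqθ := h.top hnv hpq
  have hθ0 := h.θ0
  have hq : 0 < q 0 := by linarith
  have hy2 := h.y2 hn hq
  have hA0 := h.fr.qA0
  have hA1 := h.fr.pA0
  have hM2 := h.MM2 (uq 0) (up 0)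
  have hM0 := h.MM0 (uq 0) (up 0)
  have hEt := h.fr.peT (i := 0) (l := j) (by omega) hj
  simp only [Nat.mul_zero, AA_zero, sub_zero] at hEt
  have hpp : 0 < p 0 := by linarith
  have hZ3 := h.Z3 hn hq hpp hpq (by linarith)
  obtain ⟨z1, z2, z3⟩ := h.Z1 hn hq (by linarith) hpp
  set MB : ℝ := ((MM B (uq 0) (up 0) : ℤ) : ℝ) with hMB
  refine ⟨z1, hZ3, ?_⟩
  have hK0 : 0 ≤ θ - (MB + 2) := by linarith
  -- the structure H
  have key : ∀ l, l < ℓ →
      |p (2 * j + 1) - p (2 * j + 2) - q (2 * l + 1)| ≤ θ - (MB + 2) →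
      q (2 * l + 2) ≤ θ - (MB + 2) ∨ 2 * l + 2 = 2 * ℓ → False := by
    intro l hl1 h4 h5
    have h6 : AA q ℓ - AA q (l + 1) ≤ θ - (MB + 2) := by
      rcases h5 with h5 | h5
      · by_cases h7 : l + 1 < ℓ
        · have := h.fr.qT h7
          rw [show 2 * (l + 1) = 2 * l + 2 by ring] at this
          linarith
        · have e : l + 1 = ℓ := by omega
          rw [e]; linarith
      · have e : l + 1 = ℓ := by omega
        rw [e]; linarith
    have g1 := h.fr.sH hK0 j l hj hl1 (by rw [abs_of_nonneg (by linarith)]; linarith) h4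
      (fun i hi => by
        have := h.fr.qeT (i := 0) (l := i) (by omega) (by omega)
        simp only [Nat.mul_zero, AA_zero, sub_zero] at this
        linarith) (fun i hi1 hi2 => by
        have := h.fr.qgA (i := l + 1) (l := i) (j := ℓ) (by omega) hi1 le_rfl
        linarith) (fun i hi1 hi2 => by
        have := h.fr.peT2 hi2 hi1 hj
        linarith)
    refine hnv (g1.mono ?_)
    have c1 := h.MM2 (up (2 * j + 1)) (uq (2 * l + 1))
    have c2 := h.MM0 (up (2 * j + 1)) (up (2 * j + 2))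
    have c3 := h.MM0 (up (2 * j + 2)) (uq (2 * l + 1))
    have c4 := AA_succ q l
    have c5 := h.fr.qT hl1
    push_cast
    rw [← hMB]
    have : max (θ - (MB + 2)) ((|q 0 - p 0| + |p (2 * j + 1) - p (2 * j + 2) - q (2 * l + 1)| +
        (q 0 - q (2 * l) - AA q l) + (AA q ℓ - AA q (l + 1)) +
        (p 0 - AA p ℓ - (p (2 * j + 1) - p (2 * j + 2)))) / 2) ≤ θ - (MB + 2) := by
      refine max_le le_rfl ?_
      rw [abs_of_nonneg (show 0 ≤ q 0 - p 0 by linarith)]
      rcases le_total (q (2 * l + 1)) (p (2 * j + 1) - p (2 * j + 2)) with h6 | h6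
      · rw [abs_of_nonneg (by linarith)]
        linarith
      · rw [abs_of_nonpos (by linarith)]
        linarith
    linarith
  obtain ⟨i0, hi0, h1, h2⟩ := h.fr.qfirst hK0
  have h20 := h2 0
  rcases Nat.even_or_odd' i0 with ⟨r, hr | hr⟩
  · subst hr
    exfalso
    have hr : r < ℓ := by omega
    have hr0 : r ≠ 0 := by
      rintro rfl
      rw [Nat.mul_zero] at h1
      linarith
    obtain ⟨l, rfl⟩ : ∃ i, r = i + 1 := ⟨r - 1, by omega⟩
    have a1 := h2 (2 * l + 1) (by omega)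
    rw [show 2 * (l + 1) = 2 * l + 2 by ring] at h1
    refine key l (by omega) ?_ (Or.inl h1)
    have a2 := h.fr.qT (i := l + 1) hr
    have a3 := h.fr.qE (i := 0) (j := l) (by omega) (by omega)
    have a4 := AA_succ q l
    simp only [Nat.mul_zero, AA_zero, sub_zero] at a3
    rw [show 2 * (l + 1) = 2 * l + 2 by ring] at a2
    rw [abs_le]
    constructor <;> linarith
  · subst hr
    have hr : r < ℓ := by omega
    by_cases h4 : p (2 * j + 1) - p (2 * j + 2) - θ + (MB + 2) ≤ q (2 * r + 1)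
    · exfalso
      refine key r hr ?_ ?_
      · rw [abs_le]
        constructor <;> linarith
      · by_cases h7 : r + 1 < ℓ
        · left
          have := h.fr.qa (i := 2 * r + 1) (j := 2 * r + 2) (by omega) (by omega)
          linarith
        · right
          omega
    · push Not at h4
      exact ⟨r, hr, h2 _ (by omega), h1, h4⟩

/-- numerical facts in case 3c -/
theorem Ctx.case3c (hn : 2 * k - 1 ≤ (Rl.card : ℤ)) (hnv : ¬ Val B θ) (hpq : p 0 ≤ q 0)
    (hA : 2 * θ < AA q ℓ + AA p ℓ) {j : ℕ} (hj : j + 1 < ℓ)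
    (hE : θ - MM B (uq 0) (up 0) < q (2 * j + 1) - q (2 * j + 2)) :
    q 0 + MM B (uq 0) (up 0) + 2 ≤ 2 * θ ∧ 3 < 2 * θ - Rl.card + 1 ∧ θ < p 0 ∧
      ∃ l < ℓ, θ - (MM B (uq 0) (up 0) + 2) < p (2 * l) ∧
        p (2 * l + 1) ≤ θ - (MM B (uq 0) (up 0) + 2) ∧
        p (2 * l + 1) < q (2 * j + 1) - q (2 * j + 2) - θ + (MM B (uq 0) (up 0) + 2) := by
  have hl := h.fr.l2
  have hqθ := h.top hnv hpq
  have hθ0 := h.θ0
  have hq : 0 < q 0 := by linarith
  have hy2 := h.y2 hn hq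
  have hA0 := h.fr.qA0
  have hA1 := h.fr.pA0
  have hM2 := h.MM2 (uq 0) (up 0)
  have hM0 := h.MM0 (uq 0) (up 0)
  have hEt := h.fr.qeT (i := 0) (l := j) (by omega) hj
  simp only [Nat.mul_zero, AA_zero, sub_zero] at hEt
  have hpp : 0 < p 0 := by linarith
  have hZ3 := h.Z3 hn hq hpp hpq (by linarith)
  obtain ⟨z1, z2, z3⟩ := h.Z1 hn hq (by linarith) hpp
  set MB : ℝ := ((MM B (uq 0) (up 0) : ℤ) : ℝ) with hMB
  refine ⟨z1, hZ3, by linarith, ?_⟩
  have hK0 : 0 ≤ θ - (MB + 2) := by linarith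
  -- the structure H
  have key : ∀ l, l < ℓ →
      |q (2 * j + 1) - q (2 * j + 2) - p (2 * l + 1)| ≤ θ - (MB + 2) →
      p (2 * l + 2) ≤ θ - (MB + 2) ∨ 2 * l + 2 = 2 * ℓ → False := by
    intro l hl1 h4 h5
    have h6 : AA p ℓ - AA p (l + 1) ≤ θ - (MB + 2) := by
      rcases h5 with h5 | h5
      · by_cases h7 : l + 1 < ℓ
        · have := h.fr.pT h7
          rw [show 2 * (l + 1) = 2 * l + 2 by ring] at this
          linarith
        · have e : l + 1 = ℓ := by omega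
          rw [e]; linarith
      · have e : l + 1 = ℓ := by omega
        rw [e]; linarith
    have g1 := h.fr.sHQ hK0 j l hj hl1 (by rw [abs_of_nonneg (by linarith)]; linarith) h4
      (fun i hi => by
        have := h.fr.peT (i := 0) (l := i) (by omega) (by omega)
        simp only [Nat.mul_zero, AA_zero, sub_zero] at this
        linarith) (fun i hi1 hi2 => by
        have := h.fr.pgA (i := l + 1) (l := i) (j := ℓ) (by omega) hi1 le_rfl
        linarith) (fun i hi1 hi2 => by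
        have := h.fr.qeT2 hi2 hi1 hj
        linarith)
    refine hnv (g1.mono ?_)
    have c1 := h.MM2 (uq (2 * j + 1)) (up (2 * l + 1))
    have c2 := h.MM0 (uq (2 * j + 1)) (uq (2 * j + 2))
    have c3 := h.MM0 (uq (2 * j + 2)) (up (2 * l + 1))
    have c4 := AA_succ p l
    have c5 := h.fr.pT hl1
    push_cast
    rw [← hMB]
    have : max (θ - (MB + 2)) ((|q 0 - p 0| + |q (2 * j + 1) - q (2 * j + 2) - p (2 * l + 1)| +
        (p 0 - p (2 * l) - AA p l) + (AA p ℓ - AA p (l + 1)) +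
        (q 0 - AA q ℓ - (q (2 * j + 1) - q (2 * j + 2)))) / 2) ≤ θ - (MB + 2) := by
      refine max_le le_rfl ?_
      rw [abs_of_nonneg (show 0 ≤ q 0 - p 0 by linarith)]
      rcases le_total (p (2 * l + 1)) (q (2 * j + 1) - q (2 * j + 2)) with h6 | h6
      · rw [abs_of_nonneg (by linarith)]
        linarith
      · rw [abs_of_nonpos (by linarith)]
        linarith
    linarith
  obtain ⟨i0, hi0, h1, h2⟩ := h.fr.pfirst hK0
  rcases Nat.even_or_odd' i0 with ⟨r, hr | hr⟩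
  · subst hr
    exfalso
    have hr : r < ℓ := by omega
    have hr0 : r ≠ 0 := by
      rintro rfl
      rw [Nat.mul_zero] at h1
      linarith
    obtain ⟨l, rfl⟩ : ∃ i, r = i + 1 := ⟨r - 1, by omega⟩
    have a1 := h2 (2 * l + 1) (by omega)
    rw [show 2 * (l + 1) = 2 * l + 2 by ring] at h1
    refine key l (by omega) ?_ (Or.inl h1)
    have a2 := h.fr.pT (i := l + 1) hr
    have a3 := h.fr.pE (i := 0) (j := l) (by omega) (by omega)
    have a4 := AA_succ p l
    simp only [Nat.mul_zero, AA_zero, sub_zero] at a3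
    rw [show 2 * (l + 1) = 2 * l + 2 by ring] at a2
    rw [abs_le]
    constructor <;> linarith
  · subst hr
    have hr : r < ℓ := by omega
    by_cases h4 : q (2 * j + 1) - q (2 * j + 2) - θ + (MB + 2) ≤ p (2 * r + 1)
    · exfalso
      refine key r hr ?_ ?_
      · rw [abs_le]
        constructor <;> linarith
      · by_cases h7 : r + 1 < ℓ
        · left
          have := h.fr.pa (i := 2 * r + 1) (j := 2 * r + 2) (by omega) (by omega)
          linarith
        · right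
          omega
    · push Not at h4
      exact ⟨r, hr, h2 _ (by omega), h1, h4⟩

end tree

end Pool.Agent.Exact
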