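import Pool.Agent.Lib_helper23.Exact.Tree

/-!
# The decision tree for `n ≥ 2k-1`
-/

set_option autoImplicit false
set_option linter.unusedSectionVars false

namespace Pool.Agent.Exact

open Finset

variable {V : Type*} [Fintype V] [DecidableEq V]
variable {B : V → V → ℤ} {Rl : Finset V} {ℓ nQ nP : ℕ} {uq up : ℕ → V} {q p : ℕ → ℝ}
variable {k : ℤ} {θ : ℝ}

/-- the leaves of the tree (`n ≥ 2k-1`); in the leaf `c2` the cost of the alignment may be changed
later -/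
inductive Leaf (B : V → V → ℤ) (n : ℝ) (ℓ : ℕ) (uq up : ℕ → V) (q p : ℕ → ℝ) (θ : ℝ) : Prop
  | L1 (i : ℕ) (hi : i < ℓ) (hD : θ - 2 < q (2 * i) - q (2 * i + 1)) (hp : p 0 < q 0 - θ + 2) :
      Leaf B n ℓ uq up q p θ
  | c1a (i j : ℕ) (hi : i < ℓ) (hj : j + 1 < ℓ) (hp : q 0 - θ + 2 ≤ p 0)
      (hD : θ < q (2 * i) - q (2 * i + 1)) (hE : θ - 2 < p (2 * j + 1) - p (2 * j + 2)) :
      Leaf B n ℓ uq up q p θ
  | c1c (i r : ℕ) (hi : i < ℓ) (hr : r < ℓ) (hp : q 0 - θ + 2 ≤ p 0)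
      (hD : θ < q (2 * i) - q (2 * i + 1))
      (hA : AA q ℓ + AA p ℓ < 2 * (q 0 - θ) + 2 * MM B (uq 0) (up 0))
      (hh : ∀ l < r, θ < p (2 * l + 1)) (hp1 : p (2 * r) ≤ θ)
      (hp2 : p (2 * r) < q (2 * i) - q (2 * i + 1) - θ + 2) : Leaf B n ℓ uq up q p θ
  | c2 (j : ℕ) (hj : j < ℓ) (hpq : p 0 ≤ q 0 - 1) (hQ : ∀ l < ℓ, q (2 * l) - q (2 * l + 1) ≤ θ)
      (hD : θ < p (2 * j) - p (2 * j + 1)) : Leaf B n ℓ uq up q p θ
  | c3b (j l : ℕ) (hj : j + 1 < ℓ) (hl : l < ℓ) (hlam : 3 < 2 * θ - n + 1)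
      (hz : q 0 + MM B (uq 0) (up 0) + 2 ≤ 2 * θ)
      (hQ : ∀ l < ℓ, q (2 * l) - q (2 * l + 1) ≤ θ)
      (hP : ∀ l < ℓ, p (2 * l) - p (2 * l + 1) ≤ θ)
      (hA : 2 * θ < AA q ℓ + AA p ℓ)
      (hE : θ - MM B (uq 0) (up 0) < p (2 * j + 1) - p (2 * j + 2))
      (h1 : θ - (MM B (uq 0) (up 0) + 2) < q (2 * l))
      (h2 : q (2 * l + 1) ≤ θ - (MM B (uq 0) (up 0) + 2))
      (h3 : q (2 * l + 1) < p (2 * j + 1) - p (2 * j + 2) - θ + (MM B (uq 0) (up 0) + 2)) :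
      Leaf B n ℓ uq up q p θ
  | c3c (i l : ℕ) (hi : i + 1 < ℓ) (hl : l < ℓ) (hlam : 3 < 2 * θ - n + 1)
      (hz : q 0 + MM B (uq 0) (up 0) + 2 ≤ 2 * θ) (hp0 : θ < p 0)
      (hQ : ∀ l < ℓ, q (2 * l) - q (2 * l + 1) ≤ θ)
      (hP : ∀ l < ℓ, p (2 * l) - p (2 * l + 1) ≤ θ)
      (hA : 2 * θ < AA q ℓ + AA p ℓ)
      (hE : θ - MM B (uq 0) (up 0) < q (2 * i + 1) - q (2 * i + 2))
      (h1 : θ - (MM B (uq 0) (up 0) + 2) < p (2 * l))
      (h2 : p (2 * l + 1) ≤ θ - (MM B (uq 0) (up 0) + 2))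
      (h3 : p (2 * l + 1) < q (2 * i + 1) - q (2 * i + 2) - θ + (MM B (uq 0) (up 0) + 2)) :
      Leaf B n ℓ uq up q p θ

/-- **The decision tree.** `hw` can be achieved by exchanging the types. -/
theorem Ctx.tree (h : Ctx B Rl ℓ nQ nP uq up q p k θ) (hn : 2 * k - 1 ≤ (Rl.card : ℤ))
    (hnv : ¬ Val B θ) (hpq : p 0 ≤ q 0)
    (hw : (∃ j < ℓ, θ < p (2 * j) - p (2 * j + 1)) → (∃ i < ℓ, θ < q (2 * i) - q (2 * i + 1)) ∨
      p 0 ≤ q 0 - 1) : Leaf B Rl.card ℓ uq up q p θ := by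
  have hl := h.fr.l2
  have hqθ := h.top hnv hpq
  have hθ0 := h.θ0
  have hq : 0 < q 0 := by linarith
  have hy2 := h.y2 hn hq
  by_cases hp : p 0 < q 0 - θ + 2
  · by_cases hD : ∃ i < ℓ, θ - 2 < q (2 * i) - q (2 * i + 1)
    · obtain ⟨i, hi, hD⟩ := hD
      exact Leaf.L1 i hi hD hp
    · exfalso
      push Not at hD
      refine h.case3a hn hnv hpq hp hD ?_
      rcases h.fr.failA hθ0 hnv with ⟨l, hl', h1⟩ | ⟨l, hl', h1⟩ | h1
      · have := hD l hl'
        linarith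
      · have := h.fr.pD hl'
        have := h.fr.pA0
        linarith
      · exact h1
  · push Not at hp
    by_cases hD : ∃ i < ℓ, θ < q (2 * i) - q (2 * i + 1)
    · obtain ⟨i, hi, hD⟩ := hD
      rcases h.case1 hn hnv hpq hp hi hD with ⟨j, hj, hE⟩ | ⟨hA, r, hr, h1, h2, h3⟩
      · exact Leaf.c1a i j hi hj hp hD hE
      · exact Leaf.c1c i r hi hr hp hD hA h1 h2 h3
    · by_cases hD' : ∃ j < ℓ, θ < p (2 * j) - p (2 * j + 1)
      · rcases hw hD' with h1 | h1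
        · exact absurd h1 hD
        · push Not at hD
          obtain ⟨j, hj, hD'⟩ := hD'
          exact Leaf.c2 j hj h1 hD hD'
      · push Not at hD hD'
        have hA : 2 * θ < AA q ℓ + AA p ℓ := by
          rcases h.fr.failA hθ0 hnv with ⟨l, hl', h1⟩ | ⟨l, hl', h1⟩ | h1
          · exact absurd h1 (not_lt.2 (hD l hl'))
          · exact absurd h1 (not_lt.2 (hD' l hl'))
          · exact h1
        have hM2 := h.MM2 (uq 0) (up 0)
        rcases failB h.fr.bst hpq (by linarith) hnv with h1 | ⟨l, hl', h1⟩ | ⟨l, hl', h1⟩ | h1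
        · linarith
        · obtain ⟨z1, z2, z3, m, hm, z4, z5, z6⟩ := h.case3c hn hnv hpq hA hl' h1
          exact Leaf.c3c l m hl' hm z2 z1 z3 hD hD' hA h1 z4 z5 z6
        · obtain ⟨z1, z2, m, hm, z4, z5, z6⟩ := h.case3b hn hnv hpq hA hl' h1
          exact Leaf.c3b l m hl' hm z2 z1 hD hD' hA h1 z4 z5 z6
        · linarith

/-- the order of two vertices of the same weight may be exchanged -/
theorem Frame.swap01 (h : Frame B Rl ℓ nQ nP uq up q p) (he : q 0 = q 1) (h2 : 2 ≤ nQ) :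
    Frame B Rl ℓ nQ nP (uq ∘ Equiv.swap 0 1) up q p := by
  have hl := h.l2
  have hs : ∀ i, i < 2 * ℓ → Equiv.swap (0 : ℕ) 1 i < 2 * ℓ := by
    intro i hi
    rcases eq_or_ne i 0 with rfl | h0
    · rw [Equiv.swap_apply_left]; omega
    · rcases eq_or_ne i 1 with rfl | h1
      · rw [Equiv.swap_apply_right]; omega
      · rw [Equiv.swap_apply_of_ne_of_ne h0 h1]; exact hi
  have hq : ∀ i, q (Equiv.swap (0 : ℕ) 1 i) = q i := by
    intro i
    rcases eq_or_ne i 0 with rfl | h0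
    · rw [Equiv.swap_apply_left]; exact he.symm
    · rcases eq_or_ne i 1 with rfl | h1
      · rw [Equiv.swap_apply_right]; exact he
      · rw [Equiv.swap_apply_of_ne_of_ne h0 h1]
  have hnq : ∀ i, i < 2 * ℓ → (Equiv.swap (0 : ℕ) 1 i < nQ ↔ i < nQ) := by
    intro i hi
    rcases eq_or_ne i 0 with rfl | h0
    · rw [Equiv.swap_apply_left]; constructor <;> intro _ <;> omega
    · rcases eq_or_ne i 1 with rfl | h1
      · rw [Equiv.swap_apply_right]; constructor <;> intro _ <;> omega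
      · rw [Equiv.swap_apply_of_ne_of_ne h0 h1]
  have hs2 : ∀ i, Equiv.swap (0 : ℕ) 1 (Equiv.swap (0 : ℕ) 1 i) = i := fun i =>
    Equiv.swap_apply_self _ _ _
  constructor
  exact {
    B0 := h.sys.B0
    B1 := h.sys.B1
    Bd := h.sys.Bd
    dummy := h.sys.dummy
    chQ := {
      inj := fun i hi j hj e => by
        have := h.sys.chQ.inj _ (hs i hi) _ (hs j hj) e
        exact (Equiv.swap 0 1).injective this
      wt := Or.inl fun i hi => by
        rw [Function.comp_apply, h.sys.wtQ _ (hs i hi), hq]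
      anti := h.sys.chQ.anti
      nn := h.sys.chQ.nn }
    wtQ := fun i hi => by rw [Function.comp_apply, h.sys.wtQ _ (hs i hi), hq]
    chP := h.sys.chP
    wtP := h.sys.wtP
    disj := fun i hi j hj => h.sys.disj _ (hs i hi) j hj
    cover := fun v => by
      rcases h.sys.cover v with ⟨i, hi, e⟩ | h1
      · left
        exact ⟨Equiv.swap 0 1 i, hs i hi, by rw [Function.comp_apply, hs2]; exact e⟩
      · exact Or.inr h1
    realQ := fun i hi => by
      rw [Function.comp_apply, h.sys.realQ _ (hs i hi), hnq i hi]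
    realP := h.sys.realP
    card := h.sys.card
    big := h.sys.big }

/-- the second alignment of the structure B -/
theorem Ctx.bst01 (h : Ctx B Rl ℓ nQ nP uq up q p k θ) (he : q 0 = q 1) (hq : 0 < q 0) :
    BSt B ℓ q p (MM B (uq 1) (up 0)) := by
  have hl := h.fr.l2
  have h2 : 2 ≤ nQ := by
    have h1 := h.realQ0 (i := 1) (by omega) (by linarith)
    rw [h.fr.sys.realQ 1 (by omega)] at h1
    omega
  have h3 := (h.fr.swap01 he h2).bst
  simpa using h3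

end Pool.Agent.Exact
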